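import Mathlib

/-!
Definitions for the vanishing of the three-primary part over all fields with Galois closure of three-power degree,
for a positive proportion of the quadratic twists (MP_78d38b_T6, helper38; no row).
-/

set_option autoImplicit false
open scoped Classical

open IsDedekindDomain NumberField

namespace H38T6

/-- every nonzero element with all valuations divisible by three is a cube -/
def Cub (F : Type) [Field F] [NumberField F] : Prop :=
  ∀ y : F, y ≠ 0 → (∀ v : HeightOneSpectrum (𝓞 F), (3 : ℤ) ∣ WithZero.log (v.valuation F y)) →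
    ∃ z : F, y = z ^ 3

/-- `Cub` for the quadratic field of `D` -/
def CubD (D : ℤ) : Prop :=
  ∀ (F : Type) [Field F] [NumberField F] (s : F), s ^ 2 = (D : F) → Module.finrank ℚ F = 2 → Cub F

/-- arbitrarily close to a cube at the places above three -/
def LC3 {B : Type} [Field B] [NumberField B] (y : B) : Prop :=
  ∀ k : ℕ, ∃ z : B, ∀ W : HeightOneSpectrum (𝓞 B), (3 : 𝓞 B) ∈ W.asIdeal →
    W.valuation B (y * z ^ 3 - 1) ≤ WithZero.exp (-(k : ℤ))

/-- `q` does not split in the quadratic field of `D` (for `q` odd or `D` even) -/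
def NonSplit (q : ℕ) (D : ℤ) : Prop := ∀ t : ℤ, (q : ℤ) ∣ D - t ^ 2 → (q : ℤ) ∣ t

/-- `q` ramifies in `N` -/
def RamIn (q : ℕ) (N : Type) [Field N] [NumberField N] : Prop :=
  ∃ v : HeightOneSpectrum (𝓞 N), (q : 𝓞 N) ∈ v.asIdeal ^ 2

/-- the conditions on the twisted curve `y^2 = x^3 + D (α x + β)^2` -/
structure Dat (D α β : ℤ) : Prop where
  neg : D < 0
  sqf : Squarefree D
  even : D % 4 = 2
  three : D % 3 = 2
  hα : ¬ (3 : ℤ) ∣ α
  hβ : ¬ (3 : ℤ) ∣ β
  bad : ∀ q : ℕ, q.Prime → (q : ℤ) ∣ β * (27 * β - 4 * D * α ^ 3) → (q : ℤ) ∣ D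

/-- `C = N(s)`, `s^2 = δ`, over `B = K(s)`, `K ⊆ N`, `N` Galois over the rationals of degree `3^m`;
`κ` is the automorphism of `C` over `N` with `κ s = -s`. -/
structure Tow (m : ℕ) (δ : ℤ) (K N B C : Type) [Field K] [NumberField K] [Field N] [NumberField N]
    [Field B] [NumberField B] [Field C] [NumberField C] [Algebra K N] [Algebra K B] [Algebra K C]
    [Algebra N C] [Algebra B C] [IsScalarTower K N C] [IsScalarTower K B C] (s : B)
    (κ : C ≃ₐ[N] C) : Prop where
  galN : IsGalois ℚ N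
  galC : IsGalois ℚ C
  degN : Module.finrank ℚ N = 3 ^ m
  degC : Module.finrank ℚ C = 2 * 3 ^ m
  degB : Module.finrank K B = 2
  sq : s ^ 2 = (δ : B)
  neg : κ (algebraMap B C s) = -algebraMap B C s
  inv : ∀ x, κ (κ x) = x
  comm : ∀ (g : C ≃ₐ[ℚ] C) (x : C), g (κ x) = κ (g x)

/-- the discriminant of the cubic form `(a, 3 b, 3 c, d)` up to a factor -/
def Dl (a b c d : ℤ) : ℤ := 4 * (b ^ 2 - a * c) * (c ^ 2 - b * d) - (b * c - a * d) ^ 2

/-- a normalised form -/
def Frm (Δ a b c d : ℤ) : Prop :=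
  1 ≤ a ∧ 0 ≤ b ∧ b < a ∧ 3 * (b ^ 2 - a * c) ^ 2 ≤ Δ ∧ Dl a b c d = Δ

end H38T6
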