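import Mathlib
import Pool.Agent.H38.T6.Def0

/-!
Row Oc. (about 90 lines): conjugation and valuations in a quadratic extension, elementary.
conj_ram: if V (x) <> V (y s) then both sides are max (V x) (V (y s)) (Valuation.map_add_eq_of_lt_left, map_sub). If y = 0 or x = 0: clear (map_neg). If V x = V (y s) with y <> 0: V (x / y)^2 = V (s)^2 = V delta, against h (u := x / y).
conj_inert: V s = 1. If V x <> V y: as before. If V x = V y <> 0: u := x / y, V u = 1; x + y s = y (u + s), x - y s = y (u - s); V (u + s) <= 1, V (u - s) <= 1, V ((u + s)(u - s)) = V (u^2 - delta) >= 1, so both are 1.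
three_dvd_of_conj: V d' = V d: 2 log (V d) = 3 log (V y), so 3 | log (V d) (y <> 0 because d, d' are nonzero).
-/

set_option autoImplicit false
set_option linter.unusedSectionVars false
open scoped Classical

open IsDedekindDomain NumberField WithZero

namespace H38T6

private lemma Oc_ne {B : Type} [Field B] (V : Valuation B (WithZero (Multiplicative ℤ))) {a b : B}
    (h : V a ≠ V b) : V (a + b) = V (a - b) := by
  rw [sub_eq_add_neg, Valuation.map_add_of_distinct_val V h,
    Valuation.map_add_of_distinct_val V (by rwa [Valuation.map_neg]), Valuation.map_neg]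

theorem conj_ram {K B : Type} [Field K] [Field B] [Algebra K B]
    (V : Valuation B (WithZero (Multiplicative ℤ))) {s : B} {δ : K} (hs : s ^ 2 = algebraMap K B δ)
    (h : ∀ u : K, V (algebraMap K B u) ^ 2 ≠ V (algebraMap K B δ)) (x y : K) :
    V (algebraMap K B x + algebraMap K B y * s) = V (algebraMap K B x - algebraMap K B y * s) := by
  by_cases hy : y = 0
  · rw [hy, map_zero, zero_mul, add_zero, sub_zero]
  by_cases hV : V (algebraMap K B x) = V (algebraMap K B y * s)
  · exfalso
    apply h (x / y)
    have hb : V (algebraMap K B y) ≠ 0 := by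
      rw [Valuation.ne_zero_iff, map_ne_zero]
      exact hy
    rw [map_div₀, map_div₀, hV, map_mul, mul_div_cancel_left₀ _ hb, ← map_pow, hs]
  · exact Oc_ne V hV

theorem conj_inert {K B : Type} [Field K] [Field B] [Algebra K B]
    (V : Valuation B (WithZero (Multiplicative ℤ))) {s : B} {δ : K} (hs : s ^ 2 = algebraMap K B δ)
    (h1 : V s = 1) (h : ∀ u : K, V (algebraMap K B u) = 1 → 1 ≤ V (algebraMap K B (u ^ 2 - δ)))
    (x y : K) :
    V (algebraMap K B x + algebraMap K B y * s) = V (algebraMap K B x - algebraMap K B y * s) := by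
  by_cases hy : y = 0
  · rw [hy, map_zero, zero_mul, add_zero, sub_zero]
  by_cases hV : V (algebraMap K B x) = V (algebraMap K B y * s)
  · have hb0 : algebraMap K B y ≠ 0 := by
      rw [map_ne_zero]
      exact hy
    have hb : V (algebraMap K B y) ≠ 0 := by
      rw [Valuation.ne_zero_iff]
      exact hb0
    obtain ⟨u, hu⟩ : ∃ u : K, u = x / y := ⟨_, rfl⟩
    have hVu : V (algebraMap K B u) = 1 := by
      rw [hu, map_div₀, map_div₀, hV, map_mul, h1, mul_one, div_self hb]
    have hx : algebraMap K B x = algebraMap K B y * algebraMap K B u := by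
      rw [← map_mul, hu, mul_div_cancel₀ _ hy]
    have e1 : algebraMap K B x + algebraMap K B y * s = algebraMap K B y * (algebraMap K B u + s) := by
      rw [hx]; ring
    have e2 : algebraMap K B x - algebraMap K B y * s = algebraMap K B y * (algebraMap K B u - s) := by
      rw [hx]; ring
    have l1 : V (algebraMap K B u + s) ≤ 1 := by
      refine (V.map_add _ _).trans ?_
      rw [hVu, h1, max_self]
    have l2 : V (algebraMap K B u - s) ≤ 1 := by
      refine (V.map_sub _ _).trans ?_
      rw [hVu, h1, max_self]
    have hprod : 1 ≤ V (algebraMap K B u + s) * V (algebraMap K B u - s) := by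
      have e3 : (algebraMap K B u + s) * (algebraMap K B u - s) = algebraMap K B (u ^ 2 - δ) := by
        rw [map_sub, map_pow, ← hs]; ring
      rw [← map_mul, e3]
      exact h u hVu
    have m1 : V (algebraMap K B u + s) = 1 := by
      refine le_antisymm l1 (hprod.trans ?_)
      calc V (algebraMap K B u + s) * V (algebraMap K B u - s)
          ≤ V (algebraMap K B u + s) * 1 := mul_le_mul_right l2 _
        _ = V (algebraMap K B u + s) := mul_one _
    have m2 : V (algebraMap K B u - s) = 1 := by
      refine le_antisymm l2 (hprod.trans ?_)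
      rw [m1, one_mul]
    rw [e1, e2, map_mul, map_mul, m1, m2]
  · exact Oc_ne V hV

theorem three_dvd_of_conj {B : Type} [Field B] (V : Valuation B (WithZero (Multiplicative ℤ)))
    {d d' y : B} (hd : d ≠ 0) (hy : d' * d = y ^ 3) (hV : V d' = V d) : (3 : ℤ) ∣ log (V d) := by
  have h1 : V d ^ 2 = V y ^ 3 := by
    rw [← map_pow V y 3, ← hy, map_mul, hV, sq]
  have h2 := congrArg log h1
  rw [WithZero.log_pow, WithZero.log_pow, nsmul_eq_mul, nsmul_eq_mul] at h2
  push_cast at h2
  omega

end H38T6
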