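import Pool.Agent.H38.T6.Oa
import Pool.Agent.H38.T6.Oc

/-!
Row Ba. (about 190 lines): rational approximations of a root. x0 := p + q t, conj x0 := p - q t.
v a place of F over 3 (exists). v(t)^2 = v(3) v(D) = v(3) (3 does not divide D). v(3) = exp (-e) with e even, 1 <= e <= 2 (val_below over Q: e <= 2), so e = 2, and v (x) = exp (-2 ord) for rational x <> 0, ord = padicValRat 3 x. conj_ram (K := Q): v (x + y t) = v (x - y t) (x, y rational): v(u)^2 <> v(-3 D) as the logs are -4 ord u and -2.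
Let k' be large, z from LC3 at k' (z = z1 + z2 t with rational z1, z2, as F has degree two and t is not rational). v (x0 z^3 - 1) <= exp (-k') < 1, so v (x0 z^3) = 1, and the conjugate: v (conj x0 (conj z)^3 - 1) <= exp (-k'). n := z conj z = z1^2 + 3 D z2^2 rational. eta := c n: eta^3 = c^3 n^3 = x0 z^3 conj(x0 z^3), so v (eta^3 - 1) <= exp (-k'), v eta = 1.
 (eta - 1)(eta^2 + eta + 1) and 4 (eta^2 + eta + 1) = X^2 + 3, X = 2 eta + 1 rational and 3-integral: ord (X^2 + 3) <= 1 (3 not | X: 0; 3 | X: X^2 + 3 = 3 mod 9). So v (eta - 1) <= exp (-k' + 2).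
 r := 2 z1 / n = 1/z + 1/conj z. r^3 = 1/z^3 + 1/(conj z)^3 + (3 / n) r. So r^3 - 3 c r - 2 p = (1/z^3 - x0) + (1/(conj z)^3 - conj x0) + 3 (1/n - c) r.
 v (1/z^3 - x0) = v x0 v (1 - x0 z^3) (v (x0 z^3) = 1) <= v x0 exp (-k'); the same for the conjugate; 1/n - c = c (1 - eta)/eta; v r <= v (1/z), v(1/z)^3 = v x0. All bounded by a constant times exp (-k'); for k' large v (g(r)) <= exp (-2 k), padicNorm 3 (g(r)) <= 3^-k.
-/

set_option autoImplicit false
set_option linter.unusedSectionVars false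
open scoped Classical

open IsDedekindDomain NumberField WithZero

namespace H38T6

theorem Ba_place {C : Type} [Field C] [NumberField C] :
    ∃ w : HeightOneSpectrum (𝓞 C), (3 : 𝓞 C) ∈ w.asIdeal := by
  have hu : ¬ IsUnit ((3 : ℕ) : 𝓞 C) := by
    intro h
    have h1 := h.map (Algebra.norm ℤ)
    rw [← Int.cast_natCast, ← eq_intCast (algebraMap ℤ (𝓞 C)), Algebra.norm_algebraMap,
      isUnit_pow_iff Module.finrank_pos.ne', Int.isUnit_iff] at h1
    omega
  obtain ⟨M, hM, hle⟩ := Ideal.exists_le_maximal (Ideal.span {((3 : ℕ) : 𝓞 C)})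
    (by rwa [Ne, Ideal.span_singleton_eq_top])
  have hqM : ((3 : ℕ) : 𝓞 C) ∈ M := hle (Ideal.mem_span_singleton_self _)
  have hb : M ≠ ⊥ := by
    rintro rfl
    rw [Ideal.mem_bot, Nat.cast_eq_zero] at hqM
    omega
  refine ⟨⟨M, hM.isPrime, hb⟩, ?_⟩
  rw [Nat.cast_ofNat] at hqM
  exact hqM

theorem Ba_unit {F : Type} [Field F] (V : Valuation F (WithZero (Multiplicative ℤ)))
    (hint : ∀ n : ℤ, V (n : F) ≤ 1) (h3 : V 3 < 1) {n : ℕ} (hn : ¬ 3 ∣ n) : V (n : F) = 1 := by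
  have h0 := hint n
  rw [Int.cast_natCast] at h0
  apply le_antisymm h0
  by_contra hlt
  rw [not_le] at hlt
  have hco : Nat.Coprime 3 n := (Nat.Prime.coprime_iff_not_dvd Nat.prime_three).2 hn
  have hb := Int.gcd_eq_gcd_ab (3 : ℤ) (n : ℤ)
  have hg : Int.gcd 3 (n : ℤ) = 1 := by
    have h1 : Int.gcd ((3 : ℕ) : ℤ) (n : ℤ) = Nat.gcd 3 n := Int.gcd_natCast_natCast 3 n
    rw [Nat.cast_ofNat] at h1
    rw [h1]
    exact hco
  rw [hg] at hb
  have h1 : (1 : F) = 3 * ((Int.gcdA 3 n : ℤ) : F) + (n : F) * ((Int.gcdB 3 n : ℤ) : F) := by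
    have h2 := congrArg (fun z : ℤ => (z : F)) hb
    push_cast at h2
    exact h2
  have h2 : V (1 : F) < 1 := by
    rw [h1]
    apply Valuation.map_add_lt
    · rw [map_mul]
      exact lt_of_le_of_lt (mul_le_of_le_one_right' (hint _)) h3
    · rw [map_mul]
      exact lt_of_le_of_lt (mul_le_of_le_one_right' (hint _)) hlt
  rw [map_one] at h2
  exact lt_irrefl _ h2

theorem Ba_nat {F : Type} [Field F] [CharZero F] (V : Valuation F (WithZero (Multiplicative ℤ)))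
    (hint : ∀ n : ℤ, V (n : F) ≤ 1) {E : ℤ} (hE : 1 ≤ E) (h3 : V 3 = exp (-E)) {n : ℕ}
    (hn : n ≠ 0) : log (V (n : F)) = -(E * padicValNat 3 n) := by
  have h3' : V 3 < 1 := by
    rw [h3, ← exp_zero, exp_lt_exp]
    omega
  obtain ⟨e, m, hm, hem⟩ := Nat.exists_eq_pow_mul_and_not_dvd hn 3 (by norm_num)
  have hm0 : m ≠ 0 := by
    rintro rfl
    exact hm (dvd_zero _)
  have hv : padicValNat 3 n = e := by
    haveI : Fact (Nat.Prime 3) := ⟨Nat.prime_three⟩
    rw [hem, padicValNat.mul (pow_ne_zero _ (by norm_num)) hm0, padicValNat.prime_pow,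
      padicValNat.eq_zero_of_not_dvd hm, add_zero]
  rw [hv, hem]
  push_cast
  rw [map_mul, map_pow, Ba_unit V hint h3' hm, mul_one, log_pow, h3, log_exp, nsmul_eq_mul]
  ring

theorem Ba_val {F : Type} [Field F] [NumberField F] (V : Valuation F (WithZero (Multiplicative ℤ)))
    (hint : ∀ n : ℤ, V (n : F) ≤ 1) {E : ℤ} (hE : 1 ≤ E) (h3 : V 3 = exp (-E)) {x : ℚ}
    (hx : x ≠ 0) : V (algebraMap ℚ F x) = exp (-(E * padicValRat 3 x)) := by
  have hn0 : x.num.natAbs ≠ 0 := Int.natAbs_ne_zero.2 (Rat.num_ne_zero.2 hx)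
  have hd0 : x.den ≠ 0 := x.den_nz
  have hnF : (x.num.natAbs : F) ≠ 0 := Nat.cast_ne_zero.2 hn0
  have hdF : (x.den : F) ≠ 0 := Nat.cast_ne_zero.2 hd0
  have e1 : V (algebraMap ℚ F x) = V (x.num.natAbs : F) / V (x.den : F) := by
    have h1 : algebraMap ℚ F x = (x.num : F) / (x.den : F) := by
      rw [eq_ratCast, Rat.cast_def]
    rw [h1, map_div₀]
    congr 1
    rcases Int.natAbs_eq x.num with h2 | h2
    · rw [h2, Int.cast_natCast, Int.natAbs_natCast]
    · have h4 : (x.num : F) = -(x.num.natAbs : F) := by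
        conv_lhs => rw [h2]
        rw [Int.cast_neg, Int.cast_natCast]
      rw [h4, Valuation.map_neg]
  have hne : V (algebraMap ℚ F x) ≠ 0 := by
    rw [Valuation.ne_zero_iff]
    exact (map_ne_zero_iff _ (algebraMap ℚ F).injective).2 hx
  rw [← exp_log hne, exp_inj, e1, log_div ((Valuation.ne_zero_iff V).2 hnF)
    ((Valuation.ne_zero_iff V).2 hdF), Ba_nat V hint hE h3 hn0, Ba_nat V hint hE h3 hd0]
  unfold padicValRat padicValInt
  ring

theorem Ba_coord {F : Type} [Field F] [NumberField F] (hF : Module.finrank ℚ F = 2) {t : F}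
    (ht : ∀ r : ℚ, t ≠ algebraMap ℚ F r) (z : F) :
    ∃ z1 z2 : ℚ, z = algebraMap ℚ F z1 + algebraMap ℚ F z2 * t := by
  have hli : LinearIndependent ℚ ![(1 : F), t] := by
    rw [LinearIndependent.pair_iff]
    intro a b hab
    rw [Algebra.smul_def, Algebra.smul_def, mul_one] at hab
    have hb : b = 0 := by
      by_contra hb
      apply ht (-a / b)
      have hb' : algebraMap ℚ F b ≠ 0 := (map_ne_zero_iff _ (algebraMap ℚ F).injective).2 hb
      rw [map_div₀, map_neg, eq_div_iff hb']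
      linear_combination hab
    subst hb
    refine ⟨?_, rfl⟩
    rw [map_zero, zero_mul, add_zero] at hab
    exact (map_eq_zero_iff _ (algebraMap ℚ F).injective).1 hab
  have hsp := hli.span_eq_top_of_card_eq_finrank (by rw [hF]; rfl)
  have hz : z ∈ Submodule.span ℚ (Set.range ![(1 : F), t]) := by
    rw [hsp]
    exact Submodule.mem_top
  rw [Matrix.range_cons, Matrix.range_cons, Matrix.range_empty, Set.union_empty,
    Set.singleton_union, Submodule.mem_span_pair] at hz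
  obtain ⟨a, b, hab⟩ := hz
  refine ⟨a, b, ?_⟩
  rw [← hab, Algebra.smul_def, Algebra.smul_def, mul_one]

theorem Ba_main {D : ℤ} {F : Type} [Field F] [NumberField F] {t : F} (ht : t ^ 2 = -3 * (D : F))
    (V : Valuation F (WithZero (Multiplicative ℤ))) {E : ℤ} (hE : 1 ≤ E) (hV3 : V 3 = exp (-E))
    (hV : ∀ x : ℚ, x ≠ 0 → V (algebraMap ℚ F x) = exp (-(E * padicValRat 3 x)))
    (hconj : ∀ x y : ℚ, V (algebraMap ℚ F x + algebraMap ℚ F y * t) =
      V (algebraMap ℚ F x - algebraMap ℚ F y * t))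
    {p q c : ℚ} (hc : p ^ 2 + 3 * D * q ^ 2 = c ^ 3)
    (hne : algebraMap ℚ F p + algebraMap ℚ F q * t ≠ 0)
    (z1 z2 : ℚ) {k' : ℤ} (hz : V ((algebraMap ℚ F p + algebraMap ℚ F q * t) *
      (algebraMap ℚ F z1 + algebraMap ℚ F z2 * t) ^ 3 - 1) ≤ exp (-k')) (hk' : 1 ≤ k')
    {M : ℤ} (hM0 : 0 ≤ M) (hM : V (algebraMap ℚ F p + algebraMap ℚ F q * t) ≤ exp M)
    (hMc : V (algebraMap ℚ F c) ≤ exp M) :
    V (algebraMap ℚ F ((2 * z1 / (z1 ^ 2 + 3 * D * z2 ^ 2)) ^ 3 -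
      3 * c * (2 * z1 / (z1 ^ 2 + 3 * D * z2 ^ 2)) - 2 * p)) ≤ exp (-k' + E + 2 * M) := by
  obtain ⟨P, hP⟩ : ∃ P, P = algebraMap ℚ F p := ⟨_, rfl⟩
  obtain ⟨Q, hQ⟩ : ∃ Q, Q = algebraMap ℚ F q := ⟨_, rfl⟩
  obtain ⟨C, hC⟩ : ∃ C, C = algebraMap ℚ F c := ⟨_, rfl⟩
  obtain ⟨A, hA⟩ : ∃ A, A = algebraMap ℚ F z1 := ⟨_, rfl⟩
  obtain ⟨B, hB⟩ : ∃ B, B = algebraMap ℚ F z2 := ⟨_, rfl⟩
  obtain ⟨N, hN⟩ : ∃ N, N = algebraMap ℚ F (z1 ^ 2 + 3 * D * z2 ^ 2) := ⟨_, rfl⟩
  have hD : algebraMap ℚ F (D : ℚ) = (D : F) := map_intCast _ _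
  have hN' : N = A ^ 2 + 3 * D * B ^ 2 := by
    rw [hN, hA, hB, map_add, map_mul, map_mul, map_pow, map_pow, map_ofNat, hD]
  have hcF : P ^ 2 + 3 * D * Q ^ 2 = C ^ 3 := by
    have h1 := congrArg (algebraMap ℚ F) hc
    rw [map_add, map_mul, map_mul, map_pow, map_pow, map_pow, map_ofNat, hD, ← hP, ← hQ, ← hC] at h1
    exact h1
  rw [← hP, ← hQ] at hne hz hM
  rw [← hA, ← hB] at hz
  rw [← hC] at hMc
  have hlt : exp (-k') < (1 : WithZero (Multiplicative ℤ)) := by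
    rw [← exp_zero, exp_lt_exp]
    omega
  obtain ⟨x, hx⟩ : ∃ x, x = P + Q * t := ⟨_, rfl⟩
  obtain ⟨x', hx'⟩ : ∃ x', x' = P - Q * t := ⟨_, rfl⟩
  obtain ⟨z, hzz⟩ : ∃ z, z = A + B * t := ⟨_, rfl⟩
  obtain ⟨z', hzz'⟩ : ∃ z', z' = A - B * t := ⟨_, rfl⟩
  rw [← hx, ← hzz] at hz
  rw [← hx] at hM hne
  -- the conjugates
  have hVx : V x' = V x := by
    rw [hx, hx', hP, hQ]
    exact (hconj p q).symm
  have hVz : V z' = V z := by
    rw [hzz, hzz', hA, hB]
    exact (hconj z1 z2).symm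
  have hz' : V (x' * z' ^ 3 - 1) ≤ exp (-k') := by
    have h1 := hconj (p * z1 ^ 3 + (-3 * D) * (3 * p * z1 * z2 ^ 2 + 3 * q * z1 ^ 2 * z2) +
      (-3 * D) ^ 2 * q * z2 ^ 3 - 1) (3 * p * z1 ^ 2 * z2 + q * z1 ^ 3 +
      (-3 * D) * (p * z2 ^ 3 + 3 * q * z1 * z2 ^ 2))
    simp only [map_add, map_mul, map_pow, map_sub, map_one, map_neg, map_ofNat, hD, ← hP, ← hQ,
      ← hA, ← hB] at h1
    have h2 : x * z ^ 3 - 1 = (P * A ^ 3 + (-3 * D) * (3 * P * A * B ^ 2 + 3 * Q * A ^ 2 * B) +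
      (-3 * D) ^ 2 * Q * B ^ 3 - 1) + (3 * P * A ^ 2 * B + Q * A ^ 3 +
      (-3 * D) * (P * B ^ 3 + 3 * Q * A * B ^ 2)) * t := by
      rw [hx, hzz]
      linear_combination ((3 * P * A * B ^ 2 + 3 * Q * A ^ 2 * B) +
        (P * B ^ 3 + 3 * Q * A * B ^ 2) * t + Q * B ^ 3 * (t ^ 2 - 3 * D)) * ht
    have h3 : x' * z' ^ 3 - 1 = (P * A ^ 3 + (-3 * D) * (3 * P * A * B ^ 2 + 3 * Q * A ^ 2 * B) +
      (-3 * D) ^ 2 * Q * B ^ 3 - 1) - (3 * P * A ^ 2 * B + Q * A ^ 3 +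
      (-3 * D) * (P * B ^ 3 + 3 * Q * A * B ^ 2)) * t := by
      rw [hx', hzz']
      linear_combination ((3 * P * A * B ^ 2 + 3 * Q * A ^ 2 * B) -
        (P * B ^ 3 + 3 * Q * A * B ^ 2) * t + Q * B ^ 3 * (t ^ 2 - 3 * D)) * ht
    rw [h3, ← h1, ← h2]
    exact hz
  have one_of : ∀ a : F, V (a - 1) ≤ exp (-k') → V a = 1 := by
    intro a ha
    have h1 := Valuation.map_one_add_of_lt (v := V) (lt_of_le_of_lt ha hlt)
    rw [add_sub_cancel] at h1
    exact h1
  obtain ⟨a, ha⟩ : ∃ a, a = x * z ^ 3 := ⟨_, rfl⟩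
  obtain ⟨a', ha'⟩ : ∃ a', a' = x' * z' ^ 3 := ⟨_, rfl⟩
  rw [← ha] at hz
  rw [← ha'] at hz'
  have hVa := one_of a hz
  have hVa' := one_of a' hz'
  have ha0 : a ≠ 0 := by
    rintro h0
    rw [h0, map_zero] at hVa
    exact zero_ne_one hVa
  have ha'0 : a' ≠ 0 := by
    rintro h0
    rw [h0, map_zero] at hVa'
    exact zero_ne_one hVa'
  have hz0 : z ≠ 0 := by
    rintro h0
    rw [h0] at ha
    apply ha0
    rw [ha]
    ring
  have hz'0 : z' ≠ 0 := by
    rintro h0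
    rw [h0] at ha'
    apply ha'0
    rw [ha']
    ring
  have hNz : N = z * z' := by
    rw [hN', hzz, hzz']
    linear_combination B ^ 2 * ht
  have hN0 : N ≠ 0 := by
    rw [hNz]
    exact mul_ne_zero hz0 hz'0
  have hCx : C ^ 3 = x * x' := by
    rw [← hcF, hx, hx']
    linear_combination Q ^ 2 * ht
  have hx0' : x' ≠ 0 := by
    rintro h0
    rw [h0] at ha'
    apply ha'0
    rw [ha']
    ring
  have hC0 : C ≠ 0 := by
    rintro h0
    rw [h0] at hCx
    exact mul_ne_zero hne hx0' (by rw [← hCx]; ring)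
  -- the rational number η
  obtain ⟨η, hη⟩ : ∃ η, η = C * N := ⟨_, rfl⟩
  have hη3 : η ^ 3 = a * a' := by
    rw [hη, ha, ha', mul_pow, hCx, hNz]
    ring
  have hη3v : V (η ^ 3 - 1) ≤ exp (-k') := by
    have h1 : η ^ 3 - 1 = a * (a' - 1) + (a - 1) := by
      rw [hη3]
      ring
    rw [h1]
    apply Valuation.map_add_le
    · rw [map_mul, hVa, one_mul]
      exact hz'
    · exact hz
  have hη0 : η ≠ 0 := by
    rw [hη]
    exact mul_ne_zero hC0 hN0
  have hηv : V η = 1 := by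
    have h1 : V η ≠ 0 := (Valuation.ne_zero_iff V).2 hη0
    have h2 : log (V η ^ 3) = 0 := by
      rw [← map_pow, hη3, map_mul, hVa, hVa', mul_one, log_one]
    rw [log_pow, nsmul_eq_mul] at h2
    have h3 : log (V η) = 0 := by
      push_cast at h2
      omega
    rw [← exp_log h1, h3, exp_zero]
  have hη1 : V (η - 1) ≤ exp (-k' + E) := by
    rcases eq_or_ne (c * (z1 ^ 2 + 3 * D * z2 ^ 2) - 1) 0 with h0 | h0
    · have h1 : η - 1 = 0 := by
        have h2 := congrArg (algebraMap ℚ F) h0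
        rw [map_sub, map_mul, map_one, map_zero, ← hC, ← hN, ← hη] at h2
        exact h2
      rw [h1, map_zero]
      exact zero_le
    · have h1 : V (η - 1) = exp (-(E * padicValRat 3 (c * (z1 ^ 2 + 3 * D * z2 ^ 2) - 1))) := by
        have h2 : algebraMap ℚ F (c * (z1 ^ 2 + 3 * D * z2 ^ 2) - 1) = η - 1 := by
          rw [map_sub, map_mul, map_one, ← hC, ← hN, ← hη]
        rw [← hV _ h0, h2]
      have h3η : V (3 * η) = exp (-E) := by
        rw [map_mul, hηv, mul_one, hV3]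
      have h4 : η ^ 3 - 1 = (η - 1) * ((η - 1) ^ 2 + 3 * η) := by ring
      rcases le_or_gt 1 (padicValRat 3 (c * (z1 ^ 2 + 3 * D * z2 ^ 2) - 1)) with h5 | h5
      · have h6 : V ((η - 1) ^ 2) < V (3 * η) := by
          rw [h3η, map_pow, h1, ← exp_nsmul, exp_lt_exp, nsmul_eq_mul]
          push_cast
          nlinarith
        have h7 : V ((η - 1) ^ 2 + 3 * η) = exp (-E) := by
          rw [Valuation.map_add_eq_of_lt_right V h6, h3η]
        rw [h4, map_mul, h7] at hη3v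
        have h8 : V (η - 1) * exp (-E) * exp E ≤ exp (-k') * exp E :=
          mul_le_mul_left hη3v _
        rw [mul_assoc, ← exp_add, neg_add_cancel, exp_zero, mul_one, ← exp_add] at h8
        exact h8
      · exfalso
        have h6 : V (η - 1) ≤ 1 := by
          apply Valuation.map_sub_le
          · rw [hηv]
          · rw [map_one]
        have h7 : V (η - 1) = 1 := by
          apply le_antisymm h6
          rw [h1, ← exp_zero, exp_le_exp]
          nlinarith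
        have h8 : V (3 * η) < V ((η - 1) ^ 2) := by
          rw [h3η, map_pow, h7, one_pow, ← exp_zero, exp_lt_exp]
          omega
        rw [h4, map_mul, Valuation.map_add_eq_of_lt_left V h8, map_pow, h7, one_pow, mul_one] at hη3v
        exact absurd hη3v (not_le.2 hlt)
  -- the root
  obtain ⟨R, hR⟩ : ∃ R, R = z⁻¹ + z'⁻¹ := ⟨_, rfl⟩
  have hRN : R = 2 * A / N := by
    rw [hR, hNz]
    field_simp
    rw [hzz, hzz']
    ring
  have hg : algebraMap ℚ F ((2 * z1 / (z1 ^ 2 + 3 * D * z2 ^ 2)) ^ 3 -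
      3 * c * (2 * z1 / (z1 ^ 2 + 3 * D * z2 ^ 2)) - 2 * p) = R ^ 3 - 3 * C * R - 2 * P := by
    rw [map_sub, map_sub, map_pow, map_mul, map_mul, map_mul, map_div₀, map_mul, ← hN, ← hA, ← hC,
      ← hP, map_ofNat, map_ofNat, ← hRN]
  have hg2 : R ^ 3 - 3 * C * R - 2 * P = ((z⁻¹) ^ 3 - x) + ((z'⁻¹) ^ 3 - x') +
      3 * (N⁻¹ - C) * R := by
    have h1 : x + x' = 2 * P := by
      rw [hx, hx']
      ring
    have h2 : N⁻¹ = z⁻¹ * z'⁻¹ := by
      rw [hNz, mul_inv]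
    rw [← h1, h2, hR]
    ring
  have hw1 : V ((z⁻¹) ^ 3 - x) ≤ exp (-k' + M) := by
    have h1 : a * ((z⁻¹) ^ 3 - x) = -(x * (a - 1)) := by
      have h2 : a * (z⁻¹) ^ 3 = x := by
        rw [ha, mul_assoc, ← mul_pow, mul_inv_cancel₀ hz0, one_pow, mul_one]
      rw [mul_sub, h2]
      ring
    have h2 := congrArg V h1
    rw [map_mul, hVa, one_mul, Valuation.map_neg, map_mul] at h2
    rw [h2, mul_comm, exp_add]
    exact mul_le_mul' hz hM
  have hw2 : V ((z'⁻¹) ^ 3 - x') ≤ exp (-k' + M) := by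
    have h1 : a' * ((z'⁻¹) ^ 3 - x') = -(x' * (a' - 1)) := by
      have h2 : a' * (z'⁻¹) ^ 3 = x' := by
        rw [ha', mul_assoc, ← mul_pow, mul_inv_cancel₀ hz'0, one_pow, mul_one]
      rw [mul_sub, h2]
      ring
    have h2 := congrArg V h1
    rw [map_mul, hVa', one_mul, Valuation.map_neg, map_mul] at h2
    rw [h2, mul_comm, exp_add]
    refine mul_le_mul' hz' ?_
    rw [hVx]
    exact hM
  have hw3 : V (N⁻¹ - C) ≤ exp (-k' + E + M) := by
    have h1 : η * (N⁻¹ - C) = -(C * (η - 1)) := by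
      have h2 : η * N⁻¹ = C := by
        rw [hη, mul_assoc, mul_inv_cancel₀ hN0, mul_one]
      rw [mul_sub, h2]
      ring
    have h2 := congrArg V h1
    rw [map_mul, hηv, one_mul, Valuation.map_neg, map_mul] at h2
    rw [h2, mul_comm, exp_add]
    exact mul_le_mul' hη1 hMc
  have hVz1 : V (z⁻¹) ≤ exp M := by
    have h1 : V x ≠ 0 := (Valuation.ne_zero_iff V).2 hne
    have h2 : V (z⁻¹) ≠ 0 := (Valuation.ne_zero_iff V).2 (inv_ne_zero hz0)
    have h3 : V (z⁻¹) ^ 3 = V x := by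
      have h4 : a * (z⁻¹) ^ 3 = x := by
        rw [ha, mul_assoc, ← mul_pow, mul_inv_cancel₀ hz0, one_pow, mul_one]
      have h5 := congrArg V h4
      rw [map_mul, hVa, one_mul, map_pow] at h5
      exact h5
    have h4 : log (V x) ≤ M := by
      rw [← exp_le_exp, exp_log h1]
      exact hM
    rw [← h3, log_pow, nsmul_eq_mul] at h4
    rw [← exp_log h2, exp_le_exp]
    push_cast at h4
    omega
  have hVR : V R ≤ exp M := by
    rw [hR]
    apply Valuation.map_add_le _ hVz1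
    rw [map_inv₀, hVz, ← map_inv₀]
    exact hVz1
  rw [hg, hg2]
  apply Valuation.map_add_le
  · apply Valuation.map_add_le
    · refine hw1.trans ?_
      rw [exp_le_exp]
      omega
    · refine hw2.trans ?_
      rw [exp_le_exp]
      omega
  · rw [map_mul, map_mul, hV3]
    have h1 : exp (-E) * V (N⁻¹ - C) * V R ≤ exp (-E) * exp (-k' + E + M) * exp M :=
      mul_le_mul' (mul_le_mul' le_rfl hw3) hVR
    refine h1.trans ?_
    rw [← exp_add, ← exp_add, exp_le_exp]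
    omega

theorem approx {D : ℤ} (h3 : D % 3 = 2) {F : Type} [Field F]
    [NumberField F] {t : F} (ht : t ^ 2 = -3 * (D : F)) (hF : Module.finrank ℚ F = 2) {p q c : ℚ}
    (hc : p ^ 2 + 3 * D * q ^ 2 = c ^ 3) (hne : algebraMap ℚ F p + algebraMap ℚ F q * t ≠ 0)
    (hL : LC3 (algebraMap ℚ F p + algebraMap ℚ F q * t)) (k : ℕ) :
    ∃ r : ℚ, padicNorm 3 (r ^ 3 - 3 * c * r - 2 * p) ≤ (3 : ℚ) ^ (-(k : ℤ)) := by
  obtain ⟨v, hv⟩ := Ba_place (C := F)
  obtain ⟨V, hVv⟩ : ∃ V, V = v.valuation F := ⟨_, rfl⟩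
  have hint : ∀ n : ℤ, V (n : F) ≤ 1 := by
    intro n
    have h1 : v.valuation F (algebraMap (𝓞 F) F (n : 𝓞 F)) ≤ 1 := v.valuation_le_one _
    rw [map_intCast] at h1
    rw [hVv]
    exact h1
  have h3lt : V 3 < 1 := by
    have h1 : v.valuation F (algebraMap (𝓞 F) F (3 : 𝓞 F)) < 1 :=
      (v.valuation_lt_one_iff_mem (K := F) (3 : 𝓞 F)).2 hv
    rw [map_ofNat] at h1
    rw [hVv]
    exact h1
  have h30 : V 3 ≠ 0 := (Valuation.ne_zero_iff V).2 three_ne_zero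
  obtain ⟨E, hE3⟩ : ∃ E : ℤ, E = -log (V 3) := ⟨_, rfl⟩
  have hV3 : V 3 = exp (-E) := by
    rw [hE3, neg_neg, exp_log h30]
  have hE : 1 ≤ E := by
    rw [hV3, ← exp_zero, exp_lt_exp] at h3lt
    omega
  have hV : ∀ x : ℚ, x ≠ 0 → V (algebraMap ℚ F x) = exp (-(E * padicValRat 3 x)) :=
    fun x hx => Ba_val V hint hE hV3 hx
  have hD3 : ¬ (3 : ℕ) ∣ D.natAbs := by
    intro h
    have h1 : (3 : ℤ) ∣ D := by
      rw [← Int.natCast_dvd_natCast, Int.dvd_natAbs] at h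
      exact_mod_cast h
    omega
  have hVD : V (D : F) = 1 := by
    have h1 := Ba_unit V hint h3lt hD3
    rcases Int.natAbs_eq D with h2 | h2
    · rw [h2, Int.cast_natCast]
      exact h1
    · rw [h2, Int.cast_neg, Valuation.map_neg, Int.cast_natCast]
      exact h1
  have hVt : V (-3 * (D : F)) = exp (-E) := by
    rw [map_mul, Valuation.map_neg, hVD, mul_one, hV3]
  have hsq : ∀ u : ℚ, V (algebraMap ℚ F u) ^ 2 ≠ exp (-E) := by
    intro u h
    rcases eq_or_ne u 0 with h0 | h0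
    · rw [h0, map_zero, map_zero, zero_pow two_ne_zero] at h
      exact exp_ne_zero h.symm
    · rw [hV u h0, ← exp_nsmul, exp_inj, nsmul_eq_mul] at h
      push_cast at h
      have h1 : E * (2 * padicValRat 3 u - 1) = 0 := by linarith
      rcases mul_eq_zero.1 h1 with h2 | h2
      · omega
      · omega
  have ht' : t ^ 2 = algebraMap ℚ F (-3 * D) := by
    rw [map_mul, map_neg, map_ofNat, map_intCast]
    exact ht
  have hconj : ∀ x y : ℚ, V (algebraMap ℚ F x + algebraMap ℚ F y * t) =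
      V (algebraMap ℚ F x - algebraMap ℚ F y * t) := by
    intro x y
    refine conj_ram V ht' (fun u => ?_) x y
    rw [← ht', ht, hVt]
    exact hsq u
  have htr : ∀ r : ℚ, t ≠ algebraMap ℚ F r := by
    intro r hr
    apply hsq r
    rw [← hr, ← map_pow, ht, hVt]
  -- the bound
  obtain ⟨M, hM0, hM, hMc⟩ : ∃ M : ℤ, 0 ≤ M ∧
      V (algebraMap ℚ F p + algebraMap ℚ F q * t) ≤ exp M ∧ V (algebraMap ℚ F c) ≤ exp M := by
    have key : ∀ y : F, V y ≤ exp (max 0 (log (V y))) := by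
      intro y
      rcases eq_or_ne (V y) 0 with h0 | h0
      · rw [h0]
        exact zero_le
      · have h1 : V y = exp (log (V y)) := (exp_log h0).symm
        calc V y = exp (log (V y)) := h1
          _ ≤ _ := by
            rw [exp_le_exp]
            exact le_max_right _ _
    refine ⟨max (max 0 (log (V (algebraMap ℚ F p + algebraMap ℚ F q * t))))
      (max 0 (log (V (algebraMap ℚ F c)))), le_max_of_le_left (le_max_left _ _), ?_, ?_⟩
    · refine (key _).trans ?_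
      rw [exp_le_exp]
      exact le_max_left _ _
    · refine (key _).trans ?_
      rw [exp_le_exp]
      exact le_max_right _ _
  obtain ⟨k', hk'⟩ : ∃ k' : ℕ, (k' : ℤ) = E * (k + 1) + 2 * M := by
    refine ⟨(E * (k + 1) + 2 * M).toNat, Int.toNat_of_nonneg ?_⟩
    positivity
  obtain ⟨z, hz⟩ := hL k'
  obtain ⟨z1, z2, hz12⟩ := Ba_coord hF htr z
  have hzv := hz v hv
  rw [hz12, ← hVv] at hzv
  have hk1 : (1 : ℤ) ≤ k' := by
    rw [hk']
    nlinarith [mul_nonneg (by omega : (0 : ℤ) ≤ E) (Int.natCast_nonneg k)]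
  have hfin := Ba_main ht V hE hV3 hV hconj hc hne z1 z2 hzv hk1 hM0 hM hMc
  refine ⟨2 * z1 / (z1 ^ 2 + 3 * D * z2 ^ 2), ?_⟩
  rcases eq_or_ne ((2 * z1 / (z1 ^ 2 + 3 * D * z2 ^ 2)) ^ 3 -
      3 * c * (2 * z1 / (z1 ^ 2 + 3 * D * z2 ^ 2)) - 2 * p) 0 with h0 | h0
  · rw [h0]
    haveI : Fact (Nat.Prime 3) := ⟨Nat.prime_three⟩
    rw [padicNorm.zero]
    positivity
  · rw [padicNorm.eq_zpow_of_nonzero h0]
    rw [hV _ h0, exp_le_exp, hk'] at hfin
    have h1 : (k : ℤ) ≤ padicValRat 3 ((2 * z1 / (z1 ^ 2 + 3 * D * z2 ^ 2)) ^ 3 -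
      3 * c * (2 * z1 / (z1 ^ 2 + 3 * D * z2 ^ 2)) - 2 * p) := by
      have h2 : E * (k : ℤ) ≤ E * padicValRat 3 ((2 * z1 / (z1 ^ 2 + 3 * D * z2 ^ 2)) ^ 3 -
        3 * c * (2 * z1 / (z1 ^ 2 + 3 * D * z2 ^ 2)) - 2 * p) := by
        linarith
      exact le_of_mul_le_mul_left h2 (by omega)
    push_cast
    exact zpow_le_zpow_right₀ (by norm_num) (neg_le_neg h1)

end H38T6
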