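import Mathlib

/-!
Row Bb. (about 80 lines).
cube_of_q0: c <> 0 (p <> 0); p = (p / c)^3: (p/c)^3 = p^3 / c^3 = p^3 / p^2.
cube_of_root: x^2 <> c (if x^2 = c then -2 c x = 2 p, p = - c x, p^2 = c^2 x^2 = c^3, so 3 D q^2 = 0). w := 2 q / (x^2 - c), z := (x + w t)/2. w^2 t^2 = x^2 - 4 c, because (x^2 - 4 c)(x^2 - c)^2 = (x^3 - 3 c x)^2 - 4 c^3 = 4 p^2 - 4 c^3 = -12 D q^2 and t^2 = -3 D. Then 8 z^3 = x^3 + 3 x w^2 t^2 + (3 x^2 + w^2 t^2) w t = (4 x^3 - 12 c x) + 4 (x^2 - c) w t = 8 p + 8 q t.
exists_cubic: F := AdjoinRoot (X^2 - C D) over Q (irreducible: D < 0), s := root. g := X^3 - 3 c X - 2 p over F has no root in F: over Q it is irreducible (degree three without rational root), a root in F would have degree three over Q, and 3 does not divide 2. So g is irreducible over F, M := AdjoinRoot g, t := root, [M : F] = 3, t is not in F. M is a number field (FiniteDimensional over F over Q).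
 Galois: the discriminant of g is 108 c^3 - 108 p^2 = 324 D q^2 = (18 q s)^2. With dl := 18 q s in F, dl <> 0 and h := 3 t^2 - 3 c = g'(t): h <> 0 (separable: dl <> 0), dl^2 = h^2 (12 c - 3 t^2) (ring identity modulo g(t) = 0), so the other roots are (-t + dl/h)/2, (-t - dl/h)/2 in M: g splits in M, M is the splitting field of a separable polynomial: IsGalois.of_separable_splitting_field.
-/

set_option autoImplicit false
set_option linter.unusedSectionVars false
open scoped Classical


namespace H38T6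

theorem cube_of_q0 {p c : ℚ} (hp : p ≠ 0) (hc : p ^ 2 = c ^ 3) : ∃ z : ℚ, p = z ^ 3 := by
  have h0 : c ≠ 0 := by
    rintro rfl
    exact hp (by simpa using hc)
  refine ⟨p / c, ?_⟩
  rw [div_pow, ← hc]
  field_simp

theorem cube_of_root {D : ℤ} (hD : D ≠ 0) {F : Type} [Field F] [CharZero F] {t : F}
    (ht : t ^ 2 = -3 * (D : F)) {p q c x : ℚ} (hc : p ^ 2 + 3 * D * q ^ 2 = c ^ 3) (hq : q ≠ 0)
    (hx : x ^ 3 - 3 * c * x - 2 * p = 0) :
    ∃ z : F, algebraMap ℚ F p + algebraMap ℚ F q * t = z ^ 3 := by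
  have hD' : (D : ℚ) ≠ 0 := by exact_mod_cast hD
  have hxc : x ^ 2 - c ≠ 0 := by
    intro h
    have h1 : c = x ^ 2 := by linear_combination -h
    subst h1
    have h2 : p = -x ^ 3 := by linear_combination -hx / 2
    subst h2
    have h3 : (D : ℚ) * q ^ 2 = 0 := by linear_combination hc / 3
    rcases mul_eq_zero.1 h3 with h4 | h4
    · exact hD' h4
    · exact hq (pow_eq_zero_iff (two_ne_zero) |>.1 h4)
  obtain ⟨w, hw⟩ : ∃ w : ℚ, w * (x ^ 2 - c) = 2 * q := ⟨2 * q / (x ^ 2 - c), by field_simp⟩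
  have hw2 : w ^ 2 * (-3 * D) = x ^ 2 - 4 * c := by
    have h1 : (w ^ 2 * (-3 * D) - (x ^ 2 - 4 * c)) * (x ^ 2 - c) ^ 2 = 0 := by
      have h2 : (w * (x ^ 2 - c)) ^ 2 = (2 * q) ^ 2 := by rw [hw]
      linear_combination (-3 * (D : ℚ)) * h2 - 4 * hc - (x ^ 3 - 3 * c * x + 2 * p) * hx
    rcases mul_eq_zero.1 h1 with h | h
    · linear_combination h
    · exact absurd (pow_eq_zero_iff (two_ne_zero) |>.1 h) hxc
  refine ⟨(algebraMap ℚ F x + algebraMap ℚ F w * t) / 2, ?_⟩
  have a1 := congrArg (algebraMap ℚ F) hw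
  have a2 := congrArg (algebraMap ℚ F) hw2
  have a3 := congrArg (algebraMap ℚ F) hx
  simp only [map_mul, map_sub, map_pow, map_ofNat, map_intCast, map_neg, map_zero] at a1 a2 a3
  have h8 : (8 : F) ≠ 0 := by norm_num
  have hw3 : algebraMap ℚ F w ^ 2 * t ^ 2 = algebraMap ℚ F x ^ 2 - 4 * algebraMap ℚ F c := by
    rw [ht]; exact a2
  rw [div_pow, eq_div_iff (by norm_num)]
  linear_combination (-3 * algebraMap ℚ F x - algebraMap ℚ F w * t) * hw3 - 4 * t * a1 - 4 * a3

/-- the two other roots of a cubic whose discriminant is a square -/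
lemma gal_cubic {F M : Type} [Field F] [CharZero F] [Field M] [Algebra F M] [FiniteDimensional F M]
    (c p δ : F) (hδ : δ ≠ 0) (hd : δ ^ 2 = 108 * c ^ 3 - 108 * p ^ 2) (g : Polynomial F)
    (hg : g = Polynomial.X ^ 3 - Polynomial.C (3 * c) * Polynomial.X - Polynomial.C (2 * p))
    (hirr : Irreducible g) (t : M)
    (hroot : t ^ 3 - 3 * algebraMap F M c * t - 2 * algebraMap F M p = 0)
    (htop : Algebra.adjoin F {t} = ⊤) : IsGalois F M := by
  have : CharZero M := charZero_of_injective_algebraMap (algebraMap F M).injective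
  obtain ⟨i, hi⟩ : ∃ i : F →+* M, i = algebraMap F M := ⟨_, rfl⟩
  rw [← hi] at hroot
  have hd' : (i δ) ^ 2 = 108 * (i c) ^ 3 - 108 * (i p) ^ 2 := by
    have := congrArg i hd
    simpa only [map_sub, map_mul, map_pow, map_ofNat] using this
  have hδ' : i δ ≠ 0 := (map_ne_zero _).2 hδ
  obtain ⟨h, hh⟩ : ∃ h : M, h = 3 * t ^ 2 - 3 * i c := ⟨_, rfl⟩
  have hkey : (i δ) ^ 2 = h ^ 2 * (12 * i c - 3 * t ^ 2) := by
    have e : i p = (t ^ 3 - 3 * i c * t) / 2 := by
      rw [eq_div_iff two_ne_zero]
      linear_combination -hroot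
    rw [hd', hh, e]
    ring
  have hh0 : h ≠ 0 := by
    intro h0
    rw [h0] at hkey
    exact hδ' (pow_eq_zero_iff (two_ne_zero) |>.1 (by rw [hkey]; ring))
  obtain ⟨k, hk⟩ : ∃ k : M, k * h = i δ := ⟨i δ / h, by field_simp⟩
  have hk2 : k ^ 2 = 12 * i c - 3 * t ^ 2 := by
    have h1 : h ^ 2 * (k ^ 2 - (12 * i c - 3 * t ^ 2)) = 0 := by
      rw [mul_sub, ← hkey, ← hk]
      ring
    rcases mul_eq_zero.1 h1 with h2 | h2
    · exact absurd (pow_eq_zero_iff (two_ne_zero) |>.1 h2) hh0
    · linear_combination h2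
  have hfac : g.map i = (Polynomial.X - Polynomial.C t) *
      (Polynomial.X - Polynomial.C ((-t + k) / 2)) *
      (Polynomial.X - Polynomial.C ((-t - k) / 2)) := by
    have e1 : (-t + k) / 2 + (-t - k) / 2 = -t := by ring
    have e2 : (-t + k) / 2 * ((-t - k) / 2) = t ^ 2 - 3 * i c := by
      linear_combination -hk2 / 4
    have e3 : 2 * i p = t * (t ^ 2 - 3 * i c) := by linear_combination -hroot
    have E1 := congrArg (Polynomial.C (R := M)) e1
    have E2 := congrArg (Polynomial.C (R := M)) e2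
    have E3 := congrArg (Polynomial.C (R := M)) e3
    simp only [map_add, map_mul, map_sub, map_neg, map_pow, map_ofNat] at E1 E2 E3
    rw [hg]
    simp only [Polynomial.map_sub, Polynomial.map_mul, Polynomial.map_pow, Polynomial.map_X,
      Polynomial.map_C, map_mul, map_ofNat, Polynomial.map_ofNat]
    generalize (Polynomial.C ((-t + k) / 2) : Polynomial M) = u at *
    generalize (Polynomial.C ((-t - k) / 2) : Polynomial M) = v at *
    generalize (Polynomial.C t : Polynomial M) = T at *
    generalize (Polynomial.C (i p) : Polynomial M) = P at *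
    generalize (Polynomial.C (i c) : Polynomial M) = C at *
    generalize (Polynomial.X : Polynomial M) = X at *
    linear_combination (X ^ 2 - T * X) * E1 + (T - X) * E2 - E3
  have hsp : g.IsSplittingField F M := by
    refine ⟨?_, ?_⟩
    · rw [← hi, hfac]
      exact ((Polynomial.Splits.X_sub_C _).mul (Polynomial.Splits.X_sub_C _)).mul
        (Polynomial.Splits.X_sub_C _)
    · rw [eq_top_iff, ← htop]
      apply Algebra.adjoin_mono
      rw [Set.singleton_subset_iff, Polynomial.mem_rootSet]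
      refine ⟨hirr.ne_zero, ?_⟩
      rw [hg]
      simp only [map_sub, map_mul, map_pow, Polynomial.aeval_X, Polynomial.aeval_C, map_ofNat,
        ← hi]
      exact hroot
  exact IsGalois.of_separable_splitting_field hirr.separable

lemma ev3 {A B : Type} [CommRing A] [CommRing B] (j : A →+* B) (t : B) (c p : A)
    (g : Polynomial A) (hg : g = Polynomial.X ^ 3 - Polynomial.C (3 * c) * Polynomial.X -
      Polynomial.C (2 * p)) : g.eval₂ j t = t ^ 3 - 3 * j c * t - 2 * j p := by
  rw [hg, Polynomial.eval₂_sub, Polynomial.eval₂_sub, Polynomial.eval₂_pow, Polynomial.eval₂_mul,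
    Polynomial.eval₂_X, Polynomial.eval₂_C, Polynomial.eval₂_C, map_mul, map_mul, map_ofNat,
    map_ofNat]

lemma ev2 {A B : Type} [CommRing A] [CommRing B] (j : A →+* B) (t : B) (D : ℤ)
    (g : Polynomial A) (hg : g = Polynomial.X ^ 2 - Polynomial.C (D : A)) :
    g.eval₂ j t = t ^ 2 - (D : B) := by
  rw [hg, Polynomial.eval₂_sub, Polynomial.eval₂_pow, Polynomial.eval₂_X, Polynomial.eval₂_C,
    map_intCast]

/-- the cubic field over a given quadratic field -/
lemma exists_cubic_aux {D : ℤ} (hD : D < 0) {F : Type} [Field F] [NumberField F]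
    (hF : Module.finrank ℚ F = 2) {s : F} (hs : s ^ 2 = (D : F)) {p q c : ℚ}
    (hc : p ^ 2 + 3 * D * q ^ 2 = c ^ 3) (hq : q ≠ 0)
    (hroot : ∀ x : ℚ, x ^ 3 - 3 * c * x - 2 * p ≠ 0) :
    ∃ (M : Type) (_ : Field M) (_ : NumberField M) (_ : Algebra F M) (t : M), IsGalois F M ∧
      Module.finrank F M = 3 ∧ t ^ 3 - 3 * algebraMap ℚ M c * t - 2 * algebraMap ℚ M p = 0 ∧
      ∀ x : F, algebraMap F M x ≠ t := by
  have hD' : (D : ℚ) < 0 := by exact_mod_cast hD
  set gQ : Polynomial ℚ := Polynomial.X ^ 3 - Polynomial.C (3 * c) * Polynomial.X -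
    Polynomial.C (2 * p) with hgQ
  have hmQ : gQ.Monic := by rw [hgQ]; monicity!
  have hdQ : gQ.natDegree = 3 := by rw [hgQ]; compute_degree!
  have hiQ : Irreducible gQ := by
    apply Polynomial.irreducible_of_degree_le_three_of_not_isRoot
    · rw [hdQ]; decide
    · intro x hx
      rw [Polynomial.IsRoot.def, hgQ] at hx
      simp only [Polynomial.eval_sub, Polynomial.eval_pow, Polynomial.eval_X,
        Polynomial.eval_mul, Polynomial.eval_C] at hx
      exact hroot x hx
  set g : Polynomial F := Polynomial.X ^ 3 - Polynomial.C (3 * algebraMap ℚ F c) * Polynomial.X -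
    Polynomial.C (2 * algebraMap ℚ F p) with hg
  have hm : g.Monic := by rw [hg]; monicity!
  have hd : g.natDegree = 3 := by rw [hg]; compute_degree!
  have hi : Irreducible g := by
    apply Polynomial.irreducible_of_degree_le_three_of_not_isRoot
    · rw [hd]; decide
    · intro x hx
      rw [Polynomial.IsRoot.def, hg] at hx
      simp only [Polynomial.eval_sub, Polynomial.eval_pow, Polynomial.eval_X,
        Polynomial.eval_mul, Polynomial.eval_C] at hx
      have h1 : Polynomial.aeval x gQ = 0 := by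
        rw [hgQ]
        simp only [map_sub, map_mul, map_pow, Polynomial.aeval_X, Polynomial.aeval_C, map_ofNat]
        exact hx
      have h2 := minpoly.eq_of_irreducible_of_monic hiQ h1 hmQ
      have h3 := minpoly.degree_dvd (K := ℚ) (x := x) (Algebra.IsIntegral.isIntegral x)
      rw [← h2, hdQ, hF] at h3
      revert h3
      decide
  have hfact : Fact (Irreducible g) := ⟨hi⟩
  have hfin : Module.Finite F (AdjoinRoot g) := (AdjoinRoot.powerBasis hi.ne_zero).finite
  have hnf : NumberField (AdjoinRoot g) := NumberField.of_module_finite F (AdjoinRoot g)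
  have hfr : Module.finrank F (AdjoinRoot g) = 3 := by
    rw [(AdjoinRoot.powerBasis hi.ne_zero).finrank, AdjoinRoot.powerBasis_dim, hd]
  have hr : (AdjoinRoot.root g) ^ 3 - 3 * algebraMap F (AdjoinRoot g) (algebraMap ℚ F c) *
      AdjoinRoot.root g - 2 * algebraMap F (AdjoinRoot g) (algebraMap ℚ F p) = 0 := by
    rw [← ev3 _ _ _ _ g hg]
    exact AdjoinRoot.eval₂_root g
  refine ⟨AdjoinRoot g, inferInstance, hnf, inferInstance, AdjoinRoot.root g, ?_, hfr, ?_, ?_⟩
  · refine gal_cubic (algebraMap ℚ F c) (algebraMap ℚ F p) (algebraMap ℚ F (18 * q) * s) ?_ ?_ g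
      hg hi (AdjoinRoot.root g) hr AdjoinRoot.adjoinRoot_eq_top
    · apply mul_ne_zero
      · rw [ne_eq, map_eq_zero]
        exact mul_ne_zero (by norm_num) hq
      · rintro rfl
        rw [zero_pow two_ne_zero] at hs
        have : (D : F) ≠ 0 := by exact_mod_cast hD.ne
        exact this hs.symm
    · rw [mul_pow, hs]
      have := congrArg (algebraMap ℚ F) hc
      simp only [map_add, map_mul, map_pow, map_ofNat, map_intCast] at this ⊢
      linear_combination 108 * this
  · have e : ∀ r : ℚ, algebraMap ℚ (AdjoinRoot g) r = algebraMap F (AdjoinRoot g)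
        (algebraMap ℚ F r) := by
      intro r
      exact (RingHom.congr_fun (Subsingleton.elim (algebraMap ℚ (AdjoinRoot g))
        ((algebraMap F (AdjoinRoot g)).comp (algebraMap ℚ F))) r)
    have h := hr
    rw [← e, ← e] at h
    exact h
  · intro x hx
    have h := hr
    rw [← hx] at h
    have h1 : algebraMap F (AdjoinRoot g) (x ^ 3 - 3 * algebraMap ℚ F c * x -
        2 * algebraMap ℚ F p) = 0 := by
      simp only [map_sub, map_mul, map_pow, map_ofNat]
      exact h
    rw [map_eq_zero] at h1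
    have h2 : g.IsRoot x := by
      rw [Polynomial.IsRoot.def, hg]
      simp only [Polynomial.eval_sub, Polynomial.eval_pow, Polynomial.eval_X,
        Polynomial.eval_mul, Polynomial.eval_C]
      exact h1
    have h3 := Polynomial.natDegree_eq_of_degree_eq_some (n := 1)
      (Polynomial.degree_eq_one_of_irreducible_of_root hi h2)
    rw [hd] at h3
    exact absurd h3 (by norm_num)

theorem exists_cubic {D : ℤ} (hD : D < 0) {p q c : ℚ} (hc : p ^ 2 + 3 * D * q ^ 2 = c ^ 3)
    (hq : q ≠ 0) (hroot : ∀ x : ℚ, x ^ 3 - 3 * c * x - 2 * p ≠ 0) :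
    ∃ (F M : Type) (_ : Field F) (_ : NumberField F) (_ : Field M) (_ : NumberField M)
      (_ : Algebra F M) (s : F) (t : M), IsGalois F M ∧ Module.finrank F M = 3 ∧
      Module.finrank ℚ F = 2 ∧ s ^ 2 = (D : F) ∧
      t ^ 3 - 3 * algebraMap ℚ M c * t - 2 * algebraMap ℚ M p = 0 ∧
      ∀ x : F, algebraMap F M x ≠ t := by
  have hD' : (D : ℚ) < 0 := by exact_mod_cast hD
  set f : Polynomial ℚ := Polynomial.X ^ 2 - Polynomial.C (D : ℚ) with hf
  have hfd : f.natDegree = 2 := Polynomial.natDegree_X_pow_sub_C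
  have hfi : Irreducible f := by
    apply Polynomial.irreducible_of_degree_le_three_of_not_isRoot
    · rw [hfd]; decide
    · intro r h1
      rw [Polynomial.IsRoot.def] at h1
      simp only [hf, Polynomial.eval_sub, Polynomial.eval_pow, Polynomial.eval_X,
        Polynomial.eval_C] at h1
      nlinarith [sq_nonneg r]
  have hfact : Fact (Irreducible f) := ⟨hfi⟩
  have hfr : Module.finrank ℚ (AdjoinRoot f) = 2 := by
    have := (AdjoinRoot.powerBasis hfi.ne_zero).finrank
    rw [AdjoinRoot.powerBasis_dim, hfd] at this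
    convert this
  have hs : (AdjoinRoot.root f) ^ 2 = ((D : ℤ) : AdjoinRoot f) := by
    have h := AdjoinRoot.eval₂_root f
    rw [ev2 _ _ D f hf, sub_eq_zero] at h
    exact h
  obtain ⟨M, _, _, _, t, h1, h2, h3, h4⟩ := exists_cubic_aux hD hfr hs hc hq hroot
  exact ⟨AdjoinRoot f, M, inferInstance, inferInstance, inferInstance, inferInstance,
    inferInstance, AdjoinRoot.root f, t, h1, h2, hfr, hs, h3, h4⟩

end H38T6
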