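import Pool.Agent.H38.T6.Def0

/-!
Row Oa. (about 150 lines): ramification indices and residue degrees are odd.
val_below (general; parts may be in Pool/Agent/H10/RelVal.lean or Pool/Agent/H11/Ramif.lean: copy): for a place W of C and v the place of K below: e = the ramification index (e <= [C : K] by the fundamental identity, Ideal.sum_ramification_inertia), W (x) = v (x)^e for x in K. val_above: a prime over v exists (lying over), then the same.
odd_log: N/Q Galois: e f g = [N : Q] (Ideal.ncard_primesOver_mul_ramificationIdxIn_mul_inertiaDegIn or the like), w (q) = exp (-e) with e the ramification index of w over (q) (find in Pool/Agent/H11/Ramif.lean or prove: span {q} maps to prod w^e). e divides an odd number. For K inside N: w' over w: -log w'(q) = e' (-log w(q)) is odd, so -log w(q) is odd.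
no_sqrt: in N: the residue field k of w' has 3^f elements with f | [N : Q] odd; X^2 = -1 in k is impossible: |k*| = 3^f - 1 = 2 mod 4 (3^f = 3 mod 8 for f odd), ZMod/FiniteField.isSquare_neg_one_iff: -1 is a square iff card k % 4 <> 3. If w'(X^2 + 1) < 1 for X in N then w' X <= 1 (else w'(X^2+1) = w'(X)^2 > 1), X is in the valuation ring; its residue class: choose x in O_N with w'(X - x) < 1 (the residue field of the valuation ring is O_N / w': e.g. Pool/Agent/H10/Resid.lean), x^2 + 1 in w', contradiction.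
 For K inside N, w in K, D with D % 3 = 2: if w (X^2 - D) < 1 then w(X^2 + 1) <= max (w (X^2 - D), w (D + 1)) < 1 as 3 | D + 1; lift to w' over w: w'(X^2+1) = w(..)^e < 1: contradiction.
no_sqrt_loc: X in the completion: choose x in K with Valued.v (X - x) < small (density of K: Pool/Agent/H10 has such a lemma; if v X <= 1: v (X - x) < 1 gives v (X^2 - x^2) < 1; if v X > 1 then v (X^2 - D) = v(X)^2 > 1 directly).
-/

set_option autoImplicit false
set_option linter.unusedSectionVars false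
open scoped Classical

open IsDedekindDomain NumberField WithZero

namespace H38T6

theorem Oa_liesOver_e {K C : Type} [Field K] [NumberField K] [Field C] [NumberField C] [Algebra K C]
    (v : HeightOneSpectrum (𝓞 K)) (W : HeightOneSpectrum (𝓞 C)) [h : W.asIdeal.LiesOver v.asIdeal] :
    ∃ e : ℕ, 1 ≤ e ∧ e ≤ Module.finrank K C ∧
      (∀ x : K, W.valuation C (algebraMap K C x) = v.valuation K x ^ e) ∧
      ∀ n : ℤ, (n : 𝓞 K) ∈ v.asIdeal ↔ (n : 𝓞 C) ∈ W.asIdeal := by
  have hmax := v.isPrime.isMaximal v.ne_bot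
  refine ⟨v.asIdeal.ramificationIdx' W.asIdeal, ?_, ?_, fun x => ?_, fun n => ?_⟩
  · exact Nat.one_le_iff_ne_zero.2
      (Ideal.IsDedekindDomain.ramificationIdx'_ne_zero_of_liesOver W.asIdeal v.ne_bot)
  · have h1 : W.asIdeal ∈ IsDedekindDomain.primesOverFinset v.asIdeal (𝓞 C) :=
      (IsDedekindDomain.mem_primesOverFinset_iff v.ne_bot _).mpr ⟨W.isPrime, h⟩
    have h2 : ∑ P ∈ IsDedekindDomain.primesOverFinset v.asIdeal (𝓞 C),
        v.asIdeal.ramificationIdx' P * v.asIdeal.inertiaDeg' P = Module.finrank K C :=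
      Ideal.sum_ramification_inertia (𝓞 C) K C v.ne_bot
    have h3 := Finset.single_le_sum
      (f := fun P => v.asIdeal.ramificationIdx' P * v.asIdeal.inertiaDeg' P)
      (fun _ _ => Nat.zero_le _) h1
    rw [h2] at h3
    exact (Nat.le_mul_of_pos_right _ (Ideal.inertiaDeg'_pos v.asIdeal W.asIdeal)).trans h3
  · exact (HeightOneSpectrum.valuation_liesOver C v W x).symm
  · have h1 : (n : 𝓞 C) = algebraMap (𝓞 K) (𝓞 C) (n : 𝓞 K) := (map_intCast _ n).symm
    rw [h1, h.over]
    exact Iff.rfl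

theorem val_below {K C : Type} [Field K] [NumberField K] [Field C] [NumberField C] [Algebra K C]
    (W : HeightOneSpectrum (𝓞 C)) : ∃ (v : HeightOneSpectrum (𝓞 K)) (e : ℕ), 1 ≤ e ∧
      e ≤ Module.finrank K C ∧
      (∀ x : K, W.valuation C (algebraMap K C x) = v.valuation K x ^ e) ∧
      ∀ n : ℤ, (n : 𝓞 K) ∈ v.asIdeal ↔ (n : 𝓞 C) ∈ W.asIdeal := by
  have := W.isPrime
  let v : HeightOneSpectrum (𝓞 K) := ⟨W.asIdeal.under (𝓞 K), inferInstance,
    Ideal.IsIntegral.comap_ne_bot _ W.ne_bot⟩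
  have hl : W.asIdeal.LiesOver v.asIdeal := ⟨rfl⟩
  exact ⟨v, Oa_liesOver_e v W⟩

theorem val_above {K C : Type} [Field K] [NumberField K] [Field C] [NumberField C] [Algebra K C]
    (v : HeightOneSpectrum (𝓞 K)) : ∃ (W : HeightOneSpectrum (𝓞 C)) (e : ℕ), 1 ≤ e ∧
      e ≤ Module.finrank K C ∧
      (∀ x : K, W.valuation C (algebraMap K C x) = v.valuation K x ^ e) ∧
      ∀ n : ℤ, (n : 𝓞 K) ∈ v.asIdeal ↔ (n : 𝓞 C) ∈ W.asIdeal := by
  have := v.isPrime.isMaximal v.ne_bot
  obtain ⟨Q, hQ, hQo⟩ := Ideal.exists_maximal_ideal_liesOver_of_isIntegral (S := 𝓞 C) v.asIdeal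
  let W : HeightOneSpectrum (𝓞 C) :=
    ⟨Q, hQ.isPrime, Ideal.ne_bot_of_liesOver_of_ne_bot v.ne_bot Q⟩
  have hl : W.asIdeal.LiesOver v.asIdeal := hQo
  exact ⟨W, Oa_liesOver_e v W⟩

/-- ramification index and residue degree over the rationals -/
theorem Oa_gal {N : Type} [Field N] [NumberField N] [IsGalois ℚ N] {q : ℕ} (hq : q.Prime)
    (w : HeightOneSpectrum (𝓞 N)) (hw : (q : 𝓞 N) ∈ w.asIdeal) :
    ∃ e f : ℕ, e * f ∣ Module.finrank ℚ N ∧ w.valuation N (q : N) = exp (-(e : ℤ)) ∧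
      Nat.card (𝓞 N ⧸ w.asIdeal) = q ^ f := by
  have hpp : (Ideal.span {(q : ℤ)}).IsPrime := by
    rw [Ideal.span_singleton_prime (by exact_mod_cast hq.ne_zero)]
    exact Nat.prime_iff_prime_int.1 hq
  have hq0 : Ideal.span {(q : ℤ)} ≠ ⊥ := by
    rw [Ne, Ideal.span_singleton_eq_bot]
    exact_mod_cast hq.ne_zero
  have hmax : (Ideal.span {(q : ℤ)}).IsMaximal :=
    Ring.DimensionLEOne.maximalOfPrime hq0 inferInstance
  have hwp := w.isPrime
  have hl : w.asIdeal.LiesOver (Ideal.span {(q : ℤ)}) := by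
    constructor
    refine hmax.eq_of_le (Ideal.IsPrime.under ℤ w.asIdeal).ne_top ?_
    rw [Ideal.span_singleton_le_iff_mem]
    change algebraMap ℤ (𝓞 N) (q : ℤ) ∈ w.asIdeal
    rw [map_natCast]
    exact hw
  let p : HeightOneSpectrum ℤ := ⟨Ideal.span {(q : ℤ)}, hpp, hq0⟩
  have hlp : w.asIdeal.LiesOver p.asIdeal := hl
  refine ⟨(Ideal.span {(q : ℤ)}).ramificationIdx' w.asIdeal,
    (Ideal.span {(q : ℤ)}).inertiaDeg' w.asIdeal, ?_, ?_, ?_⟩
  · have h1 := Ideal.ncard_primesOver_mul_ramificationIdxIn_mul_inertiaDegIn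
      (Ideal.span {(q : ℤ)}) (𝓞 N) Gal(N/ℚ)
    rw [IsGalois.card_aut_eq_finrank, Ideal.ramificationIdxIn_eq_ramificationIdx
      (Ideal.span {(q : ℤ)}) w.asIdeal Gal(N/ℚ), Ideal.inertiaDegIn_eq_inertiaDeg
      (Ideal.span {(q : ℤ)}) w.asIdeal Gal(N/ℚ)] at h1
    rw [Ideal.ramificationIdx'_eq_ramificationIdx (Ideal.span {(q : ℤ)}) w.asIdeal hq0,
      Ideal.inertiaDeg'_eq_inertiaDeg]
    exact ⟨_, by rw [← h1, mul_comm]⟩
  · have h1 := HeightOneSpectrum.valuation_liesOver (K := ℚ) N p w (q : ℚ)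
    rw [map_natCast (algebraMap ℚ N)] at h1
    rw [← h1]
    have h2 : p.valuation ℚ (q : ℚ) = exp (-1 : ℤ) := by
      have h3 : ((q : ℤ) : ℚ) = algebraMap ℤ ℚ (q : ℤ) := rfl
      rw [show (q : ℚ) = ((q : ℤ) : ℚ) by push_cast; rfl, h3, HeightOneSpectrum.valuation_of_algebraMap]
      exact HeightOneSpectrum.intValuation_singleton _ (by exact_mod_cast hq.ne_zero) rfl
    rw [h2, ← exp_nsmul]
    congr 1
    simp
    rfl
  · have := Ideal.absNorm_eq_pow_inertiaDeg' w.asIdeal hq
    rw [← this, Ideal.absNorm_apply, Submodule.cardQuot_apply]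

theorem odd_log {K N : Type} [Field K] [NumberField K] [Field N] [NumberField N] [Algebra K N]
    [IsGalois ℚ N] (hodd : Odd (Module.finrank ℚ N)) {q : ℕ} (hq : q.Prime)
    (w : HeightOneSpectrum (𝓞 K)) (hw : (q : 𝓞 K) ∈ w.asIdeal) :
    Odd (log (w.valuation K (q : K))) := by
  obtain ⟨W, e', he', -, hval, hmem⟩ := val_above (C := N) w
  have hW : (q : 𝓞 N) ∈ W.asIdeal := by
    have := (hmem q).1 (by exact_mod_cast hw)
    exact_mod_cast this
  obtain ⟨e, f, hd, he, -⟩ := Oa_gal hq W hW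
  have h1 := hval (q : K)
  rw [map_natCast, he] at h1
  have h2 := congrArg log h1
  rw [log_exp, log_pow, nsmul_eq_mul] at h2
  have h3 : Odd e := by
    have h4 : Odd (e * f) := Odd.of_dvd_nat hodd hd
    exact (Nat.odd_mul.1 h4).1
  have h5 : Odd (-(e : ℤ)) := by
    rw [odd_neg]
    exact_mod_cast h3
  rw [h2] at h5
  exact (Int.odd_mul.1 h5).2

theorem no_sqrt {K N : Type} [Field K] [NumberField K] [Field N] [NumberField N] [Algebra K N]
    [IsGalois ℚ N] (hodd : Odd (Module.finrank ℚ N)) {D : ℤ} (hD : D % 3 = 2)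
    (w : HeightOneSpectrum (𝓞 K)) (hw : (3 : 𝓞 K) ∈ w.asIdeal) (X : K) :
    1 ≤ w.valuation K (X ^ 2 - (D : K)) := by
  by_contra hlt
  rw [not_le] at hlt
  obtain ⟨W, e', he', -, hval, hmem⟩ := val_above (C := N) w
  have hW : ((3 : ℕ) : 𝓞 N) ∈ W.asIdeal := by
    have := (hmem 3).1 (by exact_mod_cast hw)
    exact_mod_cast this
  have hD1 : w.valuation K ((D : K) + 1) < 1 := by
    obtain ⟨k, hk⟩ : ∃ k : ℤ, D + 1 = 3 * k := ⟨(D + 1) / 3, by omega⟩
    have e1 : (D : K) + 1 = algebraMap (𝓞 K) K (3 * (k : 𝓞 K)) := by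
      rw [map_mul, map_intCast, map_ofNat]
      exact_mod_cast congrArg (Int.cast : ℤ → K) hk
    rw [e1, HeightOneSpectrum.valuation_lt_one_iff_mem]
    exact Ideal.mul_mem_right _ _ hw
  have h1 : w.valuation K (X ^ 2 + 1) < 1 := by
    have e1 : X ^ 2 + 1 = (X ^ 2 - (D : K)) + ((D : K) + 1) := by ring
    rw [e1]
    exact Valuation.map_add_lt _ hlt hD1
  have h2 : W.valuation N ((algebraMap K N X) ^ 2 + 1) < 1 := by
    have e1 : (algebraMap K N X) ^ 2 + 1 = algebraMap K N (X ^ 2 + 1) := by simp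
    rw [e1, hval]
    exact pow_lt_one₀ zero_le h1 (by omega)
  set Y := algebraMap K N X with hY
  have hY1 : W.valuation N Y ≤ 1 := by
    by_contra hc
    rw [not_le] at hc
    have h3 : 1 < W.valuation N (Y ^ 2) := by
      rw [map_pow]
      exact one_lt_pow₀ hc two_ne_zero
    have h4 : W.valuation N (Y ^ 2 + 1) = W.valuation N (Y ^ 2) := by
      apply Valuation.map_add_eq_of_lt_left
      rw [map_one]
      exact h3
    rw [h4] at h2
    exact absurd h3 (not_lt.2 h2.le)
  obtain ⟨n, ⟨d, hd⟩, hnd⟩ := HeightOneSpectrum.exists_primeCompl_mul_eq_of_integer W Y hY1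
  change d ∉ W.asIdeal at hd
  change Y * algebraMap (𝓞 N) N d = algebraMap (𝓞 N) N n at hnd
  have h5 : n ^ 2 + d ^ 2 ∈ W.asIdeal := by
    rw [← HeightOneSpectrum.valuation_lt_one_iff_mem (K := N)]
    have e1 : algebraMap (𝓞 N) N (n ^ 2 + d ^ 2) = (Y ^ 2 + 1) * algebraMap (𝓞 N) N d ^ 2 := by
      rw [map_add, map_pow, map_pow, ← hnd]
      ring
    change W.valuation N (algebraMap (𝓞 N) N (n ^ 2 + d ^ 2)) < 1
    rw [e1, map_mul]
    refine mul_lt_one_of_lt_of_le h2 ?_
    rw [map_pow]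
    exact pow_le_one₀ zero_le (W.valuation_le_one d)
  obtain ⟨e, f, hdv, -, hcard⟩ := Oa_gal Nat.prime_three W hW
  have hf : Odd f := (Nat.odd_mul.1 (Odd.of_dvd_nat hodd hdv)).2
  have hmax := W.isPrime.isMaximal W.ne_bot
  let _ := Ideal.Quotient.field W.asIdeal
  have hfin : Finite (𝓞 N ⧸ W.asIdeal) := Ring.HasFiniteQuotients.finiteQuotient W.ne_bot
  let _ := Fintype.ofFinite (𝓞 N ⧸ W.asIdeal)
  have hsq : IsSquare (-1 : 𝓞 N ⧸ W.asIdeal) := by
    have hd0 : Ideal.Quotient.mk W.asIdeal d ≠ 0 := by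
      rw [Ne, Ideal.Quotient.eq_zero_iff_mem]
      exact hd
    have h6 : Ideal.Quotient.mk W.asIdeal n ^ 2 + Ideal.Quotient.mk W.asIdeal d ^ 2 = 0 := by
      rw [← map_pow, ← map_pow, ← map_add, Ideal.Quotient.eq_zero_iff_mem]
      exact h5
    refine ⟨Ideal.Quotient.mk W.asIdeal n / Ideal.Quotient.mk W.asIdeal d, ?_⟩
    field_simp
    linear_combination -h6
  rw [FiniteField.isSquare_neg_one_iff] at hsq
  apply hsq
  rw [← Nat.card_eq_fintype_card, hcard]
  obtain ⟨m, rfl⟩ := hf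
  rw [pow_succ, pow_mul, Nat.mul_mod, Nat.pow_mod]
  norm_num

theorem no_sqrt_loc {K N : Type} [Field K] [NumberField K] [Field N] [NumberField N]
    [Algebra K N] [IsGalois ℚ N] (hodd : Odd (Module.finrank ℚ N)) {D : ℤ} (hD : D % 3 = 2)
    (w : HeightOneSpectrum (𝓞 K)) (hw : (3 : 𝓞 K) ∈ w.asIdeal) (X : w.adicCompletion K) :
    1 ≤ (Valued.v (X ^ 2 - (D : w.adicCompletion K)) : WithZero (Multiplicative ℤ)) := by
  by_contra hlt
  rw [not_le] at hlt
  have hD1 : (Valued.v (D : w.adicCompletion K) : WithZero (Multiplicative ℤ)) ≤ 1 := by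
    have e1 : (D : w.adicCompletion K) = ((D : K) : w.adicCompletion K) :=
      (map_intCast (algebraMap K (w.adicCompletion K)) D).symm
    rw [e1, HeightOneSpectrum.valuedAdicCompletion_eq_valuation',
      ← map_intCast (algebraMap (𝓞 K) K) D]
    exact w.valuation_le_one _
  have hX : (Valued.v X : WithZero (Multiplicative ℤ)) ≤ 1 := by
    by_contra hc
    rw [not_le] at hc
    have h3 : 1 < (Valued.v (X ^ 2) : WithZero (Multiplicative ℤ)) := by
      rw [map_pow]
      exact one_lt_pow₀ hc two_ne_zero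
    have h4 : (Valued.v (X ^ 2 - (D : w.adicCompletion K)) : WithZero (Multiplicative ℤ)) =
        Valued.v (X ^ 2) := by
      apply Valuation.map_sub_eq_of_lt_left
      exact lt_of_le_of_lt hD1 h3
    rw [h4] at hlt
    exact absurd h3 (not_lt.2 hlt.le)
  have hd := HeightOneSpectrum.denseRange_algebraMap (K := K) w
  have hopen : IsOpen {y : w.adicCompletion K | Valued.v (y - X) < (1 : WithZero (Multiplicative ℤ))} := by
    have h1 : IsOpen {y : w.adicCompletion K | Valued.v y < (1 : WithZero (Multiplicative ℤ))} := by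
      obtain ⟨t, ht⟩ := w.valuedAdicCompletion_surjective K (1 : WithZero (Multiplicative ℤ))
      have := Valued.isOpen_ball (w.adicCompletion K) (Valued.v.restrict t)
      simp_rw [Valuation.restrict_lt_iff] at this
      rwa [ht] at this
    exact h1.preimage (continuous_sub_right X)
  obtain ⟨k, hk⟩ := hd.exists_mem_open hopen ⟨X, by simp⟩
  have hk0 : Valued.v (algebraMap K (w.adicCompletion K) k - X) < (1 : WithZero (Multiplicative ℤ)) := hk
  have h5 := no_sqrt hodd hD w hw k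
  rw [← HeightOneSpectrum.valuedAdicCompletion_eq_valuation' (K := K)] at h5
  have e2 : ((k ^ 2 - (D : K) : K) : w.adicCompletion K) =
      (X ^ 2 - (D : w.adicCompletion K)) +
      (algebraMap K (w.adicCompletion K) k - X) * (algebraMap K (w.adicCompletion K) k + X) := by
    have e3 : ((k ^ 2 - (D : K) : K) : w.adicCompletion K) =
      (algebraMap K (w.adicCompletion K) k) ^ 2 - (D : w.adicCompletion K) := by
      change algebraMap K (w.adicCompletion K) (k ^ 2 - (D : K)) = _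
      rw [map_sub, map_pow, map_intCast]
    rw [e3]
    ring
  have hk1 : Valued.v (algebraMap K (w.adicCompletion K) k) ≤ (1 : WithZero (Multiplicative ℤ)) := by
    have h2 : algebraMap K (w.adicCompletion K) k =
        (algebraMap K (w.adicCompletion K) k - X) + X := by
      rw [sub_add_cancel]
    rw [h2]
    exact Valuation.map_add_le _ hk0.le hX
  rw [e2] at h5
  refine absurd h5 (not_le.2 (Valuation.map_add_lt _ hlt ?_))
  rw [map_mul]
  exact mul_lt_one_of_lt_of_le hk0 (Valuation.map_add_le _ hk1 hX)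

end H38T6
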