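import Pool.Agent.H38.T6.Bk
import Pool.Agent.H38.T6.Oa

/-!
Row Bd. (about 230 lines): places away from three.
Om := CyclotomicField 3 M (a number field; om in it with om^2 + om + 1 = 0), an F-algebra through M. Om/F is Galois: it is generated by t (M = F(t), degree three) and om, and it is the splitting field over F of g (X^2 + X + 1), g := minpoly of t (M/F normal). K2 := IntermediateField.adjoin F {om} in Om, [K2 : F] <= 2, so t is not in K2 (t has degree three over F). Om/K2 Galois, so there is tau in Gal(Om/K2) with tau t <> t.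
 s2 := (2 om + 1) s: s2^2 = -3 D; x := p + q s2; w := 2 q / (t^2 - c) (t^2 <> c: else p = -c t, t rational, as c <> 0...; precisely t^2 = c gives -2 c t = 2 p; if c = 0 then p = 0 and 3 D q^2 = 0, impossible; so t = -p/c is in F, contradiction); z := (t + w s2)/2. As in row Bb: w^2 s2^2 = t^2 - 4 c, z^3 = x, z (t - w s2)/2 = c, so z <> 0 (c <> 0: if c = 0 then p^2 = -3 D q^2 > 0...: c = 0 is possible? then p^2 = -3 D q^2 is a rational square: -3 D is a square, but ord_3 (-3 D) is odd as D % 3 = 2: impossible) and t = z + c / z. tau z: (tau z)^3 = tau x = x = z^3 (s2 in K2), so tau z = zeta z with zeta^3 = 1; zeta <> 1, otherwise tau t = t. So zeta^2 + zeta + 1 = 0, zeta = om or om^2, tau zeta = zeta.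
 Gal(Om/K2) = {1, tau, tau^2}: Om = K2(z) (t = z + c/z), every g in Gal(Om/K2) has g z = zeta^i z by the same argument ((g z)^3 = z^3, the cube roots of unity are powers of zeta). So an element fixed by tau is in K2. tau^3 = 1.
 W a place of Om over v (val_above F Om), V := W.valuation Om. V 3 = 1 (3 not in v). V (tau al) = V al: y = al^3 ep, tau y = y, V (ep) = V (tau ep) = 1 (integral with integral inverse), so V(tau al)^3 = V(al)^3; the same for tau^2.
 The unit u: j : F' -> Om the ring homomorphism with t' -> s2 (F' = Q(t'), t'^2 = s2^2), Algebra F' Om by j; val_below F' Om W: v', e'; log v'(p + q t') = 3 k, choose b0 in F' with v'(b0) = exp k (valuation_surjective), b := j b0, V(b)^3 = V(x) = V(z)^3, V b = V z. b = b1 + b2 s2 with rational b1, b2, so tau b = b. u := z / b: V u = 1, tau u = zeta u.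
 kummer_val: a in Om with tau a = a, V a = V al, so a = algebraMap of a' in K2. V (y) = V(al)^3 = V(a)^3.
 val_below K2 Om W: v2, e2: V = v2^e2 on K2: v2 (y) = v2 (a')^3 (powers are injective), so 3 | log v2(y). val_below F K2 v2: v1, e1 <= 2: v2 (y) = v1(y)^e1; v1 = v as both are the place of F below W (they contain the same integers; better: both ideals are the contraction of W: if val_below does not give this, prove it: V x < 1 iff v x < 1 iff v1 x < 1 for x in F, equivalent valuations on F give the same prime ideal: x in O_F is in v iff v x < 1). So 3 | e1 log v(y) with e1 in {1, 2}: 3 | log v(y).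
-/

set_option autoImplicit false
set_option linter.unusedSectionVars false
open scoped Classical

open IsDedekindDomain NumberField WithZero

namespace H38T6

/-- The compositum of a Galois extension and `K(√-3)` is normal. -/
theorem Bd_normal {K L C : Type} [Field K] [NumberField K] [Field L] [NumberField L] [Field C]
    [NumberField C] [Algebra K L] [Algebra L C] [Algebra K C] [IsScalarTower K L C]
    [IsGalois K L] {s : C} (hs : s ^ 2 = -3)
    (hgen : IntermediateField.adjoin L {s} = ⊤) : Normal K C := by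
  have hfd : FiniteDimensional K L := Module.Finite.of_restrictScalars_finite ℚ K L
  have hfd2 : FiniteDimensional K C := Module.Finite.of_restrictScalars_finite ℚ K C
  obtain ⟨T, hT₁, hT₂⟩ := IsGalois.is_separable_splitting_field K L
  have hT0 : T ≠ 0 := hT₁.ne_zero
  have hq0 : (Polynomial.X ^ 2 - Polynomial.C (-3) : Polynomial K) ≠ 0 :=
    (Polynomial.monic_X_pow_sub_C _ two_ne_zero).ne_zero
  have h0 : T * (Polynomial.X ^ 2 - Polynomial.C (-3)) ≠ 0 := mul_ne_zero hT0 hq0
  have h0' : (T * (Polynomial.X ^ 2 - Polynomial.C (-3))).map (algebraMap K C) ≠ 0 :=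
    (Polynomial.map_ne_zero_iff (algebraMap K C).injective).mpr h0
  have hsp : (T * (Polynomial.X ^ 2 - Polynomial.C (-3))).IsSplittingField K C := by
    rw [isSplittingField_iff_intermediateField] at hT₂ ⊢
    refine ⟨?_, ?_⟩
    · rw [Polynomial.map_mul]
      refine Polynomial.Splits.mul ?_ ?_
      · exact Polynomial.Splits.of_algHom hT₂.1 (IsScalarTower.toAlgHom K L C)
      · have h1 : (Polynomial.X ^ 2 - Polynomial.C (-3) : Polynomial K).map (algebraMap K C) =
            (Polynomial.X - Polynomial.C s) * (Polynomial.X - Polynomial.C (-s)) := by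
          have h2 : (Polynomial.C s * Polynomial.C s : Polynomial C) = Polynomial.C (-3) := by
            rw [← Polynomial.C_mul, ← hs, sq]
          rw [Polynomial.map_sub, Polynomial.map_pow, Polynomial.map_X, Polynomial.map_C, map_neg,
            map_ofNat, ← h2, Polynomial.C_neg]
          ring
        rw [h1]
        exact (Polynomial.Splits.X_sub_C _).mul (Polynomial.Splits.X_sub_C _)
    · rw [eq_top_iff]
      have hL : ∀ x : L, algebraMap L C x ∈ IntermediateField.adjoin K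
          ((T * (Polynomial.X ^ 2 - Polynomial.C (-3))).rootSet C) := by
        intro x
        have hx : x ∈ IntermediateField.adjoin K (T.rootSet L) := by
          rw [hT₂.2]
          trivial
        induction hx using IntermediateField.adjoin_induction with
        | mem x hx =>
          apply IntermediateField.subset_adjoin
          rw [Polynomial.mem_rootSet'] at hx ⊢
          refine ⟨h0', ?_⟩
          rw [map_mul, Polynomial.aeval_algebraMap_apply, hx.2, map_zero, zero_mul]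
        | algebraMap x =>
          rw [← IsScalarTower.algebraMap_apply]
          exact IntermediateField.algebraMap_mem _ _
        | add x y _ _ hx hy => rw [map_add]; exact add_mem hx hy
        | inv x _ hx => rw [map_inv₀]; exact inv_mem hx
        | mul x y _ _ hx hy => rw [map_mul]; exact mul_mem hx hy
      have hsm : s ∈ IntermediateField.adjoin K
          ((T * (Polynomial.X ^ 2 - Polynomial.C (-3))).rootSet C) := by
        apply IntermediateField.subset_adjoin
        rw [Polynomial.mem_rootSet']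
        refine ⟨h0', ?_⟩
        rw [map_mul, map_sub, map_pow, Polynomial.aeval_X, Polynomial.aeval_C, hs, map_neg,
          map_ofNat, sub_self, mul_zero]
      intro y _
      have hy : y ∈ IntermediateField.adjoin L {s} := by
        rw [hgen]
        trivial
      induction hy using IntermediateField.adjoin_induction with
      | mem x hx =>
        rw [Set.mem_singleton_iff.1 hx]
        exact hsm
      | algebraMap x => exact hL x
      | add x y _ _ hx hy => exact add_mem (hx trivial) (hy trivial)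
      | inv x _ hx => exact inv_mem (hx trivial)
      | mul x y _ _ hx hy => exact mul_mem (hx trivial) (hy trivial)
  exact Normal.of_isSplittingField (T * (Polynomial.X ^ 2 - Polynomial.C (-3)))

theorem Bd_L3 (L : Type) [Field L] [NumberField L] : ∃ s : CyclotomicField 3 L, s ^ 2 = -3 ∧
    IntermediateField.adjoin L {s} = ⊤ := by
  have hc : IsCyclotomicExtension {3} L (CyclotomicField 3 L) :=
    CyclotomicField.isCyclotomicExtension 3 L
  have hfin : FiniteDimensional L (CyclotomicField 3 L) :=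
    IsCyclotomicExtension.finiteDimensional {3} L _
  set C := CyclotomicField 3 L
  have hz := IsCyclotomicExtension.zeta_spec 3 L C
  set ζ := IsCyclotomicExtension.zeta 3 L C
  have hz1 : ζ ^ 2 + ζ + 1 = 0 := by
    have := hz.geom_sum_eq_zero (by norm_num)
    simp only [Finset.sum_range_succ, Finset.sum_range_zero, pow_zero, pow_one, zero_add] at this
    linear_combination this
  refine ⟨2 * ζ + 1, by linear_combination 4 * hz1, ?_⟩
  have h1 : IntermediateField.adjoin L {ζ} = ⊤ :=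
    (IntermediateField.adjoin_simple_eq_top_iff_of_isAlgebraic
      (Algebra.IsAlgebraic.isAlgebraic ζ)).2
      (IsCyclotomicExtension.adjoin_primitive_root_eq_top (n := 3) (A := L) (B := C) hz)
  rw [eq_top_iff, ← h1, IntermediateField.adjoin_simple_le_iff]
  have h2 : (2 * ζ + 1) ∈ IntermediateField.adjoin L {2 * ζ + 1} :=
    IntermediateField.mem_adjoin_simple_self L _
  have h3 : ((1 : L) / 2) • (2 * ζ + 1 - 1) ∈ IntermediateField.adjoin L {2 * ζ + 1} :=
    IntermediateField.smul_mem _ (sub_mem h2 (one_mem _))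
  have e : ((1 : L) / 2) • (2 * ζ + 1 - 1) = ζ := by
    rw [Algebra.smul_def, map_div₀, map_one, map_ofNat]
    ring
  rwa [e] at h3



/-- the automorphism of order three of the compositum with `F(√-3)` -/
theorem Bd_aut {F M Ω : Type} [Field F] [NumberField F] [Field M] [NumberField M] [Field Ω]
    [NumberField Ω] [Algebra F M] [Algebra M Ω] [Algebra F Ω] [IsScalarTower F M Ω]
    [IsGalois F M] (hM : Module.finrank F M = 3) {s : Ω} (hs : s ^ 2 = -3)
    (hgen : IntermediateField.adjoin M {s} = ⊤) {t : M} (hnt : ∀ x : F, algebraMap F M x ≠ t) :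
    ∃ τ : Ω ≃ₐ[F] Ω, τ s = s ∧ τ (algebraMap M Ω t) ≠ algebraMap M Ω t ∧
      (∀ m : M, τ (τ (τ (algebraMap M Ω m))) = algebraMap M Ω m) ∧
      Module.finrank F (IntermediateField.fixedField (Subgroup.zpowers τ)) ≤ 2 := by
  have hfd : FiniteDimensional F M := Module.Finite.of_restrictScalars_finite ℚ F M
  have hfd2 : FiniteDimensional F Ω := Module.Finite.of_restrictScalars_finite ℚ F Ω
  have hfd3 : FiniteDimensional M Ω := Module.Finite.of_restrictScalars_finite ℚ M Ω
  have hn : Normal F Ω := Bd_normal (K := F) (L := M) hs hgen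
  have h1 : ¬ ∀ f : M ≃ₐ[F] M, f t = t := by
    intro h
    obtain ⟨x, hx⟩ := (IsGalois.mem_range_algebraMap_iff_fixed (F := F) t).2 h
    exact hnt x hx
  push Not at h1
  obtain ⟨σ, hσ⟩ := h1
  have hσ3 : ∀ m : M, σ (σ (σ m)) = m := by
    intro m
    have hc : Nat.card (M ≃ₐ[F] M) = 3 := by
      rw [IsGalois.card_aut_eq_finrank, hM]
    have h2 : σ ^ 3 = 1 := by
      rw [← hc]
      exact pow_card_eq_one'
    have h3 := AlgEquiv.congr_fun h2 m
    rw [pow_succ, pow_two, AlgEquiv.mul_apply, AlgEquiv.mul_apply, AlgEquiv.one_apply] at h3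
    exact h3
  set τ₀ : Ω ≃ₐ[F] Ω := AlgEquiv.liftNormal σ Ω with hτ₀
  have hτM : ∀ m : M, τ₀ (algebraMap M Ω m) = algebraMap M Ω (σ m) := by
    intro m
    exact AlgEquiv.liftNormal_commutes σ Ω m
  have hτs : τ₀ s = s ∨ τ₀ s = -s := by
    apply sq_eq_sq_iff_eq_or_eq_neg.1
    rw [← map_pow, hs, map_neg, map_ofNat]
  have hτM2 : ∀ m : M, (τ₀ * τ₀) (algebraMap M Ω m) = algebraMap M Ω (σ (σ m)) := by
    intro m
    rw [AlgEquiv.mul_apply, hτM, hτM]
  have hτs2 : (τ₀ * τ₀) s = s := by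
    rw [AlgEquiv.mul_apply]
    rcases hτs with h | h
    · rw [h, h]
    · rw [h, map_neg, h, neg_neg]
  have hτM3 : ∀ m : M, (τ₀ * τ₀) ((τ₀ * τ₀) ((τ₀ * τ₀) (algebraMap M Ω m))) = algebraMap M Ω m := by
    intro m
    rw [hτM2, hτM2, hτM2, hσ3, hσ3]
  have hne : (τ₀ * τ₀) (algebraMap M Ω t) ≠ algebraMap M Ω t := by
    rw [hτM2]
    intro h
    have h2 := (algebraMap M Ω).injective h
    apply hσ
    have h3 := hσ3 t
    rw [h2] at h3
    exact h3
  refine ⟨τ₀ * τ₀, hτs2, hne, hτM3, ?_⟩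
  have hord : orderOf (τ₀ * τ₀) = 3 := by
    haveI : Fact (Nat.Prime 3) := ⟨Nat.prime_three⟩
    apply orderOf_eq_prime
    · refine AlgEquiv.ext fun y => ?_
      have hy : y ∈ IntermediateField.adjoin M {s} := by
        rw [hgen]
        trivial
      rw [pow_succ, pow_two, AlgEquiv.mul_apply, AlgEquiv.mul_apply, AlgEquiv.one_apply]
      induction hy using IntermediateField.adjoin_induction with
      | mem x hx => rw [Set.mem_singleton_iff.1 hx, hτs2, hτs2, hτs2]
      | algebraMap x => exact hτM3 x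
      | add x y _ _ hx hy => rw [map_add, map_add, map_add, hx, hy]
      | inv x _ hx => rw [map_inv₀, map_inv₀, map_inv₀, hx]
      | mul x y _ _ hx hy => rw [map_mul, map_mul, map_mul, hx, hy]
    · intro h
      apply hne
      rw [h, AlgEquiv.one_apply]
  have h3 : Module.finrank (IntermediateField.fixedField (Subgroup.zpowers (τ₀ * τ₀))) Ω = 3 := by
    rw [IntermediateField.finrank_fixedField_eq_card, Nat.card_zpowers, hord]
  have h4 : Module.finrank F (IntermediateField.fixedField (Subgroup.zpowers (τ₀ * τ₀))) *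
      Module.finrank (IntermediateField.fixedField (Subgroup.zpowers (τ₀ * τ₀))) Ω
        = Module.finrank F Ω := Module.finrank_mul_finrank _ _ _
  have h5 : Module.finrank F M * Module.finrank M Ω = Module.finrank F Ω :=
    Module.finrank_mul_finrank _ _ _
  have h6 : Module.finrank M Ω ≤ 2 := by
    have h7 : Module.finrank M (IntermediateField.adjoin M {s}) ≤ 2 := by
      rw [IntermediateField.adjoin.finrank (IsIntegral.of_finite M s)]
      have h8 : minpoly M s ∣ (Polynomial.X ^ 2 - Polynomial.C (-3) : Polynomial M) := by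
        apply minpoly.dvd
        rw [map_sub, map_pow, Polynomial.aeval_X, Polynomial.aeval_C, hs, map_neg, map_ofNat,
          sub_self]
      have h9 := Polynomial.natDegree_le_of_dvd h8
        (Polynomial.monic_X_pow_sub_C _ two_ne_zero).ne_zero
      rwa [Polynomial.natDegree_X_pow_sub_C] at h9
    rw [hgen, IntermediateField.finrank_top'] at h7
    exact h7
  rw [h3, ← h5, hM] at h4
  omega

/-- `-3 D` is not a rational square -/
theorem Bd_nsq {D : ℤ} (hD : D % 3 = 2) (b : ℚ) : b ^ 2 ≠ -3 * (D : ℚ) := by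
  intro h
  have h1 : IsSquare (((-3 * D : ℤ)) : ℚ) := ⟨b, by push_cast; rw [← h]; ring⟩
  rw [Rat.isSquare_intCast_iff] at h1
  obtain ⟨m, hm⟩ := h1
  have h2 : (3 : ℤ) ∣ m * m := ⟨-D, by rw [← hm]; ring⟩
  have h3 : (3 : ℤ) ∣ m := by
    rcases Int.prime_three.dvd_or_dvd h2 with h | h <;> exact h
  obtain ⟨k, hk⟩ := h3
  rw [hk] at hm
  have : D = -3 * (k * k) := by linarith
  omega

/-- the embedding of the quadratic field of `-3 D` -/
theorem Bd_emb {D : ℤ} (hD : D % 3 = 2) {F' Ω : Type} [Field F'] [NumberField F'] [Field Ω]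
    [CharZero Ω] {t' : F'} (ht' : t' ^ 2 = -3 * (D : F')) (hF' : Module.finrank ℚ F' = 2)
    {s : Ω} (hs : s ^ 2 = -3 * (D : Ω)) :
    ∃ j : F' →+* Ω, j t' = s ∧ ∀ τ : Ω →+* Ω, τ s = s → ∀ x, τ (j x) = j x := by
  have hirr : Irreducible (Polynomial.X ^ 2 - Polynomial.C (-3 * (D : ℚ)) : Polynomial ℚ) :=
    X_pow_sub_C_irreducible_of_prime Nat.prime_two (Bd_nsq hD)
  haveI : Fact (Irreducible (Polynomial.X ^ 2 - Polynomial.C (-3 * (D : ℚ)) : Polynomial ℚ)) :=
    ⟨hirr⟩
  have hfr : Module.finrank ℚ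
      (AdjoinRoot (Polynomial.X ^ 2 - Polynomial.C (-3 * (D : ℚ)) : Polynomial ℚ)) = 2 := by
    rw [(AdjoinRoot.powerBasis hirr.ne_zero).finrank, AdjoinRoot.powerBasis_dim,
      Polynomial.natDegree_X_pow_sub_C]
  haveI hfin : FiniteDimensional ℚ
      (AdjoinRoot (Polynomial.X ^ 2 - Polynomial.C (-3 * (D : ℚ)) : Polynomial ℚ)) :=
    Module.finite_of_finrank_pos (by rw [hfr]; norm_num)
  have hev : ∀ {K : Type} [Field K] [CharZero K] {u : K}, u ^ 2 = -3 * (D : K) →
      Polynomial.aeval u (Polynomial.X ^ 2 - Polynomial.C (-3 * (D : ℚ)) : Polynomial ℚ) = 0 := by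
    intro K _ _ u hu
    rw [map_sub, map_pow, Polynomial.aeval_X, Polynomial.aeval_C, hu, map_mul, map_neg,
      map_ofNat, map_intCast, sub_self]
  let φ : AdjoinRoot (Polynomial.X ^ 2 - Polynomial.C (-3 * (D : ℚ)) : Polynomial ℚ) →ₐ[ℚ] F' :=
    AdjoinRoot.liftAlgHom _ (Algebra.ofId ℚ F') t' (hev ht')
  let ψ : AdjoinRoot (Polynomial.X ^ 2 - Polynomial.C (-3 * (D : ℚ)) : Polynomial ℚ) →ₐ[ℚ] Ω :=
    AdjoinRoot.liftAlgHom _ (Algebra.ofId ℚ Ω) s (hev hs)
  have hφ : Function.Bijective φ := by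
    have h1 : Function.Injective φ := φ.toRingHom.injective
    refine ⟨h1, ?_⟩
    exact (LinearMap.injective_iff_surjective_of_finrank_eq_finrank (f := φ.toLinearMap)
      (by rw [hfr, hF'])).1 h1
  let e := AlgEquiv.ofBijective φ hφ
  have he : e.symm t' = AdjoinRoot.root _ := by
    rw [AlgEquiv.symm_apply_eq]
    have h1 : φ (AdjoinRoot.root _) = t' := AdjoinRoot.liftAlgHom_root _ _ _ _
    exact h1.symm
  refine ⟨(ψ.comp e.symm.toAlgHom).toRingHom, ?_, ?_⟩
  · change ψ (e.symm t') = s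
    rw [he]
    exact AdjoinRoot.liftAlgHom_root _ _ _ _
  · intro τ hτ x
    change τ (ψ (e.symm x)) = ψ (e.symm x)
    have h1 : (τ.toRatAlgHom).comp ψ = ψ := by
      apply AdjoinRoot.algHom_ext
      change τ (ψ (AdjoinRoot.root _)) = ψ (AdjoinRoot.root _)
      have h2 : ψ (AdjoinRoot.root _) = s := AdjoinRoot.liftAlgHom_root _ _ _ _
      rw [h2, hτ]
    exact AlgHom.congr_fun h1 (e.symm x)

theorem Bd_unit {M Ω : Type} [Field M] [NumberField M] [Field Ω] [NumberField Ω] [Algebra M Ω]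
    (W : HeightOneSpectrum (𝓞 Ω)) (g : Ω →+* Ω) (ε : (𝓞 M)ˣ) :
    W.valuation Ω (g (algebraMap M Ω ((ε : 𝓞 M) : M))) = 1 := by
  have h1 : ∀ r : 𝓞 M, W.valuation Ω (g (algebraMap M Ω (r : M))) ≤ 1 := by
    intro r
    have h2 : IsIntegral ℤ (g (algebraMap M Ω (r : M))) :=
      map_isIntegral_int g (map_isIntegral_int (algebraMap M Ω) r.isIntegral_coe)
    exact W.valuation_le_one (⟨_, h2⟩ : 𝓞 Ω)
  have h2 : W.valuation Ω (g (algebraMap M Ω ((ε : 𝓞 M) : M))) *
      W.valuation Ω (g (algebraMap M Ω (((ε⁻¹ : (𝓞 M)ˣ) : 𝓞 M) : M))) = 1 := by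
    rw [← map_mul, ← map_mul, ← map_mul]
    have h3 : (((ε : 𝓞 M) : M)) * ((((ε⁻¹ : (𝓞 M)ˣ) : 𝓞 M) : M)) = 1 := by
      rw [← map_mul (algebraMap (𝓞 M) M), Units.mul_inv, map_one]
    rw [h3, map_one, map_one, map_one]
  refine le_antisymm (h1 _) ?_
  rw [← h2]
  exact mul_le_of_le_one_right' (h1 _)

theorem Bd_main {D : ℤ} (hD : D % 3 = 2) {F M F' Ω : Type} [Field F] [NumberField F] [Field M]
    [NumberField M] [Field F'] [NumberField F'] [Field Ω] [NumberField Ω] [Algebra F M]
    [Algebra M Ω] [Algebra F Ω] [IsScalarTower F M Ω] [IsGalois F M]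
    (hM : Module.finrank F M = 3) {s3 : Ω} (hs3 : s3 ^ 2 = -3)
    (hgen : IntermediateField.adjoin M {s3} = ⊤) {s : F} (hs : s ^ 2 = (D : F)) {p q c : ℚ}
    (hc : p ^ 2 + 3 * D * q ^ 2 = c ^ 3) (hq : q ≠ 0) {t : M}
    (ht : t ^ 3 - 3 * algebraMap ℚ M c * t - 2 * algebraMap ℚ M p = 0)
    (hnt : ∀ x : F, algebraMap F M x ≠ t) {t' : F'} (ht' : t' ^ 2 = -3 * (D : F'))
    (hF' : Module.finrank ℚ F' = 2)
    (hval : ∀ v : HeightOneSpectrum (𝓞 F'),
      (3 : ℤ) ∣ log (v.valuation F' (algebraMap ℚ F' p + algebraMap ℚ F' q * t')))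
    {α : M} {y : F} {ε : (𝓞 M)ˣ} (hα : α ≠ 0) (hy : y ≠ 0)
    (h : algebraMap F M y = α ^ 3 * ((ε : 𝓞 M) : M)) (v : HeightOneSpectrum (𝓞 F))
    (hv : (3 : 𝓞 F) ∉ v.asIdeal) : (3 : ℤ) ∣ log (v.valuation F y) := by
  obtain ⟨τ, hτs, hτt, hτ3, hfr⟩ := Bd_aut hM hs3 hgen hnt
  have hfdFΩ : FiniteDimensional F Ω := Module.Finite.of_restrictScalars_finite ℚ F Ω
  set K2 := IntermediateField.fixedField (Subgroup.zpowers τ) with hK2
  haveI : FiniteDimensional ℚ K2 := FiniteDimensional.trans ℚ F K2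
  haveI : NumberField K2 := ⟨⟩
  obtain ⟨v2, e1, he1, he1', hv2, hv2n⟩ := val_above (K := F) (C := K2) v
  obtain ⟨W, e2, he2, _, hW, hWn⟩ := val_above (K := K2) (C := Ω) v2
  set V := W.valuation Ω with hV
  have h3W : (3 : 𝓞 Ω) ∉ W.asIdeal := by
    intro h
    apply hv
    have h1 := (hWn 3).2 (by exact_mod_cast h)
    have h2 := (hv2n 3).2 h1
    exact_mod_cast h2
  have hV3 : V 3 = 1 := by
    have := (W.valuation_eq_one_iff_notMem (K := Ω) (r := 3)).2 h3W
    rw [map_ofNat] at this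
    exact this
  -- the algebra
  have hD0 : D ≠ 0 := by
    rintro rfl
    norm_num at hD
  have hc0 : c ≠ 0 := by
    rintro rfl
    apply Bd_nsq hD (p / q)
    rw [div_pow, div_eq_iff (pow_ne_zero 2 hq)]
    linear_combination hc
  have hc' : (p : Ω) ^ 2 + 3 * (D : Ω) * (q : Ω) ^ 2 = (c : Ω) ^ 3 := by
    have := congrArg (fun x : ℚ => (x : Ω)) hc
    push_cast at this
    exact this
  have hqΩ : (q : Ω) ≠ 0 := by exact_mod_cast hq
  have hcΩ : (c : Ω) ≠ 0 := by exact_mod_cast hc0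
  set S : Ω := algebraMap F Ω s with hSdef
  have hS : S ^ 2 = (D : Ω) := by rw [hSdef, ← map_pow, hs, map_intCast]
  set s2 : Ω := s3 * S with hs2def
  have hs2 : s2 ^ 2 = -3 * (D : Ω) := by rw [hs2def, mul_pow, hs3, hS]
  have hτs2 : τ s2 = s2 := by rw [hs2def, map_mul, hτs, hSdef, τ.commutes]
  set T : Ω := algebraMap M Ω t with hTdef
  have hT : T ^ 3 - 3 * (c : Ω) * T - 2 * (p : Ω) = 0 := by
    have h1 := congrArg (algebraMap M Ω) ht
    rw [eq_ratCast, eq_ratCast, map_zero, map_sub, map_sub, map_mul, map_mul, map_mul, map_pow,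
      map_ofNat, map_ofNat, map_ratCast, map_ratCast] at h1
    exact h1
  have hTc : T ^ 2 - (c : Ω) ≠ 0 := by
    intro h1
    have h2 : T * (c : Ω) = -(p : Ω) := by linear_combination (-1 / 2 : Ω) * hT + (1 / 2 : Ω) * T * h1
    have h3 : T = ((-(p / c) : ℚ) : Ω) := by
      push_cast
      rw [← neg_div, eq_div_iff hcΩ]
      exact h2
    apply hnt ((-(p / c) : ℚ) : F)
    apply (algebraMap M Ω).injective
    rw [map_ratCast, map_ratCast, ← hTdef, h3]
  obtain ⟨w, hw⟩ : ∃ w : Ω, w * (T ^ 2 - (c : Ω)) = 2 * (q : Ω) :=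
    ⟨2 * (q : Ω) / (T ^ 2 - (c : Ω)), div_mul_cancel₀ _ hTc⟩
  have hw2 : w ^ 2 * s2 ^ 2 = T ^ 2 - 4 * (c : Ω) := by
    apply mul_right_cancel₀ (pow_ne_zero 2 hTc)
    linear_combination (s2 ^ 2 * (w * (T ^ 2 - (c : Ω)) + 2 * (q : Ω))) * hw + 4 * (q : Ω) ^ 2 * hs2
      - (T ^ 3 - 3 * (c : Ω) * T + 2 * (p : Ω)) * hT - 4 * hc'
  set z : Ω := (T + w * s2) / 2 with hz
  have hz3 : z ^ 3 = (p : Ω) + (q : Ω) * s2 := by
    rw [hz]
    linear_combination (1 / 8 : Ω) * ((3 * T + w * s2) * hw2 + 4 * hT + 4 * s2 * hw)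
  have hzz : z * ((T - w * s2) / 2) = (c : Ω) := by
    rw [hz]
    linear_combination (-1 / 4 : Ω) * hw2
  have hz0 : z ≠ 0 := by
    intro h1
    rw [h1, zero_mul] at hzz
    exact hcΩ hzz.symm
  have hTz : T = z + (c : Ω) / z := by
    have h1 : (c : Ω) / z = (T - w * s2) / 2 := by
      rw [div_eq_iff hz0, mul_comm]
      exact hzz.symm
    rw [h1, hz]
    ring
  have hτz : τ z ≠ z := by
    intro h1
    apply hτt
    rw [hTz, map_add, map_div₀ τ (c : Ω) z, h1, map_ratCast]
  have hx : τ ((p : Ω) + (q : Ω) * s2) = (p : Ω) + (q : Ω) * s2 := by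
    rw [map_add, map_mul, map_ratCast, map_ratCast, hτs2]
  set ζ : Ω := τ z / z with hζdef
  have hζz : τ z = ζ * z := by rw [hζdef, div_mul_cancel₀ _ hz0]
  have hζ3 : ζ ^ 3 = 1 := by
    rw [hζdef, div_pow, ← map_pow, hz3, hx, div_self]
    rw [← hz3]
    exact pow_ne_zero 3 hz0
  have hζ1 : ζ - 1 ≠ 0 := by
    intro h1
    apply hτz
    rw [hζz, sub_eq_zero.1 h1, one_mul]
  have hζ : ζ ^ 2 + ζ + 1 = 0 := by
    apply mul_left_cancel₀ hζ1
    linear_combination hζ3
  have hτζ : τ ζ = ζ := by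
    have h1 : 2 * ζ + 1 = s3 ∨ 2 * ζ + 1 = -s3 := by
      apply sq_eq_sq_iff_eq_or_eq_neg.1
      rw [hs3]
      linear_combination 4 * hζ
    have h2 : τ (2 * ζ + 1) = 2 * ζ + 1 := by
      rcases h1 with h1 | h1
      · rw [h1, hτs]
      · rw [h1, map_neg, hτs]
    rw [map_add, map_mul, map_ofNat, map_one] at h2
    linear_combination (1 / 2 : Ω) * h2
  -- the element `b`
  obtain ⟨j, hj, hjτ⟩ := Bd_emb hD ht' hF' hs2
  have hb : ∃ b : Ω, τ b = b ∧ b ≠ 0 ∧ V b = V z := by
    letI : Algebra F' Ω := j.toAlgebra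
    obtain ⟨v', e', he', _, hv', _⟩ := val_below (K := F') (C := Ω) W
    obtain ⟨k, hk⟩ := hval v'
    obtain ⟨π, hπ⟩ := v'.valuation_exists_uniformizer F'
    have hπ0 : π ≠ 0 := by
      rintro rfl
      rw [map_zero] at hπ
      exact WithZero.exp_ne_zero hπ.symm
    have hjx : j (algebraMap ℚ F' p + algebraMap ℚ F' q * t') = z ^ 3 := by
      rw [hz3, map_add, map_mul, hj, eq_ratCast, eq_ratCast, map_ratCast, map_ratCast]
    have hb0 : j (π ^ (-k)) ≠ 0 := by
      rw [map_ne_zero]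
      exact zpow_ne_zero _ hπ0
    refine ⟨j (π ^ (-k)), hjτ (τ : Ω →+* Ω) hτs2 _, hb0, ?_⟩
    have h1 : V (j (π ^ (-k))) = v'.valuation F' (π ^ (-k)) ^ e' := hv' _
    have h2 : V (z ^ 3) = v'.valuation F' (algebraMap ℚ F' p + algebraMap ℚ F' q * t') ^ e' := by
      rw [← hjx]
      exact hv' _
    have h3 : log (V (j (π ^ (-k)))) = (e' : ℤ) * k := by
      rw [h1, log_pow, map_zpow₀, log_zpow, hπ, log_exp, nsmul_eq_mul, smul_eq_mul]
      ring
    have h4 : 3 * log (V z) = (e' : ℤ) * (3 * k) := by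
      have h5 := congrArg log h2
      rw [map_pow, log_pow, log_pow, hk, nsmul_eq_mul, nsmul_eq_mul] at h5
      exact_mod_cast h5
    have h5 : log (V (j (π ^ (-k)))) = log (V z) := by
      rw [h3]
      linarith
    have h6 : V (j (π ^ (-k))) ≠ 0 := (Valuation.ne_zero_iff V).2 hb0
    have h7 : V z ≠ 0 := (Valuation.ne_zero_iff V).2 hz0
    rw [← exp_log h6, h5, exp_log h7]
  obtain ⟨b, hτb, hb0, hVb⟩ := hb
  have hu : τ (z / b) = ζ * (z / b) := by
    rw [map_div₀, hτb, hζz, mul_div_assoc]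
  have hVu : V (z / b) = 1 := by
    rw [map_div₀, hVb, div_self]
    exact (Valuation.ne_zero_iff V).2 hz0
  -- the element `α`
  set A : Ω := algebraMap M Ω α with hA
  have hA0 : A ≠ 0 := by
    rw [hA]
    exact (map_ne_zero _).2 hα
  set Y : Ω := algebraMap F Ω y with hY
  have hYA : Y = A ^ 3 * algebraMap M Ω ((ε : 𝓞 M) : M) := by
    rw [hY, IsScalarTower.algebraMap_apply F M Ω, h, map_mul, map_pow]
  have hτY : τ Y = Y := τ.commutes y
  have hVY : V Y = V A ^ 3 := by
    rw [hYA, map_mul, map_pow]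
    have := Bd_unit W (RingHom.id Ω) ε
    rw [RingHom.id_apply] at this
    rw [this, mul_one]
  have hVY1 : V Y = V (τ A) ^ 3 := by
    rw [← hτY, hYA, map_mul, map_mul, map_pow, map_pow]
    have : V (τ (algebraMap M Ω ((ε : 𝓞 M) : M))) = 1 := Bd_unit W (τ : Ω →+* Ω) ε
    rw [this, mul_one]
  have hVY2 : V Y = V (τ (τ A)) ^ 3 := by
    rw [← hτY, ← hτY, hYA, map_mul, map_mul, map_mul, map_pow, map_pow, map_pow]
    have : V (τ (τ (algebraMap M Ω ((ε : 𝓞 M) : M)))) = 1 :=
      Bd_unit W ((τ : Ω →+* Ω).comp (τ : Ω →+* Ω)) ε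
    rw [this, mul_one]
  have hinj : ∀ a b : WithZero (Multiplicative ℤ), a ≠ 0 → b ≠ 0 → a ^ 3 = b ^ 3 → a = b := by
    intro a b ha hb hab
    have h1 := congrArg log hab
    rw [log_pow, log_pow, nsmul_eq_mul, nsmul_eq_mul] at h1
    have h2 : log a = log b := by
      push_cast at h1
      linarith
    rw [← exp_log ha, h2, exp_log hb]
  have hVA0 : V A ≠ 0 := (Valuation.ne_zero_iff V).2 hA0
  have hτA0 : τ A ≠ 0 := (map_ne_zero τ).2 hA0
  have hττA0 : τ (τ A) ≠ 0 := (map_ne_zero τ).2 hτA0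
  have h1 : V (τ A) = V A :=
    hinj _ _ ((Valuation.ne_zero_iff V).2 hτA0) hVA0 (hVY1.symm.trans hVY)
  have h2 : V (τ (τ A)) = V A :=
    hinj _ _ ((Valuation.ne_zero_iff V).2 hττA0) hVA0 (hVY2.symm.trans hVY)
  obtain ⟨a, ha, hVa⟩ := kummer_val V τ.toRingEquiv (ζ := ζ) (u := z / b) (α := A) hV3 hζ hτζ hu hVu
    (hτ3 α) h1 h2
  -- descent
  have haK : a ∈ K2 := by
    rw [hK2, IntermediateField.mem_fixedField_iff]
    have h3 : Subgroup.zpowers τ ≤ MulAction.stabilizer (Ω ≃ₐ[F] Ω) a := by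
      rw [Subgroup.zpowers_le, MulAction.mem_stabilizer_iff, AlgEquiv.smul_def]
      exact ha
    intro f hf
    have := h3 hf
    rwa [MulAction.mem_stabilizer_iff, AlgEquiv.smul_def] at this
  have h3 : V Y = v2.valuation K2 (algebraMap F K2 y) ^ e2 := by
    rw [← hW, hY]
    rfl
  have h4 : V a = v2.valuation K2 (⟨a, haK⟩ : K2) ^ e2 := by
    rw [← hW]
    rfl
  have h5 : (e2 : ℤ) * (e1 * log (v.valuation F y)) =
      3 * ((e2 : ℤ) * log (v2.valuation K2 (⟨a, haK⟩ : K2))) := by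
    have h6 : V Y = V a ^ 3 := by rw [hVY, hVa]
    rw [h3, h4, hv2] at h6
    have h7 := congrArg log h6
    rw [log_pow, log_pow, log_pow, log_pow, nsmul_eq_mul, nsmul_eq_mul, nsmul_eq_mul,
      nsmul_eq_mul] at h7
    push_cast at h7
    exact h7
  have h6 : (e1 : ℤ) * log (v.valuation F y) = 3 * log (v2.valuation K2 (⟨a, haK⟩ : K2)) := by
    have he2' : (e2 : ℤ) ≠ 0 := by omega
    apply mul_left_cancel₀ he2'
    rw [h5]
    ring
  have he1'' : e1 ≤ 2 := he1'.trans hfr
  have h7 : e1 = 1 ∨ e1 = 2 := by omega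
  rcases h7 with h7 | h7
  · rw [h7] at h6
    push_cast at h6
    omega
  · rw [h7] at h6
    push_cast at h6
    omega

theorem away {D : ℤ} (hD : D % 3 = 2) {F M F' : Type} [Field F] [NumberField F] [Field M]
    [NumberField M] [Field F'] [NumberField F'] [Algebra F M] [IsGalois F M]
    (hM : Module.finrank F M = 3) {s : F} (hs : s ^ 2 = (D : F)) {p q c : ℚ}
    (hc : p ^ 2 + 3 * D * q ^ 2 = c ^ 3) (hq : q ≠ 0) {t : M}
    (ht : t ^ 3 - 3 * algebraMap ℚ M c * t - 2 * algebraMap ℚ M p = 0)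
    (hnt : ∀ x : F, algebraMap F M x ≠ t) {t' : F'} (ht' : t' ^ 2 = -3 * (D : F'))
    (hF' : Module.finrank ℚ F' = 2)
    (hval : ∀ v : HeightOneSpectrum (𝓞 F'),
      (3 : ℤ) ∣ log (v.valuation F' (algebraMap ℚ F' p + algebraMap ℚ F' q * t')))
    {α : M} {y : F} {ε : (𝓞 M)ˣ} (hα : α ≠ 0) (hy : y ≠ 0)
    (h : algebraMap F M y = α ^ 3 * ((ε : 𝓞 M) : M)) (v : HeightOneSpectrum (𝓞 F))
    (hv : (3 : 𝓞 F) ∉ v.asIdeal) : (3 : ℤ) ∣ log (v.valuation F y) := by
  obtain ⟨s3, hs3, hgen⟩ := Bd_L3 M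
  exact Bd_main hD hM hs3 hgen hs hc hq ht hnt ht' hF' hval hα hy h v hv

end H38T6
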