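import Pool.Agent.H38.T6.Oa

/-!
Row Be. (about 170 lines): places above three.
W a place of M over v (val_above), V := W.valuation M. tau a generator of Gal(M/F) (order three), t0 := t, t1 := tau t, t2 := tau^2 t are distinct (t not in F) and are the roots of g = X^3 - 3 c X - 2 p in M: X^3 - 3 c X - 2 p = (X - t0)(X - t1)(X - t2) (three distinct roots of a monic cubic). For each j: 1, t_j, t_j^2 is a basis of M over F (F(t_j) = M, degree three): al = f_j(t_j) with f_j = a_j + b_j X + c_j X^2, coefficients in F.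
 For rational r: V (r - t0) V (r - t1) V (r - t2) = V (g(r)). V (x) for rational x with padicNorm 3 x <= 3^-k: V x <= exp (-k) (V x = V(3)^ord, V 3 <= exp (-1) as 3 in v; use x = 3^k * (3-integral)). Choose k with exp(-k) small; by happ r with V (g(r)) <= exp (-3 k'): for some j V (r - t_j) <= exp (-k').
 f_j(r) - f_j(t_j) = (r - t_j)(b_j + c_j (r + t_j)), V r <= max 1 (V t_j): so V (f_j(r) - al) <= exp (-k') C with C independent of r, k' (take the maximum over j). For k' large this is < V al, so V (f_j(r)) = V al, a := f_j(r) in F.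
 V y = V(al)^3 (V ep = 1: ep and its inverse are integral) = V(a)^3, so v(y)^e = v(a)^(3 e) and v y = v(a)^3: 3 | log v(y).
-/

set_option autoImplicit false
set_option linter.unusedSectionVars false
open scoped Classical

open IsDedekindDomain NumberField WithZero

namespace H38T6

theorem Be_lt_one {x : WithZero (Multiplicative ℤ)} (hx : x < 1) : x ≤ exp (-1 : ℤ) := by
  rcases eq_or_ne x 0 with rfl | h
  · exact zero_le
  · rw [← exp_log h] at hx ⊢
    rw [← exp_zero, exp_lt_exp] at hx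
    rw [exp_le_exp]
    omega

theorem Be_nat {M : Type} [Field M] [NumberField M] {W : HeightOneSpectrum (𝓞 M)}
    (h3 : (3 : 𝓞 M) ∈ W.asIdeal) {n : ℕ} (hn : ¬ 3 ∣ n) : W.valuation M (n : M) = 1 := by
  have h1 := W.valuation_le_one (K := M) (n : 𝓞 M)
  have h2 : ¬ W.valuation M (algebraMap (𝓞 M) M (n : 𝓞 M)) < 1 := by
    rw [W.valuation_lt_one_iff_mem (K := M) (n : 𝓞 M)]
    intro h4
    have hc : Nat.Coprime 3 n := (Nat.Prime.coprime_iff_not_dvd Nat.prime_three).2 hn
    obtain ⟨u, v, huv⟩ := Nat.isCoprime_iff_coprime.2 hc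
    have h5 : (1 : 𝓞 M) ∈ W.asIdeal := by
      have h6 : ((u * (3 : ℕ) + v * n : ℤ) : 𝓞 M) ∈ W.asIdeal := by
        push_cast
        exact Ideal.add_mem _ (Ideal.mul_mem_left _ _ h3) (Ideal.mul_mem_left _ _ h4)
      rw [huv] at h6
      exact_mod_cast h6
    exact W.isPrime.ne_top ((Ideal.eq_top_iff_one _).2 h5)
  have h3' : W.valuation M (algebraMap (𝓞 M) M (n : 𝓞 M)) = 1 := le_antisymm h1 (not_lt.1 h2)
  rwa [map_natCast] at h3'

theorem Be_pow (k : ℕ) : padicNorm 3 ((3 : ℚ) ^ k) = padicNorm 3 (3 : ℚ) ^ k := by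
  have hF : Fact (Nat.Prime 3) := ⟨Nat.prime_three⟩
  induction k with
  | zero => simp
  | succ k ih => rw [pow_succ, padicNorm.mul, ih, pow_succ]

theorem Be_pad {M : Type} [Field M] [NumberField M] {W : HeightOneSpectrum (𝓞 M)}
    (h3 : (3 : 𝓞 M) ∈ W.asIdeal) {x : ℚ} {k : ℕ} (h : padicNorm 3 x ≤ (3 : ℚ) ^ (-(k : ℤ))) :
    W.valuation M (algebraMap ℚ M x) ≤ exp (-(k : ℤ)) := by
  have hF : Fact (Nat.Prime 3) := ⟨Nat.prime_three⟩
  obtain ⟨y, hy⟩ : ∃ y : ℚ, x = 3 ^ k * y := ⟨x / 3 ^ k, by field_simp⟩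
  have hy1 : padicNorm 3 y ≤ 1 := by
    rw [hy, padicNorm.mul] at h
    have h40 : padicNorm 3 (3 : ℚ) = (3 : ℚ)⁻¹ := by
      have := padicNorm.padicNorm_p (p := 3) (by norm_num)
      exact_mod_cast this
    have h4 : padicNorm 3 ((3 : ℚ) ^ k) = (3 : ℚ) ^ (-(k : ℤ)) := by
      rw [Be_pow k, h40, inv_pow, zpow_neg, zpow_natCast]
    rw [h4] at h
    have h5 : (0 : ℚ) < (3 : ℚ) ^ (-(k : ℤ)) := by positivity
    exact (mul_le_iff_le_one_right h5).1 h
  have hden : ¬ 3 ∣ y.den := by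
    intro h4
    have h5 : ¬ (3 : ℤ) ∣ y.num := by
      intro h6
      have h7 : 3 ∣ y.num.natAbs := by
        have := Int.natAbs_dvd_natAbs.2 h6
        exact_mod_cast this
      have h8 := Nat.dvd_gcd h7 h4
      rw [Nat.Coprime.gcd_eq_one y.reduced] at h8
      omega
    have h6 : padicNorm 3 y = padicNorm 3 (y.num : ℚ) / padicNorm 3 ((y.den : ℤ) : ℚ) := by
      rw [← padicNorm.div]
      congr 1
      rw [Int.cast_natCast]
      exact (Rat.num_div_den y).symm
    have h7 : padicNorm 3 (y.num : ℚ) = 1 := (padicNorm.int_eq_one_iff (p := 3) _).2 h5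
    have h8 : padicNorm 3 ((y.den : ℤ) : ℚ) < 1 :=
      (padicNorm.int_lt_one_iff (p := 3) _).2 (by exact_mod_cast h4)
    have h9 : 0 < padicNorm 3 ((y.den : ℤ) : ℚ) := by
      apply lt_of_le_of_ne (padicNorm.nonneg _)
      apply Ne.symm
      apply padicNorm.nonzero
      exact_mod_cast y.den_ne_zero
    rw [h6, h7, div_le_one h9] at hy1
    linarith
  have hVy : W.valuation M (algebraMap ℚ M y) ≤ 1 := by
    have h4 : algebraMap ℚ M y * (y.den : M) = (y.num : M) := by
      have h5 : y * (y.den : ℚ) = (y.num : ℚ) := Rat.mul_den_eq_num y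
      have h6 := congrArg (algebraMap ℚ M) h5
      rwa [map_mul, map_natCast, map_intCast] at h6
    have h5 := congrArg (W.valuation M) h4
    rw [map_mul, Be_nat h3 hden, mul_one] at h5
    rw [h5]
    have h6 := W.valuation_le_one (K := M) (y.num : 𝓞 M)
    have h7 : algebraMap (𝓞 M) M (y.num : 𝓞 M) = (y.num : M) := map_intCast _ _
    change W.valuation M (algebraMap (𝓞 M) M (y.num : 𝓞 M)) ≤ 1 at h6
    rwa [h7] at h6
  have hV3 : W.valuation M (3 : M) ≤ exp (-1 : ℤ) := by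
    apply Be_lt_one
    have h4 := (W.valuation_lt_one_iff_mem (K := M) (3 : 𝓞 M)).2 h3
    have h5 : algebraMap (𝓞 M) M (3 : 𝓞 M) = 3 := map_ofNat _ _
    change W.valuation M (algebraMap (𝓞 M) M (3 : 𝓞 M)) < 1 at h4
    rwa [h5] at h4
  rw [hy, map_mul, map_pow, map_ofNat, map_mul, map_pow]
  calc W.valuation M (3 : M) ^ k * W.valuation M (algebraMap ℚ M y)
      ≤ W.valuation M (3 : M) ^ k * 1 := by gcongr
    _ ≤ exp (-1 : ℤ) ^ k := by
      rw [mul_one]
      gcongr
    _ = exp (-(k : ℤ)) := by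
      rw [← exp_nsmul]
      congr 1
      simp

theorem Be_rep {F M : Type} [Field F] [Field M] [Algebra F M] [FiniteDimensional F M]
    (hM : Module.finrank F M = 3) {a b : F} {u : M}
    (hu : u ^ 3 = algebraMap F M a * u + algebraMap F M b)
    (hnt : ∀ x : F, algebraMap F M x ≠ u) (x : M) :
    ∃ p q r : F, x = algebraMap F M p + algebraMap F M q * u + algebraMap F M r * u ^ 2 := by
  have hso := IntermediateField.isSimpleOrder_of_finrank_prime F M (by
    rw [hM]
    exact Nat.prime_three)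
  have htop : Algebra.adjoin F {u} = ⊤ := by
    rcases hso.eq_bot_or_eq_top (IntermediateField.adjoin F {u}) with h | h
    · exfalso
      have h1 : u ∈ IntermediateField.adjoin F {u} :=
        IntermediateField.mem_adjoin_simple_self F u
      rw [h, IntermediateField.mem_bot] at h1
      obtain ⟨y, hy⟩ := h1
      exact hnt y hy
    · rw [← IntermediateField.adjoin_simple_toSubalgebra_of_isAlgebraic
        (IsAlgebraic.of_finite F u), h, IntermediateField.top_toSubalgebra]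
  have hx : x ∈ Algebra.adjoin F {u} := by
    rw [htop]
    exact Algebra.mem_top
  refine Algebra.adjoin_induction (p := fun x _ => ∃ p q r : F,
    x = algebraMap F M p + algebraMap F M q * u + algebraMap F M r * u ^ 2) ?_ ?_ ?_ ?_ hx
  · intro y hy
    rw [Set.mem_singleton_iff] at hy
    exact ⟨0, 1, 0, by rw [hy, map_zero, map_one]; ring⟩
  · intro y
    exact ⟨y, 0, 0, by rw [map_zero]; ring⟩
  · rintro _ _ _ _ ⟨p, q, r, rfl⟩ ⟨p', q', r', rfl⟩
    refine ⟨p + p', q + q', r + r', ?_⟩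
    simp only [map_add]
    ring
  · rintro _ _ _ _ ⟨p, q, r, rfl⟩ ⟨p', q', r', rfl⟩
    refine ⟨p * p' + b * (q * r' + r * q'), p * q' + q * p' + a * (q * r' + r * q') + b * r * r',
      p * r' + q * q' + r * p' + a * r * r', ?_⟩
    simp only [map_add, map_mul]
    linear_combination ((algebraMap F M q * algebraMap F M r' +
      algebraMap F M r * algebraMap F M q') + algebraMap F M r * algebraMap F M r' * u) * hu

theorem Be_one {M : Type} [Field M] [NumberField M] (W : HeightOneSpectrum (𝓞 M))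
    (u b c : M) {α : M} (hα : α ≠ 0) : ∃ k : ℕ, ∀ r : M, W.valuation M (r - u) ≤ exp (-(k : ℤ)) →
      W.valuation M ((r - u) * (b + c * (r + u))) < W.valuation M α := by
  set C : WithZero (Multiplicative ℤ) :=
    max 1 (max (W.valuation M b) (W.valuation M c * max 1 (W.valuation M u))) with hC
  have hC1 : 1 ≤ C := le_max_left _ _
  have hC0 : C ≠ 0 := by
    intro h
    rw [h] at hC1
    exact absurd hC1 (not_le.2 zero_lt_one)
  have hVα : W.valuation M α ≠ 0 := (Valuation.ne_zero_iff _).2 hα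
  obtain ⟨k, hk⟩ := exists_exp_neg_natCast_lt (x := W.valuation M α / C)
    (div_ne_zero hVα hC0)
  refine ⟨k, fun r hr => ?_⟩
  have hr1 : W.valuation M (r - u) ≤ 1 := by
    refine hr.trans ?_
    rw [← exp_zero, exp_le_exp]
    omega
  have h1 : W.valuation M (r + u) ≤ max 1 (W.valuation M u) := by
    have e : r + u = (r - u) + (u + u) := by ring
    rw [e]
    refine (Valuation.map_add _ _ _).trans (max_le (hr1.trans (le_max_left _ _)) ?_)
    refine (Valuation.map_add _ _ _).trans ?_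
    rw [max_self]
    exact le_max_right _ _
  have h2 : W.valuation M (b + c * (r + u)) ≤ C := by
    refine (Valuation.map_add _ _ _).trans (max_le ?_ ?_)
    · rw [hC]
      exact (le_max_left _ _).trans (le_max_right _ _)
    · rw [map_mul, hC]
      refine le_trans ?_ ((le_max_right _ _).trans (le_max_right _ _))
      gcongr
  rw [map_mul]
  calc W.valuation M (r - u) * W.valuation M (b + c * (r + u))
      ≤ exp (-(k : ℤ)) * C := by gcongr
    _ < W.valuation M α / C * C := by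
      have hCp : 0 < C := zero_lt_iff.2 hC0
      exact mul_lt_mul_of_pos_right hk hCp
    _ = W.valuation M α := div_mul_cancel₀ _ hC0

theorem Be_roots {F M : Type} [Field F] [Field M] [CharZero M] [Algebra F M]
    [FiniteDimensional F M] [IsGalois F M] (hM : Module.finrank F M = 3) {p c : M} {t : M}
    (hp : ∀ τ : M ≃ₐ[F] M, τ p = p) (hc : ∀ τ : M ≃ₐ[F] M, τ c = c)
    (ht : t ^ 3 - 3 * c * t - 2 * p = 0) (hnt : ∀ x : F, algebraMap F M x ≠ t) :
    ∃ t₁ t₂ : M, (∀ x : F, algebraMap F M x ≠ t₁) ∧ (∀ x : F, algebraMap F M x ≠ t₂) ∧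
      t₁ ^ 3 - 3 * c * t₁ - 2 * p = 0 ∧ t₂ ^ 3 - 3 * c * t₂ - 2 * p = 0 ∧
      ∀ r : M, r ^ 3 - 3 * c * r - 2 * p = (r - t) * (r - t₁) * (r - t₂) := by
  have h1 : ∃ τ : M ≃ₐ[F] M, τ t ≠ t := by
    by_contra hcon
    push Not at hcon
    obtain ⟨x, hx⟩ := (IsGalois.mem_range_algebraMap_iff_fixed (F := F) t).2 hcon
    exact hnt x hx
  obtain ⟨τ, hτ⟩ := h1
  have h3 : τ ^ 3 = 1 := by
    have h4 := pow_card_eq_one' (x := τ)
    rwa [IsGalois.card_aut_eq_finrank, hM] at h4
  have ht1 : (τ t) ^ 3 - 3 * c * (τ t) - 2 * p = 0 := by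
    have h4 := congrArg τ ht
    rw [map_sub, map_sub, map_mul, map_mul, map_mul, map_pow, hc, hp, map_ofNat, map_ofNat,
      map_zero] at h4
    exact h4
  have hne : τ t - t ≠ 0 := sub_ne_zero.2 hτ
  have hq : t ^ 2 + t * τ t + (τ t) ^ 2 = 3 * c := by
    apply mul_left_cancel₀ hne
    linear_combination ht1 - ht
  have h2p : 2 * p = t ^ 3 - 3 * c * t := by linear_combination -ht
  have hfac : ∀ r : M, r ^ 3 - 3 * c * r - 2 * p = (r - t) * (r - τ t) * (r - (-t - τ t)) := by
    intro r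
    rw [h2p, ← hq]
    ring
  refine ⟨τ t, -t - τ t, ?_, ?_, ht1, ?_, hfac⟩
  · intro x hx
    apply hnt x
    apply τ.injective
    rw [τ.commutes, hx]
  · intro x hx
    have h4 : τ t = -algebraMap F M x - t := by
      rw [hx]
      ring
    have h5 : τ (τ t) = t := by
      rw [h4, map_sub, map_neg, τ.commutes, h4]
      ring
    apply hτ
    have h6 : (τ ^ 3) t = t := by
      rw [h3]
      rfl
    have h7 : (τ ^ 3) t = τ (τ (τ t)) := rfl
    rw [h7, h5] at h6
    exact h6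
  · rw [hfac]
    ring

theorem at_three {F M : Type} [Field F] [NumberField F] [Field M]
    [NumberField M] [Algebra F M] [IsGalois F M] (hM : Module.finrank F M = 3) {p c : ℚ} {t : M}
    (ht : t ^ 3 - 3 * algebraMap ℚ M c * t - 2 * algebraMap ℚ M p = 0)
    (hnt : ∀ x : F, algebraMap F M x ≠ t)
    (happ : ∀ k : ℕ, ∃ r : ℚ, padicNorm 3 (r ^ 3 - 3 * c * r - 2 * p) ≤ (3 : ℚ) ^ (-(k : ℤ)))
    {α : M} {y : F} {ε : (𝓞 M)ˣ} (hα : α ≠ 0) (hy : y ≠ 0)
    (h : algebraMap F M y = α ^ 3 * ((ε : 𝓞 M) : M)) (v : HeightOneSpectrum (𝓞 F))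
    (hv : (3 : 𝓞 F) ∈ v.asIdeal) : (3 : ℤ) ∣ log (v.valuation F y) := by
  have hfd : FiniteDimensional F M := Module.finite_of_finrank_pos (by rw [hM]; norm_num)
  obtain ⟨W, e, he, -, hval, hmem⟩ := val_above (C := M) v
  have hW3 : (3 : 𝓞 M) ∈ W.asIdeal := by
    have h1 := (hmem 3).1 (by exact_mod_cast hv)
    exact_mod_cast h1
  have hQ : ∀ (x : ℚ), algebraMap F M (algebraMap ℚ F x) = algebraMap ℚ M x := fun x =>
    (IsScalarTower.algebraMap_apply ℚ F M x).symm
  obtain ⟨t₁, t₂, hnt₁, hnt₂, ht₁, ht₂, hfac⟩ := Be_roots hM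
    (p := algebraMap ℚ M p) (c := algebraMap ℚ M c)
    (fun τ => by rw [← hQ, τ.commutes]) (fun τ => by rw [← hQ, τ.commutes]) ht hnt
  have hj : ∀ u : M, u ^ 3 - 3 * algebraMap ℚ M c * u - 2 * algebraMap ℚ M p = 0 →
      (∀ x : F, algebraMap F M x ≠ u) → ∃ k : ℕ, ∀ r : ℚ,
        W.valuation M (algebraMap ℚ M r - u) ≤ exp (-(k : ℤ)) →
        ∃ a : F, W.valuation M (algebraMap F M a) = W.valuation M α := by
    intro u hu hnu
    obtain ⟨A, B, C, hABC⟩ := Be_rep hM (a := 3 * algebraMap ℚ F c) (b := 2 * algebraMap ℚ F p)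
      (u := u) (by
        rw [map_mul, map_mul, map_ofNat, map_ofNat, hQ, hQ]
        linear_combination hu) hnu α
    obtain ⟨k, hk⟩ := Be_one W u (algebraMap F M B) (algebraMap F M C) hα
    refine ⟨k, fun r hr => ⟨A + B * algebraMap ℚ F r + C * (algebraMap ℚ F r) ^ 2, ?_⟩⟩
    have h1 := hk _ hr
    have e1 : algebraMap F M (A + B * algebraMap ℚ F r + C * (algebraMap ℚ F r) ^ 2) =
        (algebraMap ℚ M r - u) * (algebraMap F M B + algebraMap F M C *
          (algebraMap ℚ M r + u)) + α := by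
      rw [map_add, map_add, map_mul, map_mul, map_pow, hQ, hABC]
      ring
    rw [e1, Valuation.map_add_eq_of_lt_right _ h1]
  obtain ⟨k₀, hk₀⟩ := hj t ht hnt
  obtain ⟨k₁, hk₁⟩ := hj t₁ ht₁ hnt₁
  obtain ⟨k₂, hk₂⟩ := hj t₂ ht₂ hnt₂
  obtain ⟨k, hk0, hk1, hk2⟩ : ∃ k : ℕ, k₀ ≤ k ∧ k₁ ≤ k ∧ k₂ ≤ k :=
    ⟨k₀ + k₁ + k₂, by omega, by omega, by omega⟩
  obtain ⟨r, hr⟩ := happ (3 * k)
  have h1 := Be_pad hW3 hr
  have e1 : algebraMap ℚ M (r ^ 3 - 3 * c * r - 2 * p) =
      (algebraMap ℚ M r - t) * (algebraMap ℚ M r - t₁) * (algebraMap ℚ M r - t₂) := by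
    rw [← hfac]
    simp only [map_sub, map_mul, map_pow, map_ofNat]
  rw [e1, map_mul, map_mul] at h1
  have ha : ∃ a : F, W.valuation M (algebraMap F M a) = W.valuation M α := by
    by_contra hcon
    have key : ∀ (k' : ℕ) (u : M), k' ≤ k → (∀ r : ℚ,
        W.valuation M (algebraMap ℚ M r - u) ≤ exp (-(k' : ℤ)) →
        ∃ a : F, W.valuation M (algebraMap F M a) = W.valuation M α) →
        exp (-(k : ℤ)) < W.valuation M (algebraMap ℚ M r - u) := by
      intro k' u hk' hu
      by_contra h2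
      rw [not_lt] at h2
      apply hcon
      apply hu r
      refine h2.trans ?_
      rw [exp_le_exp]
      omega
    have g0 := key k₀ t hk0 hk₀
    have g1 := key k₁ t₁ hk1 hk₁
    have g2 := key k₂ t₂ hk2 hk₂
    have h2 : exp (-(k : ℤ)) * exp (-(k : ℤ)) * exp (-(k : ℤ)) <
        W.valuation M (algebraMap ℚ M r - t) * W.valuation M (algebraMap ℚ M r - t₁) *
          W.valuation M (algebraMap ℚ M r - t₂) := by
      have hp : (0 : WithZero (Multiplicative ℤ)) < exp (-(k : ℤ)) := exp_pos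
      exact mul_lt_mul'' (mul_lt_mul'' g0 g1 zero_le zero_le) g2 zero_le zero_le
    have h3 : exp (-(k : ℤ)) * exp (-(k : ℤ)) * exp (-(k : ℤ)) = exp (-((3 * k : ℕ) : ℤ)) := by
      rw [← exp_add, ← exp_add]
      congr 1
      push_cast
      ring
    rw [h3] at h2
    exact absurd h1 (not_le.2 h2)
  obtain ⟨a, ha⟩ := ha
  have hε : W.valuation M ((ε : 𝓞 M) : M) = 1 := by
    have h2 : ((ε : 𝓞 M) : M) * (((ε⁻¹ : (𝓞 M)ˣ) : 𝓞 M) : M) = 1 := by
      have h3 : (ε : 𝓞 M) * ((ε⁻¹ : (𝓞 M)ˣ) : 𝓞 M) = 1 := by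
        rw [← Units.val_mul, mul_inv_cancel, Units.val_one]
      have h4 := congrArg (algebraMap (𝓞 M) M) h3
      rw [map_mul, map_one] at h4
      exact h4
    have h3 := congrArg (W.valuation M) h2
    rw [map_mul, map_one] at h3
    have h4 : W.valuation M ((ε : 𝓞 M) : M) ≤ 1 := W.valuation_le_one _
    have h5 : W.valuation M (((ε⁻¹ : (𝓞 M)ˣ) : 𝓞 M) : M) ≤ 1 := W.valuation_le_one _
    apply le_antisymm h4
    rw [← h3]
    exact mul_le_of_le_one_right' h5
  have h2 := congrArg (W.valuation M) h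
  rw [map_mul, map_pow, hε, mul_one, ← ha, hval, hval] at h2
  have h3 := congrArg log h2
  rw [log_pow, log_pow, log_pow] at h3
  simp only [nsmul_eq_mul, Nat.cast_ofNat] at h3
  refine ⟨log (v.valuation F a), ?_⟩
  have h4 : (e : ℤ) ≠ 0 := by exact_mod_cast (by omega : e ≠ 0)
  apply mul_left_cancel₀ h4
  rw [h3]
  ring

end H38T6
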