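import Mathlib

/-!
Row Bk. (about 80 lines): for i = 0, 1, 2 let P_i := al + z^(-i) tau al + z^(-2i) tau^2 al (z := zeta, z^3 = 1, so z^-1 = z^2). tau P_i = z^i P_i (tau z = z, tau^3 al = al), a_i := P_i / (3 u^i), tau a_i = a_i. al = a_0 + a_1 u + a_2 u^2 (because 1 + z + z^2 = 0 and 3 <> 0 as V 3 = 1). V (P_i) <= V al (V z = 1 since z^3 = 1), so V (a_i) <= V al; and V al <= max V (a_i) as V u = 1: so one of them has V (a_i) = V al.
-/

set_option autoImplicit false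
set_option linter.unusedSectionVars false
open scoped Classical


namespace H38T6

theorem kummer_val {L : Type} [Field L] (V : Valuation L (WithZero (Multiplicative ℤ)))
    (τ : L ≃+* L) (h3 : V 3 = 1) {ζ u α : L} (hζ : ζ ^ 2 + ζ + 1 = 0) (hτζ : τ ζ = ζ)
    (hu : τ u = ζ * u) (hVu : V u = 1) (h : τ (τ (τ α)) = α) (h1 : V (τ α) = V α)
    (h2 : V (τ (τ α)) = V α) : ∃ a : L, τ a = a ∧ V a = V α := by
  have hz3 : ζ ^ 3 = 1 := by linear_combination (ζ - 1) * hζ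
  have hζ0 : ζ ≠ 0 := by
    rintro rfl
    norm_num at hz3
  have h30 : (3 : L) ≠ 0 := by
    intro h0
    rw [h0, map_zero] at h3
    exact zero_ne_one h3
  have hu0 : u ≠ 0 := by
    rintro rfl
    rw [map_zero] at hVu
    exact zero_ne_one hVu
  have hVζ : V ζ = 1 := by
    have h4 : V ζ ^ 3 = 1 := by rw [← map_pow, hz3, map_one]
    exact (pow_eq_one_iff_left (by norm_num : (3 : ℕ) ≠ 0)).1 h4
  have hVζ2 : V (ζ ^ 2) = 1 := by rw [map_pow, hVζ, one_pow]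
  have hsum : ∀ c d : L, V c = 1 → V d = 1 → V (α + c * τ α + d * τ (τ α)) ≤ V α := by
    intro c d hc hd
    refine (V.map_add _ _).trans (max_le ((V.map_add _ _).trans (max_le le_rfl ?_)) ?_)
    · rw [map_mul, hc, one_mul, h1]
    · rw [map_mul, hd, one_mul, h2]
  have hP0 := hsum 1 1 (map_one V) (map_one V)
  have hP1 := hsum (ζ ^ 2) ζ hVζ2 hVζ
  have hP2 := hsum ζ (ζ ^ 2) hVζ hVζ2
  have hadd : (α + 1 * τ α + 1 * τ (τ α)) + (α + ζ ^ 2 * τ α + ζ * τ (τ α)) +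
      (α + ζ * τ α + ζ ^ 2 * τ (τ α)) = 3 * α := by
    linear_combination (τ α + τ (τ α)) * hζ
  have t0 : τ (α + 1 * τ α + 1 * τ (τ α)) = α + 1 * τ α + 1 * τ (τ α) := by
    simp only [map_add, map_mul, map_one, h]
    ring
  have t1 : τ (α + ζ ^ 2 * τ α + ζ * τ (τ α)) = ζ * (α + ζ ^ 2 * τ α + ζ * τ (τ α)) := by
    simp only [map_add, map_mul, map_pow, hτζ, h]
    linear_combination (-(τ α)) * hz3
  have t2 : τ (α + ζ * τ α + ζ ^ 2 * τ (τ α)) = ζ ^ 2 * (α + ζ * τ α + ζ ^ 2 * τ (τ α)) := by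
    simp only [map_add, map_mul, map_pow, hτζ, h]
    linear_combination (-(τ α) - ζ * τ (τ α)) * hz3
  generalize α + 1 * τ α + 1 * τ (τ α) = P0 at *
  generalize α + ζ ^ 2 * τ α + ζ * τ (τ α) = P1 at *
  generalize α + ζ * τ α + ζ ^ 2 * τ (τ α) = P2 at *
  by_cases c0 : V P0 = V α
  · refine ⟨P0 / 3, ?_, ?_⟩
    · rw [map_div₀, t0, map_ofNat]
    · rw [map_div₀, h3, div_one, c0]
  by_cases c1 : V P1 = V α
  · refine ⟨P1 / (3 * u), ?_, ?_⟩
    · rw [map_div₀, t1, map_mul, map_ofNat, hu]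
      field_simp
    · rw [map_div₀, map_mul, h3, hVu, one_mul, div_one, c1]
  by_cases c2 : V P2 = V α
  · refine ⟨P2 / (3 * u ^ 2), ?_, ?_⟩
    · rw [map_div₀, t2, map_mul, map_ofNat, map_pow, hu]
      field_simp
    · rw [map_div₀, map_mul, h3, map_pow, hVu, one_pow, one_mul, div_one, c2]
  exfalso
  have l0 := lt_of_le_of_ne hP0 c0
  have l1 := lt_of_le_of_ne hP1 c1
  have l2 := lt_of_le_of_ne hP2 c2
  have h5 : V (3 * α) < V α := by
    rw [← hadd]
    exact V.map_add_lt (V.map_add_lt l0 l1) l2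
  rw [map_mul, h3, one_mul] at h5
  exact lt_irrefl _ h5

end H38T6
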