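import Pool.Agent.H38.T6.Nc
import Pool.Agent.H38.T6.Def0

/-!
Row Nd. (about 150 lines): Hilbert 94.
tau <> 1 in Gal(M/F) (order three), u from exists_unit_one. Hilbert 90: there is al in M, al <> 0, with al = u tau(al): al := x + u tau x + u tau(u) tau^2 x is nonzero for some x (linear independence of the automorphisms 1, tau, tau^2: linearIndependent_monoidHom; the coefficients are nonzero), and u tau(al) = u tau x + u tau(u) tau^2 x + u tau(u) tau^2(u) x = al.
 y := al tau(al) tau^2(al), fixed by tau so in F (y = algebraMap y0). tau al = al / u, tau^2 al = al / (u tau u), y = al^3 / (u^2 tau u) = al^3 ep with ep := (u^2 tau u)^-1 a unit of O_M.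
 Suppose 3 | log v(y0) for all v. hC: y0 = z^3, z in F. e := z / al in M: e^3 = ep: e is integral over O_M and so is its inverse: e is a unit w of O_M; tau e = z / tau al = z u / al = u e, so u = tau e / e = w' / tau w' with w' := e^-1: contradiction. So some v has not 3 | log v(y0).
-/

set_option autoImplicit false
set_option linter.unusedSectionVars false
open scoped Classical

open IsDedekindDomain NumberField WithZero

namespace H38T6

private theorem nd_h90 {M : Type} [Field M] (τ : M ≃+* M) (h3 : ∀ x, τ (τ (τ x)) = x)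
    (hτ : ∃ x, τ x ≠ x) (u : M) (hu : u * τ u * τ (τ u) = 1) :
    ∃ α : M, α ≠ 0 ∧ α = u * τ α := by
  have hex : ∃ x : M, x + u * τ x + u * τ u * τ (τ x) ≠ 0 := by
    by_contra hcon
    push Not at hcon
    have hinj : Function.Injective (fun i : Fin 3 =>
        ((![RingHom.id M, (τ : M →+* M), (τ : M →+* M).comp (τ : M →+* M)] i : M →+* M) :
          M →* M)) := by
      obtain ⟨x, hx⟩ := hτ
      have h2 : τ (τ x) ≠ x := by
        intro h
        apply hx
        have h4 := h3 x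
        rw [h] at h4
        exact h4
      have h5 : τ x ≠ τ (τ x) := fun h => hx (τ.injective h).symm
      intro i j hij
      have h1 := DFunLike.congr_fun hij x
      fin_cases i <;> fin_cases j <;> first | rfl | exfalso
      · exact hx h1.symm
      · exact h2 h1.symm
      · exact hx h1
      · exact h5 h1
      · exact h2 h1
      · exact h5 h1.symm
    have hli := (linearIndependent_monoidHom M M).comp _ hinj
    rw [Fintype.linearIndependent_iff] at hli
    have h := hli ![1, u, u * τ u] (by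
      funext x
      rw [Fin.sum_univ_three]
      have h1 := hcon x
      simpa using h1) 0
    simp at h
  obtain ⟨x, hx⟩ := hex
  refine ⟨_, hx, ?_⟩
  rw [map_add, map_add, map_mul, map_mul, map_mul, h3]
  linear_combination (-x) * hu

theorem blockN {F M : Type} [Field F] [NumberField F] [Field M] [NumberField M]
    [Algebra F M] [IsGalois F M] (hM : Module.finrank F M = 3) (hfin : Finite (𝓞 F)ˣ)
    (hinf : ¬ Finite (𝓞 M)ˣ) (hz : ∀ z : F, z ^ 2 + z + 1 ≠ 0) (hC : Cub F) :
    ∃ (α : M) (y : F) (ε : (𝓞 M)ˣ), α ≠ 0 ∧ y ≠ 0 ∧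
      algebraMap F M y = α ^ 3 * ((ε : 𝓞 M) : M) ∧
      ∃ v : HeightOneSpectrum (𝓞 F), ¬ (3 : ℤ) ∣ log (v.valuation F y) := by
  have : FiniteDimensional F M := Module.Finite.of_restrictScalars_finite ℚ F M
  have hcard : Nat.card (M ≃ₐ[F] M) = 3 := by
    rw [IsGalois.card_aut_eq_finrank, hM]
  have hf3 : Fact (Nat.Prime 3) := ⟨Nat.prime_three⟩
  have hnt : Nontrivial (M ≃ₐ[F] M) := by
    have hfi : Finite (M ≃ₐ[F] M) := Nat.finite_of_card_ne_zero (by rw [hcard]; norm_num)
    rw [← Finite.one_lt_card_iff_nontrivial, hcard]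
    norm_num
  obtain ⟨τ, hτ⟩ := exists_ne (1 : M ≃ₐ[F] M)
  have hpow : τ ^ 3 = 1 := by
    rw [← hcard]
    exact pow_card_eq_one'
  have h3 : ∀ x, τ (τ (τ x)) = x := by
    intro x
    have h := DFunLike.congr_fun hpow x
    rw [pow_succ, pow_succ, pow_one, AlgEquiv.mul_apply, AlgEquiv.mul_apply,
      AlgEquiv.one_apply] at h
    exact h
  have hτx : ∃ x, τ x ≠ x := by
    by_contra hcon
    push Not at hcon
    exact hτ (AlgEquiv.ext hcon)
  obtain ⟨u, hu1, hu2⟩ := exists_unit_one hM hfin hinf hz τ hτ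
  obtain ⟨U, hU⟩ : ∃ U, U = ((u : 𝓞 M) : M) := ⟨_, rfl⟩
  have hU0 : U ≠ 0 := by
    intro h0
    rw [← hU, h0] at hu1
    simp at hu1
  have hτU0 : τ U ≠ 0 := (map_ne_zero τ).2 hU0
  rw [← hU] at hu1 hu2
  obtain ⟨α, hα0, hα⟩ := nd_h90 (τ : M ≃+* M) h3 hτx U hu1
  have hα' : α = U * τ α := hα
  have hτα : τ α = α / U := by
    rw [eq_div_iff hU0, mul_comm]
    exact hα'.symm
  have hττα : τ (τ α) = α / (U * τ U) := by
    rw [hτα, map_div₀, hτα, div_div]
  -- the norm of alpha
  have hfix : ∀ g : M ≃ₐ[F] M, g (α * τ α * τ (τ α)) = α * τ α * τ (τ α) := by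
    intro g
    obtain ⟨n, hn⟩ := mem_powers_of_prime_card hcard hτ (g' := g)
    have hn' : τ ^ n = g := hn
    rw [← hn']
    clear hn hn' g
    induction n with
    | zero => rfl
    | succ n ih =>
      rw [pow_succ, AlgEquiv.mul_apply]
      have h5 : τ (α * τ α * τ (τ α)) = α * τ α * τ (τ α) := by
        rw [map_mul, map_mul, h3]
        ring
      rw [h5, ih]
  have hrange : α * τ α * τ (τ α) ∈ Set.range (algebraMap F M) := by
    rw [IsGalois.mem_range_algebraMap_iff_fixed]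
    exact hfix
  obtain ⟨y, hy⟩ := hrange
  have hε' : ∃ ε : (𝓞 M)ˣ, ((ε : 𝓞 M) : M) = U ^ 2 * τ U := by
    refine ⟨u ^ 2 * Units.map (RingOfIntegers.mapRingHom (τ : M →+* M)).toMonoidHom u, ?_⟩
    rw [Units.val_mul, Units.val_pow_eq_pow_val]
    have e1 : ∀ a b : 𝓞 M, ((a ^ 2 * b : 𝓞 M) : M) = (a : M) ^ 2 * (b : M) := by
      intro a b
      push_cast
      rfl
    rw [e1, hU]
    rfl
  obtain ⟨ε, hε⟩ := hε'
  have hεinv : (((ε⁻¹ : (𝓞 M)ˣ) : 𝓞 M) : M) = (U ^ 2 * τ U)⁻¹ := by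
    have h1 : ((ε : 𝓞 M) : M) * (((ε⁻¹ : (𝓞 M)ˣ) : 𝓞 M) : M) = 1 := by
      rw [← map_mul, Units.mul_inv, map_one]
    rw [hε] at h1
    exact eq_inv_of_mul_eq_one_right h1
  have hyα : algebraMap F M y = α ^ 3 * (((ε⁻¹ : (𝓞 M)ˣ) : 𝓞 M) : M) := by
    rw [hεinv, hy, hττα, hτα]
    field_simp
  have hy0 : y ≠ 0 := by
    rintro rfl
    rw [map_zero] at hyα
    have h1 : (((ε⁻¹ : (𝓞 M)ˣ) : 𝓞 M) : M) ≠ 0 := by
      rw [hεinv]
      exact inv_ne_zero (mul_ne_zero (pow_ne_zero _ hU0) hτU0)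
    exact mul_ne_zero (pow_ne_zero _ hα0) h1 hyα.symm
  refine ⟨α, y, ε⁻¹, hα0, hy0, hyα, ?_⟩
  by_contra hcon
  push Not at hcon
  obtain ⟨z, hz3⟩ := hC y hy0 hcon
  have hz0 : z ≠ 0 := by
    rintro rfl
    apply hy0
    rw [hz3]
    ring
  have hZ0 : algebraMap F M z ≠ 0 := (map_ne_zero _).2 hz0
  have he3 : (algebraMap F M z / α) ^ 3 = (((ε⁻¹ : (𝓞 M)ˣ) : 𝓞 M) : M) := by
    rw [div_pow, ← map_pow, ← hz3, hyα]
    field_simp
  have he3' : (α / algebraMap F M z) ^ 3 = ((ε : 𝓞 M) : M) := by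
    have h1 : α / algebraMap F M z = (algebraMap F M z / α)⁻¹ := by rw [inv_div]
    rw [h1, inv_pow, he3, hεinv, inv_inv, hε]
  have hi1 : IsIntegral ℤ (algebraMap F M z / α) := by
    apply IsIntegral.of_pow (n := 3) (by norm_num)
    rw [he3]
    exact RingOfIntegers.isIntegral_coe _
  have hi2 : IsIntegral ℤ (α / algebraMap F M z) := by
    apply IsIntegral.of_pow (n := 3) (by norm_num)
    rw [he3']
    exact RingOfIntegers.isIntegral_coe _
  have hw : ∃ w : (𝓞 M)ˣ, ((w : 𝓞 M) : M) = α / algebraMap F M z := by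
    refine ⟨⟨⟨_, hi2⟩, ⟨_, hi1⟩, ?_, ?_⟩, rfl⟩
    · apply RingOfIntegers.ext
      show α / algebraMap F M z * (algebraMap F M z / α) = 1
      field_simp
    · apply RingOfIntegers.ext
      show algebraMap F M z / α * (α / algebraMap F M z) = 1
      field_simp
  obtain ⟨w, hw⟩ := hw
  apply hu2 w
  rw [hw, map_div₀, τ.commutes, hτα]
  field_simp

end H38T6
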