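import Pool.Agent.H38.T6.Ba
import Pool.Agent.H38.T6.Bb
import Pool.Agent.H38.T6.Bd
import Pool.Agent.H38.T6.Be
import Pool.Agent.H38.T6.Nd

/-!
Row Bz. (about 90 lines): the base theorem.
 q = 0: p <> 0, p^2 = c^3, cube_of_q0 and algebraMap. q <> 0: if g(x) := x^3 - 3 c x - 2 p has a rational root x: cube_of_root (D <> 0). Otherwise exists_cubic: F1, M, s, t (rename: the F of the statement is the field of t^2 = -3 D). Cub F1 := hC F1 s. hz for F1: z^2 + z + 1 = 0 gives (2 z + 1)^2 = -3 with x := 2 z + 1 = a + b s, a, b rational: x is not rational, so a = 0 (2 a b s = 0) and b^2 D = -3: the 3-adic valuation of b^2 D is even (3 does not divide D) and that of -3 is one: contradiction.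
 units_F, units_M, blockN: al, y, ep, v with not 3 | log v(y). If 3 in v: at_three with happ := approx ..; otherwise away with F' := F, t' := t. Contradiction.
-/

set_option autoImplicit false
set_option linter.unusedSectionVars false
open scoped Classical

open IsDedekindDomain NumberField WithZero

namespace H38T6

/-- `-3` is not of the form `D r^2` -/
lemma no_three {D : ℤ} (h3 : D % 3 = 2) (r : ℚ) : (D : ℚ) * r ^ 2 ≠ -3 := by
  intro h
  have hr : r ≠ 0 := by
    rintro rfl
    norm_num at h
  have hD : (D : ℚ) ≠ 0 := by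
    intro h0
    rw [h0, zero_mul] at h
    norm_num at h
  have : Fact (Nat.Prime 3) := ⟨Nat.prime_three⟩
  have h1 := congrArg (padicValRat 3) h
  rw [padicValRat.mul hD (pow_ne_zero 2 hr), padicValRat.pow, padicValRat.neg] at h1
  have h2 : padicValRat 3 (D : ℚ) = 0 := by
    rw [padicValRat.of_int, padicValInt.eq_zero_of_not_dvd (by omega)]
    rfl
  have h4 : padicValRat 3 (3 : ℚ) = 1 := by
    have := padicValRat.self (p := 3) (by norm_num)
    exact_mod_cast this
  rw [h2, h4] at h1
  push_cast at h1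
  omega

lemma coords {F : Type} [Field F] [NumberField F] {s : F} {D : ℤ} (hs : s ^ 2 = (D : F))
    (hF : Module.finrank ℚ F = 2) (hD : ∀ r : ℚ, r ^ 2 ≠ (D : ℚ)) (x : F) :
    ∃ a b : ℚ, x = algebraMap ℚ F a + algebraMap ℚ F b * s := by
  have hli : LinearIndependent ℚ ![(1 : F), s] := by
    rw [LinearIndependent.pair_iff]
    intro u v huv
    have hv : v = 0 := by
      by_contra hv
      apply hD (-u / v)
      have e : algebraMap ℚ F (-u / v) = s := by
        rw [Algebra.smul_def, Algebra.smul_def, mul_one] at huv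
        have hv' : algebraMap ℚ F v ≠ 0 := (map_ne_zero _).2 hv
        rw [map_div₀, map_neg, div_eq_iff hv']
        linear_combination -huv
      apply (algebraMap ℚ F).injective
      rw [map_pow, e, hs, map_intCast]
    subst hv
    rw [zero_smul, add_zero, Algebra.smul_def, mul_one] at huv
    exact ⟨(map_eq_zero _).1 huv, rfl⟩
  have htop := hli.span_eq_top_of_card_eq_finrank (by rw [hF]; rfl)
  have hx : x ∈ Submodule.span ℚ (Set.range ![(1 : F), s]) := by
    rw [htop]
    trivial
  rw [Matrix.range_cons, Matrix.range_cons, Matrix.range_empty, Set.union_empty,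
    Set.singleton_union, Submodule.mem_span_pair] at hx
  obtain ⟨a, b, h⟩ := hx
  refine ⟨a, b, ?_⟩
  rw [← h, Algebra.smul_def, Algebra.smul_def, mul_one]

theorem base {D : ℤ} (hD : D < 0) (h3 : D % 3 = 2) (hC : CubD D) {F : Type} [Field F]
    [NumberField F] {t : F} (ht : t ^ 2 = -3 * (D : F)) (hF : Module.finrank ℚ F = 2) {p q c : ℚ}
    (hc : p ^ 2 + 3 * D * q ^ 2 = c ^ 3) (hne : algebraMap ℚ F p + algebraMap ℚ F q * t ≠ 0)
    (hval : ∀ v : HeightOneSpectrum (𝓞 F),
      (3 : ℤ) ∣ log (v.valuation F (algebraMap ℚ F p + algebraMap ℚ F q * t)))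
    (hL : LC3 (algebraMap ℚ F p + algebraMap ℚ F q * t)) :
    ∃ z : F, algebraMap ℚ F p + algebraMap ℚ F q * t = z ^ 3 := by
  by_cases hq : q = 0
  · subst hq
    have hp : p ≠ 0 := by
      rintro rfl
      apply hne
      rw [map_zero, zero_mul, add_zero]
    obtain ⟨z, hz⟩ := cube_of_q0 (c := c) hp (by rw [← hc]; ring)
    refine ⟨algebraMap ℚ F z, ?_⟩
    rw [map_zero, zero_mul, add_zero, hz, map_pow]
  by_cases hr : ∃ x : ℚ, x ^ 3 - 3 * c * x - 2 * p = 0
  · obtain ⟨x, hx⟩ := hr
    exact cube_of_root hD.ne ht hc hq hx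
  · push Not at hr
    obtain ⟨F₁, M, _, _, _, _, _, s, τ, hG, hM, hF₁, hs, hτ, hnt⟩ := exists_cubic hD hc hq hr
    have hns : ∀ r : ℚ, r ^ 2 ≠ (D : ℚ) := by
      intro r h
      have h1 : (D : ℚ) < 0 := by exact_mod_cast hD
      nlinarith [sq_nonneg r]
    have hz : ∀ z : F₁, z ^ 2 + z + 1 ≠ 0 := by
      intro z hz
      obtain ⟨a, b, hab⟩ := coords hs hF₁ hns (2 * z + 1)
      have e1 : (2 * z + 1) ^ 2 = -3 := by linear_combination 4 * hz
      rw [hab] at e1
      have e2 : algebraMap ℚ F₁ (a ^ 2 + b ^ 2 * D + 3) + algebraMap ℚ F₁ (2 * a * b) * s = 0 := by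
        have e3 : (algebraMap ℚ F₁ a + algebraMap ℚ F₁ b * s) ^ 2 =
            algebraMap ℚ F₁ (a ^ 2) + algebraMap ℚ F₁ (b ^ 2) * s ^ 2 +
              algebraMap ℚ F₁ (2 * a * b) * s := by
          simp only [map_mul, map_pow, map_ofNat]
          ring
        rw [e3, hs] at e1
        simp only [map_add, map_mul, map_pow, map_ofNat, map_intCast] at e1 ⊢
        linear_combination e1
      have hab0 : 2 * a * b = 0 := by
        by_contra h0
        apply hns (-(a ^ 2 + b ^ 2 * D + 3) / (2 * a * b))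
        apply (algebraMap ℚ F₁).injective
        have h0' : algebraMap ℚ F₁ (2 * a * b) ≠ 0 := (map_ne_zero _).2 h0
        have e : algebraMap ℚ F₁ (-(a ^ 2 + b ^ 2 * D + 3) / (2 * a * b)) = s := by
          rw [map_div₀, map_neg, div_eq_iff h0']
          linear_combination -e2
        rw [map_pow, e, hs, map_intCast]
      rw [hab0, map_zero, zero_mul, add_zero, map_eq_zero] at e2
      have hab1 : a = 0 ∨ b = 0 := by
        rcases mul_eq_zero.1 hab0 with h | h
        · rcases mul_eq_zero.1 h with h' | h'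
          · norm_num at h'
          · exact Or.inl h'
        · exact Or.inr h
      rcases hab1 with h | h
      · subst h
        exact no_three h3 b (by linear_combination e2)
      · subst h
        nlinarith [sq_nonneg a]
    obtain ⟨α, y, ε, hα, hy, hαy, v, hv⟩ := blockN (F := F₁) (M := M) hM (units_F hD hs hF₁)
      (units_M hD hs hF₁ hM) hz (hC F₁ s hs hF₁)
    apply absurd _ hv
    by_cases h3v : (3 : 𝓞 F₁) ∈ v.asIdeal
    · exact at_three hM hτ hnt (approx h3 ht hF hc hne hL) hα hy hαy v h3v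
    · exact away h3 hM hs hc hq hτ hnt ht hF hval hα hy hαy v h3v

end H38T6
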