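import Pool.Agent.H38.T6.Def1
import Pool.Agent.H55.T3.K7

/-!
Row Da. (about 200 lines): the kernel valued cocycles when the field of the kernel has degree two.
Model: k7 in Pool/Agent/H55/T3/K7.lean (same set up with K := L there; copy its beginning, down to `hH`, word for word, with L, B and V' := V, V := V, the map L -> L the identity, or simply redo it for one field L) and noKr0_of in Xc.lean.
PROOF. f over L: locally trivial, kernel valued. j := jj L B, F := trans j (map_jj hLB) f, a cocycle on Gal(Om/L), Om = AlgebraicClosure B, kernel valued. kum3, loc3 over B for resF hLB f, k7_loc for FinM, K7_opp for the third hypothesis (as in k7). So H gives d = y^3, y in B, y nonzero.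
 r / y is a cube root of one z with z^3 = 1 (r^3 = d); ee_surj: T in Kr with ee T = z. For rho in Gal(Om/B): rho z / z = rho r / r = ee (F rho), and ee (act rho T - T) = rho z / z (ee_pm / Xa_ee in Xa.lean, s and b are fixed by rho), so F rho = act rho T - T (ee_inj): the restriction to Gal(Om/B) is the coboundary of T in Kr.
 K7_coc (K7.lean; used there in K7_one: copy that application, N = the kernel of the restriction to B, Q = the subgroup of the kernel points, c := F): T' in Kr with F tau = act tau T' - T' for all tau in Gal(Om/L).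
 Back to the closure of L: step (3) of k7 (pm of T' by j.symm; the value at tau). The result has Kr (kr_pm).
-/

set_option autoImplicit false
set_option linter.unusedSectionVars false
open scoped Classical

open WeierstrassCurve IsDedekindDomain NumberField WithZero Pool.Agent.H10 H55T3 Pool.Agent.H11

namespace H38T6

theorem krCob_twisted {L B : Type} [Field L] [NumberField L] [Field B] [NumberField B]
    [Algebra L B] [IsGalois L B] {V : WeierstrassCurve L} {D a b : L} (h : Is3 V D a b) {s : B}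
    (hs : s ^ 2 = algebraMap L B D) (h2 : Module.finrank L B = 2)
    (hgen : ∀ g : B ≃ₐ[L] B, g s = s → g = 1) (hneg : ∃ g : B ≃ₐ[L] B, g s = -s)
    (H : ∀ d : B, d ≠ 0 → FinSol3 B s (algebraMap L B a)
      (algebraMap L B (9 * b + 4 * D * a ^ 3)) d →
      FinM s D a (9 * b + 4 * D * a ^ 3) d →
      (∀ g : B ≃ₐ[L] B, g s = -s → ∃ y, g d * d = y ^ 3) → ∃ y, d = y ^ 3) : KrCob L V := by
  intro f hf hl hk
  obtain ⟨VB, hLB⟩ : ∃ VB, V.map (algebraMap L B) = VB := ⟨_, rfl⟩
  let j := jj L B
  obtain ⟨F, hFdef⟩ : ∃ F, F = Pool.Agent.H10.trans j (map_jj hLB) f := ⟨_, rfl⟩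
  have hFc : IsCoc (inv_up hLB) F := by
    rw [hFdef]
    exact isCoc_trans (jj L B) (map_jj hLB) (h' := inv_up hLB)
      ((Pool.Agent.H10.isCocycle_iff f).1 hf)
  have hFk : ∀ σ, Kr (F σ) := by
    intro σ
    rw [hFdef]
    exact (kr_pm _ _).2 (hk _)
  have hEL : Is3 (VB.baseChange (AlgebraicClosure B)) (algebraMap L (AlgebraicClosure B) D)
      (algebraMap L (AlgebraicClosure B) a) (algebraMap L (AlgebraicClosure B) b) :=
    h.up (map_up hLB)
  have hVB : Is3 VB (algebraMap L B D) (algebraMap L B a) (algebraMap L B b) := h.up hLB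
  let Q : AddSubgroup (VB.baseChange (AlgebraicClosure B)).toAffine.Point :=
    { carrier := {P | Kr P}
      zero_mem' := (kr_zero :
        Kr (0 : (VB.baseChange (AlgebraicClosure B)).toAffine.Point))
      add_mem' := by
        intro P P' hP hP'
        exact kr_add hEL hP hP'
      neg_mem' := by
        intro P hP
        exact kr_neg.2 hP }
  have hQ3 : ∀ x ∈ Q, 3 • x = 0 := fun x hx => kr_three hEL hx
  have hQa : ∀ τ : AlgebraicClosure B ≃ₐ[L] AlgebraicClosure B, ∀ x ∈ Q,
      Pool.Agent.H10.act (inv_up hLB) τ x ∈ Q := fun τ x hx => (kr_pm _ _).2 hx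
  -- the Kummer class
  have hcB := isCocycle_res hLB hf
  have hlB := isLocTriv_res hLB hf hl
  have hres : resF hLB f = fun ρ : AlgebraicClosure B ≃ₐ[B] AlgebraicClosure B =>
      F (ρ.restrictScalars L) := by
    rw [hFdef]
    rfl
  have hkB : ∀ σ, Kr (resF hLB f σ) := by
    intro σ
    rw [hres]
    exact hFk _
  obtain ⟨r, d, hr, hd0, hd, hr'⟩ := kum3 (k := B) (hVB.bc (AlgebraicClosure B)) hs (inv_bc B VB)
    ((Pool.Agent.H10.isCocycle_iff _).1 hcB) hkB
  have hfin := loc3 hVB hs hlB hkB hr hd hr'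
  have hc : 9 * algebraMap L B b + 4 * algebraMap L B D * (algebraMap L B a) ^ 3 =
      algebraMap L B (9 * b + 4 * D * a ^ 3) := by
    simp only [map_add, map_mul, map_pow, map_ofNat]
  rw [hc] at hfin
  have hr2 : ∀ τ : AlgebraicClosure B ≃ₐ[B] AlgebraicClosure B,
      τ r = ee (algebraMap B (AlgebraicClosure B) s) (algebraMap L (AlgebraicClosure B) b)
        (F (τ.restrictScalars L)) * r := by
    intro τ
    have h1 := hr' τ
    rw [← IsScalarTower.algebraMap_apply L B (AlgebraicClosure B), hres] at h1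
    exact h1
  have hfinM := k7_loc h hLB hs hgen hl hk hr hd (by
    intro τ
    have h1 := hr2 τ
    rw [hFdef] at h1
    exact h1)
  have hopp : ∀ g0 : B ≃ₐ[L] B, g0 s = -s → ∃ y, g0 d * d = y ^ 3 := by
    intro g0 hg0
    obtain ⟨y, _, hy⟩ := K7_opp hEL hs (inv_up hLB) hFc hFk hr hd hr2 (lf g0)
      (by rw [lf_apply, hg0, map_neg])
    exact ⟨y, hy (g0 d) (lf_apply g0 d)⟩
  obtain ⟨y, hy⟩ := H d hd0 hfin hfinM hopp
  -- the cube root of unity
  have hEB := hVB.bc (AlgebraicClosure B)
  have hsE := Xa_hs hs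
  have hY0 : algebraMap B (AlgebraicClosure B) y ≠ 0 := by
    intro h0
    rw [hy, map_pow, h0, zero_pow three_ne_zero] at hd
    exact hr (pow_eq_zero_iff three_ne_zero |>.1 hd)
  obtain ⟨z, hz⟩ : ∃ z, r = z * algebraMap B (AlgebraicClosure B) y :=
    ⟨r / algebraMap B (AlgebraicClosure B) y, (div_mul_cancel₀ _ hY0).symm⟩
  have hz3 : z ^ 3 = 1 := by
    have h1 : z ^ 3 * (algebraMap B (AlgebraicClosure B) y) ^ 3 =
        1 * (algebraMap B (AlgebraicClosure B) y) ^ 3 := by
      rw [← mul_pow, ← hz, hd, hy, map_pow, one_mul]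
    exact mul_right_cancel₀ (pow_ne_zero 3 hY0) h1
  have hz0 : z ≠ 0 := by
    rintro rfl
    rw [zero_pow three_ne_zero] at hz3
    exact zero_ne_one hz3
  obtain ⟨T, hT, hTz⟩ := ee_surj hEB hsE hz3
  have hFB : ∀ ρ : AlgebraicClosure B ≃ₐ[B] AlgebraicClosure B,
      resF hLB f ρ = Pool.Agent.H10.act (inv_bc B VB) ρ T - T := by
    intro ρ
    have k2 : Kr (Pool.Agent.H10.act (inv_bc B VB) ρ T) := (kr_pm _ _).2 hT
    have k3 : Kr (Pool.Agent.H10.act (inv_bc B VB) ρ T - T) := by
      rw [sub_eq_add_neg]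
      exact kr_add hEB k2 (kr_neg.2 hT)
    apply ee_inj hEB hsE (hkB ρ) k3
    rw [sub_eq_add_neg, ee_add hEB hsE k2 (kr_neg.2 hT), ee_neg hEB hsE hT, Xa_ee, hTz]
    have e4 := hr' ρ
    rw [hz, map_mul, ρ.commutes] at e4
    rw [eq_comm, ← div_eq_mul_inv, div_eq_iff hz0]
    apply mul_right_cancel₀ hY0
    linear_combination e4
  -- the coboundary over L
  have hker : ∀ τ : AlgebraicClosure B ≃ₐ[L] AlgebraicClosure B,
      τ ∈ (AlgEquiv.restrictNormalHom (F := L) (K₁ := AlgebraicClosure B) B).ker ↔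
      ∀ x : B, τ (algebraMap B (AlgebraicClosure B) x) = algebraMap B (AlgebraicClosure B) x :=
    fun τ => K6a_ker τ
  have hcard : Nat.card (B ≃ₐ[L] B) = 2 := by
    rw [IsGalois.card_aut_eq_finrank, h2]
  obtain ⟨T', hT', H'⟩ := K7_coc (Dn_hom (inv_up hLB))
    ((AlgEquiv.restrictNormalHom (F := L) (K₁ := AlgebraicClosure B) B).ker :
      Set (AlgebraicClosure B ≃ₐ[L] AlgebraicClosure B))
    (fun σ τ hσ hτ => by
      rw [SetLike.mem_coe, MonoidHom.mem_ker] at hσ hτ ⊢
      rw [map_mul]
      exact Dn_two hcard hσ hτ)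
    (fun σ hσ => by
      rw [SetLike.mem_coe, inv_mem_iff]
      exact hσ)
    (fun ρ σ hρ hσ => by
      rw [SetLike.mem_coe, mul_mem_cancel_left hρ]
      exact hσ)
    (c := F) (fun σ τ => hFc.2 σ τ) Q hQ3 (fun σ x hx => hQa σ x hx) (fun σ => hFk σ)
    (T := T) hT
    (fun ρ hρ => by
      have h1 := hFB (K6a_mk ρ ((hker ρ).1 hρ))
      rw [hres] at h1
      exact h1)
  -- back to the closure of L
  refine ⟨pm (j.symm : AlgebraicClosure B →+* AlgebraicClosure L) (map_jj_symm hLB) T',
    (kr_pm _ _).2 hT', fun τ => ?_⟩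
  let τ' : AlgebraicClosure B ≃ₐ[L] AlgebraicClosure B := (j.symm.trans τ).trans j
  have hτ' : ∀ z, τ' z = j (τ (j.symm z)) := fun z => rfl
  have e1 : (j.trans τ').trans j.symm = τ := by
    refine AlgEquiv.ext fun y => ?_
    change j.symm (τ' (j y)) = τ y
    rw [hτ', j.symm_apply_apply, j.symm_apply_apply]
  have h1 : F τ' = Pool.Agent.H10.act (inv_up hLB) τ' T' - T' := H' τ'
  have hTT : pm (j : AlgebraicClosure L →+* AlgebraicClosure B) (map_jj hLB)
      (pm (j.symm : AlgebraicClosure B →+* AlgebraicClosure L) (map_jj_symm hLB) T') = T' := by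
    rw [pm_pm]
    exact pm_eq_self _ (fun x => j.apply_symm_apply x) T'
  have hFτ : F τ' = pm (j : AlgebraicClosure L →+* AlgebraicClosure B) (map_jj hLB) (f τ) := by
    rw [hFdef]
    unfold Pool.Agent.H10.trans
    rw [e1]
  apply pm_injective (j : AlgebraicClosure L →+* AlgebraicClosure B) (map_jj hLB)
  have h6 : pm (j : AlgebraicClosure L →+* AlgebraicClosure B) (map_jj hLB)
      (Pool.Agent.H10.act (inv_bc L V) τ
        (pm (j.symm : AlgebraicClosure B →+* AlgebraicClosure L) (map_jj_symm hLB) T')) =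
      Pool.Agent.H10.act (inv_up hLB) τ' T' := by
    unfold Pool.Agent.H10.act
    rw [pm_pm, pm_pm]
    apply pm_congr
    intro x
    change j (τ (j.symm x)) = τ' x
    rw [hτ']
  rw [← hFτ, h1, map_sub, h6, hTT]

end H38T6
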