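import Pool.Agent.H38.T6.Def1

/-!
Row Db. (about 130 lines): the group of points is divisible by three.
Model: three_divisible in Pool/Agent/H55/T3/Xd.lean and noKr_of_noKr0.
noKr_of_krCob: KrCob gives T with f = dT, isCobound_iff.
PROOF of div3. P in V(K), Om := AlgebraicClosure K, P_Om = 3 R (smul_surjective). g(sigma) := act sigma R - R: 3 g = 0, g is in ShaZ (a coboundary). pf o g (pf of V, W, D, a, b; pf_cocycle, pf_locTriv) is a locally trivial cocycle for W with values in Kr (kr_psF). H2: T2 in W(Om), Kr T2, pf (g sigma) = act sigma T2 - T2. psF_surj: T2 = pf R1; 3 R1 = 0 by three_of_kr. g - cbd R1 is a locally trivial cocycle for V, pf of its values is zero (pf_sub, pf_act), so its values are in Kr (psF_eq_zero).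
 H1: T3 in V(Om), Kr T3, g sigma - (act sigma R1 - R1) = act sigma T3 - T3. So R - R1 - T3 is fixed by all sigma: pm_descent (used at the end of three_divisible) gives Q in V(K) with image R - R1 - T3, and 3 Q has image 3 R - 3 R1 - 3 T3 = P_Om (kr_three); pm_injective.
finite_of_div3: V is elliptic (Is3.isElliptic). mordell_weil (Pool/Agent/H11/MW.lean or KD/Exz: find it with grep): V(K) is finitely generated; a finitely generated abelian group A with A = 3 A is finite: (A / torsion is free of finite rank r and divisible by three, so r = 0: Module.Free, a basis vector is not divisible by three; so A is torsion and finitely generated: finite). There may be a lemma in Exw.lean (fam1) for this.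
-/

set_option autoImplicit false
set_option linter.unusedSectionVars false
open scoped Classical

open WeierstrassCurve IsDedekindDomain NumberField WithZero Pool.Agent.H10 H55T3 Pool.Agent.H11

namespace H38T6

theorem noKr_of_krCob {K : Type} [Field K] [NumberField K] {V : WeierstrassCurve K}
    (H : KrCob K V) : NoKr K V := by
  intro f hf hl hk
  rw [Pool.Agent.H10.isCobound_iff]
  obtain ⟨T, -, hT⟩ := H f hf hl hk
  exact ⟨T, hT⟩

theorem div3_of {K : Type} [Field K] [NumberField K] {V W : WeierstrassCurve K} {D a b : K}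
    (h : Is3 V D a b) (h' : Is3 W (-3 * D) a (dl D a b)) (H1 : KrCob K V) (H2 : KrCob K W) :
    Div3 K V := by
  intro P
  have hL : V.map (algebraMap K (AlgebraicClosure K)) = V.baseChange (AlgebraicClosure K) := rfl
  have hE := h.bc (AlgebraicClosure K)
  have hEd := h'.bcd (AlgebraicClosure K)
  have hEE : (V.baseChange (AlgebraicClosure K)).IsElliptic := hE.isElliptic
  obtain ⟨R, hR⟩ := smul_surjective (V.baseChange (AlgebraicClosure K)) 3 three_ne_zero
    (pm (algebraMap K (AlgebraicClosure K)) hL P)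
  have hPinv : ∀ τ, act (inv_bc K V) τ (pm (algebraMap K (AlgebraicClosure K)) hL P) =
      pm (algebraMap K (AlgebraicClosure K)) hL P := by
    intro τ
    unfold Pool.Agent.H10.act
    rw [pm_pm]
    exact pm_congr _ _ (fun x => τ.commutes x) _
  let g : Coch K V := fun τ => act (inv_bc K V) τ R - R
  have hg3 : ∀ τ, 3 • g τ = 0 := by
    intro τ
    have h1 := hPinv τ
    rw [← hR, map_nsmul] at h1
    calc 3 • g τ = 3 • act (inv_bc K V) τ R - 3 • R := smul_sub _ _ _
      _ = 0 := by rw [h1, sub_self]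
  have hcob : IsCobound K V g := (Pool.Agent.H10.isCobound_iff _).mpr ⟨R, fun σ => rfl⟩
  have hZ : g ∈ ShaZ K V := shaB_le K V hcob
  obtain ⟨T2, hT2, hgT⟩ := H2 _ (pf_cocycle h h' hZ.1) (pf_locTriv h h' hZ.2)
    (fun σ => kr_psF hE hEd (hg3 σ))
  obtain ⟨R1, hR1⟩ := psF_surj hE hEd T2
  have h3R1 : 3 • R1 = 0 := three_of_kr hE hEd (by rw [hR1]; exact hT2)
  let f : Coch K V := fun τ => act (inv_bc K V) τ (R - R1) - (R - R1)
  have hcob2 : IsCobound K V f := (Pool.Agent.H10.isCobound_iff _).mpr ⟨R - R1, fun σ => rfl⟩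
  have hZ2 : f ∈ ShaZ K V := shaB_le K V hcob2
  have hR1' : pf V W D a b (AlgebraicClosure K) R1 = T2 := hR1
  have hk : ∀ σ, Kr (f σ) := by
    intro σ
    rw [← psF_eq_zero hE hEd]
    change pf V W D a b (AlgebraicClosure K) (act (inv_bc K V) σ (R - R1) - (R - R1)) = 0
    have e1 : pf V W D a b (AlgebraicClosure K) (act (inv_bc K V) σ R - R) =
        act (inv_bc K W) σ T2 - T2 := hgT σ
    rw [pf_sub h h', pf_act h h'] at e1
    rw [pf_sub h h', pf_act h h', pf_sub h h', hR1', map_sub]
    rw [sub_eq_sub_iff_add_eq_add] at e1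
    rw [sub_eq_zero, sub_eq_sub_iff_add_eq_add, e1]
    abel
  obtain ⟨T3, hT3, hfT⟩ := H1 f hZ2.1 hZ2.2 hk
  obtain ⟨Q, hQ⟩ := pm_descent (V := V) hL (inv_bc K V) (R - R1 - T3) (by
    intro σ
    rw [map_sub]
    have e : act (inv_bc K V) σ (R - R1) - (R - R1) = act (inv_bc K V) σ T3 - T3 := hfT σ
    rw [sub_eq_sub_iff_add_eq_add] at e ⊢
    rw [e]
    abel)
  refine ⟨Q, pm_injective (algebraMap K (AlgebraicClosure K)) hL ?_⟩
  rw [map_nsmul, hQ, nsmul_sub, nsmul_sub, hR, h3R1, kr_three hE hT3, sub_zero, sub_zero]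

theorem Db_fin {A : Type*} [AddCommGroup A] (hA : AddGroup.FG A)
    (h : ∀ P : A, ∃ Q : A, P = 3 • Q) : Finite A := by
  have hm : Module.Finite ℤ A := Module.Finite.iff_addGroup_fg.2 hA
  obtain ⟨r, hr, hr2⟩ := Submodule.exists_sub_one_mem_and_smul_eq_zero_of_fg_of_le_smul
    (Ideal.span {(3 : ℤ)}) (⊤ : Submodule ℤ A) hm.1 (by
      intro P _
      obtain ⟨Q, rfl⟩ := h P
      have e : (3 : ℕ) • Q = (3 : ℤ) • Q := by
        rw [← natCast_zsmul]; rfl
      rw [e]
      exact Submodule.smul_mem_smul (Ideal.mem_span_singleton_self 3) trivial)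
  have hr0 : r ≠ 0 := by
    rintro rfl
    rw [Ideal.mem_span_singleton] at hr
    omega
  exact AddCommGroup.finite_of_fg_isAddTorsion A
    (fun a => isOfFinAddOrder_iff_zsmul_eq_zero.2 ⟨r, hr0, hr2 a trivial⟩)

theorem finite_of_div3 {K : Type} [Field K] [NumberField K] {V : WeierstrassCurve K} {D a b : K}
    (h : Is3 V D a b) (H : Div3 K V) : Finite V.toAffine.Point := by
  have hE : V.IsElliptic := h.isElliptic
  exact Db_fin (Pool.Agent.H11.mordell_weil (W := V)) H

end H38T6
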