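import Pool.Agent.H38.T6.Da
import Pool.Agent.H38.T6.Db
import Pool.Agent.H55.T3.KD

/-!
Row Dc. (about 150 lines): from the arithmetic statements to the two curves over K. Model: kt_realD, kt_minusD, ct3_pairD in Pool/Agent/H55/T3/KD.lean.
krCob_scale: as kt_realD: apply krCob_twisted with s := algebraMap K B u * s (its square is u^2 delta = D'), hgen, hneg for u s from those for s (B/K of degree two, s not in K because g s = -s, s nonzero: hs, hdel); in H use locSol_tt and finM_t (KD.lean) exactly as in kt_realD to pass to s, al, c.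
 hgen and hneg: h2 and hs with delta not a square in K: s generates B, B/K is Galois (char 0, degree two: IsGalois instance: B is the splitting field of X^2 - delta; or Algebra.IsQuadraticExtension), hneg: the nontrivial automorphism maps s to -s. Statement quad_ext below.
both: four applications of krCob_scale as in ct3_pairD:
 curWD D al be: is3_WD (Is3 _ (-3D) (al/3) (be/3)), u = t = 1, delta = -3D, a = al/3, c = ga/9: S1. curVD D (al/3) (ga/27): is3_VD', u = t = 3, delta = D, a = al/3, c = be: S2. curVD D al ga: is3_VD, u = 1, t = 9: S2. curWD D (9 al) (729 be): is3_WD', u = 1, t = 9: S1. (See the last lines of ct3_pairD for ha, hc.)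
 Then for E = curWD: V := curWD, W := curVD D (al/3) (ga/27): div3_of, finite_of_div3, noSha3_of with noKr_of_krCob. For E = curVD D al ga: V := it, W := curWD D (9 al) (729 be).
-/

set_option autoImplicit false
set_option linter.unusedSectionVars false
open scoped Classical

open WeierstrassCurve IsDedekindDomain NumberField WithZero Pool.Agent.H10 H55T3 Pool.Agent.H11

namespace H38T6

theorem quad_ext {K B : Type} [Field K] [NumberField K] [Field B] [NumberField B] [Algebra K B]
    (h2 : Module.finrank K B = 2) {δ : K} (hδ : ∀ z : K, z ^ 2 ≠ δ) {s : B}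
    (hs : s ^ 2 = algebraMap K B δ) :
    IsGalois K B ∧ (∀ g : B ≃ₐ[K] B, g s = s → g = 1) ∧ (∃ g : B ≃ₐ[K] B, g s = -s) ∧
      ∀ x : B, ∃ u v : K, x = algebraMap K B u + algebraMap K B v * s := by
  haveI : Algebra.IsQuadraticExtension K B := { finrank_eq_two' := h2 }
  have hgal : IsGalois K B := inferInstance
  have hsn : ∀ z : K, algebraMap K B z ≠ s := by
    intro z hz
    apply hδ z
    apply (algebraMap K B).injective
    rw [map_pow, hz, hs]
  have hli : LinearIndependent K ![(1 : B), s] := by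
    rw [LinearIndependent.pair_iff]
    intro p q hpq
    have hpq' : algebraMap K B p + algebraMap K B q * s = 0 := by
      rw [← hpq, Algebra.smul_def, Algebra.smul_def, mul_one]
    have hq : q = 0 := by
      by_contra hq
      have hq' : algebraMap K B q ≠ 0 := (map_ne_zero_iff _ (algebraMap K B).injective).2 hq
      apply hsn (-p / q)
      rw [map_div₀, map_neg, div_eq_iff hq']
      linear_combination (-1 : B) * hpq'
    refine ⟨?_, hq⟩
    rw [hq, map_zero, zero_mul, add_zero] at hpq'
    exact (map_eq_zero _).1 hpq'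
  have hspan : ∀ x : B, ∃ u v : K, x = algebraMap K B u + algebraMap K B v * s := by
    intro x
    have htop := hli.span_eq_top_of_card_eq_finrank' (by rw [h2, Fintype.card_fin])
    have hx : x ∈ Submodule.span K (Set.range ![(1 : B), s]) := by
      rw [htop]
      exact Submodule.mem_top
    rw [Matrix.range_cons, Matrix.range_cons, Matrix.range_empty, Set.union_empty,
      Set.singleton_union, Submodule.mem_span_pair] at hx
    obtain ⟨u, v, huv⟩ := hx
    refine ⟨u, v, ?_⟩
    rw [← huv, Algebra.smul_def, Algebra.smul_def, mul_one]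
  have hgen : ∀ g : B ≃ₐ[K] B, g s = s → g = 1 := by
    intro g hg
    refine AlgEquiv.ext fun x => ?_
    obtain ⟨u, v, rfl⟩ := hspan x
    rw [map_add, map_mul, g.commutes, g.commutes, hg]
    rfl
  refine ⟨hgal, hgen, ?_, hspan⟩
  have hcard : Nat.card (B ≃ₐ[K] B) = 2 := by
    rw [IsGalois.card_aut_eq_finrank, h2]
  haveI : Nontrivial (B ≃ₐ[K] B) := by
    haveI : Finite (B ≃ₐ[K] B) := Nat.finite_of_card_ne_zero (by rw [hcard]; norm_num)
    exact Finite.one_lt_card_iff_nontrivial.1 (by rw [hcard]; norm_num)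
  obtain ⟨g, hg⟩ := exists_ne (1 : B ≃ₐ[K] B)
  refine ⟨g, ?_⟩
  have h3 : (g s) ^ 2 = s ^ 2 := by
    rw [← map_pow, hs, g.commutes]
  rcases sq_eq_sq_iff_eq_or_eq_neg.1 h3 with h4 | h4
  · exact absurd (hgen g h4) hg
  · exact h4

/-- the arithmetic input -/
def Arith {K B : Type} [Field K] [NumberField K] [Field B] [NumberField B] [Algebra K B] (s : B)
    (δ a c : K) : Prop :=
  ∀ d : B, d ≠ 0 → FinSol3 B s (algebraMap K B a) (algebraMap K B c) d → FinM s δ a c d →
    (∀ g : B ≃ₐ[K] B, g s = -s → ∃ y, g d * d = y ^ 3) → ∃ y, d = y ^ 3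

theorem krCob_scale {K B : Type} [Field K] [NumberField K] [Field B] [NumberField B]
    [Algebra K B] (h2 : Module.finrank K B = 2) {δ : K} (hδ : ∀ z : K, z ^ 2 ≠ δ) {s : B}
    (hs : s ^ 2 = algebraMap K B δ) {al c : K} (S : Arith s δ al c) {V : WeierstrassCurve K}
    {D' a b u t : K} (h : Is3 V D' a b) (hD' : D' = u ^ 2 * δ) (hu : u ≠ 0) (ht : t ≠ 0)
    (ha : u * a = t * al) (hc : u * (9 * b + 4 * D' * a ^ 3) = t ^ 3 * c) : KrCob K V := by
  obtain ⟨hgal, hgen, hneg, -⟩ := quad_ext h2 hδ hs
  haveI := hgal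
  have huB : algebraMap K B u ≠ 0 := (map_ne_zero_iff _ (algebraMap K B).injective).2 hu
  refine krCob_twisted h (s := algebraMap K B u * s) ?_ h2 ?_ ?_ ?_
  · rw [hD', map_mul, mul_pow, hs, map_pow]
  · intro g hg
    apply hgen
    rw [map_mul, g.commutes] at hg
    exact mul_left_cancel₀ huB hg
  · obtain ⟨g, hg⟩ := hneg
    exact ⟨g, by rw [map_mul, g.commutes, hg, mul_neg]⟩
  · intro d hd H HM hJ
    refine S d hd ?_ ?_ ?_
    · intro v
      have hv := H v
      refine locSol_tt (t := algebraMap B (v.adicCompletion B) (algebraMap K B t)) ?_ ?_ ?_ hv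
      · rw [Ne, map_eq_zero, map_eq_zero]
        exact ht
      · rw [← map_mul, ← map_mul, ← map_mul]
        congr 1
        rw [mul_right_comm, ← map_mul, ha, map_mul]
        ring
      · rw [← map_mul, ← map_mul, ← map_pow, ← map_mul]
        congr 1
        rw [mul_right_comm, ← map_mul, hc, map_mul, map_pow]
        ring
    · exact finM_t ht hD' ha hc hu rfl HM
    · intro g hg
      exact hJ g (by rw [map_mul, g.commutes, hg, mul_neg])

theorem both {K B₁ B₂ : Type} [Field K] [NumberField K] [Field B₁] [NumberField B₁] [Algebra K B₁]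
    [Field B₂] [NumberField B₂] [Algebra K B₂] {D α β : K} (hD : D ≠ 0) (hβ : β ≠ 0)
    (hγ : 27 * β - 4 * D * α ^ 3 ≠ 0) (h1 : Module.finrank K B₁ = 2)
    (h2 : Module.finrank K B₂ = 2) (hδ1 : ∀ z : K, z ^ 2 ≠ -3 * D) (hδ2 : ∀ z : K, z ^ 2 ≠ D)
    {s₁ : B₁} (hs1 : s₁ ^ 2 = algebraMap K B₁ (-3 * D)) {s₂ : B₂}
    (hs2 : s₂ ^ 2 = algebraMap K B₂ D)
    (S1 : Arith s₁ (-3 * D) (α / 3) ((27 * β - 4 * D * α ^ 3) / 9))
    (S2 : Arith s₂ D (α / 3) β) (E : WeierstrassCurve K)
    (hE : E = curWD D α β ∨ E = curVD D α (27 * β - 4 * D * α ^ 3)) :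
    Finite E.toAffine.Point ∧ NoSha3 K E := by
  rcases hE with rfl | rfl
  · have hV := is3_WD hD hβ hγ
    have hW := is3_VD' hD hβ hγ
    have kV : KrCob K (curWD D α β) :=
      krCob_scale h1 hδ1 hs1 S1 hV (u := 1) (t := 1) (by ring) one_ne_zero one_ne_zero
        (by ring) (by ring)
    have kW : KrCob K (curVD D (α / 3) ((27 * β - 4 * D * α ^ 3) / 27)) :=
      krCob_scale h2 hδ2 hs2 S2 hW (u := 3) (t := 3) (by ring) three_ne_zero three_ne_zero
        (by ring) (by unfold dl; ring)
    exact ⟨finite_of_div3 hV (div3_of hV hW kV kW),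
      noSha3_of hV hW (noKr_of_krCob kV) (noKr_of_krCob kW)⟩
  · have hV := is3_VD hD hβ hγ
    have hW := is3_WD' hD hβ hγ
    have kV : KrCob K (curVD D α (27 * β - 4 * D * α ^ 3)) :=
      krCob_scale h2 hδ2 hs2 S2 hV (u := 1) (t := 9) (by ring) one_ne_zero (by norm_num)
        (by ring) (by ring)
    have kW : KrCob K (curWD D (9 * α) (729 * β)) :=
      krCob_scale h1 hδ1 hs1 S1 hW (u := 1) (t := 9) (by ring) one_ne_zero (by norm_num)
        (by ring) (by unfold dl; ring)
    exact ⟨finite_of_div3 hV (div3_of hV hW kV kW),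
      noSha3_of hV hW (noKr_of_krCob kV) (noKr_of_krCob kW)⟩

end H38T6
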