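import Pool.Agent.H38.T6.Def0
import Pool.Agent.H55.T3.Exz
import Pool.Agent.H55.T3.Df5

/-!
Definition for the descent (MP_78d38b_T6, helper38; no row).
-/

set_option autoImplicit false
open scoped Classical

open WeierstrassCurve IsDedekindDomain NumberField Pool.Agent.H10 H55T3

namespace H38T6

/-- The locally trivial cocycles with values in the kernel of the isogeny are coboundaries of kernel points. -/
def KrCob (K : Type) [Field K] [NumberField K] (V : WeierstrassCurve K) : Prop :=
  ∀ f : Coch K V, IsCocycle K V f → IsLocTriv K V f → (∀ σ, Kr (f σ)) →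
    ∃ T : (V.baseChange (AlgebraicClosure K)).toAffine.Point, Kr T ∧
      ∀ σ, f σ = Pool.Agent.H10.act (inv_bc K V) σ T - T

end H38T6
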