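import Pool.Agent.H38.T6.Def0

/-!
Definitions for the count of cubic forms (MP_78d38b_T6, helper38; no row).
-/

set_option autoImplicit false
open scoped Classical

namespace H38T6

/-- `Dl` over a commutative ring -/
def Dz {R : Type*} [CommRing R] (f : Fin 4 → R) : R :=
  4 * (f 1 ^ 2 - f 0 * f 2) * (f 2 ^ 2 - f 1 * f 3) - (f 1 * f 2 - f 0 * f 3) ^ 2

/-- the congruence conditions on the forms attached to `-m₀ m`, `m₀ = 2 ∏ q` -/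
def Cls (P : Finset ℕ) (f : Fin 4 → ℤ) : Prop :=
  Dz f % 16 = 8 ∧ Dz f % 3 = 1 ∧ ∀ q ∈ P, (q : ℤ) ∣ Dz f ∧ ¬ (q : ℤ) ^ 2 ∣ Dz f

/-- the forms with discriminant at most `Y` -/
def FS (P : Finset ℕ) (Y : ℝ) : Set (Fin 4 → ℤ) :=
  {f | Cls P f ∧ ((Dz f : ℤ) : ℝ) ≤ Y ∧ Frm (Dz f) (f 0) (f 1) (f 2) (f 3)}

/-- the region -/
def Rg (ε : ℝ) : Set (Fin 4 → ℝ) :=
  {v | ε ≤ v 0 ∧ 0 ≤ v 1 ∧ v 1 ≤ v 0 ∧ 3 * v 0 ^ 2 ≤ 4 * (v 1 ^ 2 - v 0 * v 2) ∧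
    3 * (v 1 ^ 2 - v 0 * v 2) ^ 2 ≤ Dz v ∧ Dz v ≤ 1}

/-- the cusp -/
def Cu (ε t : ℝ) : Set (Fin 4 → ℤ) :=
  {f | 1 ≤ f 0 ∧ (f 0 : ℝ) ≤ ε * t ∧ 0 ≤ f 1 ∧ f 1 < f 0 ∧ 0 < f 1 ^ 2 - f 0 * f 2 ∧
    3 * (f 1 ^ 2 - f 0 * f 2) ^ 2 ≤ Dz f ∧ ((Dz f : ℤ) : ℝ) ≤ t ^ 4}

/-- `∏ (1 - 1 / q)` -/
noncomputable def rho (P : Finset ℕ) : ℝ := ∏ q ∈ P, (1 - 1 / (q : ℝ))

/-- `2 ∏ q` -/
def m0 (P : Finset ℕ) : ℕ := 2 * ∏ q ∈ P, q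

/-- the admissible `m` -/
def Adm (P : Finset ℕ) (m : ℕ) : Prop := Squarefree m ∧ Nat.Coprime m (m0 P) ∧ (m0 P * m) % 3 = 1

/-- the allowed sets of primes -/
def Prs (P : Finset ℕ) : Prop := ∀ q ∈ P, q.Prime ∧ q ≠ 2 ∧ q ≠ 3

end H38T6
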