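import Pool.Agent.H38.T6.Def0

/-!
Row Ea. (about 180 lines): existence of the tower.
PROOF. [N : Q] = 3^m is odd and delta is not a rational square (an integer which is a rational square is a square), so delta is not a square in N: if z^2 = delta then Q(z) has degree two and 2 | 3^m (IntermediateField.finrank, Module.finrank_mul_finrank). C := AdjoinRoot (X^2 - C delta : N[X]) (irreducible: X_pow_sub_C_irreducible_of_prime or degree two without roots), [C : N] = 2, r := root. C is a K-algebra by ((algebraMap N C).comp (algebraMap K N)).toAlgebra. B := IntermediateField.adjoin K {r} as a subfield of C; s := r in B; [B : K] = 2 since delta is not a square in K (K embeds in N).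
 [C : Q] = [C : N] [N : Q] = 2 3^m.
 C/Q is Galois: separable (char 0) and normal: C is generated over Q by N and r; it is the compositum of the normal extension N/Q and the splitting field Q(r) of X^2 - delta: e.g. N is the splitting field over Q of a polynomial f (IsGalois.is_separable_splitting_field / Normal.exists_isSplittingField Q N), C is a splitting field of f * (X^2 - C delta): splits, and adjoin = top. Or: show that Algebra.IsAlgebraic.Normal via Normal.of_algEquiv / isGalois sup (IntermediateField.normal_iSup / normal_sup on the field ranges inside C).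
 ka : C =a[N] C with ka r = -r: AdjoinRoot.lift / the nontrivial element of Gal(C/N) (C/N is Galois of degree two). ka (ka x) = x: both sides are N-algebra maps which agree on r.
 comm: for g in Gal(C/Q): g maps the image of N to itself (N/Q normal: AlgEquiv.restrictNormal_commutes), and ka fixes it; g r = r or -r as (g r)^2 = delta, and ka r = -r. Every x in C is u + v r with u, v in N: g (ka x) = g u - g v g r, ka (g x) = ka (g u + g v g r) = g u + g v ka (g r) = g u - g v g r.
-/

set_option autoImplicit false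
set_option linter.unusedSectionVars false
open scoped Classical

open IsDedekindDomain NumberField WithZero

namespace H38T6

open Polynomial in
theorem Ea_nonsq (m : ℕ) {δ : ℤ} (hδ : ¬ IsSquare δ) (N : Type) [Field N] [NumberField N]
    (hN : Module.finrank ℚ N = 3 ^ m) (z : N) : z ^ 2 ≠ (δ : N) := by
  intro hz
  have hint : IsIntegral ℚ z := Algebra.IsIntegral.isIntegral z
  have h1 : (minpoly ℚ z).natDegree ∣ 3 ^ m := by
    rw [← hN]
    exact minpoly.degree_dvd hint
  have h2 : (minpoly ℚ z).natDegree ≤ 2 := by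
    have h3 : (X ^ 2 - C (δ : ℚ) : ℚ[X]) ≠ 0 := X_pow_sub_C_ne_zero (by norm_num) _
    have h4 : minpoly ℚ z ∣ X ^ 2 - C (δ : ℚ) := by
      apply minpoly.dvd
      rw [map_sub, map_pow, aeval_X, aeval_C, hz, map_intCast, sub_self]
    have h5 := natDegree_le_of_dvd h4 h3
    rwa [natDegree_X_pow_sub_C] at h5
  have h3 := minpoly.natDegree_pos hint
  have h4 : (minpoly ℚ z).natDegree = 1 := by
    have h5 : ¬ (2 ∣ 3 ^ m) := by
      intro h6
      have := Nat.prime_two.dvd_of_dvd_pow h6
      omega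
    have h6 : (minpoly ℚ z).natDegree ≠ 2 := fun h7 => h5 (h7 ▸ h1)
    omega
  rw [minpoly.natDegree_eq_one_iff] at h4
  obtain ⟨q, hq⟩ := h4
  have h5 : q ^ 2 = (δ : ℚ) := by
    apply (algebraMap ℚ N).injective
    rw [map_pow, map_intCast, hq, hz]
  apply hδ
  rw [← Rat.isSquare_intCast_iff]
  exact ⟨q, by rw [← h5, pow_two]⟩

open Polynomial in
theorem Ea_C {δ : ℤ} (N : Type) [Field N] [NumberField N] (hz : ∀ z : N, z ^ 2 ≠ (δ : N)) :
    ∃ (C : Type) (_ : Field C) (_ : NumberField C) (_ : Algebra N C) (r : C) (κ : C ≃ₐ[N] C),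
      r ^ 2 = (δ : C) ∧ κ r = -r ∧ Module.finrank N C = 2 ∧ Algebra.adjoin N {r} = ⊤ := by
  have hirr : Irreducible (X ^ 2 - C (δ : N) : N[X]) :=
    X_pow_sub_C_irreducible_of_prime Nat.prime_two hz
  have hF : Fact (Irreducible (X ^ 2 - C (δ : N) : N[X])) := ⟨hirr⟩
  have hmon : (X ^ 2 - C (δ : N) : N[X]).Monic := monic_X_pow_sub_C _ (by norm_num)
  have hfr : Module.finrank N (AdjoinRoot (X ^ 2 - C (δ : N) : N[X])) = 2 := by
    rw [(AdjoinRoot.powerBasis' hmon).finrank, AdjoinRoot.powerBasis'_dim, natDegree_X_pow_sub_C]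
  have hfd : FiniteDimensional N (AdjoinRoot (X ^ 2 - C (δ : N) : N[X])) :=
    (AdjoinRoot.powerBasis' hmon).finite
  have hNF : NumberField (AdjoinRoot (X ^ 2 - C (δ : N) : N[X])) := NumberField.of_module_finite N _
  have hr : AdjoinRoot.root (X ^ 2 - C (δ : N) : N[X]) ^ 2 =
      algebraMap N (AdjoinRoot (X ^ 2 - C (δ : N) : N[X])) (δ : N) := by
    have h1 := AdjoinRoot.eval₂_root (X ^ 2 - C (δ : N) : N[X])
    rw [eval₂_sub, eval₂_pow, eval₂_X, eval₂_C, sub_eq_zero] at h1
    exact h1
  have hk : aeval (-AdjoinRoot.root (X ^ 2 - C (δ : N) : N[X]))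
      (X ^ 2 - C (δ : N) : N[X]) = 0 := by
    rw [map_sub, map_pow, aeval_X, aeval_C, neg_pow_two, hr, sub_self]
  let κ0 : AdjoinRoot (X ^ 2 - C (δ : N) : N[X]) →ₐ[N] AdjoinRoot (X ^ 2 - C (δ : N) : N[X]) :=
    AdjoinRoot.liftAlgHom _ (Algebra.ofId _ _) (-AdjoinRoot.root _) hk
  have hκ0 : κ0 (AdjoinRoot.root _) = -AdjoinRoot.root _ := AdjoinRoot.liftAlgHom_root _ _ _ _
  have hb : Function.Bijective κ0 := κ0.bijective
  refine ⟨AdjoinRoot (X ^ 2 - C (δ : N) : N[X]), inferInstance, hNF, inferInstance,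
    AdjoinRoot.root _, AlgEquiv.ofBijective κ0 hb, ?_, ?_, hfr, AdjoinRoot.adjoinRoot_eq_top⟩
  · rw [hr]
    exact map_intCast _ _
  · rw [AlgEquiv.coe_ofBijective]
    exact hκ0

open Polynomial in
theorem Ea_gal {δ : ℤ} (N C : Type) [Field N] [NumberField N] [Field C] [NumberField C]
    [Algebra N C] [IsGalois ℚ N] {r : C} (hr : r ^ 2 = (δ : C))
    (hadj : Algebra.adjoin N {r} = ⊤) : IsGalois ℚ C := by
  have h0 : (X ^ 2 - Polynomial.C (δ : ℚ) : ℚ[X]) ≠ 0 := X_pow_sub_C_ne_zero (by norm_num) _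
  have hmap : (X ^ 2 - Polynomial.C (δ : ℚ) : ℚ[X]).map (algebraMap ℚ N) =
      X ^ 2 - Polynomial.C (δ : N) := by
    rw [Polynomial.map_sub, Polynomial.map_pow, Polynomial.map_X, Polynomial.map_C, map_intCast]
  have hmapC : (X ^ 2 - Polynomial.C (δ : N) : N[X]).map (algebraMap N C) =
      (X - Polynomial.C r) * (X - Polynomial.C (-r)) := by
    rw [Polynomial.map_sub, Polynomial.map_pow, Polynomial.map_X, Polynomial.map_C, map_intCast,
      ← hr, map_pow, map_neg]
    ring
  have hN0 : (X ^ 2 - Polynomial.C (δ : N) : N[X]) ≠ 0 := X_pow_sub_C_ne_zero (by norm_num) _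
  have hs : IsSplittingField N C ((X ^ 2 - Polynomial.C (δ : ℚ) : ℚ[X]).map (algebraMap ℚ N)) := by
    rw [hmap]
    constructor
    · rw [hmapC]
      exact (Splits.X_sub_C _).mul (Splits.X_sub_C _)
    · rw [eq_top_iff, ← hadj]
      apply Algebra.adjoin_mono
      rw [Set.singleton_subset_iff, mem_rootSet]
      refine ⟨hN0, ?_⟩
      rw [map_sub, map_pow, aeval_X, aeval_C, hr, map_intCast, sub_self]
  obtain ⟨p, hp⟩ := Normal.exists_isSplittingField ℚ N
  by_cases hp0 : p = 0
  · subst hp0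
    have h1 : IsSplittingField ℚ N (1 : ℚ[X]) := by
      constructor
      · rw [Polynomial.map_one]
        exact Splits.one
      · have h2 := hp.adjoin_rootSet
        rw [rootSet_zero] at h2
        rw [rootSet_one]
        exact h2
    have h2 : IsSplittingField ℚ C (1 * (X ^ 2 - Polynomial.C (δ : ℚ) : ℚ[X])) :=
      IsSplittingField.mul (F := ℚ) (K := N) C 1 _ one_ne_zero h0
    have h3 : Normal ℚ C := Normal.of_isSplittingField
      (1 * (X ^ 2 - Polynomial.C (δ : ℚ) : ℚ[X]))
    exact { to_isSeparable := inferInstance, to_normal := h3 }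
  · have h2 : IsSplittingField ℚ C (p * (X ^ 2 - Polynomial.C (δ : ℚ) : ℚ[X])) :=
      IsSplittingField.mul (F := ℚ) (K := N) C p _ hp0 h0
    have h3 : Normal ℚ C := Normal.of_isSplittingField
      (p * (X ^ 2 - Polynomial.C (δ : ℚ) : ℚ[X]))
    exact { to_isSeparable := inferInstance, to_normal := h3 }

theorem Ea_rep {δ : ℤ} (N C : Type) [Field N] [Field C]
    [Algebra N C] {r : C} (hr : r ^ 2 = (δ : C))
    (hadj : Algebra.adjoin N {r} = ⊤) (x : C) :
    ∃ u v : N, x = algebraMap N C u + algebraMap N C v * r := by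
  have hx : x ∈ Algebra.adjoin N {r} := by
    rw [hadj]
    exact Algebra.mem_top
  refine Algebra.adjoin_induction (p := fun x _ => ∃ u v : N,
    x = algebraMap N C u + algebraMap N C v * r) ?_ ?_ ?_ ?_ hx
  · intro y hy
    rw [Set.mem_singleton_iff] at hy
    exact ⟨0, 1, by rw [hy, map_zero, map_one, zero_add, one_mul]⟩
  · intro y
    exact ⟨y, 0, by rw [map_zero, zero_mul, add_zero]⟩
  · rintro _ _ _ _ ⟨u, v, rfl⟩ ⟨u', v', rfl⟩
    refine ⟨u + u', v + v', ?_⟩
    rw [map_add, map_add]
    ring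
  · rintro _ _ _ _ ⟨u, v, rfl⟩ ⟨u', v', rfl⟩
    refine ⟨u * u' + v * v' * δ, u * v' + v * u', ?_⟩
    rw [map_add, map_add, map_mul, map_mul, map_mul, map_mul, map_mul, map_intCast, ← hr]
    ring

theorem Ea_comm {δ : ℤ} (N C : Type) [Field N] [NumberField N] [Field C] [NumberField C]
    [Algebra N C] [IsGalois ℚ N] {r : C} (hr : r ^ 2 = (δ : C))
    (hadj : Algebra.adjoin N {r} = ⊤) {κ : C ≃ₐ[N] C} (hκ : κ r = -r) :
    (∀ x, κ (κ x) = x) ∧ ∀ (g : C ≃ₐ[ℚ] C) (x : C), g (κ x) = κ (g x) := by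
  constructor
  · intro x
    obtain ⟨u, v, rfl⟩ := Ea_rep N C hr hadj x
    simp only [map_add, map_mul, κ.commutes, hκ, map_neg, neg_neg]
  · intro g x
    obtain ⟨u, v, rfl⟩ := Ea_rep N C hr hadj x
    have hg : ∀ y : N, ∃ y' : N, g (algebraMap N C y) = algebraMap N C y' := fun y =>
      ⟨g.restrictNormal N y, (AlgEquiv.restrictNormal_commutes g N y).symm⟩
    obtain ⟨u', hu⟩ := hg u
    obtain ⟨v', hv⟩ := hg v
    have hgr : g r = r ∨ g r = -r := by
      apply sq_eq_sq_iff_eq_or_eq_neg.1
      rw [← map_pow, hr, map_intCast]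
    rcases hgr with h | h <;>
      simp only [map_add, map_mul, κ.commutes, hκ, hu, hv, h, map_neg, neg_neg]

open Polynomial in
theorem Ea_B {δ : ℤ} (K C : Type) [Field K] [NumberField K] [Field C] [NumberField C]
    [Algebra K C] {r : C} (hr : r ^ 2 = (δ : C)) (hz : ∀ z : K, z ^ 2 ≠ (δ : K)) :
    Module.finrank K (IntermediateField.adjoin K {r}) = 2 := by
  have hint : IsIntegral K r := Algebra.IsIntegral.isIntegral r
  rw [IntermediateField.adjoin.finrank hint]
  have hirr : Irreducible (X ^ 2 - Polynomial.C (δ : K) : K[X]) :=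
    X_pow_sub_C_irreducible_of_prime Nat.prime_two hz
  have h1 : (X ^ 2 - Polynomial.C (δ : K) : K[X]) = minpoly K r := by
    apply minpoly.eq_of_irreducible_of_monic hirr
    · rw [map_sub, map_pow, aeval_X, aeval_C, hr, map_intCast, sub_self]
    · exact monic_X_pow_sub_C _ (by norm_num)
  rw [← h1, natDegree_X_pow_sub_C]

theorem exists_tow (m : ℕ) {δ : ℤ} (hδ : ¬ IsSquare δ) (K N : Type) [Field K] [NumberField K]
    [Field N] [NumberField N] [Algebra K N] [IsGalois ℚ N] (hN : Module.finrank ℚ N = 3 ^ m) :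
    ∃ (B C : Type) (_ : Field B) (_ : NumberField B) (_ : Field C) (_ : NumberField C)
      (_ : Algebra K B) (_ : Algebra K C) (_ : Algebra N C) (_ : Algebra B C)
      (_ : IsScalarTower K N C) (_ : IsScalarTower K B C) (s : B) (κ : C ≃ₐ[N] C),
      Tow m δ K N B C s κ := by
  have hz := Ea_nonsq m hδ N hN
  obtain ⟨C, iC, iCN, iNC, r, κ, hr, hκ, hdeg, hadj⟩ := Ea_C N hz
  let iKC : Algebra K C := ((algebraMap N C).comp (algebraMap K N)).toAlgebra
  have iT : IsScalarTower K N C := IsScalarTower.of_algebraMap_eq fun _ => rfl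
  have hzK : ∀ z : K, z ^ 2 ≠ (δ : K) := by
    intro z h
    apply hz (algebraMap K N z)
    rw [← map_pow, h, map_intCast]
  obtain ⟨h1, h2⟩ := Ea_comm N C hr hadj hκ
  refine ⟨IntermediateField.adjoin K {r}, C, inferInstance, inferInstance, iC, iCN,
    inferInstance, iKC, iNC, inferInstance, iT, inferInstance,
    IntermediateField.AdjoinSimple.gen K r, κ, ?_⟩
  refine ⟨inferInstance, Ea_gal N C hr hadj, hN, ?_, Ea_B K C hr hzK, ?_, ?_, h1, h2⟩
  · rw [← Module.finrank_mul_finrank ℚ N C, hN, hdeg, mul_comm]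
  · apply (algebraMap (IntermediateField.adjoin K {r}) C).injective
    rw [map_pow, IntermediateField.AdjoinSimple.algebraMap_gen, hr, map_intCast]
  · rw [IntermediateField.AdjoinSimple.algebraMap_gen, hκ]

end H38T6
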