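import Pool.Agent.H38.T6.Def0

/-!
Row Eb. (about 150 lines): going up and down.
no_sq_odd: as [N : Q] = 3^m is odd: a square root of delta in K maps to N, Q(z) has degree 1 or 2, 2 does not divide 3^m, so z is rational and delta is a square in the integers (Rat.isSquare_intCast_iff or similar).
no_zeta: {C Galois over Q of degree 2 3^m, s^2 = delta, delta not a rational square (automatic from Tow: ka s = -s, s nonzero; if s were rational ka would fix it)}. Suppose z^2 + z + 1 = 0; x := 2 z + 1, x^2 = -3. H := the subgroup of Gal(C/Q) which fixes s: index two (orbit of s = {s, -s}) so of order 3^m; each h in H has h x = x or -x, and h x = -x is impossible: h^(3^m) = 1 and 3^m is odd. So x is fixed by H, x is in Q(s) (Galois correspondence: fixedField of the fixingSubgroup of Q(s); or directly: g in Gal(C/Q) with g s = -s: either g x = x for all g: x rational, x^2 = -3 impossible; or g x = -x for g not in H: then x s is fixed by H and by all g: x s is rational, r := x s: r^2 = -3 delta: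 contradiction with the hypothesis h3 that -3 delta is not a square).
cube_down: d = 0: y = 0. Else for sigma in Gal(C/B): (sigma z)^3 = z^3, so w := sigma z / z has w^3 = 1, (w - 1)(w^2 + w + 1) = 0, w = 1 by hz. z is fixed by Gal(C/B): z is in the image of B (IsGalois.mem_bot_iff_fixed or similar).
val_up: log (W (algebraMap y)) = e log (V y) with V the place below; there is a lemma in Pool/Agent/H55/T3/RT.lean (line 30) or Pool/Agent/H10/RelVal.lean: copy it. lc3_up: z the same; for W over V: W (x) = (V x)^e with e >= 1 and V x <= exp (-k) <= 1 gives W x <= exp (-k).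
-/

set_option autoImplicit false
set_option linter.unusedSectionVars false
open scoped Classical

open IsDedekindDomain NumberField WithZero

namespace H38T6

theorem no_sq_odd {m : ℕ} {δ : ℤ} (hδ : ¬ IsSquare δ) {K N : Type} [Field K] [NumberField K]
    [Field N] [NumberField N] [Algebra K N] (hN : Module.finrank ℚ N = 3 ^ m) (z : K) :
    z ^ 2 ≠ (δ : K) := by
  intro hz
  apply hδ
  have hδ0 : δ ≠ 0 := by
    rintro rfl
    exact hδ ⟨0, by simp⟩
  have hδq : (δ : ℚ) ≠ 0 := Int.cast_ne_zero.2 hδ0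
  obtain ⟨r, hr⟩ : ∃ r : ℚ, r = Algebra.norm ℚ (algebraMap K N z) := ⟨_, rfl⟩
  have h1 : r ^ 2 = (δ : ℚ) ^ (3 ^ m) := by
    rw [hr, ← map_pow, ← map_pow, hz, map_intCast]
    have h2 := Algebra.norm_algebraMap (S := N) (δ : ℚ)
    rw [map_intCast, hN] at h2
    exact h2
  obtain ⟨k, hk⟩ : Odd (3 ^ m) := Odd.pow (by decide)
  rw [hk, pow_succ (δ : ℚ), pow_mul] at h1
  have h3 : IsSquare (δ : ℚ) := by
    refine ⟨r / δ ^ k, ?_⟩
    have h4 : (δ : ℚ) ^ k ≠ 0 := pow_ne_zero _ hδq
    field_simp
    rw [h1]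
    ring
  exact Rat.isSquare_intCast_iff.1 h3

theorem no_zeta {m : ℕ} {δ : ℤ} (h3 : ¬ IsSquare (-3 * δ)) {K N B C : Type} [Field K]
    [NumberField K] [Field N] [NumberField N] [Field B] [NumberField B] [Field C] [NumberField C]
    [Algebra K N] [Algebra K B] [Algebra K C] [Algebra N C] [Algebra B C] [IsScalarTower K N C]
    [IsScalarTower K B C] {s : B} {κ : C ≃ₐ[N] C} (T : Tow m δ K N B C s κ) (z : C) :
    z ^ 2 + z + 1 ≠ 0 := by
  intro hz
  have hx : (2 * z + 1) ^ 2 = ((-3 : ℤ) : C) := by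
    push_cast
    linear_combination 4 * hz
  obtain ⟨x, hxdef⟩ : ∃ x : C, x = 2 * z + 1 := ⟨_, rfl⟩
  rw [← hxdef] at hx
  obtain ⟨t, ht⟩ : ∃ t : C, t = algebraMap B C s := ⟨_, rfl⟩
  have ht2 : t ^ 2 = (δ : C) := by
    rw [ht, ← map_pow, T.sq, map_intCast]
  have hκ : κ t = -t := by
    rw [ht]
    exact T.neg
  have hδ0 : δ ≠ 0 := by
    rintro rfl
    exact h3 ⟨0, by simp⟩
  have ht0 : t ≠ 0 := by
    rintro rfl
    apply hδ0
    have : (δ : C) = 0 := by rw [← ht2]; ring
    exact_mod_cast this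
  have hκ1 : κ ≠ 1 := by
    intro h
    rw [h] at hκ
    have h1 : t = -t := hκ
    apply ht0
    have h2 : (2 : C) * t = 0 := by linear_combination h1
    exact (mul_eq_zero.1 h2).resolve_left two_ne_zero
  have := T.galN
  have hgC := T.galC
  have hgal : IsGalois N C := IsGalois.tower_top_of_isGalois ℚ N C
  have hfr : Module.finrank N C = 2 := by
    have h1 := Module.finrank_mul_finrank ℚ N C
    rw [T.degN, T.degC, mul_comm 2] at h1
    exact Nat.eq_of_mul_eq_mul_left (by positivity) h1
  have hcard : Nat.card (C ≃ₐ[N] C) = 2 := by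
    rw [IsGalois.card_aut_eq_finrank, hfr]
  have hall : ∀ g : C ≃ₐ[N] C, g = 1 ∨ g = κ := by
    intro g
    by_contra hg
    push Not at hg
    have hft : Fintype (C ≃ₐ[N] C) := Fintype.ofFinite _
    have h1 : ({1, κ, g} : Finset (C ≃ₐ[N] C)).card ≤ 2 := by
      rw [← hcard, Nat.card_eq_fintype_card]
      exact Finset.card_le_univ _
    rw [Finset.card_insert_of_notMem, Finset.card_insert_of_notMem, Finset.card_singleton] at h1
    · omega
    · rw [Finset.mem_singleton]
      exact hg.2.symm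
    · rw [Finset.mem_insert, Finset.mem_singleton]
      rintro (h | h)
      · exact hκ1 h.symm
      · exact hg.1 h.symm
  have hfix : ∀ y : C, κ y = y → ∃ n : N, algebraMap N C n = y := by
    intro y hy
    refine (IsGalois.mem_range_algebraMap_iff_fixed y).2 fun g => ?_
    rcases hall g with h | h
    · rw [h]; rfl
    · rw [h, hy]
  have hκx : κ x ^ 2 = x ^ 2 := by
    rw [← map_pow, hx, map_intCast]
  rcases sq_eq_sq_iff_eq_or_eq_neg.1 hκx with h | h
  · obtain ⟨n, hn⟩ := hfix x h
    refine no_sq_odd (m := m) (δ := -3) (K := N) (N := N) ?_ T.degN n ?_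
    · rintro ⟨r, hr⟩
      nlinarith [mul_self_nonneg r]
    · apply (algebraMap N C).injective
      rw [map_pow, hn, hx, map_intCast]
  · obtain ⟨n, hn⟩ := hfix (x * t) (by rw [map_mul, h, hκ]; ring)
    refine no_sq_odd (m := m) (δ := -3 * δ) (K := N) (N := N) h3 T.degN n ?_
    apply (algebraMap N C).injective
    rw [map_pow, hn, mul_pow, hx, ht2, map_intCast]
    push_cast
    ring

theorem cube_down {B C : Type} [Field B] [Field C] [Algebra B C] [FiniteDimensional B C]
    [IsGalois B C] (hz : ∀ z : C, z ^ 2 + z + 1 ≠ 0) {d : B} {z : C}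
    (h : algebraMap B C d = z ^ 3) : ∃ y : B, d = y ^ 3 := by
  by_cases hz0 : z = 0
  · refine ⟨0, (algebraMap B C).injective ?_⟩
    rw [h, hz0, map_pow, map_zero]
  have hfix : ∀ σ : C ≃ₐ[B] C, σ z = z := by
    intro σ
    have h1 : σ z ^ 3 = z ^ 3 := by
      rw [← map_pow, ← h, AlgEquiv.commutes]
    have h2 : (σ z / z) ^ 3 = 1 := by
      rw [div_pow, h1, div_self (pow_ne_zero _ hz0)]
    have h3 : (σ z / z - 1) * ((σ z / z) ^ 2 + σ z / z + 1) = 0 := by
      linear_combination h2
    rcases mul_eq_zero.1 h3 with h4 | h4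
    · exact (div_eq_one_iff_eq hz0).1 (sub_eq_zero.1 h4)
    · exact absurd h4 (hz _)
  obtain ⟨y, hy⟩ := (IsGalois.mem_range_algebraMap_iff_fixed z).2 hfix
  refine ⟨y, (algebraMap B C).injective ?_⟩
  rw [h, map_pow, hy]

private lemma Eb_val_below {L F : Type} [Field L] [NumberField L] [Field F] [NumberField F]
    [Algebra L F] (W : HeightOneSpectrum (𝓞 F)) :
    ∃ (w : HeightOneSpectrum (𝓞 L)) (e : ℕ), w.asIdeal = W.asIdeal.under (𝓞 L) ∧
      ∀ x : L, w.valuation L x ^ e = W.valuation F (algebraMap L F x) := by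
  let w : HeightOneSpectrum (𝓞 L) := ⟨W.asIdeal.under (𝓞 L), inferInstance,
    Ideal.IsIntegral.comap_ne_bot _ W.ne_bot⟩
  have : W.asIdeal.LiesOver w.asIdeal := ⟨rfl⟩
  exact ⟨w, _, rfl, fun x => HeightOneSpectrum.valuation_liesOver F w W x⟩

theorem val_up {B C : Type} [Field B] [NumberField B] [Field C] [NumberField C] [Algebra B C]
    {y : B} (h : ∀ V : HeightOneSpectrum (𝓞 B), (3 : ℤ) ∣ log (V.valuation B y))
    (W : HeightOneSpectrum (𝓞 C)) : (3 : ℤ) ∣ log (W.valuation C (algebraMap B C y)) := by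
  obtain ⟨w, e, _, hw⟩ := Eb_val_below (L := B) W
  rw [← hw y, WithZero.log_pow, nsmul_eq_mul]
  exact Dvd.dvd.mul_left (h w) _

theorem lc3_up {B C : Type} [Field B] [NumberField B] [Field C] [NumberField C] [Algebra B C]
    {y : B} (h : LC3 y) : LC3 (algebraMap B C y) := by
  intro k
  obtain ⟨z, hz⟩ := h k
  refine ⟨algebraMap B C z, fun W hW => ?_⟩
  obtain ⟨w, e, hwW, hval⟩ := Eb_val_below (L := B) W
  have h3w : (3 : 𝓞 B) ∈ w.asIdeal := by
    rw [hwW]
    change algebraMap (𝓞 B) (𝓞 C) 3 ∈ W.asIdeal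
    rwa [map_ofNat]
  have e1 : algebraMap B C y * algebraMap B C z ^ 3 - 1 = algebraMap B C (y * z ^ 3 - 1) := by
    rw [map_sub, map_mul, map_pow, map_one]
  rw [e1, ← hval]
  have h1 := hz w h3w
  have he : e ≠ 0 := by
    rintro rfl
    have h2 := hval 3
    rw [pow_zero] at h2
    have h4 : W.valuation C (algebraMap (𝓞 C) C 3) < 1 :=
      (W.valuation_lt_one_iff_mem 3).2 hW
    rw [map_ofNat] at h2 h4
    rw [← h2] at h4
    exact lt_irrefl _ h4
  have h5 : w.valuation B (y * z ^ 3 - 1) ≤ 1 := by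
    refine h1.trans ?_
    rw [← WithZero.exp_zero, WithZero.exp_le_exp]
    omega
  exact (pow_le_of_le_one zero_le h5 he).trans h1

end H38T6
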