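import Pool.Agent.H38.T6.Def2

/-!
Row Hp. (about 190 lines): all admissible m.
Put c(X) := #{m <= X : coprime to m0, m0 m = 1 mod 3}: periodic modulo 3 m0 with phi(m0) elements per period (CRT, 3 does not divide m0): c(X) >= (phi(m0)/(3 m0)) X - 3 m0 and c(X) <= (phi(m0)/(3 m0)) X + 3 m0, and phi(m0)/m0 = (1/2) prod (1 - 1/q) = rho / 2. So c(X) = (rho/6) X + O(3 m0). (Count in [1, X] by full periods: Nat.filter_Icc_card_eq / Nat.count_modEq_card: sum over the residues.)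
 An m counted by c(X) which is not squarefree is divisible by p^2, p prime; p does not divide m0 (coprime) and p <> 3 (3 does not divide m since m0 m = 1 mod 3), p <> 2 (2 | m0): p >= 5. m = p^2 m', with m' coprime to m0 and m0 m' p^2 = 1 mod 3, p^2 = 1 mod 3: m' is counted by c(X / p^2). So for a threshold T: #nonsquarefree <= sum_(5 <= p <= T) c(X/p^2) + sum_(p > T) X/p^2 <= sum_(5 <= n <= T) ((rho/6) X/n^2 + 3 m0) + X / T (sum over all integers n instead of primes; sum_(n > T) 1/n^2 <= 1/T) <= (rho/6)(1/4) X + 3 m0 T + X/T, as sum_(n >= 5) 1/n^2 <= sum 1/(n(n-1)) = 1/4.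
 So the count is >= (rho/6)(3/4) X - X/T - 3 m0 (T + 1) >= (rho/8 - eta) X for T = ceil(2/eta) and X large.
-/

set_option autoImplicit false
set_option linter.unusedSectionVars false
open scoped Classical


namespace H38T6

/-- the congruence conditions without squarefreeness -/
def Hp_A (N m : ℕ) : Prop := Nat.Coprime m N ∧ (N * m) % 3 = 1

theorem Hp_sq {n : ℕ} (h3 : ¬ 3 ∣ n) : ∃ s, n * n = 3 * s + 1 := by
  have h1 : n % 3 = 1 ∨ n % 3 = 2 := by omega
  rcases h1 with h1 | h1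
  · obtain ⟨t, ht⟩ : ∃ t, n = 3 * t + 1 := ⟨n / 3, by omega⟩
    exact ⟨3 * t * t + 2 * t, by rw [ht]; ring⟩
  · obtain ⟨t, ht⟩ : ∃ t, n = 3 * t + 2 := ⟨n / 3, by omega⟩
    exact ⟨3 * t * t + 4 * t + 1, by rw [ht]; ring⟩

theorem Hp_per (N k m : ℕ) : Hp_A N (3 * N * k + m) ↔ Hp_A N m := by
  unfold Hp_A
  have h1 : Nat.Coprime (3 * N * k + m) N ↔ Nat.Coprime m N := by
    have e : 3 * N * k + m = m + N * (3 * k) := by ring
    rw [e, Nat.coprime_add_mul_left_left]
  have h2 : (N * (3 * N * k + m)) % 3 = (N * m) % 3 := by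
    have e : N * (3 * N * k + m) = N * m + 3 * (N * N * k) := by ring
    rw [e, Nat.add_mul_mod_self_left]
  rw [h1, h2]

theorem Hp_one {N : ℕ} (h3 : ¬ 3 ∣ N) : Nat.count (Hp_A N) (3 * N) = Nat.totient N := by
  have e : 3 * N = N + N + N := by ring
  rw [e, Nat.count_add, Nat.count_add, Nat.count_eq_card_filter_range,
    Nat.count_eq_card_filter_range, Nat.count_eq_card_filter_range, Finset.card_filter,
    Finset.card_filter, Finset.card_filter, ← Finset.sum_add_distrib, ← Finset.sum_add_distrib,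
    Nat.totient_eq_card_coprime, Finset.card_filter]
  obtain ⟨s, hs⟩ := Hp_sq h3
  apply Finset.sum_congr rfl
  intro k _
  have c1 : Nat.Coprime (N + k) N ↔ Nat.Coprime k N := by
    have e : N + k = k + N * 1 := by ring
    rw [e, Nat.coprime_add_mul_left_left]
  have c2 : Nat.Coprime (N + N + k) N ↔ Nat.Coprime k N := by
    have e : N + N + k = k + N * 2 := by ring
    rw [e, Nat.coprime_add_mul_left_left]
  by_cases hc : Nat.Coprime N k
  · have h0 : Hp_A N k ↔ (N * k) % 3 = 1 := ⟨fun h => h.2, fun h => ⟨hc.symm, h⟩⟩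
    have h1 : Hp_A N (N + k) ↔ (3 * s + 1 + N * k) % 3 = 1 := by
      have e : N * (N + k) = 3 * s + 1 + N * k := by rw [← hs]; ring
      rw [← e]
      exact ⟨fun h => h.2, fun h => ⟨c1.2 hc.symm, h⟩⟩
    have h2 : Hp_A N (N + N + k) ↔ (2 * (3 * s + 1) + N * k) % 3 = 1 := by
      have e : N * (N + N + k) = 2 * (3 * s + 1) + N * k := by rw [← hs]; ring
      rw [← e]
      exact ⟨fun h => h.2, fun h => ⟨c2.2 hc.symm, h⟩⟩
    simp only [h0, h1, h2, hc, if_true]
    generalize N * k = x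
    split_ifs <;> omega
  · have h0 : ¬ Hp_A N k := fun h => hc h.1.symm
    have h1 : ¬ Hp_A N (N + k) := fun h => hc (c1.1 h.1).symm
    have h2 : ¬ Hp_A N (N + N + k) := fun h => hc (c2.1 h.1).symm
    simp only [h0, h1, h2, hc, if_false]

theorem Hp_mul {N : ℕ} (h3 : ¬ 3 ∣ N) (q : ℕ) :
    Nat.count (Hp_A N) (3 * N * q) = q * Nat.totient N := by
  induction q with
  | zero => simp
  | succ q ih =>
    rw [mul_add, Nat.count_add, ih, mul_one]
    have e : (fun k => Hp_A N (3 * N * q + k)) = Hp_A N := by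
      funext k
      exact propext (Hp_per N q k)
    simp only [Hp_per]
    have h1 := Hp_one h3
    rw [h1]
    ring

theorem Hp_bd {N : ℕ} (h3 : ¬ 3 ∣ N) (hN : 0 < N) (X : ℕ) :
    |(Nat.count (Hp_A N) X : ℝ) - X * ((Nat.totient N : ℝ) / (3 * N))| ≤ Nat.totient N := by
  set q := X / (3 * N) with hq
  have hpos : 0 < 3 * N := by omega
  have h1 : 3 * N * q ≤ X := by
    rw [hq]
    exact Nat.mul_div_le _ _
  have h2 : X ≤ 3 * N * (q + 1) := by
    rw [hq]
    exact (Nat.lt_mul_div_succ X hpos).le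
  have h4 := Nat.count_monotone (Hp_A N) h1
  have h5 := Nat.count_monotone (Hp_A N) h2
  rw [Hp_mul h3] at h4 h5
  have h4' : (q : ℝ) * Nat.totient N ≤ Nat.count (Hp_A N) X := by exact_mod_cast h4
  have h5' : (Nat.count (Hp_A N) X : ℝ) ≤ ((q : ℝ) + 1) * Nat.totient N := by exact_mod_cast h5
  have h1' : (3 * N : ℝ) * q ≤ X := by exact_mod_cast h1
  have h2' : (X : ℝ) ≤ (3 * N : ℝ) * (q + 1) := by exact_mod_cast h2
  have hNr : (0 : ℝ) < 3 * N := by exact_mod_cast hpos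
  have hφ : (0 : ℝ) ≤ (Nat.totient N : ℝ) / (3 * N) := by positivity
  have e1 : (3 * N : ℝ) * q * ((Nat.totient N : ℝ) / (3 * N)) = q * Nat.totient N := by
    field_simp
  have e2 : (3 * N : ℝ) * (q + 1) * ((Nat.totient N : ℝ) / (3 * N)) =
      (q + 1) * Nat.totient N := by
    field_simp
  have h6 := mul_le_mul_of_nonneg_right h1' hφ
  have h7 := mul_le_mul_of_nonneg_right h2' hφ
  rw [e1] at h6
  rw [e2] at h7
  rw [abs_le]
  constructor
  · linarith
  · linarith

/-- the count on `[1, X]` -/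
noncomputable def Hp_c (N X : ℕ) : ℕ := ((Finset.Icc 1 X).filter (Hp_A N)).card

theorem Hp_c_eq {N : ℕ} (hN : 2 ≤ N) (X : ℕ) : Hp_c N X = Nat.count (Hp_A N) (X + 1) := by
  rw [Nat.count_eq_card_filter_range, Hp_c]
  congr 1
  ext m
  simp only [Finset.mem_filter, Finset.mem_Icc, Finset.mem_range]
  constructor
  · rintro ⟨⟨_, h2⟩, h3⟩
    exact ⟨by omega, h3⟩
  · rintro ⟨h2, h3⟩
    refine ⟨⟨?_, by omega⟩, h3⟩
    by_contra h4
    have h5 : m = 0 := by omega
    rw [h5] at h3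
    have h6 := h3.1
    rw [Nat.coprime_zero_left] at h6
    omega

theorem Hp_c_bd {N : ℕ} (h3 : ¬ 3 ∣ N) (hN : 2 ≤ N) (X : ℕ) :
    (X : ℝ) * ((Nat.totient N : ℝ) / (3 * N)) - (N + 1) ≤ Hp_c N X ∧
      (Hp_c N X : ℝ) ≤ X * ((Nat.totient N : ℝ) / (3 * N)) + (N + 1) := by
  have h1 := Hp_bd h3 (by omega) (X + 1)
  rw [← Hp_c_eq hN, abs_le] at h1
  have h2 : (Nat.totient N : ℝ) ≤ N := by exact_mod_cast Nat.totient_le N
  have hNr : (0 : ℝ) < 3 * N := by
    have : 0 < 3 * N := by omega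
    exact_mod_cast this
  have h4 : (Nat.totient N : ℝ) / (3 * N) ≤ 1 := by
    rw [div_le_one hNr]
    have : (0 : ℝ) ≤ N := Nat.cast_nonneg _
    linarith
  have h5 : (0 : ℝ) ≤ (Nat.totient N : ℝ) / (3 * N) := by positivity
  push_cast at h1
  constructor
  · linarith [h1.1]
  · linarith [h1.2]

/-- the multiples of `n^2` -/
noncomputable def Hp_B (N X n : ℕ) : Finset ℕ :=
  (Finset.Icc 1 X).filter (fun m => Hp_A N m ∧ n.Prime ∧ n ^ 2 ∣ m)

theorem Hp_B_le {N X n : ℕ} (hn : 4 < n) : (Hp_B N X n).card ≤ Hp_c N (X / n ^ 2) := by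
  by_cases hp : n.Prime
  · have h1 : Hp_B N X n ⊆ ((Finset.Icc 1 (X / n ^ 2)).filter (Hp_A N)).image
        (fun m' => n ^ 2 * m') := by
      intro m hm
      unfold Hp_B at hm
      rw [Finset.mem_filter, Finset.mem_Icc] at hm
      obtain ⟨⟨h1, h2⟩, ⟨h3, h4⟩, -, m', rfl⟩ := hm
      rw [Finset.mem_image]
      refine ⟨m', ?_, rfl⟩
      rw [Finset.mem_filter, Finset.mem_Icc]
      refine ⟨⟨?_, ?_⟩, ?_, ?_⟩
      · by_contra h5
        have h6 : m' = 0 := by omega
        rw [h6, mul_zero] at h1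
        omega
      · rw [Nat.le_div_iff_mul_le (by positivity), mul_comm]
        exact h2
      · exact Nat.Coprime.coprime_dvd_left (Dvd.intro_left _ rfl) h3
      · have h5 : ¬ 3 ∣ n := by
          intro h6
          have := (Nat.prime_dvd_prime_iff_eq Nat.prime_three hp).1 h6
          omega
        obtain ⟨s, hs⟩ := Hp_sq h5
        have e : N * (n ^ 2 * m') = N * m' + 3 * (s * (N * m')) := by
          rw [pow_two, hs]
          ring
        rw [e, Nat.add_mul_mod_self_left] at h4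
        exact h4
    exact (Finset.card_le_card h1).trans Finset.card_image_le
  · have h1 : Hp_B N X n = ∅ := by
      unfold Hp_B
      rw [Finset.filter_eq_empty_iff]
      rintro m _ ⟨_, h2, _⟩
      exact hp h2
    rw [h1, Finset.card_empty]
    exact Nat.zero_le _

theorem Hp_c_le (N X : ℕ) : Hp_c N X ≤ X := by
  have h1 : Hp_c N X ≤ (Finset.Icc 1 X).card := Finset.card_filter_le _ _
  rwa [Nat.card_Icc, Nat.add_sub_cancel] at h1

theorem Hp_cover {N : ℕ} (h2 : 2 ∣ N) (X : ℕ) :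
    Hp_c N X ≤ ((Finset.Icc 1 X).filter (fun m => Squarefree m ∧ Nat.Coprime m N ∧
      (N * m) % 3 = 1)).card + ∑ n ∈ Finset.Ioc 4 X, (Hp_B N X n).card := by
  have h1 : (Finset.Icc 1 X).filter (Hp_A N) ⊆
      ((Finset.Icc 1 X).filter (fun m => Squarefree m ∧ Nat.Coprime m N ∧ (N * m) % 3 = 1)) ∪
        (Finset.Ioc 4 X).biUnion (Hp_B N X) := by
    intro m hm
    rw [Finset.mem_filter] at hm
    obtain ⟨hm1, hm2⟩ := hm
    rw [Finset.mem_union, Finset.mem_filter, Finset.mem_biUnion]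
    by_cases hs : Squarefree m
    · exact Or.inl ⟨hm1, hs, hm2.1, hm2.2⟩
    · right
      rw [Nat.squarefree_iff_prime_squarefree] at hs
      push Not at hs
      obtain ⟨p, hp, hd⟩ := hs
      rw [Finset.mem_Icc] at hm1
      have hpm : p ∣ m := (Dvd.intro _ rfl).trans hd
      have hp2 : p ≠ 2 := by
        rintro rfl
        have h5 := Nat.dvd_gcd hpm h2
        rw [hm2.1] at h5
        omega
      have hp3 : p ≠ 3 := by
        rintro rfl
        obtain ⟨t, rfl⟩ := hpm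
        have h5 := hm2.2
        rw [show N * (3 * t) = 3 * (N * t) by ring, Nat.mul_mod_right] at h5
        omega
      have hp4 : p ≠ 4 := by
        rintro rfl
        revert hp
        decide
      have hp5 := hp.two_le
      have hpX : p ≤ X := by
        have h5 : p * p ≤ m := Nat.le_of_dvd (by omega) hd
        have h6 : p * 1 ≤ p * p := Nat.mul_le_mul_left p (by omega)
        omega
      refine ⟨p, ?_, ?_⟩
      · rw [Finset.mem_Ioc]
        exact ⟨by omega, hpX⟩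
      · unfold Hp_B
        rw [Finset.mem_filter, Finset.mem_Icc]
        exact ⟨hm1, hm2, hp, by rw [pow_two]; exact hd⟩
  unfold Hp_c
  refine (Finset.card_le_card h1).trans ((Finset.card_union_le _ _).trans ?_)
  exact Nat.add_le_add_left Finset.card_biUnion_le _

theorem Hp_main {N : ℕ} (h2 : 2 ∣ N) (h3 : ¬ 3 ∣ N) (hN : 2 ≤ N) {T X : ℕ} (hT : 4 ≤ T)
    (hX : T ≤ X) :
    3 / 4 * ((Nat.totient N : ℝ) / (3 * N)) * X - X / T - (N + 1) * (T + 1) ≤
      (((Finset.Icc 1 X).filter (fun m => Squarefree m ∧ Nat.Coprime m N ∧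
      (N * m) % 3 = 1)).card : ℝ) := by
  have h1 : (Hp_c N X : ℝ) ≤ (((Finset.Icc 1 X).filter (fun m => Squarefree m ∧
      Nat.Coprime m N ∧ (N * m) % 3 = 1)).card : ℝ) +
        ∑ n ∈ Finset.Ioc 4 X, ((Hp_B N X n).card : ℝ) := by
    exact_mod_cast Hp_cover h2 X
  obtain ⟨r, hr⟩ : ∃ r : ℝ, r = (Nat.totient N : ℝ) / (3 * N) := ⟨_, rfl⟩
  have hr0 : 0 ≤ r := by
    rw [hr]
    positivity
  have hX0 : (0 : ℝ) ≤ X := Nat.cast_nonneg _
  have hT0 : (0 : ℝ) < T := by
    have : 0 < T := by omega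
    exact_mod_cast this
  have hsplit : ∑ n ∈ Finset.Ioc 4 X, ((Hp_B N X n).card : ℝ) =
      ∑ n ∈ Finset.Ioc 4 T, ((Hp_B N X n).card : ℝ) +
        ∑ n ∈ Finset.Ioc T X, ((Hp_B N X n).card : ℝ) := by
    rw [← Finset.sum_Ioc_consecutive _ hT hX]
  have s1 : ∑ n ∈ Finset.Ioc 4 T, ((Hp_B N X n).card : ℝ) ≤
      r * X * (1 / 4) + (N + 1) * T := by
    have t1 : ∀ n ∈ Finset.Ioc 4 T, ((Hp_B N X n).card : ℝ) ≤
        r * X * ((n : ℝ) ^ 2)⁻¹ + (N + 1) := by
      intro n hn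
      rw [Finset.mem_Ioc] at hn
      have t2 : ((Hp_B N X n).card : ℝ) ≤ Hp_c N (X / n ^ 2) := by
        exact_mod_cast Hp_B_le hn.1
      have t3 := (Hp_c_bd h3 hN (X / n ^ 2)).2
      rw [← hr] at t3
      have t4 : ((X / n ^ 2 : ℕ) : ℝ) ≤ X * ((n : ℝ) ^ 2)⁻¹ := by
        refine Nat.cast_div_le.trans ?_
        rw [div_eq_mul_inv]
        push_cast
        rfl
      have t5 := mul_le_mul_of_nonneg_right t4 hr0
      linarith
    refine (Finset.sum_le_sum t1).trans ?_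
    rw [Finset.sum_add_distrib, ← Finset.mul_sum, Finset.sum_const, Nat.card_Ioc, nsmul_eq_mul]
    have t2 := sum_Ioc_inv_sq_le_sub (α := ℝ) (k := 4) (n := T) (by norm_num) hT
    have t3 : (∑ i ∈ Finset.Ioc 4 T, ((i : ℝ) ^ 2)⁻¹) ≤ 1 / 4 := by
      refine t2.trans ?_
      have : (0 : ℝ) ≤ (T : ℝ)⁻¹ := by positivity
      push_cast
      linarith
    have t4 := mul_le_mul_of_nonneg_left t3 (mul_nonneg hr0 hX0)
    have t5 : ((T - 4 : ℕ) : ℝ) * ((N : ℝ) + 1) ≤ (N + 1) * T := by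
      have t6 : ((T - 4 : ℕ) : ℝ) ≤ T := by exact_mod_cast Nat.sub_le T 4
      have t7 : (0 : ℝ) ≤ N + 1 := by positivity
      nlinarith
    linarith
  have s2 : ∑ n ∈ Finset.Ioc T X, ((Hp_B N X n).card : ℝ) ≤ X / T := by
    have t1 : ∀ n ∈ Finset.Ioc T X, ((Hp_B N X n).card : ℝ) ≤ X * ((n : ℝ) ^ 2)⁻¹ := by
      intro n hn
      rw [Finset.mem_Ioc] at hn
      have t2 : ((Hp_B N X n).card : ℝ) ≤ ((X / n ^ 2 : ℕ) : ℝ) := by
        exact_mod_cast (Hp_B_le (by omega)).trans (Hp_c_le _ _)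
      refine t2.trans (Nat.cast_div_le.trans ?_)
      rw [div_eq_mul_inv]
      push_cast
      rfl
    refine (Finset.sum_le_sum t1).trans ?_
    rw [← Finset.mul_sum, div_eq_mul_inv]
    have t2 := sum_Ioc_inv_sq_le_sub (α := ℝ) (k := T) (n := X) (by omega) hX
    have t3 : (∑ i ∈ Finset.Ioc T X, ((i : ℝ) ^ 2)⁻¹) ≤ (T : ℝ)⁻¹ := by
      refine t2.trans ?_
      have : (0 : ℝ) ≤ (X : ℝ)⁻¹ := by positivity
      linarith
    exact mul_le_mul_of_nonneg_left t3 hX0
  have h5 := (Hp_c_bd h3 hN X).1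
  rw [← hr] at h5 ⊢
  rw [hsplit] at h1
  nlinarith

theorem Hp_rho {P : Finset ℕ} (hP : Prs P) :
    (Nat.totient (m0 P) : ℝ) / (3 * (m0 P : ℝ)) = rho P / 6 := by
  have h2P : 2 ∉ P := fun h => (hP 2 h).2.1 rfl
  have hm : m0 P = ∏ q ∈ insert 2 P, q := by
    rw [Finset.prod_insert h2P]
    rfl
  have hpf : (m0 P).primeFactors = insert 2 P := by
    rw [hm]
    apply Nat.primeFactors_prod
    intro p hp
    rw [Finset.mem_insert] at hp
    rcases hp with rfl | hp
    · exact Nat.prime_two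
    · exact (hP p hp).1
  have hne : (m0 P : ℝ) ≠ 0 := by
    rw [hm]
    push_cast
    rw [Finset.prod_ne_zero_iff]
    intro p hp
    rw [Finset.mem_insert] at hp
    rcases hp with rfl | hp
    · norm_num
    · exact_mod_cast (hP p hp).1.ne_zero
  have h1 := Nat.totient_eq_mul_prod_factors (m0 P)
  rw [hpf, Finset.prod_insert h2P] at h1
  have h2 : (Nat.totient (m0 P) : ℝ) = (m0 P : ℝ) * ((1 - (2 : ℝ)⁻¹) * rho P) := by
    have h3 := congrArg (Rat.cast : ℚ → ℝ) h1
    push_cast at h3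
    rw [h3]
    unfold rho
    simp only [one_div]
  rw [h2]
  field_simp
  ring

theorem all_count {P : Finset ℕ} (hP : Prs P) {η : ℝ} (hη : 0 < η) : ∃ X₀ : ℕ, ∀ X ≥ X₀,
    (rho P / 8 - η) * X ≤ (((Finset.Icc 1 X).filter (fun m => Adm P m)).card : ℝ) := by
  have h2 : 2 ∣ m0 P := Dvd.intro _ rfl
  have h3 : ¬ 3 ∣ m0 P := by
    intro h
    unfold m0 at h
    rcases (Nat.Prime.dvd_mul Nat.prime_three).1 h with h | h
    · omega
    · rw [Nat.prime_three.prime.dvd_finsetProd_iff] at h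
      obtain ⟨q, hq, hd⟩ := h
      have := (Nat.prime_dvd_prime_iff_eq Nat.prime_three (hP q hq).1).1 hd
      exact (hP q hq).2.2 this.symm
  have hN : 2 ≤ m0 P := by
    have h4 : m0 P ≠ 0 := by
      intro h
      rw [h] at h3
      exact h3 (dvd_zero 3)
    exact Nat.le_of_dvd (by omega) h2
  set T : ℕ := ⌈2 / η⌉₊ + 4 with hT
  have hTη : 2 / η ≤ T := by
    have := Nat.le_ceil (2 / η)
    rw [hT]
    push_cast
    linarith
  have hTpos : (0 : ℝ) < T := by
    have : (0 : ℝ) < 2 / η := by positivity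
    linarith
  refine ⟨max T ⌈2 * ((m0 P + 1) * (T + 1)) / η⌉₊, fun X hX => ?_⟩
  have hX1 : T ≤ X := (le_max_left _ _).trans hX
  have hX2 : 2 * (((m0 P : ℝ) + 1) * (T + 1)) / η ≤ X := by
    refine (Nat.le_ceil _).trans ?_
    exact_mod_cast (le_max_right _ _).trans hX
  have h5 := Hp_main h2 h3 hN (by omega) hX1
  rw [Hp_rho hP] at h5
  have hX0 : (0 : ℝ) ≤ X := Nat.cast_nonneg _
  have h6 : (X : ℝ) / T ≤ η / 2 * X := by
    rw [div_le_iff₀ hTpos]
    have h7 : 1 ≤ η / 2 * T := by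
      rw [div_le_iff₀ hη] at hTη
      linarith
    nlinarith
  have h7 : ((m0 P : ℝ) + 1) * (T + 1) ≤ η / 2 * X := by
    rw [div_le_iff₀ hη] at hX2
    linarith
  have h8 : ((Finset.Icc 1 X).filter (fun m => Adm P m)) = ((Finset.Icc 1 X).filter
      (fun m => Squarefree m ∧ Nat.Coprime m (m0 P) ∧ (m0 P * m) % 3 = 1)) := by
    ext m
    simp only [Finset.mem_filter]
    rfl
  rw [h8]
  refine le_trans ?_ h5
  nlinarith

end H38T6
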