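import Pool.Agent.H38.T6.Ho
import Pool.Agent.H38.T6.Hp

/-!
Row Hq. (about 70 lines): bad <= (pi/(18 sqrt 3) rho + eta/2) X, all >= (rho/8 - eta) X; rho > 0 (each factor is positive), 8 pi < 18 sqrt 3 (pi < 3.15, 25.2^2 < 324 * 3 = 972), so dl := rho (1/8 - pi/(18 sqrt 3)) > 0; take eta := dl / 4: good >= all - bad >= (dl - 2 eta) X = (dl/2) X. (filter of Adm and CubD = filter of Adm minus filter of Adm and not CubD.)
-/

set_option autoImplicit false
set_option linter.unusedSectionVars false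
open scoped Classical

namespace H38T6

lemma rho_pos {P : Finset ℕ} (hP : Prs P) : 0 < rho P := by
  unfold rho
  refine Finset.prod_pos fun q hq => ?_
  have h1 : (1 : ℝ) < q := by exact_mod_cast (hP q hq).1.one_lt
  have h2 : 1 / (q : ℝ) < 1 := by
    rw [div_lt_one (by linarith)]
    exact h1
  linarith

lemma num_pos : 0 < 1 / 8 - Real.pi / (18 * Real.sqrt 3) := by
  have h3 : (1.73 : ℝ) < Real.sqrt 3 := by
    rw [Real.lt_sqrt (by norm_num)]
    norm_num
  have hpi := Real.pi_lt_d2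
  have h4 : Real.pi / (18 * Real.sqrt 3) < 1 / 8 := by
    rw [div_lt_div_iff₀ (by positivity) (by norm_num)]
    nlinarith
  linarith

theorem good_count {P : Finset ℕ} (hP : Prs P) : ∃ c : ℝ, 0 < c ∧ ∃ X₀ : ℕ, ∀ X ≥ X₀,
    c * X ≤ (((Finset.Icc 1 X).filter
      (fun m => Adm P m ∧ CubD (-((m0 P * m : ℕ) : ℤ)))).card : ℝ) := by
  obtain ⟨dl, hdl⟩ : ∃ dl : ℝ, dl = rho P * (1 / 8 - Real.pi / (18 * Real.sqrt 3)) := ⟨_, rfl⟩
  have hdl0 : 0 < dl := by
    rw [hdl]
    exact mul_pos (rho_pos hP) num_pos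
  obtain ⟨X₁, h1⟩ := bad_count hP (η := dl / 4) (by positivity)
  obtain ⟨X₂, h2⟩ := all_count hP (η := dl / 4) (by positivity)
  refine ⟨dl / 2, by positivity, max X₁ X₂, fun X hX => ?_⟩
  have e1 := h1 X ((le_max_left _ _).trans hX)
  have e2 := h2 X ((le_max_right _ _).trans hX)
  have hc : ((Finset.Icc 1 X).filter (fun m => Adm P m)).card =
      ((Finset.Icc 1 X).filter (fun m => Adm P m ∧ CubD (-((m0 P * m : ℕ) : ℤ)))).card +
      ((Finset.Icc 1 X).filter (fun m => Adm P m ∧ ¬ CubD (-((m0 P * m : ℕ) : ℤ)))).card := by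
    rw [← Finset.filter_filter, ← Finset.filter_filter]
    exact (Finset.card_filter_add_card_filter_not _).symm
  have hcr : (((Finset.Icc 1 X).filter (fun m => Adm P m)).card : ℝ) =
      (((Finset.Icc 1 X).filter (fun m => Adm P m ∧ CubD (-((m0 P * m : ℕ) : ℤ)))).card : ℝ) +
      (((Finset.Icc 1 X).filter (fun m => Adm P m ∧ ¬ CubD (-((m0 P * m : ℕ) : ℤ)))).card : ℝ) := by
    exact_mod_cast hc
  rw [hcr] at e2
  have hX0 : (0 : ℝ) ≤ X := Nat.cast_nonneg X
  have e3 : Real.pi / (9 * Real.sqrt 3) = 2 * (Real.pi / (18 * Real.sqrt 3)) := by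
    have : Real.sqrt 3 ≠ 0 := by positivity
    field_simp
    ring
  rw [e3] at e1
  have e4 : dl * X = rho P / 8 * X - Real.pi / (18 * Real.sqrt 3) * rho P * X := by
    rw [hdl]
    ring
  nlinarith

end H38T6
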