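import Mathlib

/-!
Row Ga. (about 160 lines): descent of classes modulo cubes along a 3-extension.
PROOF. Suppose y0 in P is not a cube. Let Q := C^x modulo cubes (the quotient group of C^x by the range of x -> x^3), written multiplicatively, every element has order dividing three, G := Gal(C/F) acts on it. A := the subgroup generated by the classes of the g y0, g in G: finitely generated, commutative of exponent three, so finite of order 3^k; it is stable under G, contains the class of y0, which is not 1, so 3 | card A. Every element of A is the class of some y with P y (hmul, hst; inverse: y^-1 = y^2 (y^-1)^3).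
 IsPGroup.card_modEq_card_fixedPoints: the number of fixed points of G on A is 0 mod 3, it is at least one (the class of 1), so there is a fixed class different from 1: y with P y, y <> 0, y not a cube, and for every g: g y = y u_g^3 with u_g in C, nonzero.
 u_g is unique: u^3 = u'^3 gives u = u' (w = u / u', w^3 = 1, (w - 1)(w^2 + w + 1) = 0, hz). So u_(g h) = u_g g(u_h) (compute g h y). Hilbert 90 (Mathlib.RepresentationTheory.Homological.GroupCohomology.Hilbert90: groupCohomology.isMulCoboundary1_of_isMulCocycle1_of_aut_to_units or the like): a unit b with u_g = g b / b for all g. y / b^3 is fixed by G: y = y1 b^3 with y1 in F (IsGalois: fixed elements are in the image).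
 P (y1) : y1 = y (b^-1)^3 (hc, hmul). h0: y1 = z^3, y = (z b)^3: contradiction.
Alternative to the finite subgroup A: induction on the order of G with the center, but the above is short.
-/

set_option autoImplicit false
set_option linter.unusedSectionVars false
open scoped Classical


namespace H38T6

private theorem Ga_cube {C : Type} [Field C] (hz : ∀ z : C, z ^ 2 + z + 1 ≠ 0) {u v : Cˣ}
    (h : u ^ 3 = v ^ 3) : u = v := by
  have h1 : ((u : C) / v) ^ 3 = 1 := by
    rw [div_pow, ← Units.val_pow_eq_pow_val, ← Units.val_pow_eq_pow_val, h,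
      div_self (Units.ne_zero _)]
  have h2 : ((u : C) / v - 1) * (((u : C) / v) ^ 2 + (u : C) / v + 1) = 0 := by
    have : ((u : C) / v - 1) * (((u : C) / v) ^ 2 + (u : C) / v + 1) = ((u : C) / v) ^ 3 - 1 := by
      ring
    rw [this, h1, sub_self]
  rcases mul_eq_zero.1 h2 with h3 | h3
  · apply Units.ext
    have h4 : (u : C) / v = 1 := sub_eq_zero.1 h3
    rwa [div_eq_one_iff_eq (Units.ne_zero _)] at h4
  · exact absurd h3 (hz _)

/-- classes modulo cubes -/
private abbrev GaQ (C : Type) [Field C] : Type := Cˣ ⧸ (powMonoidHom 3 : Cˣ →* Cˣ).range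

private noncomputable def GaT {F C : Type} [Field F] [Field C] [Algebra F C] (g : C ≃ₐ[F] C) :
    GaQ C →* GaQ C :=
  QuotientGroup.map _ _ (Units.map (g : C →* C)) (by
    rintro _ ⟨v, rfl⟩
    exact ⟨Units.map (g : C →* C) v, (map_pow (Units.map (g : C →* C)) v 3).symm⟩)

private theorem GaT_mk {F C : Type} [Field F] [Field C] [Algebra F C] (g : C ≃ₐ[F] C) (u : Cˣ) :
    GaT g (QuotientGroup.mk u) = QuotientGroup.mk (Units.map (g : C →* C) u) := rfl

private theorem GaT_one {F C : Type} [Field F] [Field C] [Algebra F C] (q : GaQ C) :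
    GaT (1 : C ≃ₐ[F] C) q = q := by
  induction q using QuotientGroup.induction_on with
  | H u => rfl

private theorem GaT_mul {F C : Type} [Field F] [Field C] [Algebra F C] (g h : C ≃ₐ[F] C)
    (q : GaQ C) : GaT (g * h) q = GaT g (GaT h q) := by
  induction q using QuotientGroup.induction_on with
  | H u => rfl

/-- a nontrivial class with a representative satisfying `P`, fixed by the group -/
private theorem Ga_fixed {F C : Type} [Field F] [Field C] [Algebra F C] [FiniteDimensional F C]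
    {n : ℕ} (hG : Nat.card (C ≃ₐ[F] C) = 3 ^ n) (P : Cˣ → Prop)
    (hmul : ∀ x y, P x → P y → P (x * y))
    (hst : ∀ (g : C ≃ₐ[F] C) (y : Cˣ), P y → P (Units.map (g : C →* C) y))
    (hc : ∀ y, P (y ^ 3)) {y : Cˣ} (hP : P y) (hy : ∀ z : Cˣ, y ≠ z ^ 3) :
    ∃ u : Cˣ, P u ∧ (∀ z : Cˣ, u ≠ z ^ 3) ∧
      ∀ g : C ≃ₐ[F] C, ∃ v : Cˣ, Units.map (g : C →* C) u = u * v ^ 3 := by
  have hinv : ∀ x, P x → P x⁻¹ := by
    intro x hx
    have h1 : x⁻¹ = x * x * (x⁻¹) ^ 3 := by
      rw [pow_succ, pow_two, mul_assoc x x, ← mul_assoc x (x⁻¹ * x⁻¹), ← mul_assoc x x⁻¹ x⁻¹,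
        mul_inv_cancel, one_mul, mul_inv_cancel_left]
    rw [h1]
    exact hmul _ _ (hmul _ _ hx hx) (hc _)
  have hone : P 1 := by
    have := hc 1
    rwa [one_pow] at this
  obtain ⟨S, hS⟩ : ∃ S : Set (GaQ C), S = Set.range fun g : C ≃ₐ[F] C =>
      (QuotientGroup.mk (Units.map (g : C →* C) y) : GaQ C) := ⟨_, rfl⟩
  obtain ⟨A, hA⟩ : ∃ A : Subgroup (GaQ C), A = Subgroup.closure S := ⟨_, rfl⟩
  have hSfin : S.Finite := by
    rw [hS]
    exact Set.finite_range _
  have hAT : ∀ (g : C ≃ₐ[F] C) (q : GaQ C), q ∈ A → GaT g q ∈ A := by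
    intro g q hq
    have h1 : A ≤ A.comap (GaT g) := by
      conv_lhs => rw [hA]
      rw [Subgroup.closure_le]
      intro s hs
      rw [hS] at hs
      obtain ⟨h, rfl⟩ := hs
      show GaT g _ ∈ A
      rw [GaT_mk, hA]
      apply Subgroup.subset_closure
      rw [hS]
      exact ⟨g * h, rfl⟩
    exact h1 hq
  have hAP : ∀ q ∈ A, ∃ u : Cˣ, P u ∧ q = QuotientGroup.mk u := by
    intro q hq
    rw [hA] at hq
    induction hq using Subgroup.closure_induction with
    | mem x hx =>
      rw [hS] at hx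
      obtain ⟨h, rfl⟩ := hx
      exact ⟨_, hst h y hP, rfl⟩
    | one => exact ⟨1, hone, rfl⟩
    | mul a b _ _ ha hb =>
      obtain ⟨u, hu, rfl⟩ := ha
      obtain ⟨v, hv, rfl⟩ := hb
      exact ⟨u * v, hmul _ _ hu hv, rfl⟩
    | inv a _ ha =>
      obtain ⟨u, hu, rfl⟩ := ha
      exact ⟨u⁻¹, hinv _ hu, rfl⟩
  have h3 : ∀ q : GaQ C, q ^ 3 = 1 := by
    intro q
    induction q using QuotientGroup.induction_on with
    | H u =>
      rw [← QuotientGroup.mk_pow, QuotientGroup.eq_one_iff]
      exact ⟨u, rfl⟩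
  have : Fact (Nat.Prime 3) := ⟨Nat.prime_three⟩
  have hpA : IsPGroup 3 A := fun a => ⟨1, by
    apply Subtype.ext
    rw [pow_one]
    exact h3 a⟩
  have hfg : Group.FG A := by
    rw [Group.fg_iff_subgroup_fg, hA]
    exact ⟨hSfin.toFinset, by rw [Set.Finite.coe_toFinset]⟩
  have hfin : Finite A := CommGroup.finite_of_fg_isMulTorsion A (fun a => by
    rw [isOfFinOrder_iff_pow_eq_one]
    exact ⟨3, by norm_num, Subtype.ext (h3 a)⟩)
  have hyA : (QuotientGroup.mk y : GaQ C) ∈ A := by
    rw [hA]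
    apply Subgroup.subset_closure
    rw [hS]
    exact ⟨1, rfl⟩
  have hnt : Nontrivial A := by
    refine ⟨⟨⟨QuotientGroup.mk y, hyA⟩, 1, ?_⟩⟩
    intro h
    have h1 : (QuotientGroup.mk y : GaQ C) = 1 := congrArg Subtype.val h
    rw [QuotientGroup.eq_one_iff] at h1
    obtain ⟨z, hz⟩ := h1
    exact hy z hz.symm
  have hdvd : 3 ∣ Nat.card A := by
    obtain ⟨k, hk⟩ := (IsPGroup.iff_card).1 hpA
    rw [hk]
    apply dvd_pow_self
    rintro rfl
    rw [pow_zero] at hk
    have := Finite.one_lt_card (α := A)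
    omega
  let _ : MulAction (C ≃ₐ[F] C) A :=
    { smul := fun g a => ⟨GaT g a, hAT g a a.2⟩
      one_smul := fun a => Subtype.ext (GaT_one (F := F) a.1)
      mul_smul := fun g h a => Subtype.ext (GaT_mul g h a.1) }
  have hsm : ∀ (g : C ≃ₐ[F] C) (a : A), ((g • a : A) : GaQ C) = GaT g a := fun g a => rfl
  have hpG : IsPGroup 3 (C ≃ₐ[F] C) := IsPGroup.of_card hG
  obtain ⟨b, hb, hb1⟩ := hpG.exists_fixed_point_of_prime_dvd_card_of_fixed_point A hdvd
    (a := (1 : A)) (by
      intro g
      apply Subtype.ext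
      rw [hsm]
      exact map_one _)
  obtain ⟨u, hu, hub⟩ := hAP b b.2
  refine ⟨u, hu, ?_, ?_⟩
  · intro z hz
    apply hb1
    apply Subtype.ext
    rw [hub]
    symm
    show (QuotientGroup.mk u : GaQ C) = 1
    rw [QuotientGroup.eq_one_iff]
    exact ⟨z, hz.symm⟩
  · intro g
    have h1 := congrArg Subtype.val (hb g)
    rw [hsm, hub, GaT_mk] at h1
    obtain ⟨v, hv⟩ := QuotientGroup.eq.1 h1.symm
    refine ⟨v, ?_⟩
    have h2 : v ^ 3 = u⁻¹ * Units.map (g : C →* C) u := hv
    rw [h2, mul_inv_cancel_left]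

theorem desc {F C : Type} [Field F] [Field C] [Algebra F C] [FiniteDimensional F C] [IsGalois F C]
    {n : ℕ} (hG : Nat.card (C ≃ₐ[F] C) = 3 ^ n) (hz : ∀ z : C, z ^ 2 + z + 1 ≠ 0) (P : C → Prop)
    (hmul : ∀ x y, x ≠ 0 → y ≠ 0 → P x → P y → P (x * y))
    (hst : ∀ (g : C ≃ₐ[F] C) (y : C), P y → P (g y)) (hc : ∀ y, y ≠ 0 → P (y ^ 3))
    (h0 : ∀ y : F, y ≠ 0 → P (algebraMap F C y) → ∃ z : C, algebraMap F C y = z ^ 3) {y : C}
    (hy : y ≠ 0) (hP : P y) : ∃ z : C, y = z ^ 3 := by
  by_contra hcon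
  push Not at hcon
  obtain ⟨u, hu, hun, huv⟩ := Ga_fixed hG (fun u : Cˣ => P (u : C))
    (fun a b ha hb => by
      rw [Units.val_mul]
      exact hmul _ _ a.ne_zero b.ne_zero ha hb)
    (fun g a ha => hst g a ha)
    (fun a => by
      rw [Units.val_pow_eq_pow_val]
      exact hc _ a.ne_zero)
    (y := Units.mk0 y hy) hP (fun z h => hcon (z : C) (by
      have := congrArg Units.val h
      rwa [Units.val_mk0, Units.val_pow_eq_pow_val] at this))
  choose v hv using huv
  have hcoc : groupCohomology.IsMulCocycle₁ v := by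
    intro g h
    apply Ga_cube hz
    have h1 := hv (g * h)
    have h2 : Units.map ((g * h : C ≃ₐ[F] C) : C →* C) u =
        Units.map (g : C →* C) (Units.map (h : C →* C) u) := rfl
    rw [h2, hv h, map_mul, map_pow, hv g, mul_assoc] at h1
    have h3 := mul_left_cancel h1
    rw [← h3, mul_pow, mul_comm]
    rfl
  obtain ⟨b, hb⟩ := groupCohomology.isMulCoboundary₁_of_isMulCocycle₁_of_aut_to_units v hcoc
  have hb' : ∀ g : C ≃ₐ[F] C, g (b : C) = (v g : C) * b := by
    intro g
    have h1 := hb g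
    rw [div_eq_iff_eq_mul] at h1
    have h2 := congrArg Units.val h1
    rw [Units.val_mul] at h2
    exact h2
  have hu' : ∀ g : C ≃ₐ[F] C, g (u : C) = (u : C) * (v g : C) ^ 3 := by
    intro g
    have h2 := congrArg Units.val (hv g)
    rw [Units.val_mul, Units.val_pow_eq_pow_val] at h2
    exact h2
  have hfix : ∀ g : C ≃ₐ[F] C, g ((u : C) / (b : C) ^ 3) = (u : C) / (b : C) ^ 3 := by
    intro g
    rw [map_div₀, map_pow, hb', hu']
    have h1 := (v g).ne_zero
    have h2 := b.ne_zero
    field_simp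
  obtain ⟨y1, hy1⟩ := (IsGalois.mem_range_algebraMap_iff_fixed ((u : C) / (b : C) ^ 3)).2 hfix
  have hy10 : y1 ≠ 0 := by
    rintro rfl
    rw [map_zero] at hy1
    exact div_ne_zero u.ne_zero (pow_ne_zero 3 b.ne_zero) hy1.symm
  have hPy : P (algebraMap F C y1) := by
    rw [hy1, div_eq_mul_inv, ← inv_pow]
    exact hmul _ _ u.ne_zero (pow_ne_zero 3 (inv_ne_zero b.ne_zero)) hu
      (hc _ (inv_ne_zero b.ne_zero))
  obtain ⟨z, hz1⟩ := h0 y1 hy10 hPy
  rw [hy1, div_eq_iff (pow_ne_zero 3 b.ne_zero)] at hz1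
  have hz0 : z ≠ 0 := by
    rintro rfl
    rw [zero_pow (by norm_num), zero_mul] at hz1
    exact u.ne_zero hz1
  apply hun (Units.mk0 z hz0 * b)
  apply Units.ext
  rw [Units.val_pow_eq_pow_val, Units.val_mul, Units.val_mk0, mul_pow]
  exact hz1

end H38T6
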