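import Pool.Agent.H38.T6.Oa
import Pool.Agent.H38.T6.Oc

/-!
Row Gb. (about 170 lines): the valuations of an element of the quadratic field F.
F -> C with t -> s_C (s_C = algebraMap B C s), t^2 = delta; y0 = p + q t, its conjugate p - q t, y0 (p - q t) = p^2 - delta q^2 = c^3.
Let v be a place of F, l the prime number in v.
 (1) If l is not ramified in N: W, e from val_above (C over F): W (y0) = v(y0)^e, so 3 | e log v(y0). W l = v(l)^e, so e | -log (W l). W lies over a place w of N (val_below for C / N: W l = w(l)^e', 1 <= e' <= [C : N] = 2, w l = exp(-1) as l in w and l not in w^2 (not RamIn), so -log (W l) = e' is 1 or 2). Hence 3 does not divide e, 3 | log v(y0).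
 (2) If l is ramified in N, hns: (i) l | delta, not l^2 | delta: v(delta) = v(l); F/Q: v (x) for rational x: v(x) = v(l)^(padic value). For u rational v(u)^2 = v(l)^(2k) <> v(delta) = v(l) (v l <> 1): conj_ram with K := Q, B := F, V := v.valuation F gives v(p + q t) = v(p - q t). (ii) l odd prime not dividing delta, delta not a square mod l: v t = 1; for u rational with v u = 1 (u = a/b, a, b prime to l): u^2 - delta = (a^2 - delta b^2)/b^2, if l | a^2 - delta b^2 then with b' inverse of b mod l: l | delta - (a b')^2, so l | a b', l | a, contradiction; so v(u^2 - delta) = 1: conj_inert. In both cases three_dvd_of_conj with d = y0, d' = p - q t, y = c.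
-/

set_option autoImplicit false
set_option linter.unusedSectionVars false
open scoped Classical

open IsDedekindDomain NumberField WithZero

namespace H38T6

section aux

variable {F : Type} [Field F] [NumberField F]

private theorem Gb_prime (v : HeightOneSpectrum (𝓞 F)) :
    ∃ l : ℕ, l.Prime ∧ (l : 𝓞 F) ∈ v.asIdeal := by
  have hex : ∃ n : ℕ, 0 < n ∧ (n : 𝓞 F) ∈ v.asIdeal :=
    ⟨Ideal.absNorm v.asIdeal, Nat.pos_of_ne_zero (fun h => v.ne_bot (Ideal.absNorm_eq_zero_iff.1 h)),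
      Ideal.absNorm_mem _⟩
  have h1 := Nat.find_spec hex
  have h2 : ∀ m : ℕ, m < Nat.find hex → ¬ (0 < m ∧ (m : 𝓞 F) ∈ v.asIdeal) :=
    fun m hm => Nat.find_min hex hm
  obtain ⟨n, hn⟩ : ∃ n, n = Nat.find hex := ⟨_, rfl⟩
  rw [← hn] at h1 h2
  refine ⟨n, ?_, h1.2⟩
  by_contra hcon
  have hn1 : n ≠ 1 := by
    rintro rfl
    have h3 := h1.2
    rw [Nat.cast_one] at h3
    exact v.isPrime.ne_top ((Ideal.eq_top_iff_one _).2 h3)
  obtain ⟨a, ha, ha1, ha2⟩ := Nat.exists_dvd_of_not_prime (by omega) hcon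
  obtain ⟨b, hb⟩ := ha
  have ha0 : 0 < a := by
    rcases Nat.eq_zero_or_pos a with h | h
    · rw [h, zero_mul] at hb
      omega
    · exact h
  have hb0 : 0 < b := by
    rcases Nat.eq_zero_or_pos b with h | h
    · rw [h, mul_zero] at hb
      omega
    · exact h
  have han : a < n := lt_of_le_of_ne (Nat.le_of_dvd h1.1 ⟨b, hb⟩) ha2
  have hbn : b < n := by
    have h3 : 2 ≤ a := by omega
    rw [hb]
    nlinarith
  have h3 := h1.2
  rw [hb, Nat.cast_mul] at h3
  rcases v.isPrime.mem_or_mem h3 with h4 | h4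
  · exact h2 a han ⟨ha0, h4⟩
  · exact h2 b hbn ⟨hb0, h4⟩

variable {v : HeightOneSpectrum (𝓞 F)} {l : ℕ}

private theorem Gb_mem (hl : l.Prime) (hlv : (l : 𝓞 F) ∈ v.asIdeal) (n : ℤ) :
    (n : 𝓞 F) ∈ v.asIdeal ↔ (l : ℤ) ∣ n := by
  constructor
  · intro h
    by_contra hn
    have hcop : IsCoprime (l : ℤ) n :=
      (Prime.coprime_iff_not_dvd (Nat.prime_iff_prime_int.1 hl)).2 hn
    obtain ⟨a, b, hab⟩ := hcop
    have h1 : (a : 𝓞 F) * (l : 𝓞 F) + (b : 𝓞 F) * (n : 𝓞 F) = 1 := by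
      have h2 := congrArg (fun z : ℤ => (z : 𝓞 F)) hab
      push_cast at h2
      exact h2
    have h3 : (1 : 𝓞 F) ∈ v.asIdeal := by
      rw [← h1]
      exact v.asIdeal.add_mem (v.asIdeal.mul_mem_left _ hlv) (v.asIdeal.mul_mem_left _ h)
    exact v.isPrime.ne_top ((Ideal.eq_top_iff_one _).2 h3)
  · rintro ⟨m, rfl⟩
    push_cast
    exact v.asIdeal.mul_mem_right _ hlv

private theorem Gb_one (hl : l.Prime) (hlv : (l : 𝓞 F) ∈ v.asIdeal) {n : ℤ}
    (h : ¬ (l : ℤ) ∣ n) : v.valuation F (n : F) = 1 := by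
  have h2 : (n : 𝓞 F) ∉ v.asIdeal := fun h' => h ((Gb_mem hl hlv n).1 h')
  have h3 := (v.valuation_eq_one_iff_notMem (K := F) (r := (n : 𝓞 F))).mpr h2
  rwa [map_intCast] at h3

private theorem Gb_lt (hlv : (l : 𝓞 F) ∈ v.asIdeal) : v.valuation F (l : F) < 1 := by
  have h2 := (v.valuation_lt_one_iff_mem (K := F) (l : 𝓞 F)).2 hlv
  change v.valuation F (algebraMap (𝓞 F) F (l : 𝓞 F)) < 1 at h2
  rwa [map_natCast] at h2

private theorem Gb_ne (hl : l.Prime) (v : HeightOneSpectrum (𝓞 F)) :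
    v.valuation F (l : F) ≠ 0 := by
  rw [Valuation.ne_zero_iff]
  exact_mod_cast hl.ne_zero

private theorem Gb_log (hl : l.Prime) (hlv : (l : 𝓞 F) ∈ v.asIdeal) :
    log (v.valuation F (l : F)) < 0 := by
  rw [← log_one, log_lt_log (Gb_ne hl v) one_ne_zero]
  exact Gb_lt hlv

private theorem Gb_int (hl : l.Prime) (hlv : (l : 𝓞 F) ∈ v.asIdeal) {n : ℤ} (hn : n ≠ 0) :
    ∃ j : ℕ, v.valuation F (n : F) = v.valuation F (l : F) ^ j := by
  obtain ⟨n', hn', h⟩ := FiniteMultiplicity.exists_eq_pow_mul_and_not_dvd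
    (a := (l : ℤ)) (b := n) (Int.finiteMultiplicity_iff.2 ⟨by
      rw [Int.natAbs_natCast]
      exact hl.ne_one, hn⟩)
  refine ⟨multiplicity (l : ℤ) n, ?_⟩
  have h1 : (n : F) = (l : F) ^ (multiplicity (l : ℤ) n) * (n' : F) := by
    conv_lhs => rw [hn']
    push_cast
    rfl
  rw [h1, map_mul, map_pow, Gb_one hl hlv h, mul_one]

private theorem Gb_rat (hl : l.Prime) (hlv : (l : 𝓞 F) ∈ v.asIdeal) {u : ℚ} (hu : u ≠ 0) :
    ∃ k : ℤ, log (v.valuation F (algebraMap ℚ F u)) = k * log (v.valuation F (l : F)) := by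
  obtain ⟨i, hi⟩ := Gb_int hl hlv (n := u.num) (Rat.num_ne_zero.2 hu)
  obtain ⟨j, hj⟩ := Gb_int hl hlv (n := (u.den : ℤ)) (by exact_mod_cast u.den_ne_zero)
  refine ⟨(i : ℤ) - j, ?_⟩
  have h1 : algebraMap ℚ F u = (u.num : F) / ((u.den : ℤ) : F) := by
    conv_lhs => rw [← Rat.num_div_den u]
    rw [map_div₀, map_intCast, map_natCast, Int.cast_natCast]
  rw [h1, map_div₀, hi, hj, log_div (pow_ne_zero _ (Gb_ne hl v)) (pow_ne_zero _ (Gb_ne hl v)),
    log_pow, log_pow, nsmul_eq_mul, nsmul_eq_mul]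
  ring

private theorem Gb_exp (hl : l.Prime) (hlv : (l : 𝓞 F) ∈ v.asIdeal)
    (h : (l : 𝓞 F) ∉ v.asIdeal ^ 2) : log (v.valuation F (l : F)) = -1 := by
  have h1 := Gb_log hl hlv
  have h2 : ¬ v.valuation F (l : F) ≤ exp (-((2 : ℕ) : ℤ)) := by
    intro h3
    apply h
    rw [← v.intValuation_le_pow_iff_mem]
    have h4 : v.valuation F (algebraMap (𝓞 F) F (l : 𝓞 F)) = v.intValuation (l : 𝓞 F) :=
      v.valuation_of_algebraMap _
    rw [← h4, map_natCast]
    exact h3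
  rw [not_le, ← lt_log_iff_exp_lt (Gb_ne hl v)] at h2
  push_cast at h2
  omega

/-- the square of a rational number is not a uniformizer times a unit -/
private theorem Gb_sq (hl : l.Prime) (hlv : (l : 𝓞 F) ∈ v.asIdeal) {δ : ℤ} (h1 : (l : ℤ) ∣ δ)
    (h2 : ¬ (l : ℤ) ^ 2 ∣ δ) (u : ℚ) :
    v.valuation F (algebraMap ℚ F u) ^ 2 ≠ v.valuation F (algebraMap ℚ F (δ : ℚ)) := by
  obtain ⟨d, hd⟩ := h1
  have hd2 : ¬ (l : ℤ) ∣ d := by
    rintro ⟨c, rfl⟩
    exact h2 ⟨c, by rw [hd]; ring⟩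
  have h3 : v.valuation F (algebraMap ℚ F (δ : ℚ)) = v.valuation F (l : F) := by
    rw [map_intCast, hd]
    push_cast
    rw [map_mul, Gb_one hl hlv hd2, mul_one]
  rw [h3]
  by_cases hu : u = 0
  · rw [hu, map_zero, map_zero, zero_pow two_ne_zero]
    exact (Gb_ne hl v).symm
  · obtain ⟨k, hk⟩ := Gb_rat hl hlv hu
    intro h4
    have h5 := congrArg log h4
    rw [log_pow, hk, nsmul_eq_mul] at h5
    have h6 := Gb_log hl hlv
    have h7 : (2 * k - 1) * log (v.valuation F (l : F)) = 0 := by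
      push_cast at h5
      linear_combination h5
    rcases mul_eq_zero.1 h7 with h8 | h8
    · omega
    · omega

private theorem Gb_unit (hl : l.Prime) (hlv : (l : 𝓞 F) ∈ v.asIdeal) {δ : ℤ}
    (h2 : NonSplit l δ) {u : ℚ} (hu : v.valuation F (algebraMap ℚ F u) = 1) :
    1 ≤ v.valuation F (algebraMap ℚ F (u ^ 2 - (δ : ℚ))) := by
  have hp : Prime (l : ℤ) := Nat.prime_iff_prime_int.1 hl
  have hd0 : ((u.den : ℤ) : F) ≠ 0 := by exact_mod_cast u.den_ne_zero
  have h1 : algebraMap ℚ F u = (u.num : F) / ((u.den : ℤ) : F) := by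
    conv_lhs => rw [← Rat.num_div_den u]
    rw [map_div₀, map_intCast, map_natCast, Int.cast_natCast]
  have hcop : ¬ ((l : ℤ) ∣ u.num ∧ (l : ℤ) ∣ (u.den : ℤ)) := by
    rintro ⟨ha, hb⟩
    have h3 : (l : ℤ) ∣ (Int.gcd u.num u.den : ℤ) := Int.dvd_coe_gcd ha hb
    have h4 : Int.gcd u.num u.den = 1 := u.reduced
    rw [h4] at h3
    exact hp.not_isUnit (isUnit_of_dvd_one (by exact_mod_cast h3))
  have hvd : v.valuation F (u.num : F) = v.valuation F ((u.den : ℤ) : F) := by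
    have h3 : (u.num : F) = algebraMap ℚ F u * ((u.den : ℤ) : F) := by
      rw [h1, div_mul_cancel₀ _ hd0]
    rw [h3, map_mul, hu, one_mul]
  have hlt : ∀ {n : ℤ}, (l : ℤ) ∣ n → v.valuation F (n : F) < 1 := by
    intro n hn
    have h3 := (v.valuation_lt_one_iff_mem (K := F) (n : 𝓞 F)).2 ((Gb_mem hl hlv n).2 hn)
    change v.valuation F (algebraMap (𝓞 F) F (n : 𝓞 F)) < 1 at h3
    rwa [map_intCast] at h3
  have hb : ¬ (l : ℤ) ∣ (u.den : ℤ) := by
    intro hb
    have ha : ¬ (l : ℤ) ∣ u.num := fun ha => hcop ⟨ha, hb⟩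
    have h3 := hlt hb
    rw [← hvd, Gb_one hl hlv ha] at h3
    exact lt_irrefl _ h3
  have ha : ¬ (l : ℤ) ∣ u.num := by
    intro ha
    have h3 := hlt ha
    rw [hvd, Gb_one hl hlv hb] at h3
    exact lt_irrefl _ h3
  obtain ⟨a, haa⟩ : ∃ a : ℤ, a = u.num := ⟨_, rfl⟩
  obtain ⟨b, hbb⟩ : ∃ b : ℤ, b = (u.den : ℤ) := ⟨_, rfl⟩
  rw [← haa] at ha h1
  rw [← hbb] at hb h1 hd0
  have hab : ¬ (l : ℤ) ∣ a ^ 2 - δ * b ^ 2 := by
    intro hdv
    obtain ⟨x, y, hxy⟩ := (hp.coprime_iff_not_dvd).2 hb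
    have h5 : (l : ℤ) ∣ δ - (a * y) ^ 2 := by
      have h6 : δ - (a * y) ^ 2 = -(y ^ 2) * (a ^ 2 - δ * b ^ 2) +
          (l : ℤ) * (δ * x * (1 + y * b)) := by
        have h7 : y * b = 1 - x * l := by linear_combination hxy
        linear_combination -δ * (1 + y * b) * h7
      rw [h6]
      exact dvd_add (Dvd.dvd.mul_left hdv _) (dvd_mul_right _ _)
    rcases hp.dvd_or_dvd (h2 _ h5) with h8 | h8
    · exact ha h8
    · have h9 : (l : ℤ) ∣ 1 := by
        rw [← hxy]
        exact dvd_add (dvd_mul_left _ _) (Dvd.dvd.mul_right h8 _)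
      exact hp.not_isUnit (isUnit_of_dvd_one h9)
  have h6 : algebraMap ℚ F (u ^ 2 - (δ : ℚ)) =
      ((a ^ 2 - δ * b ^ 2 : ℤ) : F) / ((b : F) ^ 2) := by
    rw [map_sub, map_pow, h1, map_intCast]
    push_cast
    field_simp
  rw [h6, map_div₀, Gb_one hl hlv hab, map_pow, Gb_one hl hlv hb, one_pow, div_one]

end aux

theorem val_base {m : ℕ} {δ : ℤ} {K N B C : Type} [Field K] [NumberField K] [Field N] [NumberField N]
    [Field B] [NumberField B] [Field C] [NumberField C] [Algebra K N] [Algebra K B] [Algebra K C]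
    [Algebra N C] [Algebra B C] [IsScalarTower K N C] [IsScalarTower K B C] {s : B}
    {κ : C ≃ₐ[N] C} (T : Tow m δ K N B C s κ) {F : Type} [Field F] [NumberField F]
    [Algebra F C] {t : F} (ht : algebraMap F C t = algebraMap B C s)
    (hns : ∀ l : ℕ, l.Prime → RamIn l N →
      ((l : ℤ) ∣ δ ∧ ¬ (l : ℤ) ^ 2 ∣ δ) ∨ (¬ (l : ℤ) ∣ δ ∧ NonSplit l δ))
    {p q c : ℚ} (hc : p ^ 2 - δ * q ^ 2 = c ^ 3) (hne : algebraMap ℚ F p + algebraMap ℚ F q * t ≠ 0)
    (hW : ∀ W : HeightOneSpectrum (𝓞 C), (3 : ℤ) ∣ log (W.valuation C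
      (algebraMap F C (algebraMap ℚ F p + algebraMap ℚ F q * t)))) (v : HeightOneSpectrum (𝓞 F)) :
    (3 : ℤ) ∣ log (v.valuation F (algebraMap ℚ F p + algebraMap ℚ F q * t)) := by
  obtain ⟨l, hl, hlv⟩ := Gb_prime v
  have ht2 : t ^ 2 = algebraMap ℚ F (δ : ℚ) := by
    apply (algebraMap F C).injective
    rw [map_pow, ht, ← map_pow, T.sq, map_intCast, map_intCast, map_intCast]
  by_cases hram : RamIn l N
  · have hconj : v.valuation F (algebraMap ℚ F p + algebraMap ℚ F q * t) =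
        v.valuation F (algebraMap ℚ F p - algebraMap ℚ F q * t) := by
      rcases hns l hl hram with ⟨h1, h2⟩ | ⟨h1, h2⟩
      · exact conj_ram (v.valuation F) ht2 (fun u => Gb_sq hl hlv h1 h2 u) p q
      · refine conj_inert (v.valuation F) ht2 ?_ (fun u hu => Gb_unit hl hlv h2 hu) p q
        have h3 : v.valuation F t ^ 2 = 1 := by
          rw [← map_pow, ht2, map_intCast]
          exact Gb_one hl hlv h1
        exact (pow_eq_one_iff.1 h3).resolve_right two_ne_zero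
    refine three_dvd_of_conj (v.valuation F) (d' := algebraMap ℚ F p - algebraMap ℚ F q * t)
      (y := algebraMap ℚ F c) hne ?_ hconj.symm
    rw [← map_pow, ← hc, map_sub, map_mul, map_pow, map_pow, ← ht2]
    ring
  · obtain ⟨W, e, he1, -, heW, hmem⟩ := val_above (K := F) (C := C) v
    obtain ⟨w, e', he1', he2', heW', hmem'⟩ := val_below (K := N) (C := C) W
    have hfin : Module.finrank N C = 2 := by
      have h1 := Module.finrank_mul_finrank ℚ N C
      rw [T.degN, T.degC, mul_comm 2] at h1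
      exact Nat.eq_of_mul_eq_mul_left (by positivity) h1
    rw [hfin] at he2'
    have hlW : (l : 𝓞 C) ∈ W.asIdeal := by
      have h1 := (hmem (l : ℤ)).1 (by
        rw [Int.cast_natCast]
        exact hlv)
      rwa [Int.cast_natCast] at h1
    have hlw : (l : 𝓞 N) ∈ w.asIdeal := by
      have h1 := (hmem' (l : ℤ)).2 (by
        rw [Int.cast_natCast]
        exact hlW)
      rwa [Int.cast_natCast] at h1
    have hlw2 : (l : 𝓞 N) ∉ w.asIdeal ^ 2 := fun h => hram ⟨w, h⟩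
    have h1 := Gb_exp hl hlw hlw2
    have h2 : log (W.valuation C (l : C)) = -(e' : ℤ) := by
      have h3 := heW' (l : N)
      rw [map_natCast] at h3
      rw [h3, log_pow, h1, nsmul_eq_mul]
      ring
    have h3 : (e : ℤ) * log (v.valuation F (l : F)) = -(e' : ℤ) := by
      have h4 := heW (l : F)
      rw [map_natCast] at h4
      rw [← h2, h4, log_pow, nsmul_eq_mul]
    have h4 : ¬ (3 : ℤ) ∣ (e : ℤ) := by
      intro h5
      have h6 : (3 : ℤ) ∣ -(e' : ℤ) := by
        rw [← h3]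
        exact Dvd.dvd.mul_right h5 _
      omega
    have h5 := hW W
    rw [heW, log_pow, nsmul_eq_mul] at h5
    exact (Int.prime_three.dvd_or_dvd h5).resolve_left h4

end H38T6
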