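import Pool.Agent.H38.T6.Ob
import Pool.Agent.H55.T3.Xh
import Pool.Agent.H10.StarGal

/-!
Row Gc. (about 190 lines): local cubes descend from C to the quadratic field F.
Here delta = -3 D, D % 3 = 2, [C : F] = 3^m, C/F Galois (C/Q is), G := Gal(C/F), card G = 3^m. n0 := 2 * 3^m: for every W over three W 3 = exp (-e) with 1 <= e <= n0 (val_above/Ramif: e <= [C : Q]; only e <= n0 is needed; e.g. W over v := 3 of Q).
PROOF. Let k0 be given, choose k large (k >= n0 (k0 + m + 3) suffices). z from LC3 at k, y := the image of y0. For W over 3: W (y z^3 - 1) <= exp (-k) < 1, so z <> 0 and W (y z^3) = 1. For g in G: W o g is again a place over 3 (exists_conj in Pool/Agent/H10/StarGal.lean, with K := F or Q) and g y = y, so W (y (g z)^3 - 1) <= exp (-k).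
 Let r := g z / z: r^3 - 1 = (y (g z)^3 - y z^3) / (y z^3), so W (r^3 - 1) <= exp (-k); W r = 1. r^3 - 1 = (r - 1)(r^2 + r + 1) and 4 (r^2 + r + 1) = X^2 + 3 with X = 2 r + 1 (W 4 = 1: 4 is prime to 3).
 Claim: W (X^2 + 3) >= W 3. If W(X)^2 <> W 3 then W (X^2 + 3) = max >= W 3. If W(X)^2 = W 3: s_C^2 = -3 D, W D = 1, so W s_C^2 = W 3, u := X / s_C has W u = 1, X^2 + 3 = -3 D u^2 + 3 = 3 (1 - D u^2) and 1 - D u^2 = (u^2 + 1) - (D + 1) u^2 with W ((D + 1) u^2) <= W 3 < 1 (3 | D + 1) and 1 <= W (u^2 + 1) (no_sqrt_big), so W (1 - D u^2) = 1 (W(u^2+1) <= 1).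
 Hence W (r - 1) <= exp (-k) / W 3 <= exp (-k + n0), W (g z - z) <= exp (-k + n0) W z.
 z1 := (sum over g of g z) / 3^m is in F (Algebra.trace or fixed by G). W (z1 - z) = W (sum (g z - z)) / W (3^m) <= exp (-k + n0 + m n0) W z. So W (z1 / z - 1) <= exp (-j), j := k - n0 - m n0 >= 1, W (z1/z) = 1, W ((z1/z)^3 - 1) <= exp (-j), and y z1^3 - 1 = y z^3 ((z1/z)^3 - 1) + (y z^3 - 1): W <= exp (-j).
 For v over 3 in F: W over v (val_above): W (x) = v(x)^e with e <= [C : F] <= n0: v (y0 z1^3 - 1)^e <= exp (-j) gives v (..) <= exp (-k0) when j >= n0 k0.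
-/

set_option autoImplicit false
set_option linter.unusedSectionVars false
open scoped Classical

open IsDedekindDomain NumberField WithZero

namespace H38T6

lemma Gc_one {C : Type} [Field C] [NumberField C] {W : HeightOneSpectrum (𝓞 C)}
    (hW : (3 : 𝓞 C) ∈ W.asIdeal) {n : ℤ} (hn : ¬ (3 : ℤ) ∣ n) : W.valuation C (n : C) = 1 := by
  have h2 : (n : 𝓞 C) ∉ W.asIdeal := by
    intro h
    have hc : IsCoprime (3 : ℤ) n := (Int.prime_three.coprime_iff_not_dvd).2 hn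
    obtain ⟨a, b, hab⟩ := hc
    apply W.isPrime.ne_top
    rw [Ideal.eq_top_iff_one]
    have h3 : (1 : 𝓞 C) = (a : 𝓞 C) * 3 + (b : 𝓞 C) * (n : 𝓞 C) := by
      have := congrArg (fun z : ℤ => (z : 𝓞 C)) hab
      push_cast at this
      exact this.symm
    rw [h3]
    exact W.asIdeal.add_mem (W.asIdeal.mul_mem_left _ hW) (W.asIdeal.mul_mem_left _ h)
  have h3 := (W.valuation_eq_one_iff_notMem (K := C) (r := (n : 𝓞 C))).mpr h2
  rwa [map_intCast] at h3

lemma Gc_le {C : Type} [Field C] [NumberField C] (W : HeightOneSpectrum (𝓞 C)) (n : ℤ) :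
    W.valuation C (n : C) ≤ 1 := by
  have h2 := W.valuation_le_one (K := C) (n : 𝓞 C)
  change W.valuation C (algebraMap (𝓞 C) C (n : 𝓞 C)) ≤ 1 at h2
  rwa [map_intCast] at h2

lemma Gc_loc {C : Type*} [Field C] (V : Valuation C (WithZero (Multiplicative ℤ))) {D σ : C}
    (h3 : V 3 < 1) (h30 : V 3 ≠ 0) (hD : V D = 1) (hD1 : V (D + 1) < 1) (hσ : σ ^ 2 = -3 * D)
    (hns : ∀ X : C, 1 ≤ V (X ^ 2 + 1)) (X : C) : V 3 ≤ V (X ^ 2 + 3) := by
  by_cases hX : V (X ^ 2) = V 3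
  · have h1 : V (σ ^ 2) = V 3 := by
      rw [hσ, map_mul, hD, mul_one, Valuation.map_neg]
    have hσ0 : σ ≠ 0 := by
      rintro rfl
      rw [zero_pow two_ne_zero, map_zero] at h1
      exact h30 h1.symm
    obtain ⟨u, hu⟩ : ∃ u : C, u = X / σ := ⟨_, rfl⟩
    have hXu : X = u * σ := by rw [hu, div_mul_cancel₀ _ hσ0]
    have hu1 : V (u ^ 2) = 1 := by
      rw [hu, div_pow, map_div₀, hX, h1, div_self h30]
    have h2 : X ^ 2 + 3 = 3 * ((u ^ 2 + 1) - (D + 1) * u ^ 2) := by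
      rw [hXu, mul_pow, hσ]
      ring
    have h4 : V ((D + 1) * u ^ 2) < V (u ^ 2 + 1) := by
      rw [map_mul, hu1, mul_one]
      exact lt_of_lt_of_le hD1 (hns u)
    have h5 : V ((u ^ 2 + 1) - (D + 1) * u ^ 2) = V (u ^ 2 + 1) := by
      exact Valuation.map_sub_eq_of_lt_left _ h4
    rw [h2, map_mul, h5]
    exact le_mul_of_one_le_right' (hns u)
  · rw [Valuation.map_add_of_distinct_val V hX]
    exact le_max_right _ _

lemma Gc_close {C : Type*} [Field C] (V : Valuation C (WithZero (Multiplicative ℤ))) {D σ : C}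
    (h4 : V 4 = 1) (h3 : V 3 < 1) (hD : V D = 1) (hD1 : V (D + 1) < 1) (hσ : σ ^ 2 = -3 * D)
    (hns : ∀ X : C, 1 ≤ V (X ^ 2 + 1)) {k n : ℕ} (hk : 1 ≤ k) (hn : exp (-(n : ℤ)) ≤ V 3)
    {y z z' : C} (hz : V (y * z ^ 3 - 1) ≤ exp (-(k : ℤ)))
    (hz' : V (y * z' ^ 3 - 1) ≤ exp (-(k : ℤ))) :
    z ≠ 0 ∧ V (y * z ^ 3) = 1 ∧ V (z' - z) ≤ exp (-(k : ℤ) + n) * V z := by
  have hk1 : exp (-(k : ℤ)) < (1 : WithZero (Multiplicative ℤ)) := by
    rw [← exp_zero, exp_lt_exp]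
    omega
  have hone : ∀ x : C, V (x - 1) < 1 → V x = 1 := by
    intro x hx
    have h1 : x = 1 + (x - 1) := by ring
    rw [h1, Valuation.map_add_eq_of_lt_left]
    · exact map_one V
    · rw [map_one V]
      exact hx
  have hyz : V (y * z ^ 3) = 1 := hone _ (lt_of_le_of_lt hz hk1)
  have hyz' : V (y * z' ^ 3) = 1 := hone _ (lt_of_le_of_lt hz' hk1)
  have h30 : V 3 ≠ 0 := by
    intro h
    rw [h] at hn
    exact absurd hn (not_le.2 (exp_pos))
  have hy0 : y ≠ 0 := by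
    rintro rfl
    rw [zero_mul, map_zero] at hyz
    exact zero_ne_one hyz
  have hz0 : z ≠ 0 := by
    rintro rfl
    rw [zero_pow three_ne_zero, mul_zero, map_zero] at hyz
    exact zero_ne_one hyz
  refine ⟨hz0, hyz, ?_⟩
  have hyz0 : y * z ^ 3 ≠ 0 := mul_ne_zero hy0 (pow_ne_zero _ hz0)
  obtain ⟨r, hr⟩ : ∃ r : C, r = z' / z := ⟨_, rfl⟩
  have hzr : z' = r * z := by rw [hr, div_mul_cancel₀ _ hz0]
  have hr3 : V (r ^ 3 - 1) ≤ exp (-(k : ℤ)) := by
    have h1 : r ^ 3 - 1 = ((y * z' ^ 3 - 1) - (y * z ^ 3 - 1)) / (y * z ^ 3) := by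
      rw [eq_div_iff hyz0, hzr]
      ring
    rw [h1, map_div₀, hyz, div_one]
    exact (Valuation.map_sub _ _ _).trans (max_le hz' hz)
  have hq : V 3 ≤ V (r ^ 2 + r + 1) := by
    have h1 := Gc_loc V h3 h30 hD hD1 hσ hns (2 * r + 1)
    have h2 : (2 * r + 1) ^ 2 + 3 = 4 * (r ^ 2 + r + 1) := by ring
    rw [h2, map_mul, h4, one_mul] at h1
    exact h1
  have h5 : V (r - 1) * exp (-(n : ℤ)) ≤ exp (-(k : ℤ)) := by
    have h1 : r ^ 3 - 1 = (r - 1) * (r ^ 2 + r + 1) := by ring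
    rw [h1, map_mul] at hr3
    exact (mul_le_mul_right (hn.trans hq) _).trans hr3
  have h6 : V (r - 1) ≤ exp (-(k : ℤ) + n) := by
    have h1 : V (r - 1) * exp (-(n : ℤ)) * exp (n : ℤ) ≤ exp (-(k : ℤ)) * exp (n : ℤ) :=
      mul_le_mul_left h5 _
    rw [mul_assoc, ← exp_add, ← exp_add, neg_add_cancel, exp_zero, mul_one] at h1
    exact h1
  have h7 : z' - z = (r - 1) * z := by rw [hzr]; ring
  rw [h7, map_mul]
  exact mul_le_mul_left h6 _

lemma Gc_fin {C : Type*} [Field C] (V : Valuation C (WithZero (Multiplicative ℤ)))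
    {k j : ℕ} (hj : 1 ≤ j) (hjk : j ≤ k) {y z z1 : C} (hz0 : z ≠ 0) (hyz : V (y * z ^ 3) = 1)
    (hz : V (y * z ^ 3 - 1) ≤ exp (-(k : ℤ))) (h1 : V (z1 - z) ≤ exp (-(j : ℤ)) * V z) :
    V (y * z1 ^ 3 - 1) ≤ exp (-(j : ℤ)) := by
  have hVz : V z ≠ 0 := (Valuation.ne_zero_iff V).2 hz0
  obtain ⟨q, hq⟩ : ∃ q : C, q = z1 / z := ⟨_, rfl⟩
  have hzq : z1 = q * z := by rw [hq, div_mul_cancel₀ _ hz0]
  have hq1 : V (q - 1) ≤ exp (-(j : ℤ)) := by
    have h2 : z1 - z = (q - 1) * z := by rw [hzq]; ring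
    rw [h2, map_mul] at h1
    exact (mul_le_mul_iff_left₀ (zero_lt_iff.2 hVz)).1 h1
  have hj1 : exp (-(j : ℤ)) < (1 : WithZero (Multiplicative ℤ)) := by
    rw [← exp_zero, exp_lt_exp]
    omega
  have hVq : V q ≤ 1 := by
    have h2 : q = (q - 1) + 1 := by ring
    rw [h2]
    exact (V.map_add _ _).trans (max_le (hq1.trans hj1.le) (map_one V).le)
  have hqq : V (q ^ 2 + q + 1) ≤ 1 := by
    refine (V.map_add _ _).trans (max_le ((V.map_add _ _).trans (max_le ?_ hVq)) (map_one V).le)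
    rw [map_pow]
    exact pow_le_one' hVq 2
  have hq3 : V (q ^ 3 - 1) ≤ exp (-(j : ℤ)) := by
    have h2 : q ^ 3 - 1 = (q - 1) * (q ^ 2 + q + 1) := by ring
    rw [h2, map_mul]
    exact (mul_le_of_le_one_right' hqq).trans hq1
  have h2 : y * z1 ^ 3 - 1 = y * z ^ 3 * (q ^ 3 - 1) + (y * z ^ 3 - 1) := by
    rw [hzq]
    ring
  rw [h2]
  refine (V.map_add _ _).trans (max_le ?_ (hz.trans ?_))
  · rw [map_mul, hyz, one_mul]
    exact hq3
  · rw [exp_le_exp]
    omega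

theorem lc3_down {m : ℕ} {D : ℤ} (hD : D % 3 = 2) {K N B C : Type} [Field K]
    [NumberField K] [Field N] [NumberField N] [Field B] [NumberField B] [Field C] [NumberField C]
    [Algebra K N] [Algebra K B] [Algebra K C] [Algebra N C] [Algebra B C] [IsScalarTower K N C]
    [IsScalarTower K B C] {s : B} {κ : C ≃ₐ[N] C} (T : Tow m (-3 * D) K N B C s κ) {F : Type}
    [Field F] [NumberField F] [Algebra F C] {t : F} (ht : algebraMap F C t = algebraMap B C s)
    (hF : Module.finrank ℚ F = 2) {y : F} (hy : y ≠ 0) (h : LC3 (algebraMap F C y)) : LC3 y := by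
  intro k0
  haveI := T.galC
  haveI : Module.Finite F C := Module.Finite.of_restrictScalars_finite ℚ F C
  haveI : IsGalois F C := IsGalois.tower_top_of_isGalois ℚ F C
  have hdeg : Module.finrank F C = 3 ^ m := by
    have h1 := Module.finrank_mul_finrank ℚ F C
    rw [hF, T.degC] at h1
    omega
  have hcard : Fintype.card (C ≃ₐ[F] C) = 3 ^ m := by
    rw [← Nat.card_eq_fintype_card, IsGalois.card_aut_eq_finrank, hdeg]
  obtain ⟨n, hn⟩ : ∃ n : ℕ, n = 2 * 3 ^ m := ⟨_, rfl⟩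
  obtain ⟨j, hj⟩ : ∃ j : ℕ, j = n * k0 + 1 := ⟨_, rfl⟩
  obtain ⟨k, hk⟩ : ∃ k : ℕ, k = n + m * n + j := ⟨_, rfl⟩
  obtain ⟨z, hz⟩ := h k
  obtain ⟨σ, hσ⟩ : ∃ σ : C, σ = algebraMap B C s := ⟨_, rfl⟩
  have hσ2 : σ ^ 2 = -3 * (D : C) := by
    rw [hσ, ← map_pow, T.sq, map_intCast]
    push_cast
    ring
  have hD3 : ¬ (3 : ℤ) ∣ D := by omega
  obtain ⟨z1, hz1⟩ : ∃ z1 : F, z1 = Algebra.trace F C z / 3 ^ m := ⟨_, rfl⟩
  have h3C : (3 : C) ≠ 0 := by norm_num
  have hz1C : algebraMap F C z1 = (∑ g : C ≃ₐ[F] C, g z) / 3 ^ m := by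
    rw [hz1, map_div₀, trace_eq_sum_automorphisms, map_pow, map_ofNat]
  -- the statement at the places of the big field
  have hbig : ∀ W : HeightOneSpectrum (𝓞 C), (3 : 𝓞 C) ∈ W.asIdeal →
      W.valuation C (algebraMap F C y * (algebraMap F C z1) ^ 3 - 1) ≤ exp (-(j : ℤ)) := by
    intro W hW
    have h3lt : W.valuation C 3 < 1 := by
      have h1 := (W.valuation_lt_one_iff_mem (K := C) (3 : 𝓞 C)).2 hW
      change W.valuation C (algebraMap (𝓞 C) C 3) < 1 at h1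
      rwa [map_ofNat] at h1
    have hV3 : exp (-(n : ℤ)) ≤ W.valuation C 3 := by
      obtain ⟨v, e, he1, he2, hv, hvn⟩ := val_below (K := ℚ) W
      have h1 := hv 3
      have h2 : algebraMap ℚ C 3 = 3 := map_ofNat _ 3
      have hv3 : (3 : 𝓞 ℚ) ∈ v.asIdeal := by
        have := (hvn 3).2 (by exact_mod_cast hW)
        exact_mod_cast this
      have h4 := H55T3.rat_unr Nat.prime_three v (by exact_mod_cast hv3)
      have h5 : v.valuation ℚ (3 : ℚ) = exp (-1 : ℤ) := by exact_mod_cast h4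
      rw [h2, h5, ← exp_nsmul] at h1
      rw [h1, exp_le_exp]
      rw [T.degC, ← hn] at he2
      have h6 : (e : ℤ) ≤ n := by exact_mod_cast he2
      rw [nsmul_eq_mul]
      omega
    have h4 : W.valuation C 4 = 1 := by
      have h1 := Gc_one hW (n := 4) (by norm_num)
      exact_mod_cast h1
    have hDv : W.valuation C (D : C) = 1 := Gc_one hW hD3
    have hD1 : W.valuation C ((D : C) + 1) < 1 := by
      obtain ⟨c, hc⟩ : (3 : ℤ) ∣ D + 1 := by omega
      have h1 : (D : C) + 1 = 3 * (c : C) := by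
        have := congrArg (fun z : ℤ => (z : C)) hc
        push_cast at this
        exact this
      rw [h1, map_mul]
      exact lt_of_le_of_lt (mul_le_of_le_one_right' (Gc_le W c)) h3lt
    have hns : ∀ X : C, 1 ≤ W.valuation C (X ^ 2 + 1) := fun X => no_sqrt_big hD T W hW X
    have hzW := hz W hW
    have hk1 : 1 ≤ k := by omega
    have hg : ∀ g : C ≃ₐ[F] C, z ≠ 0 ∧ W.valuation C (algebraMap F C y * z ^ 3) = 1 ∧
        W.valuation C (g z - z) ≤ exp (-(k : ℤ) + n) * W.valuation C z := by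
      intro g
      obtain ⟨W', hW'1, hW'2⟩ := Pool.Agent.H10.exists_conj g W
      have hW' : (3 : 𝓞 C) ∈ W'.asIdeal := by
        have h1 := hW'2 3
        rw [map_ofNat] at h1
        exact h1.2 hW
      have h5 := hz W' hW'
      rw [← hW'1, map_sub, map_mul, map_pow, g.commutes, map_one] at h5
      exact Gc_close (W.valuation C) h4 h3lt hDv hD1 hσ2 hns hk1 hV3 hzW h5
    obtain ⟨hz0, hyz, -⟩ := hg 1
    refine Gc_fin (W.valuation C) (k := k) (j := j) (by omega) (by omega) hz0 hyz hzW ?_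
    have h6 : algebraMap F C z1 - z = (∑ g : C ≃ₐ[F] C, (g z - z)) / 3 ^ m := by
      rw [hz1C, Finset.sum_sub_distrib, Finset.sum_const, Finset.card_univ, hcard, nsmul_eq_mul,
        sub_div]
      push_cast
      rw [mul_div_cancel_left₀ _ (pow_ne_zero m h3C)]
    have h7 : W.valuation C (∑ g : C ≃ₐ[F] C, (g z - z)) ≤
        exp (-(k : ℤ) + n) * W.valuation C z :=
      Valuation.map_sum_le _ fun g _ => (hg g).2.2
    have h8 : exp (-((m * n : ℕ) : ℤ)) ≤ W.valuation C ((3 : C) ^ m) := by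
      rw [map_pow]
      have h9 := pow_le_pow_left' hV3 m
      rw [← exp_nsmul] at h9
      refine le_trans (le_of_eq ?_) h9
      congr 1
      rw [nsmul_eq_mul]
      push_cast
      ring
    have h3m : W.valuation C ((3 : C) ^ m) ≠ 0 :=
      (Valuation.ne_zero_iff _).2 (pow_ne_zero m h3C)
    rw [h6, map_div₀, div_le_iff₀ (zero_lt_iff.2 h3m)]
    refine h7.trans ?_
    have h10 : exp (-(j : ℤ)) * exp (-((m * n : ℕ) : ℤ)) =
        (exp (-(k : ℤ) + n) : WithZero (Multiplicative ℤ)) := by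
      rw [← exp_add]
      congr 1
      rw [hk]
      push_cast
      ring
    calc exp (-(k : ℤ) + n) * W.valuation C z
        = exp (-(j : ℤ)) * W.valuation C z * exp (-((m * n : ℕ) : ℤ)) := by
          rw [← h10, mul_assoc, mul_assoc, mul_comm (W.valuation C z)]
      _ ≤ exp (-(j : ℤ)) * W.valuation C z * W.valuation C ((3 : C) ^ m) :=
          mul_le_mul_right h8 _
  refine ⟨z1, fun v hv => ?_⟩
  obtain ⟨W, e, he1, he2, hW, hWn⟩ := val_above (C := C) v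
  have hW3 : (3 : 𝓞 C) ∈ W.asIdeal := by
    have := (hWn 3).1 (by exact_mod_cast hv)
    exact_mod_cast this
  have h1 := hbig W hW3
  have h2 : algebraMap F C y * (algebraMap F C z1) ^ 3 - 1 = algebraMap F C (y * z1 ^ 3 - 1) := by
    rw [map_sub, map_mul, map_pow, map_one]
  rw [h2, hW] at h1
  by_contra h3
  push Not at h3
  have h4 : exp (-(k0 : ℤ)) ^ e < v.valuation F (y * z1 ^ 3 - 1) ^ e :=
    pow_lt_pow_left₀ h3 zero_le' (by omega)
  have h5 := lt_of_lt_of_le h4 h1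
  rw [← exp_nsmul, exp_lt_exp, nsmul_eq_mul] at h5
  have h6 : e * k0 ≤ n * k0 := by
    refine Nat.mul_le_mul_right _ (he2.trans ?_)
    rw [hdeg, hn]
    omega
  have h7 : ((e * k0 : ℕ) : ℤ) ≤ ((n * k0 : ℕ) : ℤ) := by exact_mod_cast h6
  have h8 : (j : ℤ) = ((n * k0 : ℕ) : ℤ) + 1 := by rw [hj]; push_cast; ring
  rw [h8] at h5
  push_cast at h5 h7
  nlinarith

end H38T6
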