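import Pool.Agent.H38.T6.Oa
import Pool.Agent.H11.Ramif
import Pool.Agent.H11.Inert

/-!
Row Ra. (about 220 lines): a prime q <> 3 which ramifies in a Galois extension of the rationals of 3-power degree is 1 mod 3.
PROOF of ram_one_mod_three. G := Gal(N/Q), card 3^m. w a place with q in w^2, Z := the stabiliser of w in G (of the ideal w), I := the inertia subgroup (sigma in Z with sigma x - x in w for all x in O_N). I is normal in Z and nontrivial: e = card I > 1 (Mathlib: Ideal.inertia / card_inertia_eq_ramificationIdxIn, or: if I = 1 then ...; find the lemma with grep inertia). Z is a 3-group and I a nontrivial normal subgroup, so I meets the center of Z (IsPGroup: nontrivial normal subgroup of a p-group meets the center: IsPGroup.bot_lt_... or count fixed points of the conjugation action of Z on I: IsPGroup.card_modEq_card_fixedPoints): there is sigma <> 1 in I which commutes with all elements of Z; replacing sigma by a power, sigma^3 = 1.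
 Let pi in w, pi not in w^2. sigma pi = u pi in the local ring at w: formalise with the valuation V := w.valuation N: u := sigma pi / pi in N, V u = 1 (V (sigma pi) = V pi because sigma fixes w). Claim (a): V (u - 1) < 1 is impossible. Suppose V (u - 1) < 1, i.e. V (sigma pi - pi) < V pi = exp (-1). Then for all x in N with V x <= 1: V (sigma x - x) < V x?? : every x in N, x <> 0, is pi^k x0 with V x0 = 1; V (sigma x0 - x0) <= exp (-1) (sigma in I and V-integral elements: write x0 = a / b with a, b in O_N, b not in w); sigma (pi^k) = u^k pi^k and V (u^k - 1) < 1; so V (sigma x - x) < V x for all x <> 0. Now take x with sigma x <> x and T := sigma x - x <> 0... : N := 1 + sigma + sigma^2 : for y := sigma x - x: y + sigma y + sigma^2 y = 0 (telescoping, sigma^3 = 1), but V (sigma y - y) < V y and V (sigma^2 y - y) < V y, so 0 = y + sigma y + sigma^2 y = 3 y + (terms of valuation < V y), so V (3 y) < V y, V 3 < 1: but 3 is prime to q in w (q <> 3 prime): V 3 = 1.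 Contradiction.
 (b) The class of u in the residue field k = O_N/w does not depend on pi and sigma-theta: for tau in Z: tau u = tau sigma pi / tau pi = sigma (tau pi) / (tau pi) and tau pi = a pi with V a = 1, so tau u = (sigma a / a) u and V (sigma a / a - 1) < 1 (inertia). So V (tau u - u) < 1 for all tau in Z: the class of u in k is fixed by Z, and Z acts on k = O_N/w through the full Galois group of k over F_q (Mathlib: Ideal.Quotient.stabilizerHom_surjective or IsFractionRing.stabilizerHom_surjective), so it is in F_q: u^(q-1) = 1 in k, i.e. V (u^(q-1) - 1) < 1. Also u sigma(u) sigma^2(u) = 1 (sigma^3 = 1) and V (sigma u - u) < 1, so V (u^3 - 1) < 1. If 3 does not divide q - 1 then u = u^(a (q-1) + 3 b) and V (u - 1) < 1: contradiction to (a). So q % 3 = 1.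
nonsplit_twist: q % 3 = 1: there is r with r^2 = -3 mod q (ZMod: an element of order three in the units of ZMod q, w^2 + w + 1 = 0, r = 2 w + 1; or the quadratic reciprocity law; ZMod.exists_sq_eq_neg_three_iff or similar), r is prime to q. If q | -3 D - t^2 then with r' r = 1 mod q: q | D - (r' t)^2, so q | r' t, q | t.
-/

set_option autoImplicit false
set_option linter.unusedSectionVars false
open scoped Classical

open IsDedekindDomain NumberField WithZero

namespace H38T6

open scoped Pointwise in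
theorem Ra_pow {N : Type} [Field N] [NumberField N] (w : HeightOneSpectrum (𝓞 N))
    {g : N ≃ₐ[ℚ] N} (hg : g ∈ MulAction.stabilizer (N ≃ₐ[ℚ] N) w.asIdeal) (x : 𝓞 N) (n : ℕ) :
    g • x ∈ w.asIdeal ^ n ↔ x ∈ w.asIdeal ^ n := by
  have h1 : g • (w.asIdeal ^ n) = w.asIdeal ^ n := by
    rw [smul_pow', MulAction.mem_stabilizer_iff.1 hg]
  have h2 := Ideal.smul_mem_pointwise_smul_iff (a := g) (S := w.asIdeal ^ n) (x := x)
  rwa [h1] at h2

open scoped Pointwise in
theorem Ra_inv {N : Type} [Field N] [NumberField N] (w : HeightOneSpectrum (𝓞 N))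
    {g : N ≃ₐ[ℚ] N} (hg : g ∈ MulAction.stabilizer (N ≃ₐ[ℚ] N) w.asIdeal) (x : N) :
    w.valuation N (g x) = w.valuation N x := by
  have hint : ∀ x : 𝓞 N, w.intValuation (g • x) = w.intValuation x := by
    intro x
    by_cases hx : x = 0
    · rw [hx, smul_zero]
    · have hsx : g • x ≠ 0 := (smul_ne_zero_iff_ne g).2 hx
      apply le_antisymm
      · rw [w.intValuation_eq_exp_neg_multiplicity hx, w.intValuation_le_pow_iff_mem,
          Ra_pow w hg, ← w.intValuation_le_pow_iff_mem, w.intValuation_eq_exp_neg_multiplicity hx]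
      · rw [w.intValuation_eq_exp_neg_multiplicity hsx, w.intValuation_le_pow_iff_mem,
          ← Ra_pow w hg, ← w.intValuation_le_pow_iff_mem,
          w.intValuation_eq_exp_neg_multiplicity hsx]
  obtain ⟨a, b, hb, rfl⟩ := IsFractionRing.div_surjective (A := 𝓞 N) x
  have hs : ∀ x : 𝓞 N, g (algebraMap (𝓞 N) N x) = algebraMap (𝓞 N) N (g • x) := fun _ => rfl
  rw [map_div₀, hs, hs, map_div₀, map_div₀, w.valuation_of_algebraMap,
    w.valuation_of_algebraMap, w.valuation_of_algebraMap, w.valuation_of_algebraMap, hint, hint]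

theorem Ra_le {x : WithZero (Multiplicative ℤ)} (hx : x < 1) : x ≤ exp (-1 : ℤ) := by
  rw [← lt_mul_exp_iff_le exp_ne_zero, ← exp_add]
  simpa using hx

theorem Ra_pow_sub {F : Type} [Field F] {v : Valuation F (WithZero (Multiplicative ℤ))} {u : F}
    (hu : v (u - 1) ≤ exp (-1 : ℤ)) (m : ℕ) : v (u ^ m - 1) ≤ exp (-1 : ℤ) := by
  have hle : exp (-1 : ℤ) ≤ (1 : WithZero (Multiplicative ℤ)) := by
    rw [← exp_zero, exp_le_exp]
    norm_num
  have hu1 : v u ≤ 1 := by
    have h1 : u = (u - 1) + 1 := by ring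
    rw [h1]
    exact Valuation.map_add_le v (hu.trans hle) (map_one v).le
  induction m with
  | zero => simp
  | succ m ih =>
    have h2 : u ^ (m + 1) - 1 = (u ^ m - 1) * u + (u - 1) := by ring
    rw [h2]
    refine Valuation.map_add_le v ?_ hu
    rw [map_mul]
    exact (mul_le_mul' ih hu1).trans (mul_one _).le

theorem Ra_tame {F : Type} [Field F] [NumberField F] {w : HeightOneSpectrum (𝓞 F)}
    {τ : F ≃ₐ[ℚ] F} (hv : ∀ x, w.valuation F (τ x) = w.valuation F x)
    (hs : ∀ x, w.valuation F x ≤ 1 → w.valuation F (τ x - x) < 1)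
    (hn : w.valuation F ((orderOf τ : ℕ) : F) = 1) {π : F}
    (hπ : w.valuation F π = exp (-1 : ℤ)) (h2 : w.valuation F (τ π - π) ≤ exp (-2 : ℤ)) :
    τ = 1 := by
  have hint : ∀ a : 𝓞 F, w.valuation F (algebraMap (𝓞 F) F a) ≤ 1 := w.valuation_le_one
  obtain ⟨v, hvdef⟩ : ∃ v, v = w.valuation F := ⟨_, rfl⟩
  rw [← hvdef] at hv hs hn hπ h2 hint
  have hπ0 : π ≠ 0 := by
    rintro rfl
    rw [map_zero] at hπ
    exact exp_ne_zero hπ.symm
  have hu : v (τ π / π - 1) ≤ exp (-1 : ℤ) := by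
    have h3 : τ π / π - 1 = (τ π - π) / π := by rw [sub_div, div_self hπ0]
    have h4 : (-1 : ℤ) + -1 = -2 := by norm_num
    rw [h3, map_div₀, hπ, div_le_iff₀ (zero_lt_iff.2 exp_ne_zero), ← exp_add, h4]
    exact h2
  have hA : ∀ (m : ℕ) (y : F), v y ≤ exp (-(m : ℤ)) →
      v (τ y - y) ≤ exp (-((m + 1 : ℕ) : ℤ)) := by
    intro m y hy
    obtain ⟨c, hc⟩ : ∃ c, c = y / π ^ m := ⟨_, rfl⟩
    have hy' : y = π ^ m * c := by
      rw [hc, mul_div_cancel₀]
      exact pow_ne_zero m hπ0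
    have h7 : exp (-1 : ℤ) ^ m = (exp (-(m : ℤ)) : WithZero (Multiplicative ℤ)) := by
      rw [← exp_nsmul]
      simp
    have hvc : v c ≤ 1 := by
      rw [hc, map_div₀, map_pow, hπ, h7, div_le_iff₀ (zero_lt_iff.2 exp_ne_zero), one_mul]
      exact hy
    have h3 : τ y - y = π ^ m * ((τ π / π) ^ m * τ c - c) := by
      rw [hy', map_mul, map_pow, div_pow]
      field_simp
    have h4 : (τ π / π) ^ m * τ c - c = ((τ π / π) ^ m - 1) * τ c + (τ c - c) := by ring
    have h5 : (exp (-((m + 1 : ℕ) : ℤ)) : WithZero (Multiplicative ℤ)) =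
        exp (-1 : ℤ) ^ m * exp (-1 : ℤ) := by
      rw [h7, ← exp_add]
      congr 1
      push_cast
      ring
    rw [h3, h4, map_mul, map_pow, hπ, h5]
    refine mul_le_mul' le_rfl (Valuation.map_add_le v ?_ (Ra_le (hs c hvc)))
    rw [map_mul, hv]
    exact (mul_le_mul' (Ra_pow_sub hu m) hvc).trans (mul_one _).le
  have hB : ∀ (m : ℕ) (y : F), v y ≤ exp (-(m : ℤ)) → ∀ j : ℕ,
      v ((τ ^ j) y - y) ≤ exp (-((m + 1 : ℕ) : ℤ)) := by
    intro m y hy j
    induction j with
    | zero =>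
      rw [pow_zero, AlgEquiv.one_apply, sub_self, map_zero]
      exact zero_le
    | succ j ih =>
      have h3 : (τ ^ (j + 1)) y - y = τ ((τ ^ j) y - y) + (τ y - y) := by
        rw [pow_succ', AlgEquiv.mul_apply, map_sub]
        ring
      rw [h3]
      refine Valuation.map_add_le v ?_ (hA m y hy)
      rw [hv]
      exact ih
  have hC : ∀ (i : ℕ) (x : F), v x ≤ 1 → v (τ x - x) ≤ exp (-(i : ℤ)) := by
    intro i
    induction i with
    | zero =>
      intro x hx
      simpa using (hs x hx).le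
    | succ i ih =>
      intro x hx
      have h3 : ∀ k : ℕ,
          v ((τ ^ k) x - x - (k : F) * (τ x - x)) ≤ exp (-((i + 1 : ℕ) : ℤ)) := by
        intro k
        induction k with
        | zero =>
          rw [pow_zero, AlgEquiv.one_apply, sub_self, Nat.cast_zero, zero_mul, sub_zero, map_zero]
          exact zero_le
        | succ k ihk =>
          have h4 : (τ ^ (k + 1)) x - x - ((k + 1 : ℕ) : F) * (τ x - x) =
              ((τ ^ k) x - x - (k : F) * (τ x - x)) + ((τ ^ k) (τ x - x) - (τ x - x)) := by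
            rw [pow_succ, AlgEquiv.mul_apply, map_sub]
            push_cast
            ring
          rw [h4]
          exact Valuation.map_add_le v ihk (hB i _ (ih x hx) k)
      have h5 := h3 (orderOf τ)
      rw [pow_orderOf_eq_one, AlgEquiv.one_apply, sub_self, zero_sub, Valuation.map_neg, map_mul,
        hn, one_mul] at h5
      exact h5
  have hD : ∀ x : F, v x ≤ 1 → τ x = x := by
    intro x hx
    by_contra hne
    have h6 : v (τ x - x) ≠ 0 := by
      rw [Ne, Valuation.zero_iff, sub_eq_zero]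
      exact hne
    obtain ⟨k, hk⟩ := exists_exp_neg_natCast_lt h6
    exact absurd (hC k x hx) (not_le.2 hk)
  apply AlgEquiv.ext
  intro x
  obtain ⟨a, b, hb, rfl⟩ := IsFractionRing.div_surjective (A := 𝓞 F) x
  rw [AlgEquiv.one_apply, map_div₀, hD _ (hint a), hD _ (hint b)]

/-- integers prime to `q` are units at a place above `q` -/
theorem Ra_unit {F : Type} [Field F] [NumberField F] {q : ℕ}
    (w : HeightOneSpectrum (𝓞 F)) (h : (q : 𝓞 F) ∈ w.asIdeal) {n : ℕ} (hn : Nat.Coprime n q) :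
    w.valuation F ((n : ℕ) : F) = 1 := by
  have e : algebraMap (𝓞 F) F (n : 𝓞 F) = ((n : ℕ) : F) := map_natCast (algebraMap (𝓞 F) F) n
  rw [← e, w.valuation_eq_one_iff_notMem]
  intro hmem
  have h1 : IsCoprime (n : ℤ) (q : ℤ) := Nat.isCoprime_iff_coprime.2 hn
  obtain ⟨a, b, hab⟩ := h1
  apply w.isPrime.ne_top
  rw [Ideal.eq_top_iff_one]
  have h2 : (1 : 𝓞 F) = (a : 𝓞 F) * (n : 𝓞 F) + (b : 𝓞 F) * (q : 𝓞 F) := by
    have := congrArg (fun z : ℤ => (z : 𝓞 F)) hab
    push_cast at this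
    exact this.symm
  rw [h2]
  exact w.asIdeal.add_mem (w.asIdeal.mul_mem_left _ hmem) (w.asIdeal.mul_mem_left _ h)

theorem Ra_res {F : Type} [Field F] (v : Valuation F (WithZero (Multiplicative ℤ)))
    (a b : v.valuationSubring) :
    IsLocalRing.residue v.valuationSubring a = IsLocalRing.residue v.valuationSubring b ↔
      v ((a : F) - b) < 1 := by
  rw [← sub_eq_zero, ← map_sub, IsLocalRing.residue_eq_zero_iff,
    ValuationSubring.valuation_lt_one_iff]
  exact (v.isEquiv_valuation_valuationSubring.lt_one_iff_lt_one).symm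

theorem Ra_gcd {F : Type} [Field F] (v : Valuation F (WithZero (Multiplicative ℤ))) {u : F}
    (hu : v u ≤ 1) {k l : ℕ} (hkl : Nat.Coprime k l) (hk : v (u ^ k - 1) < 1)
    (hl : v (u ^ l - 1) < 1) : v (u - 1) < 1 := by
  obtain ⟨a, ha⟩ : ∃ a : v.valuationSubring, (a : F) = u := ⟨⟨u, hu⟩, rfl⟩
  have h1 : ∀ j : ℕ, v (u ^ j - 1) < 1 → IsLocalRing.residue v.valuationSubring a ^ j = 1 := by
    intro j hj
    rw [← map_pow, ← map_one (IsLocalRing.residue v.valuationSubring), Ra_res]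
    rw [SubmonoidClass.coe_pow, ha, OneMemClass.coe_one]
    exact hj
  have h2 := Nat.dvd_gcd (orderOf_dvd_of_pow_eq_one (h1 k hk)) (orderOf_dvd_of_pow_eq_one (h1 l hl))
  rw [hkl.gcd_eq_one, Nat.dvd_one, orderOf_eq_one_iff,
    ← map_one (IsLocalRing.residue v.valuationSubring), Ra_res, ha, OneMemClass.coe_one] at h2
  exact h2

/-- a nontrivial normal subgroup of a finite p-group meets the center -/
theorem Ra_center {Z : Type} [Group Z] [Finite Z] {p : ℕ} [Fact p.Prime] (hZ : IsPGroup p Z)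
    (I : Subgroup Z) [I.Normal] (hI : p ∣ Nat.card I) :
    ∃ σ ∈ I, σ ≠ 1 ∧ ∀ τ : Z, τ * σ = σ * τ := by
  let inst : MulAction Z I := MulAction.compHom I (MulAut.conjNormal (H := I))
  have hsm : ∀ (g : Z) (h : I), ((g • h : I) : Z) = g * h * g⁻¹ := fun g h =>
    MulAut.conjNormal_apply g h
  have h1 : (1 : I) ∈ MulAction.fixedPoints Z I := by
    intro g
    apply Subtype.ext
    rw [hsm]
    simp
  obtain ⟨b, hb, hb1⟩ := hZ.exists_fixed_point_of_prime_dvd_card_of_fixed_point I hI h1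
  refine ⟨b, b.2, ?_, ?_⟩
  · intro h
    exact hb1 (Subtype.ext h.symm)
  · intro τ
    have h2 := congrArg Subtype.val (hb τ)
    rw [hsm] at h2
    calc τ * (b : Z) = (τ * b * τ⁻¹) * τ := by group
      _ = b * τ := by rw [h2]

theorem Ra_under {q : ℕ} (hq : q.Prime) {N : Type} [Field N] [NumberField N]
    (w : HeightOneSpectrum (𝓞 N)) (hqw : (q : 𝓞 N) ∈ w.asIdeal) :
    w.asIdeal.under ℤ = Ideal.span {(q : ℤ)} := by
  have hqp : Prime (q : ℤ) := Nat.prime_iff_prime_int.1 hq
  have hpr : (Ideal.span {(q : ℤ)}).IsPrime := (Ideal.span_singleton_prime hqp.ne_zero).2 hqp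
  have hne : Ideal.span {(q : ℤ)} ≠ ⊥ := by
    rw [Ne, Ideal.span_singleton_eq_bot]
    exact hqp.ne_zero
  have hmax : (Ideal.span {(q : ℤ)}).IsMaximal := hpr.isMaximal hne
  symm
  refine hmax.eq_of_le ?_ ?_
  · exact (Ideal.IsPrime.comap (hK := w.isPrime) (algebraMap ℤ (𝓞 N))).ne_top
  · rw [Ideal.span_singleton_le_iff_mem]
    show algebraMap ℤ (𝓞 N) (q : ℤ) ∈ w.asIdeal
    simpa using hqw

theorem Ra_card {q : ℕ} (hq : q.Prime) {N : Type} [Field N] [NumberField N] [IsGalois ℚ N]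
    (w : HeightOneSpectrum (𝓞 N)) (hw : (q : 𝓞 N) ∈ w.asIdeal ^ 2) :
    Nat.card (w.asIdeal.inertia (N ≃ₐ[ℚ] N)) ≠ 1 := by
  have hqp : Prime (q : ℤ) := Nat.prime_iff_prime_int.1 hq
  have hpr : (Ideal.span {(q : ℤ)}).IsPrime := (Ideal.span_singleton_prime hqp.ne_zero).2 hqp
  have hne : Ideal.span {(q : ℤ)} ≠ ⊥ := by
    rw [Ne, Ideal.span_singleton_eq_bot]
    exact hqp.ne_zero
  let v : HeightOneSpectrum ℤ := ⟨Ideal.span {(q : ℤ)}, hpr, hne⟩
  have hqw : (q : 𝓞 N) ∈ w.asIdeal := Ideal.pow_le_self two_ne_zero hw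
  have l1 : w.asIdeal.LiesOver v.asIdeal := ⟨(Ra_under hq w hqw).symm⟩
  have hfin : Finite (ℤ ⧸ v.asIdeal) := Ring.HasFiniteQuotients.finiteQuotient v.ne_bot
  have h3 := Pool.Agent.H11.valuation_pow_card_inertia N v w (N ≃ₐ[ℚ] N) hfin (q : ℚ)
  intro h1
  have e0 : algebraMap ℚ N (q : ℚ) = (q : N) := map_natCast _ q
  rw [h1, pow_one, e0] at h3
  have e1 : algebraMap (𝓞 N) N (q : 𝓞 N) = (q : N) := map_natCast _ q
  have e2 : algebraMap ℤ ℚ (q : ℤ) = (q : ℚ) := by simp
  rw [← e1, ← e2, w.valuation_of_algebraMap, v.valuation_of_algebraMap] at h3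
  have h4 := (w.intValuation_le_pow_iff_mem (q : 𝓞 N) 2).2 hw
  rw [← h3, v.intValuation_le_pow_iff_mem] at h4
  have h5 : v.asIdeal ^ 2 = Ideal.span {(q : ℤ) ^ 2} := Ideal.span_singleton_pow _ _
  rw [h5, Ideal.mem_span_singleton] at h4
  have h6 : q ^ 2 ∣ q := by exact_mod_cast h4
  have h7 := Nat.le_of_dvd hq.pos h6
  have h8 := hq.two_le
  nlinarith

open scoped Pointwise in
theorem ram_one_mod_three {m : ℕ} {N : Type} [Field N] [NumberField N] [IsGalois ℚ N]
    (hN : Module.finrank ℚ N = 3 ^ m) {q : ℕ} (hq : q.Prime) (h3 : q ≠ 3) (hr : RamIn q N) :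
    q % 3 = 1 := by
  obtain ⟨w, hw⟩ := hr
  have hqw : (q : 𝓞 N) ∈ w.asIdeal := Ideal.pow_le_self two_ne_zero hw
  have : Fact (Nat.Prime 3) := ⟨Nat.prime_three⟩
  have hcardG : Nat.card (N ≃ₐ[ℚ] N) = 3 ^ m := by
    rw [IsGalois.card_aut_eq_finrank, hN]
  have hG3 : IsPGroup 3 (N ≃ₐ[ℚ] N) := IsPGroup.of_card hcardG
  have hZ3 : IsPGroup 3 (MulAction.stabilizer (N ≃ₐ[ℚ] N) w.asIdeal) := hG3.to_subgroup _
  have hIcard : 3 ∣ Nat.card
      (w.asIdeal.inertia (MulAction.stabilizer (N ≃ₐ[ℚ] N) w.asIdeal)) := by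
    have h1 : Nat.card (w.asIdeal.inertia (MulAction.stabilizer (N ≃ₐ[ℚ] N) w.asIdeal)) =
        Nat.card (w.asIdeal.inertia (N ≃ₐ[ℚ] N)) := by
      rw [← Nat.card_congr (Subgroup.subgroupOfEquivOfLe
        (Ideal.inertia_le_stabilizer (M := N ≃ₐ[ℚ] N) w.asIdeal)).toEquiv,
        AddSubgroup.subgroupOf_inertia]
    rcases (hZ3.to_subgroup
      (w.asIdeal.inertia (MulAction.stabilizer (N ≃ₐ[ℚ] N) w.asIdeal))).card_eq_or_dvd with h2 | h2
    · rw [h1] at h2
      exact absurd h2 (Ra_card hq w hw)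
    · exact h2
  obtain ⟨σ, hσI, hσ1, hσc⟩ := Ra_center hZ3
    (w.asIdeal.inertia (MulAction.stabilizer (N ≃ₐ[ℚ] N) w.asIdeal)) hIcard
  obtain ⟨s, hs⟩ : ∃ s : N ≃ₐ[ℚ] N, s = σ := ⟨_, rfl⟩
  have hs1 : s ≠ 1 := by
    intro h
    apply hσ1
    apply Subtype.ext
    rw [← hs, h]
    rfl
  have hsZ : s ∈ MulAction.stabilizer (N ≃ₐ[ℚ] N) w.asIdeal := by
    rw [hs]
    exact σ.2
  have hsI : s ∈ w.asIdeal.inertia (N ≃ₐ[ℚ] N) := by
    rw [hs]
    exact AddSubgroup.coe_mem_inertia.2 hσI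
  have hv := Ra_inv w hsZ
  have hsl : ∀ x : N, w.valuation N x ≤ 1 → w.valuation N (s x - x) < 1 := fun x hx =>
    Pool.Agent.H11.inertia_sub_lt w s hsI x hx
  obtain ⟨π, hπ⟩ := w.valuation_exists_uniformizer N
  have hπ0 : π ≠ 0 := by
    rintro rfl
    rw [map_zero] at hπ
    exact exp_ne_zero hπ.symm
  have hsπ0 : s π ≠ 0 := by
    rw [Ne, map_eq_zero]
    exact hπ0
  obtain ⟨u, hu⟩ : ∃ u, u = s π / π := ⟨_, rfl⟩
  have hVu : w.valuation N u = 1 := by
    rw [hu, map_div₀, hv, hπ, div_self exp_ne_zero]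
  have hu0 : u ≠ 0 := by
    intro h
    rw [h, map_zero] at hVu
    exact zero_ne_one hVu
  have hspi : s π = u * π := by
    rw [hu, div_mul_cancel₀ _ hπ0]
  -- the order of `s` is a power of three, so it is a unit
  have hord : w.valuation N ((orderOf s : ℕ) : N) = 1 := by
    refine Ra_unit w hqw ?_
    obtain ⟨k, hk⟩ := (IsPGroup.iff_orderOf.1 hG3) s
    rw [hk]
    exact Nat.Coprime.pow_left _ ((Nat.coprime_primes Nat.prime_three hq).2 (Ne.symm h3))
  -- `u` is not congruent to one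
  have hA : ¬ w.valuation N (u - 1) < 1 := by
    intro h
    apply hs1
    refine Ra_tame hv hsl hord hπ ?_
    have e1 : s π - π = (u - 1) * π := by rw [hspi]; ring
    have e2 : (exp (-2 : ℤ) : WithZero (Multiplicative ℤ)) = exp (-1 : ℤ) * exp (-1 : ℤ) := by
      rw [← exp_add]
      norm_num
    rw [e1, map_mul, hπ, e2]
    exact mul_le_mul' (Ra_le h) le_rfl
  -- `u ^ (3 ^ m)` is congruent to one
  have hB : w.valuation N (u ^ 3 ^ m - 1) < 1 := by
    have h1 : ∀ k : ℕ, w.valuation N ((s ^ k) π / π) = 1 ∧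
        w.valuation N ((s ^ k) π / π - u ^ k) < 1 := by
      intro k
      induction k with
      | zero =>
        rw [pow_zero, pow_zero, AlgEquiv.one_apply, div_self hπ0, sub_self, map_zero, map_one]
        exact ⟨rfl, zero_lt_one⟩
      | succ k ih =>
        have e1 : (s ^ (k + 1)) π / π = s ((s ^ k) π / π) * u := by
          rw [pow_succ', AlgEquiv.mul_apply, map_div₀, hu]
          field_simp
        refine ⟨?_, ?_⟩
        · rw [e1, map_mul, hv, ih.1, hVu, one_mul]
        · have e2 : (s ^ (k + 1)) π / π - u ^ (k + 1) =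
              (s ((s ^ k) π / π) - (s ^ k) π / π) * u + ((s ^ k) π / π - u ^ k) * u := by
            rw [e1]
            ring
          rw [e2]
          refine Valuation.map_add_lt _ ?_ ?_
          · rw [map_mul, hVu, mul_one]
            exact hsl _ ih.1.le
          · rw [map_mul, hVu, mul_one]
            exact ih.2
    have h2 := (h1 (3 ^ m)).2
    rw [← hcardG, pow_card_eq_one', AlgEquiv.one_apply, div_self hπ0, Valuation.map_sub_swap,
      hcardG] at h2
    exact h2
  -- Frobenius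
  have hfinw : Finite (𝓞 N ⧸ w.asIdeal) := Ring.HasFiniteQuotients.finiteQuotient w.ne_bot
  have hwp : w.asIdeal.IsPrime := w.isPrime
  obtain ⟨τ, hτ⟩ := IsArithFrobAt.exists_of_isInvariant ℤ (N ≃ₐ[ℚ] N) w.asIdeal
  have hτZ := hτ.mem_stabilizer
  have hvτ := Ra_inv w hτZ
  have hcq : Nat.card (ℤ ⧸ w.asIdeal.under ℤ) = q := by
    rw [Ra_under hq w hqw, Nat.card_congr (Int.quotientSpanNatEquivZMod q).toEquiv, Nat.card_zmod]
  have hτ' : ∀ x : 𝓞 N, τ • x - x ^ q ∈ w.asIdeal := by
    intro x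
    have h1 := hτ x
    rw [hcq] at h1
    exact h1
  have hcomm : ∀ x : N, τ (s x) = s (τ x) := by
    intro x
    have h1 := congrArg Subtype.val (hσc ⟨τ, hτZ⟩)
    have h2 : τ * s = s * τ := by
      rw [hs]
      exact h1
    have h3 := congrArg (fun g : N ≃ₐ[ℚ] N => g x) h2
    exact h3
  have hC1 : w.valuation N (τ u - u ^ q) < 1 := by
    obtain ⟨a, d, had⟩ := w.exists_primeCompl_mul_eq_of_integer u hVu.le
    have hd : (d : 𝓞 N) ∉ w.asIdeal := d.2
    have h1 : w.valuation N (algebraMap (𝓞 N) N d) = 1 := w.valuation_eq_one_iff_notMem.mpr hd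
    have hst : ∀ x : 𝓞 N, τ (algebraMap (𝓞 N) N x) = algebraMap (𝓞 N) N (τ • x) := fun _ => rfl
    have h2 : w.valuation N (algebraMap (𝓞 N) N (τ • (d : 𝓞 N) - (d : 𝓞 N) ^ q)) < 1 :=
      (w.valuation_lt_one_iff_mem _).2 (hτ' d)
    have h3 : w.valuation N (algebraMap (𝓞 N) N (τ • a - a ^ q)) < 1 :=
      (w.valuation_lt_one_iff_mem _).2 (hτ' a)
    have h4 : (τ u - u ^ q) * (algebraMap (𝓞 N) N d) ^ q =
        algebraMap (𝓞 N) N (τ • a - a ^ q) -
          τ u * algebraMap (𝓞 N) N (τ • (d : 𝓞 N) - (d : 𝓞 N) ^ q) := by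
      rw [map_sub, map_sub, map_pow, map_pow, ← hst, ← hst, ← had, map_mul]
      ring
    have h5 : w.valuation N (τ u - u ^ q) =
        w.valuation N ((τ u - u ^ q) * (algebraMap (𝓞 N) N d) ^ q) := by
      rw [map_mul, map_pow, h1, one_pow, mul_one]
    rw [h5, h4]
    refine Valuation.map_sub_lt _ h3 ?_
    rw [map_mul, hvτ, hVu, one_mul]
    exact h2
  have hC2 : w.valuation N (τ u - u) < 1 := by
    obtain ⟨a, ha⟩ : ∃ a, a = τ π / π := ⟨_, rfl⟩
    have hVa : w.valuation N a = 1 := by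
      rw [ha, map_div₀, hvτ, hπ, div_self exp_ne_zero]
    have ha0 : a ≠ 0 := by
      intro h
      rw [h, map_zero] at hVa
      exact zero_ne_one hVa
    have e1 : τ π = a * π := by
      rw [ha, div_mul_cancel₀ _ hπ0]
    have e2 : τ u - u = (s a - a) * (u / a) := by
      have e3 : τ u = s a * u / a := by
        rw [hu, map_div₀, hcomm, e1, map_mul]
        field_simp
      rw [e3]
      field_simp
    rw [e2, map_mul, map_div₀, hVu, hVa, div_one, mul_one]
    exact hsl a hVa.le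
  have hC : w.valuation N (u ^ (q - 1) - 1) < 1 := by
    have h1 : w.valuation N (u ^ q - u) < 1 := by
      have e1 : u ^ q - u = (τ u - u) - (τ u - u ^ q) := by ring
      rw [e1]
      exact Valuation.map_sub_lt _ hC2 hC1
    have e2 : u ^ q - u = (u ^ (q - 1) - 1) * u := by
      have e3 : u ^ q = u ^ (q - 1) * u := by
        rw [← pow_succ, Nat.sub_add_cancel hq.one_le]
      rw [e3]
      ring
    rw [e2, map_mul, hVu, mul_one] at h1
    exact h1
  by_contra hq3
  apply hA
  refine Ra_gcd _ hVu.le (k := q - 1) (l := 3 ^ m) ?_ hC hB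
  apply Nat.Coprime.pow_right
  rw [Nat.coprime_comm, Nat.prime_three.coprime_iff_not_dvd]
  intro h4
  apply hq3
  have h5 := hq.one_le
  omega

theorem nonsplit_twist {q : ℕ} (hq : q.Prime) (h1 : q % 3 = 1) {D : ℤ} (h : NonSplit q D) :
    NonSplit q (-3 * D) := by
  have hF : Fact q.Prime := ⟨hq⟩
  have h3F : Fact (Nat.Prime 3) := ⟨Nat.prime_three⟩
  have hd : 3 ∣ Fintype.card (ZMod q)ˣ := by
    rw [ZMod.card_units_eq_totient, Nat.totient_prime hq]
    omega
  obtain ⟨z, hz⟩ := exists_prime_orderOf_dvd_card 3 hd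
  have hz3 : (z : ZMod q) ^ 3 = 1 := by
    have h2 := pow_orderOf_eq_one z
    rw [hz] at h2
    have h3 := congrArg Units.val h2
    rwa [Units.val_pow_eq_pow_val, Units.val_one] at h3
  have hz1 : (z : ZMod q) ≠ 1 := by
    intro h2
    have h3 : z = 1 := Units.ext h2
    rw [h3, orderOf_one] at hz
    omega
  have hz2 : (z : ZMod q) ^ 2 + z + 1 = 0 := by
    have h2 : ((z : ZMod q) - 1) * ((z : ZMod q) ^ 2 + z + 1) = 0 := by
      have h3 : ((z : ZMod q) - 1) * ((z : ZMod q) ^ 2 + z + 1) = (z : ZMod q) ^ 3 - 1 := by ring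
      rw [h3, hz3, sub_self]
    rcases mul_eq_zero.1 h2 with h3 | h3
    · exact absurd (sub_eq_zero.1 h3) hz1
    · exact h3
  obtain ⟨r, hr⟩ : ∃ r : ZMod q, r ^ 2 = -3 := by
    refine ⟨2 * z + 1, ?_⟩
    have h3 : (2 * (z : ZMod q) + 1) ^ 2 = 4 * ((z : ZMod q) ^ 2 + z + 1) - 3 := by ring
    rw [h3, hz2]
    ring
  have h30 : (3 : ZMod q) ≠ 0 := by
    intro h2
    have h3 : ((3 : ℕ) : ZMod q) = 0 := by exact_mod_cast h2
    rw [ZMod.natCast_eq_zero_iff] at h3
    have h4 := (Nat.prime_dvd_prime_iff_eq hq Nat.prime_three).1 h3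
    omega
  have hr0 : r ≠ 0 := by
    intro h2
    rw [h2] at hr
    apply h30
    have h3 : (3 : ZMod q) = -(-3) := by ring
    rw [h3, ← hr]
    ring
  intro t ht
  have h2 : ((-3 * D - t ^ 2 : ℤ) : ZMod q) = 0 := (ZMod.intCast_zmod_eq_zero_iff_dvd _ _).2 ht
  push_cast at h2
  obtain ⟨a, ha⟩ : ∃ a : ℤ, (a : ZMod q) = (t : ZMod q) / r := ZMod.intCast_surjective _
  have h4 : (q : ℤ) ∣ D - a ^ 2 := by
    rw [← ZMod.intCast_zmod_eq_zero_iff_dvd]
    push_cast
    rw [ha, div_pow, hr]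
    have h5 : (t : ZMod q) ^ 2 = -3 * D := by linear_combination -h2
    have h6 : (-3 : ZMod q) ≠ 0 := neg_ne_zero.2 h30
    rw [h5, mul_div_cancel_left₀ _ h6, sub_self]
  have h5 := h a h4
  rw [← ZMod.intCast_zmod_eq_zero_iff_dvd] at h5 ⊢
  rw [ha, div_eq_zero_iff] at h5
  exact h5.resolve_right hr0

end H38T6
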