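import Pool.Agent.H38.T6.Ga
import Pool.Agent.H38.T6.Gb
import Pool.Agent.H38.T6.Gc
import Pool.Agent.H38.T6.Ea
import Pool.Agent.H38.T6.Eb
import Pool.Agent.H38.T6.Ra
import Pool.Agent.H38.T6.Bz

/-!
Row Gd. (about 200 lines): the classes over C are trivial.
F := IntermediateField.adjoin Q {algebraMap B C s} (a number field of degree two as s is not rational: ka s = -s; with the inclusion F -> C), t := the generator. Every y in F is p + q t. Gal(C/F) has order 3^m ([C : F] = 2 3^m / 2).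
hz := no_zeta (not a square: for delta = D: -3 D is exactly divisible by 3; for delta = -3 D: 9 D < 0).
triv_dual (delta = D): desc with P y := (exists r, ka y * y = r^3) and (y <> 0 -> for all W, 3 | log (W y)). hst: g (ka y * y) = ka (g y) * g y by T.comm (g as an automorphism over Q: g.restrictScalars Q), W (g y) = W'(y) (exists_conj). hc clear. h0: y0 = p + q t in F, P: r in C with ka y0 * y0 = p^2 - D q^2 = r^3 rational, so by cube_down (B := Q) = c^3. val_base: 3 | log v(y0) for all v (hns from the hypotheses: l ramified in N: l = 3: not 3 | D and NonSplit 3 D because D % 3 = 2 (D - t^2 = 0 mod 3 impossible); l <> 3: NonSplit l D by hram, and if l | D then not l^2 | D (squarefree)). hC F t gives y0 = z^3 in F.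
triv_phi (delta = -3 D): P y := the same and LC3 y (LC3 is multiplicative for nonzero elements: (y z^3)(y' z'^3) - 1; LC3 (g y): z -> g z, exists_conj; LC3 (y^3): z := y^-1; put (y <> 0 -> ...) where needed). h0: as before, hns: l = 3: 3 | -3 D, not 9 | -3 D; l <> 3, l | D: l | -3 D, not l^2; l <> 3, l not | D: NonSplit l D, l % 3 = 1 by ram_one_mod_three (Ra), so NonSplit l (-3 D) by nonsplit_twist. lc3_down: LC3 y0. base (Bz): y0 is a cube in F.
-/

set_option autoImplicit false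
set_option linter.unusedSectionVars false
set_option linter.style.haveILetI false
open scoped Classical

open IsDedekindDomain NumberField WithZero

namespace H38T6


section

variable {m : ℕ} {D : ℤ} {K N B C : Type} [Field K]
    [NumberField K] [Field N] [NumberField N] [Field B] [NumberField B] [Field C] [NumberField C]
    [Algebra K N] [Algebra K B] [Algebra K C] [Algebra N C] [Algebra B C] [IsScalarTower K N C]
    [IsScalarTower K B C] {s : B} {κ : C ≃ₐ[N] C}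

/-- the quadratic subfield -/
theorem Gd_quad {δ : ℤ} (hδ : ∀ r : ℚ, r ^ 2 ≠ (δ : ℚ)) (T : Tow m δ K N B C s κ) :
    ∃ (F : Type) (_ : Field F) (_ : NumberField F) (_ : Algebra F C) (t : F),
      algebraMap F C t = algebraMap B C s ∧ t ^ 2 = (δ : F) ∧ Module.finrank ℚ F = 2 ∧
      IsGalois F C ∧ Nat.card (C ≃ₐ[F] C) = 3 ^ m := by
  have hσ : (algebraMap B C s) ^ 2 = (δ : C) := by
    rw [← map_pow, T.sq, map_intCast]
  have h2 := Ea_B (δ := δ) ℚ C hσ hδ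
  haveI := T.galC
  obtain ⟨F, hF⟩ : ∃ F : IntermediateField ℚ C, F = IntermediateField.adjoin ℚ {algebraMap B C s} :=
    ⟨_, rfl⟩
  rw [← hF] at h2
  have hs : algebraMap B C s ∈ F := by
    rw [hF]
    exact IntermediateField.subset_adjoin _ _ rfl
  haveI hG : IsGalois F C := IsGalois.tower_top_of_isGalois ℚ F C
  refine ⟨F, inferInstance, inferInstance, inferInstance, ⟨algebraMap B C s, hs⟩, rfl, ?_, ?_, hG, ?_⟩
  · apply Subtype.ext
    push_cast
    exact hσ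
  · exact h2
  · rw [IsGalois.card_aut_eq_finrank]
    have h3 := Module.finrank_mul_finrank ℚ F C
    rw [h2, T.degC] at h3
    exact Nat.eq_of_mul_eq_mul_left (by norm_num) h3

/-- the general descent -/
theorem Gd_gen {δ : ℤ} (hδ : ∀ r : ℚ, r ^ 2 ≠ (δ : ℚ)) (h3 : ¬ IsSquare (-3 * δ))
    (T : Tow m δ K N B C s κ) (P : C → Prop)
    (hmul : ∀ x y, x ≠ 0 → y ≠ 0 → P x → P y → P (x * y))
    (hst : ∀ (g : C ≃ₐ[ℚ] C) (y : C), P y → P (g y)) (hc : ∀ y, y ≠ 0 → P (y ^ 3))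
    (hP : ∀ y, P y → ∃ r, κ y * y = r ^ 3)
    (h0 : ∀ (F : Type) [Field F] [NumberField F] [Algebra F C] (t : F),
      algebraMap F C t = algebraMap B C s → t ^ 2 = (δ : F) → Module.finrank ℚ F = 2 →
      ∀ p q c : ℚ, p ^ 2 - δ * q ^ 2 = c ^ 3 → algebraMap ℚ F p + algebraMap ℚ F q * t ≠ 0 →
      P (algebraMap F C (algebraMap ℚ F p + algebraMap ℚ F q * t)) →
      ∃ z : F, algebraMap ℚ F p + algebraMap ℚ F q * t = z ^ 3) {y : C} (hy : y ≠ 0) (hPy : P y) :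
    ∃ z, y = z ^ 3 := by
  haveI := T.galC
  have hz : ∀ z : C, z ^ 2 + z + 1 ≠ 0 := fun z => no_zeta h3 T z
  obtain ⟨F, _, _, _, t, ht, ht2, hF, hG, hcard⟩ := Gd_quad hδ T
  haveI := hG
  haveI : FiniteDimensional F C := Module.Finite.of_restrictScalars_finite ℚ F C
  have hQ : ∀ q : ℚ, algebraMap F C (algebraMap ℚ F q) = (q : C) := fun q => by
    rw [eq_ratCast, map_ratCast]
  have hκ : ∀ q : ℚ, κ (q : C) = (q : C) := fun q => map_ratCast κ q
  refine desc hcard hz P hmul (fun g x hx => hst (g.restrictScalars ℚ) x hx) hc ?_ hy hPy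
  intro x hx hPx
  obtain ⟨p, q, rfl⟩ := coords ht2 hF hδ x
  obtain ⟨r, hr⟩ := hP _ hPx
  have hσ : (algebraMap B C s) ^ 2 = (δ : C) := by
    rw [← map_pow, T.sq, map_intCast]
  have h1 : algebraMap ℚ C (p ^ 2 - δ * q ^ 2) = r ^ 3 := by
    rw [← hr, map_add, map_mul, ht, hQ, hQ, map_add, map_mul, hκ, hκ, T.neg, eq_ratCast]
    push_cast
    rw [← hσ]
    ring
  obtain ⟨c, hc1⟩ := cube_down hz h1
  obtain ⟨z, hz1⟩ := h0 F t ht ht2 hF p q c hc1 hx hPx
  exact ⟨algebraMap F C z, by rw [← map_pow, ← hz1]⟩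

/-- valuations and conjugation -/
theorem Gd_conj (g : C ≃ₐ[ℚ] C) {y : C}
    (h : ∀ W : HeightOneSpectrum (𝓞 C), (3 : ℤ) ∣ log (W.valuation C y))
    (W : HeightOneSpectrum (𝓞 C)) : (3 : ℤ) ∣ log (W.valuation C (g y)) := by
  obtain ⟨W', h1, -⟩ := Pool.Agent.H10.exists_conj g W
  rw [h1]
  exact h W'

theorem Gd_mul {x y : C} (hx : x ≠ 0) (hy : y ≠ 0)
    (h1 : ∀ W : HeightOneSpectrum (𝓞 C), (3 : ℤ) ∣ log (W.valuation C x))
    (h2 : ∀ W : HeightOneSpectrum (𝓞 C), (3 : ℤ) ∣ log (W.valuation C y))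
    (W : HeightOneSpectrum (𝓞 C)) : (3 : ℤ) ∣ log (W.valuation C (x * y)) := by
  rw [map_mul, log_mul ((Valuation.ne_zero_iff _).2 hx) ((Valuation.ne_zero_iff _).2 hy)]
  exact dvd_add (h1 W) (h2 W)

theorem Gd_cube (y : C) (W : HeightOneSpectrum (𝓞 C)) :
    (3 : ℤ) ∣ log (W.valuation C (y ^ 3)) := by
  rw [map_pow, log_pow]
  exact ⟨_, by rw [nsmul_eq_mul]; norm_cast⟩

theorem Gd_le {n : ℕ} {x : C} {W : HeightOneSpectrum (𝓞 C)}
    (h : W.valuation C (x - 1) ≤ exp (-(n : ℤ))) : W.valuation C x ≤ 1 := by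
  have h1 : W.valuation C (x - 1) ≤ 1 := h.trans (by
    rw [← exp_zero, exp_le_exp]
    omega)
  have h2 : x = (x - 1) + 1 := by ring
  rw [h2]
  exact (Valuation.map_add _ _ _).trans (max_le h1 (by rw [map_one]))

theorem Gd_lmul {x y : C} (h1 : LC3 x) (h2 : LC3 y) : LC3 (x * y) := by
  intro k
  obtain ⟨z, hz⟩ := h1 k
  obtain ⟨z', hz'⟩ := h2 k
  refine ⟨z * z', fun W hW => ?_⟩
  have a1 := hz W hW
  have a2 := hz' W hW
  have e : x * y * (z * z') ^ 3 - 1 = (x * z ^ 3 - 1) * (y * z' ^ 3) + (y * z' ^ 3 - 1) := by ring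
  rw [e]
  refine (Valuation.map_add _ _ _).trans (max_le ?_ a2)
  rw [map_mul]
  exact (mul_le_of_le_one_right' (Gd_le a2)).trans a1

theorem Gd_lcube {y : C} (hy : y ≠ 0) : LC3 (y ^ 3) := by
  intro k
  refine ⟨y⁻¹, fun W _ => ?_⟩
  rw [← mul_pow, mul_inv_cancel₀ hy, one_pow, sub_self, map_zero]
  exact zero_le

theorem Gd_lconj (g : C ≃ₐ[ℚ] C) {y : C} (h : LC3 y) : LC3 (g y) := by
  intro k
  obtain ⟨z, hz⟩ := h k
  refine ⟨g z, fun W hW => ?_⟩
  obtain ⟨W', h1, h2⟩ := Pool.Agent.H10.exists_conj g W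
  have e : g y * (g z) ^ 3 - 1 = g (y * z ^ 3 - 1) := by
    rw [map_sub, map_mul, map_pow, map_one]
  rw [e, h1]
  refine hz W' ?_
  have h3 := h2 3
  rw [map_ofNat] at h3
  exact h3.2 hW

theorem Gd_norm (T : Tow m D K N B C s κ) (g : C ≃ₐ[ℚ] C) {y : C} (h : ∃ r, κ y * y = r ^ 3) :
    ∃ r, κ (g y) * g y = r ^ 3 := by
  obtain ⟨r, hr⟩ := h
  exact ⟨g r, by rw [← T.comm, ← map_mul, hr, map_pow]⟩

theorem Gd_sqf (hsq : Squarefree D) {l : ℕ} (hl : l.Prime) : ¬ (l : ℤ) ^ 2 ∣ D := by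
  intro h
  have h1 := hsq (l : ℤ) (by rw [← pow_two]; exact h)
  exact (Nat.prime_iff_prime_int.1 hl).not_isUnit h1

theorem Gd_3 (h3 : D % 3 = 2) : ¬ (3 : ℤ) ∣ D := by omega

theorem Gd_non3 (h3 : D % 3 = 2) : NonSplit 3 D := by
  intro t ht
  exfalso
  have h1 : (t ^ 2) % 3 = 0 ∨ (t ^ 2) % 3 = 1 := by
    have : t % 3 = 0 ∨ t % 3 = 1 ∨ t % 3 = 2 := by omega
    rcases this with h | h | h <;> simp [pow_two, Int.mul_emod, h]
  push_cast at ht
  omega

theorem Gd_nsq {δ : ℤ} (hδ : ¬ IsSquare δ) (r : ℚ) : r ^ 2 ≠ (δ : ℚ) := by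
  intro h
  apply hδ
  rw [← Rat.isSquare_intCast_iff]
  exact ⟨r, by rw [← pow_two, h]⟩

theorem Gd_nsq3 (h3 : D % 3 = 2) : ¬ IsSquare (-3 * D) := by
  rintro ⟨k, hk⟩
  have h1 : (3 : ℤ) ∣ k * k := ⟨-D, by rw [← hk]; ring⟩
  have h2 : (3 : ℤ) ∣ k := by
    rcases Int.prime_three.dvd_or_dvd h1 with h | h <;> exact h
  obtain ⟨j, rfl⟩ := h2
  have h4 : D = 3 * (-(j * j)) := by linarith
  omega

theorem Gd_neg (hD : D < 0) : ¬ IsSquare D := fun h => absurd h.nonneg (not_le.2 hD)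

theorem triv_dual (hD : D < 0) (hsq : Squarefree D) (h3 : D % 3 = 2) (hC : CubD D)
    (T : Tow m D K N B C s κ)
    (hram : ∀ l : ℕ, l.Prime → l ≠ 3 → RamIn l N → NonSplit l D) {y : C} (hy : y ≠ 0)
    (h1 : ∃ r, κ y * y = r ^ 3) (h2 : ∀ W : HeightOneSpectrum (𝓞 C), (3 : ℤ) ∣ log (W.valuation C y)) :
    ∃ z, y = z ^ 3 := by
  refine Gd_gen (Gd_nsq (Gd_neg hD)) (Gd_nsq3 h3) T
    (fun x => (∃ r, κ x * x = r ^ 3) ∧
      ∀ W : HeightOneSpectrum (𝓞 C), (3 : ℤ) ∣ log (W.valuation C x))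
    ?_ ?_ ?_ (fun x hx => hx.1) ?_ hy ⟨h1, h2⟩
  · rintro x x' hx hx' ⟨⟨r, hr⟩, a⟩ ⟨⟨r', hr'⟩, a'⟩
    refine ⟨⟨r * r', ?_⟩, Gd_mul hx hx' a a'⟩
    rw [map_mul, mul_pow, ← hr, ← hr']
    ring
  · rintro g x ⟨a, b⟩
    exact ⟨Gd_norm T g a, Gd_conj g b⟩
  · intro x _
    exact ⟨⟨κ x * x, by rw [map_pow, mul_pow]⟩, Gd_cube x⟩
  · intro F _ _ _ t ht ht2 hF p q c hc hne hP
    have hv := val_base T ht (fun l hl hr => ?_) hc hne hP.2
    · exact hC F t ht2 hF _ hne hv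
    · by_cases hl3 : l = 3
      · subst hl3
        exact Or.inr ⟨Gd_3 h3, Gd_non3 h3⟩
      · by_cases hd : (l : ℤ) ∣ D
        · exact Or.inl ⟨hd, Gd_sqf hsq hl⟩
        · exact Or.inr ⟨hd, hram l hl hl3 hr⟩

theorem triv_phi (hD : D < 0) (hsq : Squarefree D) (h3 : D % 3 = 2) (hC : CubD D)
    (T : Tow m (-3 * D) K N B C s κ)
    (hram : ∀ l : ℕ, l.Prime → l ≠ 3 → RamIn l N → NonSplit l D) {y : C} (hy : y ≠ 0)
    (h1 : ∃ r, κ y * y = r ^ 3) (h2 : ∀ W : HeightOneSpectrum (𝓞 C), (3 : ℤ) ∣ log (W.valuation C y))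
    (h4 : LC3 y) : ∃ z, y = z ^ 3 := by
  have hns : ¬ IsSquare (-3 * (-3 * D)) := by
    refine Gd_neg ?_
    linarith
  refine Gd_gen (Gd_nsq (Gd_nsq3 h3)) hns T
    (fun x => (∃ r, κ x * x = r ^ 3) ∧
      (∀ W : HeightOneSpectrum (𝓞 C), (3 : ℤ) ∣ log (W.valuation C x)) ∧ LC3 x)
    ?_ ?_ ?_ (fun x hx => hx.1) ?_ hy ⟨h1, h2, h4⟩
  · rintro x x' hx hx' ⟨⟨r, hr⟩, a, b⟩ ⟨⟨r', hr'⟩, a', b'⟩
    refine ⟨⟨r * r', ?_⟩, Gd_mul hx hx' a a', Gd_lmul b b'⟩
    rw [map_mul, mul_pow, ← hr, ← hr']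
    ring
  · rintro g x ⟨a, b, c⟩
    exact ⟨Gd_norm T g a, Gd_conj g b, Gd_lconj g c⟩
  · intro x hx
    exact ⟨⟨κ x * x, by rw [map_pow, mul_pow]⟩, Gd_cube x, Gd_lcube hx⟩
  · intro F _ _ _ t ht ht2 hF p q c hc hne hP
    have hv := val_base T ht (fun l hl hr => ?_) hc hne hP.2.1
    · refine base hD h3 hC (t := t) (by rw [ht2]; push_cast; rfl) hF (c := c) ?_ hne hv
        (lc3_down h3 T ht hF hne hP.2.2)
      rw [← hc]
      push_cast
      ring
    · by_cases hl3 : l = 3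
      · subst hl3
        refine Or.inl ⟨⟨-D, by push_cast; ring⟩, ?_⟩
        rintro ⟨j, hj⟩
        push_cast at hj
        omega
      · have hl3' : ¬ (l : ℤ) ∣ 3 := by
          intro h
          have h' : l ∣ 3 := by exact_mod_cast h
          exact hl3 ((Nat.prime_dvd_prime_iff_eq hl Nat.prime_three).1 h')
        have hlp := Nat.prime_iff_prime_int.1 hl
        by_cases hd : (l : ℤ) ∣ D
        · refine Or.inl ⟨hd.mul_left _, fun h => ?_⟩
          have hcop : IsCoprime ((l : ℤ) ^ 2) (-3) := by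
            refine IsCoprime.pow_left ?_
            rw [IsCoprime.neg_right_iff]
            exact (Prime.coprime_iff_not_dvd hlp).2 hl3'
          exact Gd_sqf hsq hl (hcop.dvd_of_dvd_mul_left h)
        · refine Or.inr ⟨fun h => ?_, ?_⟩
          · rcases hlp.dvd_or_dvd h with h | h
            · exact hl3' ((dvd_neg).1 h)
            · exact hd h
          · haveI := T.galN
            exact nonsplit_twist hl (ram_one_mod_three T.degN hl hl3 hr) (hram l hl hl3 hr)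

end

end H38T6
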