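import Pool.Agent.H38.T6.Def0
import Pool.Agent.H55.T3.Me

/-!
Row Ha. (about 190 lines): the quadratic field F = Q(s), s^2 = D, D squarefree, D = 2 mod 4 (D % 4 = 2).
ring_iso: the ring homomorphism Zsqrtd D -> F, (x, y) -> x + y s (Zsqrtd.lift) is injective (s is not rational), its values are integral; every integral element a + b s (a, b rational) has x = 2 a and a^2 - D b^2 integers (trace and norm; the conjugate: min polynomial X^2 - 2 a X + (a^2 - D b^2) when b <> 0; or: NumberField / IsIntegral of trace and norm), so X := 2 a, (X^2 - 4 D b^2)/4 integral: 4 D b^2 is an integer and, D squarefree, Y := 2 b is an integer (b = u / v in lowest terms, v^2 | 4 D u^2, v^2 | 4 D, so v | 2); X^2 - D Y^2 = 0 mod 4 with D = 2 mod 4: if Y is odd then X^2 = D mod 4 = 2, impossible; so Y is even, X^2 = 0 mod 4, X even: a and b are integers. So the homomorphism onto O_F is bijective: e.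
unit_cube: D <= -2: a unit x + y s has x^2 - D y^2 = 1 (norm +-1 and positive), so y = 0, x = 1 or -1: u = u^3.
exists_ideal: y in F with 3 | log (v y) for all v and y not a cube. Multiply by the cube of a nonzero integer: y in O_F. The ideal (y) = prod v^(3 k_v) = I^3 (factorisation; see Pool/Agent/H55/T3/Me.lean for the same step: multiplicities are divisible by three). If I = (x) then (y) = (x^3), y = u x^3 with a unit u = w^3 (hu), so y is a cube: contradiction.
-/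

set_option autoImplicit false
set_option linter.unusedSectionVars false
open scoped Classical

open IsDedekindDomain NumberField WithZero

namespace H38T6

private theorem Ha_nsq {D : ℤ} (h4 : D % 4 = 2) (n : ℤ) : D ≠ n * n := by
  intro h
  rcases Int.even_or_odd' n with ⟨m, hm | hm⟩
  · have h1 : D = 4 * (m * m) := by rw [h, hm]; ring
    omega
  · have h1 : D = 4 * (m * m + m) + 1 := by rw [h, hm]; ring
    omega

private theorem Ha_rat {D : ℤ} (h4 : D % 4 = 2) {F : Type} [Field F] [NumberField F] {s : F}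
    (hs : s ^ 2 = (D : F)) (r : ℚ) : s ≠ (r : F) := by
  rintro rfl
  have h1 : r * r = (D : ℚ) := by
    have h2 : ((r * r : ℚ) : F) = ((D : ℚ) : F) := by
      push_cast
      rw [← sq]
      exact hs
    exact_mod_cast h2
  obtain ⟨n, hn⟩ := Rat.isSquare_intCast_iff.1 ⟨r, h1.symm⟩
  exact Ha_nsq h4 n hn

private theorem Ha_rep {D : ℤ} (h4 : D % 4 = 2) {F : Type} [Field F] [NumberField F] {s : F}
    (hs : s ^ 2 = (D : F)) (hF : Module.finrank ℚ F = 2) (x : F) :
    ∃ a b : ℚ, x = (a : F) + (b : F) * s := by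
  have hli : LinearIndependent ℚ ![(1 : F), s] := by
    rw [LinearIndependent.pair_iff]
    intro a b h
    rw [Rat.smul_def, Rat.smul_def, mul_one] at h
    have hb : b = 0 := by
      by_contra hb
      have hb' : (b : F) ≠ 0 := by exact_mod_cast hb
      apply Ha_rat h4 hs (-a / b)
      push_cast
      rw [eq_div_iff hb']
      linear_combination h
    rw [hb, Rat.cast_zero, zero_mul, add_zero] at h
    exact ⟨by exact_mod_cast h, hb⟩
  have hsp := hli.span_eq_top_of_card_eq_finrank' (by rw [Fintype.card_fin, hF])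
  have hx : x ∈ Submodule.span ℚ (Set.range ![(1 : F), s]) := by
    rw [hsp]
    exact Submodule.mem_top
  rw [Matrix.range_cons, Matrix.range_cons, Matrix.range_empty, Set.union_empty,
    Set.singleton_union, Submodule.mem_span_pair] at hx
  obtain ⟨a, b, hab⟩ := hx
  refine ⟨a, b, ?_⟩
  rw [← hab, Rat.smul_def, Rat.smul_def, mul_one]

/-- the conjugation -/
private theorem Ha_conj {D : ℤ} (h4 : D % 4 = 2) {F : Type} [Field F] [NumberField F] {s : F}
    (hs : s ^ 2 = (D : F)) (hF : Module.finrank ℚ F = 2) : ∃ τ : F ≃ₐ[ℚ] F, τ s = -s := by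
  have hq : Algebra.IsQuadraticExtension ℚ F := ⟨hF⟩
  have hgal : IsGalois ℚ F := inferInstance
  have hcard := IsGalois.card_aut_eq_finrank ℚ F
  rw [hF] at hcard
  have hnt : Nontrivial (F ≃ₐ[ℚ] F) := by
    rw [← Finite.one_lt_card_iff_nontrivial, hcard]
    norm_num
  obtain ⟨τ, hτ⟩ := exists_ne (1 : F ≃ₐ[ℚ] F)
  refine ⟨τ, ?_⟩
  have h1 : (τ s) ^ 2 = s ^ 2 := by
    rw [← map_pow, hs, map_intCast]
  rcases sq_eq_sq_iff_eq_or_eq_neg.1 h1 with h2 | h2
  · exfalso
    apply hτ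
    ext x
    obtain ⟨a, b, rfl⟩ := Ha_rep h4 hs hF x
    rw [map_add, map_mul, map_ratCast, map_ratCast, h2]
    rfl
  · exact h2

private theorem Ha_int {F : Type} [Field F] [NumberField F] {r : ℚ} (h : IsIntegral ℤ (r : F)) :
    ∃ n : ℤ, r = n := by
  have h1 : IsIntegral ℤ r := by
    have h2 : (r : F) = algebraMap ℚ F r := by simp
    rw [h2, isIntegral_algebraMap_iff (algebraMap ℚ F).injective] at h
    exact h
  obtain ⟨n, hn⟩ := IsIntegrallyClosed.isIntegral_iff.1 h1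
  exact ⟨n, by rw [← hn]; simp⟩

/-- rational numbers whose square times a squarefree number is an integer -/
private theorem Ha_sqf {D : ℤ} (hsq : Squarefree D) {c : ℚ} {M : ℤ} (h : (D : ℚ) * c ^ 2 = M) :
    ∃ n : ℤ, c = n := by
  have h1 : D * c.num ^ 2 = M * (c.den : ℤ) ^ 2 := by
    have h2 : c = c.num / c.den := (Rat.num_div_den c).symm
    have hd : (c.den : ℚ) ≠ 0 := by exact_mod_cast c.den_ne_zero
    rw [h2] at h
    have h3 : (D : ℚ) * (c.num : ℚ) ^ 2 = M * (c.den : ℚ) ^ 2 := by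
      field_simp at h
      exact h.trans (mul_comm _ _)
    exact_mod_cast h3
  have hcop : IsCoprime ((c.den : ℤ) ^ 2) (c.num ^ 2) := by
    have h2 := c.reduced
    exact (Int.isCoprime_iff_gcd_eq_one.2 (by
      rw [Int.gcd_comm, Int.gcd_def, Int.natAbs_natCast]
      exact h2)).pow
  have h2 : (c.den : ℤ) ^ 2 ∣ D := by
    refine hcop.dvd_of_dvd_mul_right ?_
    exact ⟨M, by rw [h1]; ring⟩
  have h3 : IsUnit (c.den : ℤ) := hsq _ (by rwa [← sq])
  have h4 : c.den = 1 := by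
    rcases Int.isUnit_iff.1 h3 with h4 | h4
    · exact_mod_cast h4
    · omega
  exact ⟨c.num, ((Rat.den_eq_one_iff c).1 h4).symm⟩

/-- the parities -/
private theorem Ha_par {D X Y N : ℤ} (h4 : D % 4 = 2) (h : X ^ 2 - D * Y ^ 2 = 4 * N) :
    Even X ∧ Even Y := by
  obtain ⟨d, hd⟩ : ∃ d, D = 4 * d + 2 := ⟨D / 4, by omega⟩
  have hX : Even X := by
    rcases Int.even_or_odd' X with ⟨m, hm | hm⟩
    · exact ⟨m, by omega⟩
    · exfalso
      have h1 : 2 * (2 * (m * m + m) - (2 * d + 1) * Y ^ 2 - 2 * N) + 1 = 0 := by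
        rw [hm, hd] at h
        linear_combination h
      omega
  refine ⟨hX, ?_⟩
  obtain ⟨m, hm⟩ := hX
  rcases Int.even_or_odd' Y with ⟨j, hj | hj⟩
  · exact ⟨j, by omega⟩
  · exfalso
    have h2 : 2 * (2 * m ^ 2 - (2 * d + 1) * (4 * (j * j + j)) - 2 * d - 2 * N) = 2 := by
      rw [hm, hd, hj] at h
      linear_combination h
    have h3 : 2 * (m ^ 2 - (2 * d + 1) * (2 * (j * j + j)) - d - N) = 1 := by
      linarith
    omega

private theorem Ha_surj {D : ℤ} (hsq : Squarefree D) (h4 : D % 4 = 2) {F : Type} [Field F]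
    [NumberField F] {s : F} (hs : s ^ 2 = (D : F)) (hF : Module.finrank ℚ F = 2) (x : 𝓞 F) :
    ∃ m n : ℤ, (x : F) = (m : F) + (n : F) * s := by
  obtain ⟨a, b, hab⟩ := Ha_rep h4 hs hF (x : F)
  obtain ⟨τ, hτ⟩ := Ha_conj h4 hs hF
  have hx : IsIntegral ℤ (x : F) := x.2
  have hx' : IsIntegral ℤ (τ (x : F)) := by
    exact hx.map (τ.restrictScalars ℤ : F ≃ₐ[ℤ] F).toAlgHom
  have hτx : τ (x : F) = (a : F) - (b : F) * s := by
    rw [hab, map_add, map_mul, map_ratCast, map_ratCast, hτ]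
    ring
  have h1 : IsIntegral ℤ (((2 * a : ℚ)) : F) := by
    have h2 : ((2 * a : ℚ) : F) = (x : F) + τ (x : F) := by
      rw [hτx, hab]
      push_cast
      ring
    rw [h2]
    exact hx.add hx'
  have h2 : IsIntegral ℤ (((a ^ 2 - D * b ^ 2 : ℚ)) : F) := by
    have h3 : ((a ^ 2 - D * b ^ 2 : ℚ) : F) = (x : F) * τ (x : F) := by
      rw [hτx, hab]
      push_cast
      linear_combination (b : F) ^ 2 * hs
    rw [h3]
    exact hx.mul hx'
  obtain ⟨X, hX⟩ := Ha_int h1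
  obtain ⟨N, hN⟩ := Ha_int h2
  obtain ⟨Y, hY⟩ := Ha_sqf hsq (c := 2 * b) (M := X ^ 2 - 4 * N) (by
    push_cast
    rw [← hX, ← hN]
    ring)
  have h5 : X ^ 2 - D * Y ^ 2 = 4 * N := by
    have h6 : (X : ℚ) ^ 2 - D * (Y : ℚ) ^ 2 = 4 * N := by
      rw [← hX, ← hN, ← hY]
      ring
    exact_mod_cast h6
  obtain ⟨⟨m, hm⟩, ⟨n, hn⟩⟩ := Ha_par h4 h5
  refine ⟨m, n, ?_⟩
  have ha : a = m := by
    rw [hm] at hX
    push_cast at hX
    linarith
  have hb : b = n := by
    rw [hn] at hY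
    push_cast at hY
    linarith
  rw [hab, ha, hb]
  push_cast
  rfl

theorem ring_iso {D : ℤ} (hsq : Squarefree D) (h4 : D % 4 = 2) {F : Type} [Field F]
    [NumberField F] {s : F} (hs : s ^ 2 = (D : F)) (hF : Module.finrank ℚ F = 2) :
    ∃ e : Zsqrtd D ≃+* 𝓞 F, ∀ z : Zsqrtd D, ((e z : 𝓞 F) : F) = (z.re : F) + (z.im : F) * s := by
  have hsi : IsIntegral ℤ s := by
    refine IsIntegral.of_pow (n := 2) (by norm_num) ?_
    rw [hs]
    exact isIntegral_algebraMap (R := ℤ) (A := F) (x := D)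
  obtain ⟨σ, hσ⟩ : ∃ σ : 𝓞 F, (σ : F) = s := ⟨⟨s, hsi⟩, rfl⟩
  have hσ2 : σ * σ = ((D : ℤ) : 𝓞 F) := by
    apply FaithfulSMul.algebraMap_injective (𝓞 F) F
    rw [map_mul, map_intCast, ← hs, sq]
    change (σ : F) * (σ : F) = _
    rw [hσ]
  obtain ⟨φ, hφ⟩ : ∃ φ : Zsqrtd D →+* 𝓞 F, φ = Zsqrtd.lift ⟨σ, hσ2⟩ := ⟨_, rfl⟩
  have hv : ∀ z : Zsqrtd D, ((φ z : 𝓞 F) : F) = (z.re : F) + (z.im : F) * s := by
    intro z
    rw [hφ, Zsqrtd.lift_apply_apply]
    have h1 : (((z.re : 𝓞 F) + (z.im : 𝓞 F) * σ : 𝓞 F) : F) = (z.re : F) + (z.im : F) * (σ : F) := by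
      push_cast
      rfl
    rw [← hσ]
    exact h1
  have hinj : Function.Injective φ := by
    rw [hφ]
    exact Zsqrtd.lift_injective _ (Ha_nsq h4)
  have hsurj : Function.Surjective φ := by
    intro x
    obtain ⟨m, n, h⟩ := Ha_surj hsq h4 hs hF x
    refine ⟨⟨m, n⟩, ?_⟩
    apply FaithfulSMul.algebraMap_injective (𝓞 F) F
    exact (hv _).trans h.symm
  exact ⟨RingEquiv.ofBijective φ ⟨hinj, hsurj⟩, hv⟩

theorem unit_cube {D : ℤ} (hD : D < 0) (hsq : Squarefree D) (h4 : D % 4 = 2) {F : Type}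
    [Field F] [NumberField F] {s : F} (hs : s ^ 2 = (D : F)) (hF : Module.finrank ℚ F = 2)
    (u : (𝓞 F)ˣ) : u ^ 2 = 1 := by
  obtain ⟨e, -⟩ := ring_iso hsq h4 hs hF
  have h1 : IsUnit (e.symm (u : 𝓞 F)) := u.isUnit.map e.symm
  rw [← Zsqrtd.norm_eq_one_iff' hD.le, Zsqrtd.norm_def] at h1
  obtain ⟨z, hz⟩ : ∃ z, z = e.symm (u : 𝓞 F) := ⟨_, rfl⟩
  rw [← hz] at h1
  have h2 : z.im = 0 := by
    by_contra h
    have h3 : 1 ≤ z.im * z.im := by
      have := mul_self_pos.2 h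
      omega
    have h5 : D ≤ -2 := by omega
    nlinarith [mul_self_nonneg z.re]
  have h3 : z * z = 1 := by
    rw [h2, mul_zero, sub_zero] at h1
    refine Zsqrtd.ext ?_ ?_
    · rw [Zsqrtd.re_mul, h2, h1]
      simp
    · rw [Zsqrtd.im_mul, h2]
      simp
  apply Units.ext
  rw [Units.val_pow_eq_pow_val, Units.val_one]
  have h5 : (u : 𝓞 F) = e z := by rw [hz, RingEquiv.apply_symm_apply]
  rw [h5, sq, ← map_mul, h3, map_one]

theorem exists_ideal {F : Type} [Field F] [NumberField F] (hu : ∀ u : (𝓞 F)ˣ, u ^ 2 = 1)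
    (hC : ¬ Cub F) : ∃ (I : Ideal (𝓞 F)) (y : 𝓞 F), y ≠ 0 ∧ I ^ 3 = Ideal.span {y} ∧
      ¬ I.IsPrincipal := by
  unfold Cub at hC
  push Not at hC
  obtain ⟨e, he, hv, hne⟩ := hC
  obtain ⟨y, b, I, hy, hb, hI, hI3, hey⟩ := H55T3.exists_cube_ideal he hv
  refine ⟨I, y, hy, hI3, ?_⟩
  rintro ⟨x, hx⟩
  rw [hx] at hI3
  change Ideal.span {x} ^ 3 = Ideal.span {y} at hI3
  rw [Ideal.span_singleton_pow, Ideal.span_singleton_eq_span_singleton] at hI3
  obtain ⟨u, hu'⟩ := hI3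
  apply hne ((x : F) * ((u : 𝓞 F) : F) * b)
  have h1 : ((u : 𝓞 F)) ^ 2 = 1 := by
    have h2 := congrArg (Units.val) (hu u)
    rwa [Units.val_pow_eq_pow_val, Units.val_one] at h2
  have h2 : ((u : 𝓞 F) : F) ^ 2 = 1 := by
    have h3 := congrArg (algebraMap (𝓞 F) F) h1
    rwa [map_pow, map_one] at h3
  have h3 : (y : F) = (x : F) ^ 3 * ((u : 𝓞 F) : F) := by
    rw [← hu']
    push_cast
    rfl
  rw [hey, h3]
  linear_combination (-(x : F) ^ 3 * ((u : 𝓞 F) : F) * b ^ 3) * h2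

end H38T6
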