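import Pool.Agent.H38.T6.Ha

/-!
Row Hb. (about 190 lines): the lattice.
not CubD D gives F, s with not Cub F (hs, hF). I0, y0 from exists_ideal. n := absNorm I0 > 0 (I0 <> 0). Let e be as in ring_iso, I := the additive subgroup of the z with e z in I0, y := e.symm y0.
 norms: for z in Zsqrtd D: Algebra.norm Z (e z) = z.norm (matrix of the multiplication in the basis 1, s of O_F over Z given by e: det [[re, D im],[im, re]] = re^2 - D im^2), absNorm (span {e z}) = |z.norm| = z.norm (D < 0). So y.norm = absNorm (I0^3) = n^3.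
 a, b, c in I: e (a b c) in I0^3 = (y0), so y divides a b c. a in I with a.norm = n: (e a) is contained in I0 with the same norm n <> 0, so equal (Ideal.absNorm and divisibility: I0 | (e a), (e a) = I0 J, absNorm J = 1, J = 1), I0 principal: contradiction.
 basis: O_F has the Z-basis e (1), e (sqrt D), indexed by Fin 2; I0 (nonzero) has a Z-basis indexed by Fin 2 (Ideal.selfBasis / Ideal.basis: Module.Free of the same rank, e.g. Ideal.selfBasis b I0 hI), and Ideal.natAbs_det_basis_change: |det| = absNorm I0 = n: with a, b the two basis vectors: |a.re b.im - a.im b.re| = n; swap a and b to get the sign.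
-/

set_option autoImplicit false
set_option linter.unusedSectionVars false
open scoped Classical

open IsDedekindDomain NumberField WithZero

namespace H38T6

/-- coordinates of the integers -/
private noncomputable def Hb_phi {D : ℤ} {F : Type} [Field F] [NumberField F]
    (e : Zsqrtd D ≃+* 𝓞 F) : 𝓞 F ≃ₗ[ℤ] (Fin 2 → ℤ) where
  toFun x := ![(e.symm x).re, (e.symm x).im]
  map_add' x y := by
    rw [map_add]
    ext i
    fin_cases i
    · simp
    · simp
  map_smul' m x := by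
    have h1 : e.symm (m • x) = m • e.symm x := map_zsmul e.symm m x
    rw [h1]
    ext i
    fin_cases i
    · simp
    · simp
  invFun v := e ⟨v 0, v 1⟩
  left_inv x := by
    change e ⟨(e.symm x).re, (e.symm x).im⟩ = x
    exact e.apply_symm_apply x
  right_inv v := by
    ext i
    fin_cases i
    · simp
    · simp

private noncomputable def Hb_bas {D : ℤ} {F : Type} [Field F] [NumberField F]
    (e : Zsqrtd D ≃+* 𝓞 F) : Module.Basis (Fin 2) ℤ (𝓞 F) := Module.Basis.ofEquivFun (Hb_phi e)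

private theorem Hb_repr {D : ℤ} {F : Type} [Field F] [NumberField F] (e : Zsqrtd D ≃+* 𝓞 F)
    (x : 𝓞 F) : (Hb_bas e).repr x 0 = (e.symm x).re ∧ (Hb_bas e).repr x 1 = (e.symm x).im := by
  unfold Hb_bas
  rw [Module.Basis.ofEquivFun_repr_apply, Module.Basis.ofEquivFun_repr_apply]
  exact ⟨rfl, rfl⟩

private theorem Hb_b {D : ℤ} {F : Type} [Field F] [NumberField F] (e : Zsqrtd D ≃+* 𝓞 F) :
    Hb_bas e 0 = e ⟨1, 0⟩ ∧ Hb_bas e 1 = e ⟨0, 1⟩ := by
  constructor
  · apply (Hb_bas e).repr.injective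
    rw [Module.Basis.repr_self]
    ext i
    fin_cases i
    · change (Finsupp.single (0 : Fin 2) (1 : ℤ)) 0 = (Hb_bas e).repr (e ⟨1, 0⟩) 0
      rw [(Hb_repr e _).1]
      simp
    · change (Finsupp.single (0 : Fin 2) (1 : ℤ)) 1 = (Hb_bas e).repr (e ⟨1, 0⟩) 1
      rw [(Hb_repr e _).2]
      simp
  · apply (Hb_bas e).repr.injective
    rw [Module.Basis.repr_self]
    ext i
    fin_cases i
    · change (Finsupp.single (1 : Fin 2) (1 : ℤ)) 0 = (Hb_bas e).repr (e ⟨0, 1⟩) 0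
      rw [(Hb_repr e _).1]
      simp
    · change (Finsupp.single (1 : Fin 2) (1 : ℤ)) 1 = (Hb_bas e).repr (e ⟨0, 1⟩) 1
      rw [(Hb_repr e _).2]
      simp

private theorem Hb_norm {D : ℤ} {F : Type} [Field F] [NumberField F] (e : Zsqrtd D ≃+* 𝓞 F)
    (z : Zsqrtd D) : Algebra.norm ℤ (e z) = z.norm := by
  rw [Algebra.norm_eq_matrix_det (Hb_bas e), Matrix.det_fin_two]
  simp only [Algebra.leftMulMatrix_eq_repr_mul, (Hb_b e).1, (Hb_b e).2, ← map_mul,
    (Hb_repr e _).1, (Hb_repr e _).2, RingEquiv.symm_apply_apply, Zsqrtd.norm_def]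
  simp only [Zsqrtd.re_mul, Zsqrtd.im_mul]
  ring

theorem exists_lat {D : ℤ} (hD : D < 0) (hsq : Squarefree D) (h4 : D % 4 = 2) (h : ¬ CubD D) :
    ∃ (I : AddSubgroup (Zsqrtd D)) (y : Zsqrtd D) (n : ℤ), 0 < n ∧ y.norm = n ^ 3 ∧
      (∀ a b c, a ∈ I → b ∈ I → c ∈ I → y ∣ a * b * c) ∧ (∀ a ∈ I, a.norm ≠ n) ∧
      ∃ a b, a ∈ I ∧ b ∈ I ∧ a.re * b.im - a.im * b.re = n := by
  unfold CubD at h
  push Not at h
  obtain ⟨F, hF1, hF2, s, hs, hF, hC⟩ := h
  obtain ⟨e, he⟩ := ring_iso hsq h4 hs hF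
  obtain ⟨I0, y0, hy0, hI3, hnp⟩ := exists_ideal (unit_cube hD hsq h4 hs hF) hC
  have hI0 : I0 ≠ ⊥ := by
    rintro rfl
    apply hnp
    exact bot_isPrincipal
  have hn0 : Ideal.absNorm I0 ≠ 0 := by
    rw [Ne, Ideal.absNorm_eq_zero_iff]
    exact hI0
  have habs : ∀ z : Zsqrtd D, ((Ideal.absNorm (Ideal.span {e z}) : ℕ) : ℤ) = z.norm := by
    intro z
    rw [Ideal.absNorm_span_singleton, Hb_norm, Int.natAbs_of_nonneg (Zsqrtd.norm_nonneg hD.le z)]
  refine ⟨I0.toAddSubgroup.comap (e : Zsqrtd D →+ 𝓞 F), e.symm y0, (Ideal.absNorm I0 : ℤ),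
    by exact_mod_cast Nat.pos_of_ne_zero hn0, ?_, ?_, ?_, ?_⟩
  · rw [← habs, e.apply_symm_apply, ← hI3, map_pow]
    push_cast
    rfl
  · intro a b c ha hb hc
    have ha' : e a ∈ I0 := ha
    have hb' : e b ∈ I0 := hb
    have hc' : e c ∈ I0 := hc
    have h1 : e a * e b * e c ∈ I0 ^ 3 := by
      rw [pow_succ, pow_two]
      exact Ideal.mul_mem_mul (Ideal.mul_mem_mul ha' hb') hc'
    rw [hI3, Ideal.mem_span_singleton] at h1
    have h2 := map_dvd e.symm h1
    rw [← map_mul, ← map_mul, e.symm_apply_apply] at h2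
    exact h2
  · intro a ha hna
    have ha' : e a ∈ I0 := ha
    obtain ⟨J, hJ⟩ := Ideal.dvd_span_singleton.2 ha'
    have h1 : Ideal.absNorm (Ideal.span {e a}) = Ideal.absNorm I0 := by
      have h2 := habs a
      rw [hna] at h2
      exact_mod_cast h2
    rw [hJ, map_mul] at h1
    have h3 : Ideal.absNorm J = 1 := by
      have h4 : Ideal.absNorm I0 * Ideal.absNorm J = Ideal.absNorm I0 * 1 := by rw [h1, mul_one]
      exact Nat.eq_of_mul_eq_mul_left (Nat.pos_of_ne_zero hn0) h4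
    rw [Ideal.absNorm_eq_one_iff] at h3
    rw [h3, Ideal.mul_top] at hJ
    exact hnp ⟨⟨e a, hJ.symm⟩⟩
  · have hdet := Ideal.natAbs_det_basis_change (Hb_bas e) I0 (Ideal.selfBasis (Hb_bas e) I0 hI0)
    obtain ⟨v, hv⟩ : ∃ v, v = Ideal.selfBasis (Hb_bas e) I0 hI0 := ⟨_, rfl⟩
    rw [← hv] at hdet
    have hd : (Hb_bas e).det (Subtype.val ∘ ⇑v) =
        (e.symm (v 0 : 𝓞 F)).re * (e.symm (v 1 : 𝓞 F)).im -
          (e.symm (v 1 : 𝓞 F)).re * (e.symm (v 0 : 𝓞 F)).im := by
      rw [Module.Basis.det_apply, Matrix.det_fin_two]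
      simp only [Module.Basis.toMatrix_apply, Function.comp_apply, (Hb_repr e _).1,
        (Hb_repr e _).2]
    have h0 : e.symm (v 0 : 𝓞 F) ∈ I0.toAddSubgroup.comap (e : Zsqrtd D →+ 𝓞 F) := by
      change e (e.symm (v 0 : 𝓞 F)) ∈ I0
      rw [e.apply_symm_apply]
      exact (v 0).2
    have h1 : e.symm (v 1 : 𝓞 F) ∈ I0.toAddSubgroup.comap (e : Zsqrtd D →+ 𝓞 F) := by
      change e (e.symm (v 1 : 𝓞 F)) ∈ I0
      rw [e.apply_symm_apply]
      exact (v 1).2
    rw [hd] at hdet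
    rcases Int.natAbs_eq_iff.1 hdet with h2 | h2
    · refine ⟨_, _, h0, h1, ?_⟩
      rw [← h2]
      ring
    · refine ⟨_, _, h1, h0, ?_⟩
      linarith

end H38T6
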