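import Pool.Agent.H38.T6.Def0

/-!
Row Hc. (about 200 lines): the cubic forms of a lattice. Write f_i = (b_i).im, al_i = (b_i).re, conj for the conjugation of Zsqrtd.
form_id: y <> 0, Zsqrtd D is a domain (D < 0: norm; the instance may need D not a square; one may compute in Zsqrtd with norms only). From y^2 b0 b2 = a^4 b^2 = y^2 b1^2: b0 b2 = b1^2, similarly b0 b3 = b1 b2, b1 b3 = b2^2. Real part of b0 b2 = b1^2: al0 al2 + D f0 f2 = al1^2 + D f1^2. So b0 conj b2 + conj b0 b2 - 2 b1 conj b1 = 2 (al0 al2 - D f0 f2) - 2 (al1^2 - D f1^2) = 4 D (f1^2 - f0 f2). Multiply by y conj y = n^3: (y b0) conj(y b2) + cc - 2 |y b1|^2 = a^3 conj(a b^2) + cc - 2 N(a^2 b) = N(a) (a conj b - conj a b)^2 = N(a) 4 D det^2 = 4 D n^2 N(a), det := a.re b.im - a.im b.re. Hence (f1^2 - f0 f2) n = N(a). The same for b: (f2^2 - f1 f3) n = N(b). For the middle: b0 b3 = b1 b2: b0 conj b3 + cc - b1 conj b2 -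 cc = 4 D (f1 f2 - f0 f3), times n^3: with Q = a conj b: Q^3 + conj Q^3 - Q conj Q (Q + conj Q) = (Q + conj Q)(Q - conj Q)^2 = (Q + conj Q) 4 D n^2; so (f1 f2 - f0 f3) n = Q + conj Q = 2 (a.re b.re - D a.im b.im).
 Then n^2 Dl = 4 N(a) N(b) - (Q + conj Q)^2 = -(Q - conj Q)^2 = -4 D det^2 = -4 D n^2.
Structure Att: the data. att_dl: form_id. att_hess: form_id. att_ne: if f0 = 0: Dl 0 b c d = b^2 (3 c^2 - 4 b d) = -4 D, i.e. b^2 (4 b d - 3 c^2) = 4 D. If b is even, b = 2 b': b'^2 (8 b' d - 3 c^2) = D, squarefree: b' = 1 or -1, D = +-8 d - 3 c^2, D even, so c even, 4 | D: contradiction to D % 4 = 2. If b is odd: b^2 | 4 D, coprime to 4, b^2 | D, b = 1 or -1, so f1^2 - f0 f2 = 1 and N(a) = n (att_hess): contradiction to hI4.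
 att_tr (b -> b + k a), att_neg (a -> -a), att_rev (swap): expand the products; det changes at most by sign.
 att_min: among the pairs (a, b) in I with det^2 = n^2 choose one with N(a) minimal (natural number N(a).toNat; the set of pairs is nonempty by hI5). N(a) > 0 (det <> 0). Let k be the nearest integer to -Q/(2 N a) where Q := 2 (a.re b.re - D a.im b.im) = trace of a conj b: replacing b by b + k a changes Q by 2 k N(a): so we may assume |Q| <= N(a). Then (b, a) is a pair, N(b) >= N(a) by minimality. 4 N(a) N(b) - Q^2 = -4 D n^2, so 3 N(a)^2 <= -4 D n^2; with N(a) = n (f1^2 - f0 f2): 3 (f1^2 - f0 f2)^2 <= -4 D.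
-/

/-!
Row Hc. (about 200 lines): the cubic forms of a lattice. Write f_i = (b_i).im, al_i = (b_i).re, conj for the conjugation of Zsqrtd.
form_id: y <> 0, Zsqrtd D is a domain (D < 0: norm; the instance may need D not a square; one may compute in Zsqrtd with norms only). From y^2 b0 b2 = a^4 b^2 = y^2 b1^2: b0 b2 = b1^2, similarly b0 b3 = b1 b2, b1 b3 = b2^2. Real part of b0 b2 = b1^2: al0 al2 + D f0 f2 = al1^2 + D f1^2. So b0 conj b2 + conj b0 b2 - 2 b1 conj b1 = 2 (al0 al2 - D f0 f2) - 2 (al1^2 - D f1^2) = 4 D (f1^2 - f0 f2). Multiply by y conj y = n^3: (y b0) conj(y b2) + cc - 2 |y b1|^2 = a^3 conj(a b^2) + cc - 2 N(a^2 b) = N(a) (a conj b - conj a b)^2 = N(a) 4 D det^2 = 4 D n^2 N(a), det := a.re b.im - a.im b.re. Hence (f1^2 - f0 f2) n = N(a). The same for b: (f2^2 - f1 f3) n = N(b). For the middle: b0 b3 = b1 b2: b0 conj b3 + cc - b1 conj b2 - cc = 4 D (f1 f2 - f0 f3),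 times n^3: with Q = a conj b: Q^3 + conj Q^3 - Q conj Q (Q + conj Q) = (Q + conj Q)(Q - conj Q)^2 = (Q + conj Q) 4 D n^2; so (f1 f2 - f0 f3) n = Q + conj Q = 2 (a.re b.re - D a.im b.im).
 Then n^2 Dl = 4 N(a) N(b) - (Q + conj Q)^2 = -(Q - conj Q)^2 = -4 D det^2 = -4 D n^2.
-/

set_option autoImplicit false
set_option linter.unusedSectionVars false
open scoped Classical

open IsDedekindDomain NumberField WithZero

namespace H38T6

/-- the lattice data -/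
structure Lat (D : ℤ) (I : AddSubgroup (Zsqrtd D)) (y : Zsqrtd D) (n : ℤ) : Prop where
  neg : D < 0
  sqf : Squarefree D
  four : D % 4 = 2
  pos : 0 < n
  norm : y.norm = n ^ 3
  cub : ∀ a b c, a ∈ I → b ∈ I → c ∈ I → y ∣ a * b * c
  notp : ∀ a ∈ I, a.norm ≠ n
  bas : ∃ a b, a ∈ I ∧ b ∈ I ∧ a.re * b.im - a.im * b.re = n

/-- the form of the pair `(a, b)` -/
def Att {D : ℤ} (I : AddSubgroup (Zsqrtd D)) (y : Zsqrtd D) (n : ℤ) (f₀ f₁ f₂ f₃ : ℤ) : Prop :=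
  ∃ a b b₀ b₁ b₂ b₃ : Zsqrtd D, a ∈ I ∧ b ∈ I ∧ (a.re * b.im - a.im * b.re) ^ 2 = n ^ 2 ∧
    a * a * a = y * b₀ ∧ a * a * b = y * b₁ ∧ a * b * b = y * b₂ ∧ b * b * b = y * b₃ ∧
    b₀.im = f₀ ∧ b₁.im = f₁ ∧ b₂.im = f₂ ∧ b₃.im = f₃

theorem Hc_cancel {D : ℤ} (hD : D < 0) {y u v : Zsqrtd D} (hy : y.norm ≠ 0)
    (h : y * u = y * v) : u = v := by
  have h1 : y * (u - v) = 0 := by rw [mul_sub, h, sub_self]
  have h2 : y.norm * (u - v).norm = 0 := by rw [← Zsqrtd.norm_mul, h1, Zsqrtd.norm_zero]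
  have h3 := (mul_eq_zero.1 h2).resolve_left hy
  exact sub_eq_zero.1 ((Zsqrtd.norm_eq_zero_iff hD _).1 h3)

/-- the real part of `u conj v` -/
def Hc_ip {D : ℤ} (u v : Zsqrtd D) : ℤ := u.re * v.re - D * u.im * v.im

theorem Hc_ip_mul {D : ℤ} (y u v : Zsqrtd D) :
    Hc_ip (y * u) (y * v) = y.norm * Hc_ip u v := by
  unfold Hc_ip
  simp only [Zsqrtd.norm_def, Zsqrtd.re_mul, Zsqrtd.im_mul]
  ring

theorem Hc_one {D : ℤ} (hD : D < 0) {y a b b₀ b₁ b₂ : Zsqrtd D} {n : ℤ} (hn : 0 < n)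
    (hy : y.norm = n ^ 3) (hdet : (a.re * b.im - a.im * b.re) ^ 2 = n ^ 2)
    (h0 : a * a * a = y * b₀) (h1 : a * a * b = y * b₁) (h2 : a * b * b = y * b₂) :
    (b₁.im ^ 2 - b₀.im * b₂.im) * n = a.norm := by
  have hyn : y.norm ≠ 0 := by
    rw [hy]
    exact pow_ne_zero _ hn.ne'
  have e1 : b₀ * b₂ = b₁ * b₁ := by
    apply Hc_cancel hD hyn
    apply Hc_cancel hD hyn
    calc y * (y * (b₀ * b₂)) = (y * b₀) * (y * b₂) := by ring
      _ = (y * b₁) * (y * b₁) := by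
        rw [← h0, ← h2, ← h1]
        ring
      _ = y * (y * (b₁ * b₁)) := by ring
  have e2 := congrArg Zsqrtd.re e1
  rw [Zsqrtd.re_mul, Zsqrtd.re_mul] at e2
  have e3 : Hc_ip b₀ b₂ - Hc_ip b₁ b₁ = 2 * D * (b₁.im ^ 2 - b₀.im * b₂.im) := by
    unfold Hc_ip
    linear_combination e2
  have e4 : n ^ 3 * (Hc_ip b₀ b₂ - Hc_ip b₁ b₁) = a.norm * (2 * D * n ^ 2) := by
    calc n ^ 3 * (Hc_ip b₀ b₂ - Hc_ip b₁ b₁) =
          Hc_ip (y * b₀) (y * b₂) - Hc_ip (y * b₁) (y * b₁) := by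
          rw [Hc_ip_mul, Hc_ip_mul, hy]
          ring
      _ = Hc_ip (a * a * a) (a * b * b) - Hc_ip (a * a * b) (a * a * b) := by rw [h0, h1, h2]
      _ = a.norm * (2 * D * (a.re * b.im - a.im * b.re) ^ 2) := by
          unfold Hc_ip
          simp only [Zsqrtd.norm_def, Zsqrtd.re_mul, Zsqrtd.im_mul]
          ring
      _ = a.norm * (2 * D * n ^ 2) := by rw [hdet]
  have h2D : 2 * D * n ^ 2 ≠ 0 := mul_ne_zero (mul_ne_zero two_ne_zero hD.ne) (pow_ne_zero _ hn.ne')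
  apply mul_left_cancel₀ h2D
  rw [e3] at e4
  linear_combination e4

theorem Hc_two {D : ℤ} (hD : D < 0) {y a b b₀ b₁ b₂ b₃ : Zsqrtd D} {n : ℤ} (hn : 0 < n)
    (hy : y.norm = n ^ 3) (hdet : (a.re * b.im - a.im * b.re) ^ 2 = n ^ 2)
    (h0 : a * a * a = y * b₀) (h1 : a * a * b = y * b₁) (h2 : a * b * b = y * b₂)
    (h3 : b * b * b = y * b₃) :
    (b₁.im * b₂.im - b₀.im * b₃.im) * n = 2 * (a.re * b.re - D * a.im * b.im) := by
  have hyn : y.norm ≠ 0 := by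
    rw [hy]
    exact pow_ne_zero _ hn.ne'
  have e1 : b₀ * b₃ = b₁ * b₂ := by
    apply Hc_cancel hD hyn
    apply Hc_cancel hD hyn
    calc y * (y * (b₀ * b₃)) = (y * b₀) * (y * b₃) := by ring
      _ = (y * b₁) * (y * b₂) := by
        rw [← h0, ← h2, ← h1, ← h3]
        ring
      _ = y * (y * (b₁ * b₂)) := by ring
  have e2 := congrArg Zsqrtd.re e1
  rw [Zsqrtd.re_mul, Zsqrtd.re_mul] at e2
  have e3 : Hc_ip b₀ b₃ - Hc_ip b₁ b₂ = 2 * D * (b₁.im * b₂.im - b₀.im * b₃.im) := by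
    unfold Hc_ip
    linear_combination e2
  have e4 : n ^ 3 * (Hc_ip b₀ b₃ - Hc_ip b₁ b₂) =
      (a.re * b.re - D * a.im * b.im) * (4 * D * n ^ 2) := by
    calc n ^ 3 * (Hc_ip b₀ b₃ - Hc_ip b₁ b₂) =
          Hc_ip (y * b₀) (y * b₃) - Hc_ip (y * b₁) (y * b₂) := by
          rw [Hc_ip_mul, Hc_ip_mul, hy]
          ring
      _ = Hc_ip (a * a * a) (b * b * b) - Hc_ip (a * a * b) (a * b * b) := by
          rw [h0, h1, h2, h3]
      _ = (a.re * b.re - D * a.im * b.im) * (4 * D * (a.re * b.im - a.im * b.re) ^ 2) := by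
          unfold Hc_ip
          simp only [Zsqrtd.re_mul, Zsqrtd.im_mul]
          ring
      _ = (a.re * b.re - D * a.im * b.im) * (4 * D * n ^ 2) := by rw [hdet]
  have h2D : 2 * D * n ^ 2 ≠ 0 := mul_ne_zero (mul_ne_zero two_ne_zero hD.ne) (pow_ne_zero _ hn.ne')
  apply mul_left_cancel₀ h2D
  rw [e3] at e4
  linear_combination e4

theorem Hc_nn {D : ℤ} (a b : Zsqrtd D) : a.norm * b.norm =
    (a.re * b.re - D * a.im * b.im) ^ 2 - D * (a.re * b.im - a.im * b.re) ^ 2 := by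
  simp only [Zsqrtd.norm_def]
  ring

theorem form_id {D : ℤ} (hD : D < 0) {y a b b₀ b₁ b₂ b₃ : Zsqrtd D} {n : ℤ} (hn : 0 < n)
    (hy : y.norm = n ^ 3) (hdet : (a.re * b.im - a.im * b.re) ^ 2 = n ^ 2)
    (h0 : a * a * a = y * b₀) (h1 : a * a * b = y * b₁) (h2 : a * b * b = y * b₂)
    (h3 : b * b * b = y * b₃) :
    (b₁.im ^ 2 - b₀.im * b₂.im) * n = a.norm ∧ (b₂.im ^ 2 - b₁.im * b₃.im) * n = b.norm ∧
      (b₁.im * b₂.im - b₀.im * b₃.im) * n = 2 * (a.re * b.re - D * a.im * b.im) ∧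
      Dl b₀.im b₁.im b₂.im b₃.im = -4 * D := by
  have k1 := Hc_one hD hn hy hdet h0 h1 h2
  have k3 := Hc_two hD hn hy hdet h0 h1 h2 h3
  have k2 : (b₂.im ^ 2 - b₃.im * b₁.im) * n = b.norm := by
    refine Hc_one hD hn hy (a := b) (b := a) ?_ h3 ?_ ?_
    · rw [← hdet]
      ring
    · rw [← h2]
      ring
    · rw [← h1]
      ring
  refine ⟨k1, by rw [← k2]; ring, k3, ?_⟩
  have hn2 : n ^ 2 ≠ 0 := pow_ne_zero _ hn.ne'
  apply mul_left_cancel₀ hn2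
  unfold Dl
  have e := Hc_nn a b
  rw [hdet, ← k1, ← k2] at e
  linear_combination 4 * e - ((b₁.im * b₂.im - b₀.im * b₃.im) * n +
    2 * (a.re * b.re - D * a.im * b.im)) * k3

section

variable {D n : ℤ} {I : AddSubgroup (Zsqrtd D)} {y : Zsqrtd D} {f₀ f₁ f₂ f₃ : ℤ}

theorem att_dl (L : Lat D I y n) (h : Att I y n f₀ f₁ f₂ f₃) : Dl f₀ f₁ f₂ f₃ = -4 * D := by
  obtain ⟨a, b, b₀, b₁, b₂, b₃, ha, hb, hdet, h0, h1, h2, h3, rfl, rfl, rfl, rfl⟩ := h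
  exact (form_id L.neg L.pos L.norm hdet h0 h1 h2 h3).2.2.2

theorem att_ne (L : Lat D I y n) (h : Att I y n f₀ f₁ f₂ f₃) : f₀ ≠ 0 := by
  intro h00
  have hdl := att_dl L h
  obtain ⟨a, b, b₀, b₁, b₂, b₃, ha, hb, hdet, h0, h1, h2, h3, rfl, rfl, rfl, rfl⟩ := h
  have k1 := (form_id L.neg L.pos L.norm hdet h0 h1 h2 h3).1
  rw [h00] at k1 hdl
  unfold Dl at hdl
  rcases Int.even_or_odd b₁.im with he | ho
  · obtain ⟨t, ht⟩ := he
    rw [ht] at hdl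
    have e1 : t * t * (8 * t * b₃.im - 3 * b₂.im ^ 2) = D := by
      have : 4 * (t * t * (8 * t * b₃.im - 3 * b₂.im ^ 2)) = 4 * D := by
        linear_combination -hdl
      linarith
    have e2 : IsUnit t := L.sqf t ⟨_, e1.symm⟩
    have e3 : t * t = 1 := by
      rcases Int.isUnit_iff.1 e2 with h | h <;> rw [h] <;> norm_num
    rw [e3, one_mul] at e1
    have hD4 := L.four
    rcases Int.even_or_odd b₂.im with hc | hc
    · obtain ⟨c, hc⟩ := hc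
      have e4 : D = 4 * (2 * t * b₃.im - 3 * c ^ 2) := e1.symm.trans (by
        rw [hc]
        ring)
      omega
    · obtain ⟨c, hc⟩ := hc
      have e4 : D = 2 * (4 * t * b₃.im - 6 * c ^ 2 - 6 * c - 2) + 1 := e1.symm.trans (by
        rw [hc]
        ring)
      omega
  · have e1 : b₁.im * b₁.im ∣ D := by
      have e2 : b₁.im * b₁.im ∣ 4 * D := ⟨4 * b₁.im * b₃.im - 3 * b₂.im ^ 2, by
        linear_combination hdl⟩
      have e3 : IsCoprime b₁.im 4 := by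
        obtain ⟨c, hc⟩ := ho
        have h2 : IsCoprime b₁.im 2 := ⟨1, -c, by rw [hc]; ring⟩
        have h4 : (4 : ℤ) = 2 * 2 := by norm_num
        rw [h4]
        exact h2.mul_right h2
      exact (e3.mul_left e3).dvd_of_dvd_mul_left e2
    have e2 : IsUnit b₁.im := L.sqf _ e1
    have e3 : b₁.im ^ 2 = 1 := by
      rcases Int.isUnit_iff.1 e2 with h | h <;> rw [h] <;> norm_num
    rw [e3, zero_mul, sub_zero, one_mul] at k1
    exact L.notp a ha k1.symm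

theorem att_tr (h : Att I y n f₀ f₁ f₂ f₃) (k : ℤ) :
    Att I y n f₀ (f₁ + k * f₀) (f₂ + 2 * k * f₁ + k ^ 2 * f₀)
      (f₃ + 3 * k * f₂ + 3 * k ^ 2 * f₁ + k ^ 3 * f₀) := by
  obtain ⟨a, b, b₀, b₁, b₂, b₃, ha, hb, hdet, h0, h1, h2, h3, rfl, rfl, rfl, rfl⟩ := h
  have hmul : ∀ (m : ℤ) (z : Zsqrtd D), ((m : Zsqrtd D) * z).im = m * z.im := by
    intro m z
    simp
  have hmulr : ∀ (m : ℤ) (z : Zsqrtd D), ((m : Zsqrtd D) * z).re = m * z.re := by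
    intro m z
    simp
  refine ⟨a, b + (k : Zsqrtd D) * a, b₀, b₁ + (k : Zsqrtd D) * b₀,
    b₂ + ((2 * k : ℤ) : Zsqrtd D) * b₁ + ((k ^ 2 : ℤ) : Zsqrtd D) * b₀,
    b₃ + ((3 * k : ℤ) : Zsqrtd D) * b₂ + ((3 * k ^ 2 : ℤ) : Zsqrtd D) * b₁ +
      ((k ^ 3 : ℤ) : Zsqrtd D) * b₀, ha, ?_, ?_, h0, ?_, ?_, ?_, rfl, ?_, ?_, ?_⟩
  · refine I.add_mem hb ?_
    rw [← zsmul_eq_mul]
    exact I.zsmul_mem ha k
  · rw [Zsqrtd.im_add, Zsqrtd.re_add, hmul, hmulr, ← hdet]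
    ring
  · linear_combination h1 + (k : Zsqrtd D) * h0
  · push_cast
    linear_combination h2 + 2 * (k : Zsqrtd D) * h1 + (k : Zsqrtd D) ^ 2 * h0
  · push_cast
    linear_combination h3 + 3 * (k : Zsqrtd D) * h2 + 3 * (k : Zsqrtd D) ^ 2 * h1 +
      (k : Zsqrtd D) ^ 3 * h0
  · rw [Zsqrtd.im_add, hmul]
  · rw [Zsqrtd.im_add, Zsqrtd.im_add, hmul, hmul]
  · rw [Zsqrtd.im_add, Zsqrtd.im_add, Zsqrtd.im_add, hmul, hmul, hmul]

theorem att_neg (h : Att I y n f₀ f₁ f₂ f₃) : Att I y n (-f₀) f₁ (-f₂) f₃ := by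
  obtain ⟨a, b, b₀, b₁, b₂, b₃, ha, hb, hdet, h0, h1, h2, h3, rfl, rfl, rfl, rfl⟩ := h
  refine ⟨-a, b, -b₀, b₁, -b₂, b₃, I.neg_mem ha, hb, ?_, ?_, ?_, ?_, h3, ?_, rfl, ?_, rfl⟩
  · rw [Zsqrtd.im_neg, Zsqrtd.re_neg, ← hdet]
    ring
  · linear_combination -h0
  · linear_combination h1
  · linear_combination -h2
  · rw [Zsqrtd.im_neg]
  · rw [Zsqrtd.im_neg]

theorem att_rev (h : Att I y n f₀ f₁ f₂ f₃) : Att I y n f₃ f₂ f₁ f₀ := by
  obtain ⟨a, b, b₀, b₁, b₂, b₃, ha, hb, hdet, h0, h1, h2, h3, rfl, rfl, rfl, rfl⟩ := h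
  refine ⟨b, a, b₃, b₂, b₁, b₀, hb, ha, ?_, h3, ?_, ?_, h0, rfl, rfl, rfl, rfl⟩
  · rw [← hdet]
    ring
  · linear_combination h2
  · linear_combination h1

theorem Hc_near (x A : ℤ) (hA : 0 < A) : ∃ k : ℤ, (2 * (x + k * A)) ^ 2 ≤ A ^ 2 := by
  have h1 := Int.emod_nonneg x hA.ne'
  have h2 := Int.emod_lt_of_pos x hA
  have h3 := Int.emod_add_mul_ediv x A
  by_cases h : 2 * (x % A) ≤ A
  · refine ⟨-(x / A), ?_⟩
    have e : x + -(x / A) * A = x % A := by linear_combination -h3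
    rw [e]
    exact pow_le_pow_left₀ (by omega) h 2
  · refine ⟨-(x / A) - 1, ?_⟩
    have e : x + (-(x / A) - 1) * A = x % A - A := by linear_combination -h3
    rw [e]
    have e2 : (2 * (x % A - A)) ^ 2 = (2 * A - 2 * (x % A)) ^ 2 := by ring
    rw [e2]
    exact pow_le_pow_left₀ (by omega) (by omega) 2

theorem att_min (L : Lat D I y n) : ∃ f₀ f₁ f₂ f₃ : ℤ, Att I y n f₀ f₁ f₂ f₃ ∧
    3 * (f₁ ^ 2 - f₀ * f₂) ^ 2 ≤ -4 * D := by
  have hn := L.pos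
  have hex : ∃ m : ℕ, ∃ a b : Zsqrtd D, a ∈ I ∧ b ∈ I ∧
      (a.re * b.im - a.im * b.re) ^ 2 = n ^ 2 ∧ a.norm.toNat = m := by
    obtain ⟨a, b, ha, hb, hab⟩ := L.bas
    exact ⟨_, a, b, ha, hb, by rw [hab], rfl⟩
  obtain ⟨a, b, ha, hb, hdet, hm⟩ := Nat.find_spec hex
  have hmin : ∀ c d : Zsqrtd D, c ∈ I → d ∈ I → (c.re * d.im - c.im * d.re) ^ 2 = n ^ 2 →
      a.norm ≤ c.norm := by
    intro c d hc hd hcd
    have h1 := Nat.find_min' hex ⟨c, d, hc, hd, hcd, rfl⟩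
    rw [← hm] at h1
    have h2 := Zsqrtd.norm_nonneg L.neg.le c
    have h3 := Zsqrtd.norm_nonneg L.neg.le a
    omega
  have hA : 0 < a.norm := by
    refine lt_of_le_of_ne (Zsqrtd.norm_nonneg L.neg.le a) fun h => ?_
    have h0 := (Zsqrtd.norm_eq_zero_iff L.neg a).1 h.symm
    rw [h0, Zsqrtd.re_zero, Zsqrtd.im_zero, zero_mul, zero_mul, sub_zero] at hdet
    have h1 : 0 < n ^ 2 := pow_pos hn 2
    rw [← hdet] at h1
    norm_num at h1
  obtain ⟨b₀, h0⟩ := L.cub a a a ha ha ha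
  obtain ⟨b₁, h1⟩ := L.cub a a b ha ha hb
  obtain ⟨b₂, h2⟩ := L.cub a b b ha hb hb
  obtain ⟨b₃, h3⟩ := L.cub b b b hb hb hb
  refine ⟨_, _, _, _, ⟨a, b, b₀, b₁, b₂, b₃, ha, hb, hdet, h0, h1, h2, h3, rfl, rfl, rfl, rfl⟩,
    ?_⟩
  have k1 := Hc_one L.neg hn L.norm hdet h0 h1 h2
  obtain ⟨k, hk⟩ := Hc_near (a.re * b.re - D * a.im * b.im) a.norm hA
  have hmul : ∀ (m : ℤ) (z : Zsqrtd D), ((m : Zsqrtd D) * z).im = m * z.im := by
    intro m z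
    simp
  have hmulr : ∀ (m : ℤ) (z : Zsqrtd D), ((m : Zsqrtd D) * z).re = m * z.re := by
    intro m z
    simp
  have hb' : b + (k : Zsqrtd D) * a ∈ I := by
    refine I.add_mem hb ?_
    rw [← zsmul_eq_mul]
    exact I.zsmul_mem ha k
  have hdet' : (a.re * (b + (k : Zsqrtd D) * a).im - a.im * (b + (k : Zsqrtd D) * a).re) ^ 2 =
      n ^ 2 := by
    rw [Zsqrtd.im_add, Zsqrtd.re_add, hmul, hmulr, ← hdet]
    ring
  have hle := hmin _ a hb' ha (by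
    rw [← hdet']
    ring)
  have e := Hc_nn a (b + (k : Zsqrtd D) * a)
  rw [hdet'] at e
  have hx : a.re * (b + (k : Zsqrtd D) * a).re - D * a.im * (b + (k : Zsqrtd D) * a).im =
      a.re * b.re - D * a.im * b.im + k * a.norm := by
    rw [Zsqrtd.im_add, Zsqrtd.re_add, hmul, hmulr, Zsqrtd.norm_def]
    ring
  rw [hx] at e
  have e1 : a.norm * a.norm ≤ a.norm * (b + (k : Zsqrtd D) * a).norm :=
    mul_le_mul_of_nonneg_left hle hA.le
  have e2 : 3 * a.norm ^ 2 ≤ -4 * D * n ^ 2 := by nlinarith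
  rw [← k1] at e2
  have hn2 : 0 < n ^ 2 := pow_pos hn 2
  have e3 : (3 * (b₁.im ^ 2 - b₀.im * b₂.im) ^ 2) * n ^ 2 ≤ (-4 * D) * n ^ 2 := by
    calc (3 * (b₁.im ^ 2 - b₀.im * b₂.im) ^ 2) * n ^ 2 =
        3 * ((b₁.im ^ 2 - b₀.im * b₂.im) * n) ^ 2 := by ring
      _ ≤ _ := e2
  exact le_of_mul_le_mul_right e3 hn2

end

end H38T6
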