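import Pool.Agent.H38.T6.Hb
import Pool.Agent.H38.T6.Hc

/-!
Row Hd. (about 110 lines): two normalised forms.
att_min: f with 3 A^2 <= -4 D, A := f1^2 - f0 f2. f0 <> 0 (att_ne); if f0 < 0 use att_neg (A is unchanged: f1^2 - (-f0)(-f2)). Then att_tr with k := -(f1 / f0) (floor): 0 <= f1 < f0 (Int.emod), A unchanged: (f1 + k f0)^2 - f0 (f2 + 2 k f1 + k^2 f0) = A. So f is Frm (-4 D) with att_dl.
 Second form: apply att_neg and then negate b: from f: (a, -b): (f0, -f1, f2, -f3) (this is att_neg for the reversed pair: att_rev, att_neg, att_rev gives (f0, -f1, f2, -f3)). Case f1 > 0: att_tr with k = 1: g = (f0, f0 - f1, f0 - 2 f1 + f2, f0 - 3 f1 + 3 f2 - f3), 0 <= f0 - f1 < f0, A unchanged: Frm. Case f1 = 0: g = (f0, 0, f2, -f3).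
 f <> g: case f1 = 0: f3 = -f3 means f3 = 0, but f3 <> 0 by att_rev and att_ne. Case f1 > 0: f = g gives f0 = 2 f1 and 2 f3 = f0 - 3 f1 + 3 f2 = 3 f2 - f1. Then the value of the form at (1, -2): f0 - 6 f1 + 12 f2 - 8 f3 = 2 f1 - 6 f1 + 12 f2 - 4 (3 f2 - f1) = 0; but by att_rev, att_tr (k = -2), the last coefficient f0 + 3 k f1 + 3 k^2 f2 + k^3 f3 = f0 - 6 f1 + 12 f2 - 8 f3 is the leading coefficient after att_rev: nonzero by att_ne. Contradiction.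
-/

set_option autoImplicit false
set_option linter.unusedSectionVars false
open scoped Classical

open IsDedekindDomain NumberField WithZero

namespace H38T6

theorem Hd_norm {D n : ℤ} {I : AddSubgroup (Zsqrtd D)} {y : Zsqrtd D} (L : Lat D I y n) :
    ∃ f₀ f₁ f₂ f₃ : ℤ, Att I y n f₀ f₁ f₂ f₃ ∧ 1 ≤ f₀ ∧ 0 ≤ f₁ ∧ f₁ < f₀ ∧
      3 * (f₁ ^ 2 - f₀ * f₂) ^ 2 ≤ -4 * D := by
  obtain ⟨f₀, f₁, f₂, f₃, hA, hm⟩ := att_min L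
  have key : ∀ f₀ f₁ f₂ f₃ : ℤ, Att I y n f₀ f₁ f₂ f₃ → 0 < f₀ →
      3 * (f₁ ^ 2 - f₀ * f₂) ^ 2 ≤ -4 * D → ∃ f₀ f₁ f₂ f₃ : ℤ, Att I y n f₀ f₁ f₂ f₃ ∧ 1 ≤ f₀ ∧
        0 ≤ f₁ ∧ f₁ < f₀ ∧ 3 * (f₁ ^ 2 - f₀ * f₂) ^ 2 ≤ -4 * D := by
    intro f₀ f₁ f₂ f₃ hA h0 hm
    have h1 := Int.emod_nonneg f₁ h0.ne'
    have h2 := Int.emod_lt_of_pos f₁ h0
    have h3 := Int.emod_add_mul_ediv f₁ f₀
    have e : f₁ + -(f₁ / f₀) * f₀ = f₁ % f₀ := by linear_combination -h3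
    refine ⟨_, _, _, _, att_tr hA (-(f₁ / f₀)), h0, by rw [e]; exact h1, by rw [e]; exact h2, ?_⟩
    have e2 : (f₁ + -(f₁ / f₀) * f₀) ^ 2 -
        f₀ * (f₂ + 2 * -(f₁ / f₀) * f₁ + (-(f₁ / f₀)) ^ 2 * f₀) = f₁ ^ 2 - f₀ * f₂ := by ring
    rw [e2]
    exact hm
  rcases lt_trichotomy f₀ 0 with h0 | h0 | h0
  · refine key _ _ _ _ (att_neg hA) (by omega) ?_
    have e : f₁ ^ 2 - -f₀ * -f₂ = f₁ ^ 2 - f₀ * f₂ := by ring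
    rw [e]
    exact hm
  · exact absurd h0 (att_ne L hA)
  · exact key _ _ _ _ hA h0 hm

theorem two_forms {D : ℤ} (hD : D < 0) (hsq : Squarefree D) (h4 : D % 4 = 2) (h : ¬ CubD D) :
    ∃ f g : Fin 4 → ℤ, f ≠ g ∧ Frm (-4 * D) (f 0) (f 1) (f 2) (f 3) ∧
      Frm (-4 * D) (g 0) (g 1) (g 2) (g 3) := by
  obtain ⟨I, y, n, hn, hy, hcub, hnp, hbas⟩ := exists_lat hD hsq h4 h
  have L : Lat D I y n := ⟨hD, hsq, h4, hn, hy, hcub, hnp, hbas⟩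
  obtain ⟨f₀, f₁, f₂, f₃, hA, h0, h1, h2, hm⟩ := Hd_norm L
  have hB : Att I y n f₀ (-f₁) f₂ (-f₃) := by
    have k := att_rev (att_neg (att_rev hA))
    exact k
  have hF : Frm (-4 * D) f₀ f₁ f₂ f₃ := ⟨h0, h1, h2, hm, att_dl L hA⟩
  rcases h1.eq_or_lt with h10 | h10
  · subst h10
    refine ⟨![f₀, 0, f₂, f₃], ![f₀, 0, f₂, -f₃], ?_, hF, ?_⟩
    · intro hfg
      have e : f₃ = -f₃ := congrFun hfg 3
      exact att_ne L (att_rev hA) (by omega)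
    · rw [neg_zero] at hB
      exact ⟨h0, h1, h2, hm, att_dl L hB⟩
  · have hC := att_tr hB 1
    refine ⟨![f₀, f₁, f₂, f₃], ![f₀, -f₁ + 1 * f₀, f₂ + 2 * 1 * -f₁ + 1 ^ 2 * f₀,
      -f₃ + 3 * 1 * f₂ + 3 * 1 ^ 2 * -f₁ + 1 ^ 3 * f₀], ?_, hF, ?_⟩
    · intro hfg
      have e1 : f₁ = -f₁ + 1 * f₀ := congrFun hfg 1
      have e3 : f₃ = -f₃ + 3 * 1 * f₂ + 3 * 1 ^ 2 * -f₁ + 1 ^ 3 * f₀ := congrFun hfg 3
      apply att_ne L (att_rev (att_tr (att_rev hA) (-2)))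
      linear_combination 3 * e1 - 4 * e3
    · refine ⟨h0, ?_, ?_, ?_, att_dl L hC⟩
      · change 0 ≤ -f₁ + 1 * f₀
        linarith
      · change -f₁ + 1 * f₀ < f₀
        linarith
      · change 3 * ((-f₁ + 1 * f₀) ^ 2 - f₀ * (f₂ + 2 * 1 * -f₁ + 1 ^ 2 * f₀)) ^ 2 ≤ -4 * D
        have e : (-f₁ + 1 * f₀) ^ 2 - f₀ * (f₂ + 2 * 1 * -f₁ + 1 ^ 2 * f₀) = f₁ ^ 2 - f₀ * f₂ := by
          ring
        rw [e]
        exact hm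

end H38T6
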