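import Pool.Agent.H38.T6.Def2

/-!
Row He. (about 230 lines): the forms with discriminant exactly divisible by a prime q > 3 (or q = 3; only q odd is used). R := ZMod (q^2); X(x) := (x <> 0 and q x = 0), i.e. x is q times a unit. Dz f = -a^2 d^2 + (6 a b c - 4 b^3) d + 3 b^2 c^2 - 4 a c^3 for f = (a, b, c, d), and for a: a^2 Dz f = 4 A^3 - U^2, A = b^2 - a c, U = a^2 d - 3 a b c + 2 b^3 (ring).
 Facts on R: x is a unit iff q does not divide x.val; a nonunit is q y; x nonunit: x^2 = 0; there are q nonunits, q - 1 elements with X, q (q-1) units.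
 Count, by cases:
 (1) a unit: (c, d) -> (A, U) is a bijection of R^2 for fixed (a, b), X(Dz f) iff X(4 A^3 - U^2). Claim: number of (A, U) in R^2 with X(4 A^3 - U^2) is q (q-1)^2. If A is a nonunit: 4 A^3 = 0 (A^2 = 0), and X(-U^2): U^2 nonunit so U nonunit, U^2 = 0, not X. So A is a unit and U^2 = 4 A^3 mod q. Modulo q: (A, U) with A <> 0, U^2 = 4 A^3 in ZMod q: r := U / (2 A) satisfies r^2 = A, U = 2 r^3: q - 1 pairs (injective parametrisation by r <> 0). Over each pair there are q^2 pairs in R; for each A exactly one lift U has U^2 = 4 A^3 in R (U = U0 + q u: U^2 = U0^2 + 2 q U0 u, linear in u mod q): so q^2 - q with X. Total (q-1)(q^2-q). (Only the upper bound is needed.)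
 Number: q (q-1) * q^2 * q (q-1)^2 = q^4 (q-1)^3.
 (2) a nonunit, b unit: a^2 = 0, so Dz f = (6 a b c - 4 b^3) d + (3 b^2 c^2 - 4 a c^3) with a unit coefficient of d: for each (a, b, c) exactly q - 1 values of d. Number: q * q (q-1) * q^2 * (q-1) = q^4 (q-1)^2.
 (3) a, b nonunits: b^2 = 0, a b = 0: Dz f = -4 a c^3 : X iff a <> 0 and c a unit. Number: (q-1) * q * q (q-1) * q^2 = q^4 (q-1)^2.
 Sum: q^4 (q-1)^2 (q + 1) <= q^6 (q - 1), because (q-1)(q+1) <= q^2.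
-/

set_option autoImplicit false
set_option linter.unusedSectionVars false
open scoped Classical


namespace H38T6

section He

variable {q : ℕ}

lemma He_q_iff (hq : q.Prime) (x : ZMod (q ^ 2)) :
    (q : ZMod (q ^ 2)) * x = 0 ↔ q ∣ x.val := by
  haveI : NeZero (q ^ 2) := ⟨pow_ne_zero 2 hq.ne_zero⟩
  have h1 : (q : ZMod (q ^ 2)) * x = ((q * x.val : ℕ) : ZMod (q ^ 2)) := by
    rw [Nat.cast_mul, ZMod.natCast_zmod_val]
  have h2 : ∀ n : ℕ, q ^ 2 ∣ q * n ↔ q ∣ n := by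
    intro n
    rw [pow_two]
    exact Nat.mul_dvd_mul_iff_left hq.pos
  rw [h1, ZMod.natCast_eq_zero_iff]
  exact h2 _

lemma He_unit (hq : q.Prime) {x : ZMod (q ^ 2)} (hx : (q : ZMod (q ^ 2)) * x ≠ 0) :
    IsUnit x := by
  haveI : NeZero (q ^ 2) := ⟨pow_ne_zero 2 hq.ne_zero⟩
  rw [Ne, He_q_iff hq] at hx
  rw [← ZMod.natCast_zmod_val x, ZMod.isUnit_iff_coprime]
  exact (((Nat.Prime.coprime_iff_not_dvd hq).2 hx).symm).pow_right 2

lemma He_mul (hq : q.Prime) {x y : ZMod (q ^ 2)} (hx : (q : ZMod (q ^ 2)) * x = 0)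
    (hy : (q : ZMod (q ^ 2)) * y = 0) : x * y = 0 := by
  haveI : NeZero (q ^ 2) := ⟨pow_ne_zero 2 hq.ne_zero⟩
  rw [He_q_iff hq] at hx hy
  have h1 : x * y = ((x.val * y.val : ℕ) : ZMod (q ^ 2)) := by
    rw [Nat.cast_mul, ZMod.natCast_zmod_val, ZMod.natCast_zmod_val]
  have h2 : ∀ m n : ℕ, q ∣ m → q ∣ n → q ^ 2 ∣ m * n := by
    intro m n hm hn
    rw [pow_two]
    exact Nat.mul_dvd_mul hm hn
  rw [h1, ZMod.natCast_eq_zero_iff]
  exact h2 _ _ hx hy

lemma He_q0 (hq : q.Prime) : (q : ZMod (q ^ 2)) ≠ 0 := by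
  rw [Ne, ZMod.natCast_eq_zero_iff]
  intro h
  have h1 := Nat.le_of_dvd hq.pos h
  have h2 := hq.two_le
  nlinarith

lemma He_not (hq : q.Prime) {x : ZMod (q ^ 2)} (hx : IsUnit x) :
    (q : ZMod (q ^ 2)) * x ≠ 0 := by
  rw [Ne, hx.mul_left_eq_zero]
  exact He_q0 hq

lemma He_two (hq : q.Prime) (h2 : q ≠ 2) : IsUnit (2 : ZMod (q ^ 2)) := by
  have h1 : (2 : ZMod (q ^ 2)) = ((2 : ℕ) : ZMod (q ^ 2)) := by norm_num
  rw [h1, ZMod.isUnit_iff_coprime]
  exact ((Nat.coprime_primes Nat.prime_two hq).2 (Ne.symm h2)).pow_right 2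

lemma He_card (hq : q.Prime) [NeZero (q ^ 2)] :
    (Finset.univ.filter (fun x : ZMod (q ^ 2) => (q : ZMod (q ^ 2)) * x = 0)).card = q := by
  have h1 : Finset.univ.filter (fun x : ZMod (q ^ 2) => (q : ZMod (q ^ 2)) * x = 0) =
      (Finset.range q).image (fun k => ((q * k : ℕ) : ZMod (q ^ 2))) := by
    ext x
    rw [Finset.mem_filter, Finset.mem_image]
    constructor
    · rintro ⟨-, hx⟩
      rw [He_q_iff hq] at hx
      obtain ⟨k, hk⟩ := hx
      refine ⟨k, ?_, ?_⟩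
      · rw [Finset.mem_range]
        have h2 := ZMod.val_lt x
        rw [hk, pow_two] at h2
        exact Nat.lt_of_mul_lt_mul_left h2
      · rw [← hk, ZMod.natCast_zmod_val]
    · rintro ⟨k, -, rfl⟩
      refine ⟨Finset.mem_univ _, ?_⟩
      rw [← Nat.cast_mul, ZMod.natCast_eq_zero_iff]
      exact ⟨k, by ring⟩
  rw [h1, Finset.card_image_of_injOn, Finset.card_range]
  intro a ha b hb hab
  have ha' : a < q := by simpa using ha
  have hb' : b < q := by simpa using hb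
  have h2 := congrArg ZMod.val hab
  dsimp only at h2
  rw [ZMod.val_natCast_of_lt, ZMod.val_natCast_of_lt] at h2
  · exact Nat.eq_of_mul_eq_mul_left hq.pos h2
  · rw [pow_two]
    exact Nat.mul_lt_mul_of_pos_left hb' hq.pos
  · rw [pow_two]
    exact Nat.mul_lt_mul_of_pos_left ha' hq.pos

lemma He_AU (hq : q.Prime) (h2 : q ≠ 2) {A U : ZMod (q ^ 2)} (hE : 4 * A ^ 3 - U ^ 2 ≠ 0)
    (hqE : (q : ZMod (q ^ 2)) * (4 * A ^ 3 - U ^ 2) = 0) : IsUnit A ∧ IsUnit U := by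
  have h4 : IsUnit (4 : ZMod (q ^ 2)) := by
    have := (He_two hq h2).mul (He_two hq h2)
    norm_num at this
    exact this
  have hA : IsUnit A := by
    by_contra hA
    have hA0 : (q : ZMod (q ^ 2)) * A = 0 := by
      by_contra h
      exact hA (He_unit hq h)
    have hAA := He_mul hq hA0 hA0
    by_cases hU : (q : ZMod (q ^ 2)) * U = 0
    · have hUU := He_mul hq hU hU
      apply hE
      linear_combination (4 * A) * hAA - hUU
    · have hUu := He_unit hq hU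
      refine He_not hq (hUu.mul hUu) ?_
      linear_combination (4 * A * q) * hAA - hqE
  refine ⟨hA, ?_⟩
  by_contra hU
  have hU0 : (q : ZMod (q ^ 2)) * U = 0 := by
    by_contra h
    exact hU (He_unit hq h)
  have hUU := He_mul hq hU0 hU0
  refine He_not hq (h4.mul (hA.pow 3)) ?_
  linear_combination hqE + (q : ZMod (q ^ 2)) * hUU

/-- the two invariants -/
def He_A {R : Type*} [CommRing R] (f : Fin 4 → R) : R := f 1 ^ 2 - f 0 * f 2

def He_U {R : Type*} [CommRing R] (f : Fin 4 → R) : R :=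
  f 0 ^ 2 * f 3 - 3 * f 0 * f 1 * f 2 + 2 * f 1 ^ 3

lemma He_id {R : Type*} [CommRing R] (f : Fin 4 → R) :
    f 0 ^ 2 * Dz f = 4 * He_A f ^ 3 - He_U f ^ 2 := by
  unfold Dz He_A He_U
  ring

noncomputable def He_r (f : Fin 4 → ZMod (q ^ 2)) : ZMod (q ^ 2) := He_U f * (2 * He_A f)⁻¹

lemma He_case1 (hq : q.Prime) (h2 : q ≠ 2) {f : Fin 4 → ZMod (q ^ 2)}
    (ha : (q : ZMod (q ^ 2)) * f 0 ≠ 0) (hD : Dz f ≠ 0) (hqD : (q : ZMod (q ^ 2)) * Dz f = 0) :
    IsUnit (f 0) ∧ He_U f = 2 * He_A f * He_r f ∧ (q : ZMod (q ^ 2)) * He_r f ≠ 0 ∧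
      He_A f - He_r f ^ 2 ≠ 0 ∧ (q : ZMod (q ^ 2)) * (He_A f - He_r f ^ 2) = 0 := by
  have ha' := He_unit hq ha
  have hid := He_id f
  have hE : 4 * He_A f ^ 3 - He_U f ^ 2 ≠ 0 := by
    rw [← hid, Ne, (ha'.pow 2).mul_right_eq_zero]
    exact hD
  have hqE : (q : ZMod (q ^ 2)) * (4 * He_A f ^ 3 - He_U f ^ 2) = 0 := by
    rw [← hid]
    linear_combination (f 0 ^ 2) * hqD
  obtain ⟨hA, hU⟩ := He_AU hq h2 hE hqE
  have h2A : IsUnit (2 * He_A f) := (He_two hq h2).mul hA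
  have hUr : He_U f = 2 * He_A f * He_r f := by
    unfold He_r
    have h3 := ZMod.mul_inv_of_unit _ h2A
    linear_combination (-He_U f) * h3
  have hE2 : (2 * He_A f) ^ 2 * (He_A f - He_r f ^ 2) = 4 * He_A f ^ 3 - He_U f ^ 2 := by
    rw [hUr]
    ring
  refine ⟨ha', hUr, ?_, ?_, ?_⟩
  · intro h
    refine He_not hq hU ?_
    rw [hUr]
    linear_combination (2 * He_A f) * h
  · intro h
    apply hE
    rw [← hE2, h, mul_zero]
  · rw [← (h2A.pow 2).mul_right_eq_zero]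
    rw [← hE2] at hqE
    linear_combination hqE

lemma He_inj1 {f g : Fin 4 → ZMod (q ^ 2)} (hf0 : IsUnit (f 0))
    (hf : He_U f = 2 * He_A f * He_r f) (hg : He_U g = 2 * He_A g * He_r g)
    (e0 : f 0 = g 0) (e1 : f 1 = g 1) (er : He_r f = He_r g)
    (ee : He_A f - He_r f ^ 2 = He_A g - He_r g ^ 2) : f = g := by
  have hA : He_A f = He_A g := by
    rw [er] at ee
    exact sub_left_injective ee
  have hU : He_U f = He_U g := by rw [hf, hg, hA, er]
  have e2 : f 2 = g 2 := by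
    unfold He_A at hA
    rw [e1, ← e0] at hA
    apply hf0.mul_left_cancel
    linear_combination -hA
  have e3 : f 3 = g 3 := by
    unfold He_U at hU
    rw [e1, ← e0, e2] at hU
    apply (hf0.pow 2).mul_left_cancel
    linear_combination hU
  funext i
  fin_cases i
  · exact e0
  · exact e1
  · exact e2
  · exact e3

lemma He_inj2 (hq : q.Prime) (h2 : q ≠ 2) {f g : Fin 4 → ZMod (q ^ 2)}
    (hf0 : (q : ZMod (q ^ 2)) * f 0 = 0) (hf1 : (q : ZMod (q ^ 2)) * f 1 ≠ 0)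
    (e0 : f 0 = g 0) (e1 : f 1 = g 1) (e2 : f 2 = g 2) (eD : Dz f = Dz g) : f = g := by
  have hb := He_unit hq hf1
  have haa := He_mul hq hf0 hf0
  have h4 : IsUnit (4 : ZMod (q ^ 2)) := by
    have := (He_two hq h2).mul (He_two hq h2)
    norm_num at this
    exact this
  have hK : IsUnit (6 * f 0 * f 1 * f 2 - 4 * f 1 ^ 3) := by
    apply He_unit hq
    intro h
    refine He_not hq (h4.mul (hb.pow 3)) ?_
    linear_combination (6 * f 1 * f 2) * hf0 - h
  have e3 : f 3 = g 3 := by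
    apply hK.mul_left_cancel
    have hf : Dz f = (6 * f 0 * f 1 * f 2 - 4 * f 1 ^ 3) * f 3 +
        (3 * f 1 ^ 2 * f 2 ^ 2 - 4 * f 0 * f 2 ^ 3) := by
      unfold Dz
      linear_combination (-(f 3 ^ 2)) * haa
    have hg : Dz g = (6 * f 0 * f 1 * f 2 - 4 * f 1 ^ 3) * g 3 +
        (3 * f 1 ^ 2 * f 2 ^ 2 - 4 * f 0 * f 2 ^ 3) := by
      unfold Dz
      rw [← e0, ← e1, ← e2]
      linear_combination (-(g 3 ^ 2)) * haa
    rw [hf, hg] at eD
    exact add_right_cancel eD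
  funext i
  fin_cases i
  · exact e0
  · exact e1
  · exact e2
  · exact e3

lemma He_case3 (hq : q.Prime) {f : Fin 4 → ZMod (q ^ 2)}
    (hf0 : (q : ZMod (q ^ 2)) * f 0 = 0) (hf1 : (q : ZMod (q ^ 2)) * f 1 = 0)
    (hD : Dz f ≠ 0) : f 0 ≠ 0 ∧ (q : ZMod (q ^ 2)) * f 2 ≠ 0 := by
  have haa := He_mul hq hf0 hf0
  have hab := He_mul hq hf0 hf1
  have hbb := He_mul hq hf1 hf1
  have hf : Dz f = -4 * f 0 * f 2 ^ 3 := by
    unfold Dz
    linear_combination (-(f 3 ^ 2)) * haa + (6 * f 2 * f 3) * hab +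
      (-4 * f 1 * f 3 + 3 * f 2 ^ 2) * hbb
  rw [hf] at hD
  constructor
  · intro h
    apply hD
    rw [h]
    ring
  · intro h
    apply hD
    have hac := He_mul hq hf0 h
    linear_combination (-4 * f 2 ^ 2) * hac

end He

theorem dens_q {q : ℕ} (hq : q.Prime) (h2 : q ≠ 2) :
    Set.ncard {f : Fin 4 → ZMod (q ^ 2) | Dz f ≠ 0 ∧ (q : ZMod (q ^ 2)) * Dz f = 0} ≤
      q ^ 6 * (q - 1) := by
  haveI : NeZero (q ^ 2) := ⟨pow_ne_zero 2 hq.ne_zero⟩
  obtain ⟨I, hI⟩ : ∃ I : Finset (ZMod (q ^ 2)),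
      I = Finset.univ.filter (fun x : ZMod (q ^ 2) => (q : ZMod (q ^ 2)) * x = 0) := ⟨_, rfl⟩
  have hIm : ∀ x, x ∈ I ↔ (q : ZMod (q ^ 2)) * x = 0 := by
    intro x
    rw [hI, Finset.mem_filter]
    exact ⟨fun h => h.2, fun h => ⟨Finset.mem_univ _, h⟩⟩
  have hIc : I.card = q := by
    rw [hI]
    exact He_card hq
  have hRc : (Finset.univ : Finset (ZMod (q ^ 2))).card = q ^ 2 := by
    rw [Finset.card_univ, ZMod.card]
  have hUc : (Iᶜ).card = q ^ 2 - q := by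
    rw [Finset.card_compl, hIc, ZMod.card]
  have hXc : (I.erase 0).card = q - 1 := by
    rw [Finset.card_erase_of_mem, hIc]
    rw [hIm, mul_zero]
  obtain ⟨S, hS⟩ : ∃ S : Finset (Fin 4 → ZMod (q ^ 2)), S = Finset.univ.filter
      (fun f => Dz f ≠ 0 ∧ (q : ZMod (q ^ 2)) * Dz f = 0) := ⟨_, rfl⟩
  have hSm : ∀ f, f ∈ S ↔ Dz f ≠ 0 ∧ (q : ZMod (q ^ 2)) * Dz f = 0 := by
    intro f
    rw [hS, Finset.mem_filter]
    exact ⟨fun h => h.2, fun h => ⟨Finset.mem_univ _, h⟩⟩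
  have hSc : Set.ncard {f : Fin 4 → ZMod (q ^ 2) | Dz f ≠ 0 ∧ (q : ZMod (q ^ 2)) * Dz f = 0} =
      S.card := by
    rw [← Set.ncard_coe_finset]
    congr 1
    ext f
    rw [Finset.mem_coe, hSm]
    rfl
  rw [hSc]
  have c1 : (S.filter (fun f => f 0 ∉ I)).card ≤
      (q ^ 2 - q) * (q ^ 2 * ((q ^ 2 - q) * (q - 1))) := by
    have h1 : (Iᶜ ×ˢ (Finset.univ : Finset (ZMod (q ^ 2))) ×ˢ Iᶜ ×ˢ (I.erase 0)).card =
        (q ^ 2 - q) * (q ^ 2 * ((q ^ 2 - q) * (q - 1))) := by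
      rw [Finset.card_product, Finset.card_product, Finset.card_product, hUc, hRc, hXc]
    rw [← h1]
    refine Finset.card_le_card_of_injOn
      (fun f => (f 0, f 1, He_r f, He_A f - He_r f ^ 2)) ?_ ?_
    · intro f hf
      rw [Finset.mem_coe, Finset.mem_filter, hSm, hIm] at hf
      obtain ⟨k1, k2, k3, k4, k5⟩ := He_case1 hq h2 hf.2 hf.1.1 hf.1.2
      rw [Finset.mem_coe, Finset.mem_product, Finset.mem_product, Finset.mem_product]
      refine ⟨?_, Finset.mem_univ _, ?_, ?_⟩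
      · rw [Finset.mem_compl, hIm]
        exact hf.2
      · rw [Finset.mem_compl, hIm]
        exact k3
      · rw [Finset.mem_erase, hIm]
        exact ⟨k4, k5⟩
    · intro f hf g hg hfg
      rw [Finset.mem_coe, Finset.mem_filter, hSm, hIm] at hf hg
      obtain ⟨k1, k2, -, -, -⟩ := He_case1 hq h2 hf.2 hf.1.1 hf.1.2
      obtain ⟨-, l2, -, -, -⟩ := He_case1 hq h2 hg.2 hg.1.1 hg.1.2
      simp only [Prod.mk.injEq] at hfg
      exact He_inj1 k1 k2 l2 hfg.1 hfg.2.1 hfg.2.2.1 hfg.2.2.2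
  have c2 : (S.filter (fun f => f 0 ∈ I ∧ f 1 ∉ I)).card ≤
      q * ((q ^ 2 - q) * (q ^ 2 * (q - 1))) := by
    have h1 : (I ×ˢ Iᶜ ×ˢ (Finset.univ : Finset (ZMod (q ^ 2))) ×ˢ (I.erase 0)).card =
        q * ((q ^ 2 - q) * (q ^ 2 * (q - 1))) := by
      rw [Finset.card_product, Finset.card_product, Finset.card_product, hUc, hRc, hXc, hIc]
    rw [← h1]
    refine Finset.card_le_card_of_injOn (fun f => (f 0, f 1, f 2, Dz f)) ?_ ?_
    · intro f hf
      rw [Finset.mem_coe, Finset.mem_filter, hSm, hIm, hIm] at hf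
      rw [Finset.mem_coe, Finset.mem_product, Finset.mem_product, Finset.mem_product]
      refine ⟨?_, ?_, Finset.mem_univ _, ?_⟩
      · rw [hIm]
        exact hf.2.1
      · rw [Finset.mem_compl, hIm]
        exact hf.2.2
      · rw [Finset.mem_erase, hIm]
        exact hf.1
    · intro f hf g hg hfg
      rw [Finset.mem_coe, Finset.mem_filter, hSm, hIm, hIm] at hf hg
      simp only [Prod.mk.injEq] at hfg
      exact He_inj2 hq h2 hf.2.1 hf.2.2 hfg.1 hfg.2.1 hfg.2.2.1 hfg.2.2.2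
  have c3 : (S.filter (fun f => f 0 ∈ I ∧ f 1 ∈ I)).card ≤
      (q - 1) * (q * ((q ^ 2 - q) * q ^ 2)) := by
    have h1 : ((I.erase 0) ×ˢ I ×ˢ Iᶜ ×ˢ (Finset.univ : Finset (ZMod (q ^ 2)))).card =
        (q - 1) * (q * ((q ^ 2 - q) * q ^ 2)) := by
      rw [Finset.card_product, Finset.card_product, Finset.card_product, hUc, hRc, hXc, hIc]
    rw [← h1]
    refine Finset.card_le_card_of_injOn (fun f => (f 0, f 1, f 2, f 3)) ?_ ?_
    · intro f hf
      rw [Finset.mem_coe, Finset.mem_filter, hSm, hIm, hIm] at hf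
      obtain ⟨k1, k2⟩ := He_case3 hq hf.2.1 hf.2.2 hf.1.1
      rw [Finset.mem_coe, Finset.mem_product, Finset.mem_product, Finset.mem_product]
      refine ⟨?_, ?_, ?_, Finset.mem_univ _⟩
      · rw [Finset.mem_erase, hIm]
        exact ⟨k1, hf.2.1⟩
      · rw [hIm]
        exact hf.2.2
      · rw [Finset.mem_compl, hIm]
        exact k2
    · intro f _ g _ hfg
      simp only [Prod.mk.injEq] at hfg
      funext i
      fin_cases i
      · exact hfg.1
      · exact hfg.2.1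
      · exact hfg.2.2.1
      · exact hfg.2.2.2
  have hcov : S ⊆ (S.filter (fun f => f 0 ∉ I)) ∪ ((S.filter (fun f => f 0 ∈ I ∧ f 1 ∉ I)) ∪
      (S.filter (fun f => f 0 ∈ I ∧ f 1 ∈ I))) := by
    intro f hf
    rw [Finset.mem_union, Finset.mem_union, Finset.mem_filter, Finset.mem_filter,
      Finset.mem_filter]
    tauto
  have h5 := (Finset.card_le_card hcov).trans ((Finset.card_union_le _ _).trans
    (Nat.add_le_add le_rfl (Finset.card_union_le _ _)))
  refine h5.trans ?_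
  refine (Nat.add_le_add c1 (Nat.add_le_add c2 c3)).trans ?_
  obtain ⟨m, rfl⟩ : ∃ m, q = m + 1 := ⟨q - 1, by have := hq.pos; omega⟩
  have e1 : (m + 1) ^ 2 - (m + 1) = (m + 1) * m := by
    have : (m + 1) ^ 2 = (m + 1) * m + (m + 1) := by ring
    omega
  rw [e1, Nat.add_sub_cancel]
  have e2 : (m + 1) * m * ((m + 1) ^ 2 * ((m + 1) * m * m)) +
      ((m + 1) * ((m + 1) * m * ((m + 1) ^ 2 * m)) + m * ((m + 1) * ((m + 1) * m * (m + 1) ^ 2))) =
      (m + 1) ^ 4 * m * (m * (m + 2)) := by ring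
  have e3 : (m + 1) ^ 6 * m = (m + 1) ^ 4 * m * (m + 1) ^ 2 := by ring
  rw [e2, e3]
  apply Nat.mul_le_mul_left
  nlinarith

end H38T6
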