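import Pool.Agent.H38.T6.Def2

/-!
Row Hf. (about 180 lines): congruence conditions as residue classes.
cls_two: Dz f mod 16 is determined by f mod 4: Dz f = 4 A C - B^2 with A = f1^2 - f0 f2, C = f2^2 - f1 f3, B = f1 f2 - f0 f3; if f = f' mod 4 then A = A', C = C', B = B' mod 4, so 4 A C = 4 A' C' mod 16, and Dz f % 16 = 8 forces B even; B = B' + 4 k, B^2 = B'^2 + 8 k B' + 16 k^2, B' even. R := the set of the classes r of ZMod 4 such that the form with the representatives (r i).val has Dz % 16 = 8; card 24 by decide (over Fin 4 x Fin 4 x Fin 4 x Fin 4 if necessary: transport by a bijection; 256 cases).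
cls_three: the same mod 3 (Dz in ZMod 3 is 1), card 24 of 81 by decide.
crt4: ZMod.chineseRemainder for coprime M1, M2: f mod M1 M2 <-> (f mod M1, f mod M2); R := preimage of R1 x R2, card = card R1 * card R2.
-/

set_option autoImplicit false
set_option linter.unusedSectionVars false
open scoped Classical


namespace H38T6

lemma Hf_cast (n : ℕ) (f : Fin 4 → ℤ) :
    ((Dz f : ℤ) : ZMod n) = Dz (fun i => (f i : ZMod n)) := by
  unfold Dz
  push_cast
  ring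

lemma Hf_sixteen {A B C A' B' C' : ℤ} (hA : A ≡ A' [ZMOD 4]) (hB : B ≡ B' [ZMOD 4])
    (hC : C ≡ C' [ZMOD 4]) (h : (4 * A * C - B ^ 2) % 16 = 8) :
    (4 * A' * C' - B' ^ 2) % 16 = 8 := by
  obtain ⟨α, hα⟩ := hA.symm.dvd
  obtain ⟨β, hβ⟩ := hB.symm.dvd
  obtain ⟨γ, hγ⟩ := hC.symm.dvd
  have hα' : A = A' + 4 * α := by linarith
  have hβ' : B = B' + 4 * β := by linarith
  have hγ' : C = C' + 4 * γ := by linarith
  have hBe : Even (B ^ 2) := by
    rw [Int.even_iff]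
    obtain ⟨t, ht⟩ : ∃ t, t = A * C := ⟨_, rfl⟩
    obtain ⟨s, hs⟩ : ∃ s, s = B ^ 2 := ⟨_, rfl⟩
    rw [mul_assoc, ← ht, ← hs] at h
    rw [← hs]
    omega
  have hBe2 : Even B := by
    rcases Int.even_or_odd B with h1 | h1
    · exact h1
    · exact absurd hBe (by rw [Int.not_even_iff_odd]; exact h1.pow)
  obtain ⟨m, hm⟩ := hBe2
  have hB' : B' = 2 * (m - 2 * β) := by linarith
  have key : 4 * A * C - B ^ 2 = (4 * A' * C' - B' ^ 2) +
      16 * (A' * γ + α * C' + 4 * α * γ - (m - 2 * β) * β - β ^ 2) := by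
    rw [hα', hγ', hβ', hB']
    ring
  rw [key] at h
  omega

theorem cls_two : ∃ R : Finset (Fin 4 → ZMod 4), R.card = 24 ∧
    ∀ f : Fin 4 → ℤ, Dz f % 16 = 8 → (fun i => (f i : ZMod 4)) ∈ R := by
  refine ⟨Finset.univ.filter (fun r : Fin 4 → ZMod 4 =>
    Dz (fun i => ((r i).val : ℤ)) % 16 = 8), ?_, ?_⟩
  · decide +kernel
  · intro f hf
    rw [Finset.mem_filter]
    refine ⟨Finset.mem_univ _, ?_⟩
    have hi : ∀ i, f i ≡ (((f i : ZMod 4)).val : ℤ) [ZMOD 4] := by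
      intro i
      rw [ZMod.val_intCast]
      exact (Int.mod_modEq _ _).symm
    unfold Dz at hf ⊢
    exact Hf_sixteen (((hi 1).pow 2).sub ((hi 0).mul (hi 2)))
      (((hi 1).mul (hi 2)).sub ((hi 0).mul (hi 3)))
      (((hi 2).pow 2).sub ((hi 1).mul (hi 3))) hf

theorem cls_three : ∃ R : Finset (Fin 4 → ZMod 3), R.card = 24 ∧
    ∀ f : Fin 4 → ℤ, Dz f % 3 = 1 → (fun i => (f i : ZMod 3)) ∈ R := by
  refine ⟨Finset.univ.filter (fun r : Fin 4 → ZMod 3 => Dz r = 1), ?_, ?_⟩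
  · decide +kernel
  · intro f hf
    rw [Finset.mem_filter]
    refine ⟨Finset.mem_univ _, ?_⟩
    rw [← Hf_cast]
    have h1 : ((Dz f : ℤ) : ZMod 3) = ((1 : ℤ) : ZMod 3) := by
      rw [ZMod.intCast_eq_intCast_iff]
      exact hf
    rw [h1, Int.cast_one]

theorem crt4 {M₁ M₂ : ℕ} (h1 : 0 < M₁) (h2 : 0 < M₂) (h : Nat.Coprime M₁ M₂)
    (R₁ : Finset (Fin 4 → ZMod M₁)) (R₂ : Finset (Fin 4 → ZMod M₂)) :
    ∃ R : Finset (Fin 4 → ZMod (M₁ * M₂)), R.card = R₁.card * R₂.card ∧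
      ∀ f : Fin 4 → ℤ, (fun i => (f i : ZMod M₁)) ∈ R₁ → (fun i => (f i : ZMod M₂)) ∈ R₂ →
        (fun i => (f i : ZMod (M₁ * M₂))) ∈ R := by
  obtain ⟨φ, hφ⟩ : ∃ φ : ZMod (M₁ * M₂) ≃+* ZMod M₁ × ZMod M₂,
      φ = ZMod.chineseRemainder h := ⟨_, rfl⟩
  refine ⟨(R₁ ×ˢ R₂).image (fun p => fun i => φ.symm (p.1 i, p.2 i)), ?_, ?_⟩
  · rw [Finset.card_image_of_injective, Finset.card_product]
    intro p p' hp
    have h1 : ∀ i, (p.1 i, p.2 i) = (p'.1 i, p'.2 i) := fun i =>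
      φ.symm.injective (congrFun hp i)
    refine Prod.ext (funext fun i => ?_) (funext fun i => ?_)
    · exact (Prod.mk.inj (h1 i)).1
    · exact (Prod.mk.inj (h1 i)).2
  · intro f hf1 hf2
    rw [Finset.mem_image]
    refine ⟨(fun i => (f i : ZMod M₁), fun i => (f i : ZMod M₂)),
      Finset.mem_product.2 ⟨hf1, hf2⟩, ?_⟩
    funext i
    rw [RingEquiv.symm_apply_eq, map_intCast]
    rfl

end H38T6
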