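import Pool.Agent.H38.T6.He
import Pool.Agent.H38.T6.Hf

/-!
Row Hg. (about 110 lines): dens. Induction on P (Finset.induction_on, generalised: M has only the prime factors 2, 3 and those of P). Base: cls_two, cls_three, crt4: M = 12, card = 576 = 12^4 / 36. Step: q not in P, R_q := the finset of the set of dens_q (Set.toFinset, finite type) for the modulus q^2 (coprime to M): for f with q | Dz f and not q^2 | Dz f the reduction has Dz <> 0 and q Dz = 0 (ZMod.intCast_zmod_eq_zero_iff_dvd / intCast_cast; Dz commutes with the ring homomorphism). crt4: card <= card R * q^6 (q-1), and q^6 (q - 1) = (q^2)^4 (1 - 1/q)/q.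
-/

set_option autoImplicit false
set_option linter.unusedSectionVars false
open scoped Classical


namespace H38T6

theorem Hg_step {q : ℕ} (hq : q.Prime) (h2 : q ≠ 2) : ∃ R : Finset (Fin 4 → ZMod (q ^ 2)),
    R.card ≤ q ^ 6 * (q - 1) ∧ ∀ f : Fin 4 → ℤ, (q : ℤ) ∣ Dz f → ¬ (q : ℤ) ^ 2 ∣ Dz f →
      (fun i => (f i : ZMod (q ^ 2))) ∈ R := by
  haveI : NeZero (q ^ 2) := ⟨pow_ne_zero 2 hq.ne_zero⟩
  obtain ⟨R, hR⟩ : ∃ R : Finset (Fin 4 → ZMod (q ^ 2)), (R : Set (Fin 4 → ZMod (q ^ 2))) =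
      {f : Fin 4 → ZMod (q ^ 2) | Dz f ≠ 0 ∧ (q : ZMod (q ^ 2)) * Dz f = 0} :=
    ⟨Set.Finite.toFinset (Set.toFinite _), Set.Finite.coe_toFinset _⟩
  refine ⟨R, ?_, ?_⟩
  · have h3 := dens_q hq h2
    rw [← hR, Set.ncard_coe_finset] at h3
    exact h3
  · intro f hf hf'
    rw [← Finset.mem_coe, hR]
    constructor
    · rw [← Hf_cast, Ne, ZMod.intCast_zmod_eq_zero_iff_dvd]
      push_cast
      exact hf'
    · rw [← Hf_cast]
      have e : (q : ZMod (q ^ 2)) * ((Dz f : ℤ) : ZMod (q ^ 2)) =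
          (((q : ℤ) * Dz f : ℤ) : ZMod (q ^ 2)) := by
        push_cast
        rfl
      rw [e, ZMod.intCast_zmod_eq_zero_iff_dvd]
      push_cast
      rw [pow_two]
      exact mul_dvd_mul_left _ hf

theorem Hg_dens (P : Finset ℕ) : Prs P → ∃ (M : ℕ) (R : Finset (Fin 4 → ZMod M)), 0 < M ∧
    (∀ p : ℕ, p.Prime → p ∣ M → p = 2 ∨ p = 3 ∨ p ∈ P) ∧
    (∀ f : Fin 4 → ℤ, Cls P f → (fun i => (f i : ZMod M)) ∈ R) ∧
    (R.card : ℝ) ≤ (M : ℝ) ^ 4 * (1 / 36 * ∏ q ∈ P, ((1 - 1 / (q : ℝ)) / q)) := by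
  induction P using Finset.induction_on with
  | empty =>
    intro _
    obtain ⟨R₁, hc1, hR1⟩ := cls_two
    obtain ⟨R₂, hc2, hR2⟩ := cls_three
    obtain ⟨R, hc, hR⟩ := crt4 (M₁ := 4) (M₂ := 3) (by norm_num) (by norm_num) (by norm_num) R₁ R₂
    refine ⟨4 * 3, R, by norm_num, ?_, ?_, ?_⟩
    · intro p hp hd
      have h1 : p ∣ 2 ^ 2 * 3 := by
        norm_num
        exact hd
      rcases (Nat.Prime.dvd_mul hp).1 h1 with h4 | h4
      · exact Or.inl ((Nat.prime_dvd_prime_iff_eq hp Nat.prime_two).1 (hp.dvd_of_dvd_pow h4))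
      · exact Or.inr (Or.inl ((Nat.prime_dvd_prime_iff_eq hp Nat.prime_three).1 h4))
    · intro f hf
      obtain ⟨h1, h2, -⟩ := hf
      refine hR f (hR1 f ?_) (hR2 f ?_)
      · exact h1
      · exact h2
    · rw [hc, hc1, hc2, Finset.prod_empty]
      norm_num
  | insert q P hqP ih =>
    intro hP
    have hP' : Prs P := fun p hp => hP p (Finset.mem_insert_of_mem hp)
    obtain ⟨hq, hq2, hq3⟩ := hP q (Finset.mem_insert_self q P)
    obtain ⟨M, R₁, hM, hMp, hR1, hc1⟩ := ih hP'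
    obtain ⟨R₂, hc2, hR2⟩ := Hg_step hq hq2
    have hcop : Nat.Coprime M (q ^ 2) := by
      apply Nat.Coprime.pow_right
      rw [Nat.coprime_comm, Nat.Prime.coprime_iff_not_dvd hq]
      intro hd
      rcases hMp q hq hd with h | h | h
      · exact hq2 h
      · exact hq3 h
      · exact hqP h
    obtain ⟨R, hc, hR⟩ := crt4 hM (pow_pos hq.pos 2) hcop R₁ R₂
    refine ⟨M * q ^ 2, R, Nat.mul_pos hM (pow_pos hq.pos 2), ?_, ?_, ?_⟩
    · intro p hp hd
      rcases (Nat.Prime.dvd_mul hp).1 hd with h4 | h4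
      · rcases hMp p hp h4 with h | h | h
        · exact Or.inl h
        · exact Or.inr (Or.inl h)
        · exact Or.inr (Or.inr (Finset.mem_insert_of_mem h))
      · have h5 := (Nat.prime_dvd_prime_iff_eq hp hq).1 (hp.dvd_of_dvd_pow h4)
        rw [h5]
        exact Or.inr (Or.inr (Finset.mem_insert_self q P))
    · intro f hf
      obtain ⟨h1, h2, h3⟩ := hf
      obtain ⟨h4, h5⟩ := h3 q (Finset.mem_insert_self q P)
      exact hR f (hR1 f ⟨h1, h2, fun p hp => h3 p (Finset.mem_insert_of_mem hp)⟩)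
        (hR2 f h4 h5)
    · have hq0 : (0 : ℝ) < q := by exact_mod_cast hq.pos
      have h1 : (R₂.card : ℝ) ≤ (q : ℝ) ^ 6 * ((q : ℝ) - 1) := by
        have h2 : (R₂.card : ℝ) ≤ ((q ^ 6 * (q - 1) : ℕ) : ℝ) := by exact_mod_cast hc2
        rw [Nat.cast_mul, Nat.cast_sub hq.one_lt.le] at h2
        push_cast at h2
        exact h2
      have h2 : (R.card : ℝ) = (R₁.card : ℝ) * R₂.card := by exact_mod_cast hc
      rw [h2, Finset.prod_insert hqP]
      have h3 : (0 : ℝ) ≤ R₂.card := Nat.cast_nonneg _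
      have h4 : (0 : ℝ) ≤ (M : ℝ) ^ 4 * (1 / 36 * ∏ q ∈ P, ((1 - 1 / (q : ℝ)) / q)) :=
        le_trans (Nat.cast_nonneg _) hc1
      calc (R₁.card : ℝ) * R₂.card
          ≤ ((M : ℝ) ^ 4 * (1 / 36 * ∏ q ∈ P, ((1 - 1 / (q : ℝ)) / q))) *
            ((q : ℝ) ^ 6 * ((q : ℝ) - 1)) := mul_le_mul hc1 h1 h3 h4
        _ = _ := by
          push_cast
          field_simp

theorem dens {P : Finset ℕ} (hP : Prs P) : ∃ (M : ℕ) (R : Finset (Fin 4 → ZMod M)), 0 < M ∧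
    (∀ f : Fin 4 → ℤ, Cls P f → (fun i => (f i : ZMod M)) ∈ R) ∧
    (R.card : ℝ) ≤ (M : ℝ) ^ 4 * (1 / 36 * ∏ q ∈ P, ((1 - 1 / (q : ℝ)) / q)) := by
  obtain ⟨M, R, h1, -, h2, h3⟩ := Hg_dens P hP
  exact ⟨M, R, h1, h2, h3⟩

end H38T6
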