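import Pool.Agent.H38.T6.Def2

/-!
Row Hh. (about 120 lines): the region is compact. Closed: finitely many non-strict polynomial inequalities (continuity of the coordinates; unfold Dz). Bounded: let v be in Rg ep, a = v 0 >= ep, A = v 1^2 - a v 2, U := a^2 v 3 - 3 a (v 1)(v 2) + 2 (v 1)^3: a^2 Dz v = 4 A^3 - U^2 (ring). A >= (3/4) a^2 > 0. 3 A^2 <= Dz v <= 1: A <= 1. a^2 <= 4/3 A <= 4/3, so a <= 2, 0 <= v 1 <= 2. v 2 = (v 1^2 - A)/a: |v 2| <= 5 / ep. U^2 <= 4 A^3 <= 4, |U| <= 2, v 3 = (U + 3 a v1 v2 - 2 v1^3)/a^2: bounded by (2 + 60/ep + 16)/ep^2. So Rg ep is contained in a closed ball (Metric.isBounded, pi norm), Metric.isCompact_of_isClosed_isBounded.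
-/

set_option autoImplicit false
set_option linter.unusedSectionVars false
open scoped Classical


namespace H38T6

private theorem hh_abs_div {ε a x C : ℝ} (hε : 0 < ε) (ha : ε ≤ a) (hx : |a * x| ≤ C) :
    |x| ≤ C / ε := by
  rw [le_div_iff₀ hε]
  have h1 : |x| * ε ≤ |x| * a := mul_le_mul_of_nonneg_left ha (abs_nonneg x)
  have h2 : |a * x| = |x| * a := by
    rw [abs_mul, abs_of_pos (lt_of_lt_of_le hε ha), mul_comm]
  linarith

private theorem hh_bound {ε : ℝ} (hε : 0 < ε) {v : Fin 4 → ℝ} (hv : v ∈ Rg ε) :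
    |v 0| ≤ 2 ∧ |v 1| ≤ 2 ∧ |v 2| ≤ 5 / ε ∧ |v 3| ≤ 48 / ε / ε := by
  obtain ⟨h0, h1, h2, h3, h4, h5⟩ := hv
  obtain ⟨a, ha⟩ : ∃ a, a = v 0 := ⟨_, rfl⟩
  obtain ⟨b, hb⟩ : ∃ b, b = v 1 := ⟨_, rfl⟩
  obtain ⟨c, hc⟩ : ∃ c, c = v 2 := ⟨_, rfl⟩
  obtain ⟨d, hd⟩ : ∃ d, d = v 3 := ⟨_, rfl⟩
  unfold Dz at h4 h5
  simp only [← ha, ← hb, ← hc, ← hd] at h0 h1 h2 h3 h4 h5 ⊢
  obtain ⟨A, hA⟩ : ∃ A, A = b ^ 2 - a * c := ⟨_, rfl⟩
  obtain ⟨U, hU⟩ : ∃ U, U = a ^ 2 * d - 3 * a * b * c + 2 * b ^ 3 := ⟨_, rfl⟩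
  obtain ⟨Z, hZ⟩ : ∃ Z, Z = 4 * (b ^ 2 - a * c) * (c ^ 2 - b * d) - (b * c - a * d) ^ 2 :=
    ⟨_, rfl⟩
  rw [← hA] at h3
  rw [← hZ] at h4 h5
  rw [← hA] at h4
  have hkey : a ^ 2 * Z = 4 * A ^ 3 - U ^ 2 := by
    rw [hZ, hA, hU]
    ring
  have ha0 : 0 < a := lt_of_lt_of_le hε h0
  have hA0 : 0 < A := by nlinarith [mul_pos ha0 ha0]
  have hA1 : A ≤ 1 := by nlinarith
  have ha2 : a ≤ 2 := by nlinarith
  have hb2 : b ≤ 2 := h2.trans ha2
  have hac : |a * c| ≤ 5 := by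
    rw [abs_le]
    have : a * c = b ^ 2 - A := by rw [hA]; ring
    constructor <;> nlinarith
  have hZ0 : 0 ≤ Z := le_trans (by positivity) h4
  have hU2 : U ^ 2 ≤ 4 := by
    have h6 : A ^ 3 ≤ 1 := pow_le_one₀ hA0.le hA1
    have h7 : 0 ≤ a ^ 2 * Z := by positivity
    linarith
  have hUa : |U| ≤ 2 := by
    rw [abs_le]
    constructor <;> nlinarith
  have hb3 : |b| ≤ 2 := by
    rw [abs_of_nonneg h1]
    exact hb2
  have hd1 : |a * (a * d)| ≤ 48 := by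
    have e : a * (a * d) = U + 3 * b * (a * c) - 2 * b ^ 3 := by
      rw [hU]
      ring
    have h8 : |3 * b * (a * c)| ≤ 30 := by
      rw [abs_mul, abs_mul]
      have : |(3 : ℝ)| = 3 := abs_of_pos (by norm_num)
      rw [this]
      nlinarith [abs_nonneg b, abs_nonneg (a * c)]
    have h9 : |2 * b ^ 3| ≤ 16 := by
      rw [abs_mul, abs_pow]
      have : |(2 : ℝ)| = 2 := abs_of_pos (by norm_num)
      rw [this]
      have h10 : |b| ^ 3 ≤ 2 ^ 3 := pow_le_pow_left₀ (abs_nonneg b) hb3 3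
      linarith
    rw [e]
    have h11 := abs_sub (U + 3 * b * (a * c)) (2 * b ^ 3)
    have h12 := abs_add_le U (3 * b * (a * c))
    linarith
  refine ⟨?_, hb3, hh_abs_div hε h0 hac, hh_abs_div hε h0 (hh_abs_div hε h0 hd1)⟩
  rw [abs_of_pos ha0]
  exact ha2

theorem rg_compact {ε : ℝ} (hε : 0 < ε) : IsCompact (Rg ε) := by
  refine Metric.isCompact_of_isClosed_isBounded ?_ ?_
  · have hc : ∀ i : Fin 4, Continuous fun v : Fin 4 → ℝ => v i := fun i => continuous_apply i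
    have h0 := hc 0
    have h1 := hc 1
    have h2 := hc 2
    have h3 := hc 3
    have hD : Continuous fun v : Fin 4 → ℝ => Dz v := by
      unfold Dz
      fun_prop
    refine (isClosed_le continuous_const h0).inter ?_
    refine (isClosed_le continuous_const h1).inter ?_
    refine (isClosed_le h1 h0).inter ?_
    refine (isClosed_le (f := fun v : Fin 4 → ℝ => 3 * v 0 ^ 2)
      (g := fun v : Fin 4 → ℝ => 4 * (v 1 ^ 2 - v 0 * v 2)) (by fun_prop) (by fun_prop)).inter ?_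
    refine (isClosed_le (f := fun v : Fin 4 → ℝ => 3 * (v 1 ^ 2 - v 0 * v 2) ^ 2)
      (by fun_prop) hD).inter ?_
    exact isClosed_le hD continuous_const
  · have hB : (0 : ℝ) ≤ 2 + 5 / ε + 48 / ε / ε := by positivity
    refine (Metric.isBounded_closedBall (x := (0 : Fin 4 → ℝ))
      (r := 2 + 5 / ε + 48 / ε / ε)).subset ?_
    intro v hv
    rw [mem_closedBall_zero_iff, pi_norm_le_iff_of_nonneg hB]
    obtain ⟨h0, h1, h2, h3⟩ := hh_bound hε hv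
    have p1 : 0 ≤ 5 / ε := by positivity
    have p2 : 0 ≤ 48 / ε / ε := by positivity
    intro i
    rw [Real.norm_eq_abs]
    fin_cases i
    · show |v 0| ≤ _
      linarith
    · show |v 1| ≤ _
      linarith
    · show |v 2| ≤ _
      linarith
    · show |v 3| ≤ _
      linarith

end H38T6
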