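import Pool.Agent.H38.T6.Def2

/-!
Row Hi. (about 170 lines): lattice points in a residue class in a dilated compact set, in the sup norm of Fin 4 -> R.
PROOF. For t > 0 put dl := M / t. For each class r in R and each f = r mod M with f / t in S, the box Q_f := prod_i [f_i / t, (f_i + M)/ t) has volume dl^4 (Real.volume_pi_Ico or volume of Set.pi univ) and is contained in Metric.cthickening dl S (each point has sup distance <= dl from f / t in S). For fixed r the boxes are pairwise disjoint (f_i = f'_i mod M and the half open intervals [f_i, f_i + M) meet only if equal). So (number of f in class r) * dl^4 <= volume (cthickening dl S) (for every finite set of such f; the volume is finite since cthickening of a compact set is bounded), in particular the set is finite. Summing over r in R: ncard <= card R * (t / M)^4 * volume (cthickening dl S).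
 tendsto_measure_cthickening_of_isCompact: volume (cthickening dl S) -> volume S as dl -> 0 (volume finite for some dl); so for t large it is <= volume S + eta (toReal).
-/

/-!
Row Hi. (about 170 lines): lattice points in a residue class in a dilated compact set, in the sup norm of Fin 4 -> R.
PROOF. For t > 0 put dl := M / t. For each class r in R and each f = r mod M with f / t in S, the box Q_f := prod_i [f_i / t, (f_i + M)/ t) has volume dl^4 (Real.volume_pi_Ico or volume of Set.pi univ) and is contained in Metric.cthickening dl S (each point has sup distance <= dl from f / t in S). For fixed r the boxes are pairwise disjoint (f_i = f'_i mod M and the half open intervals [f_i, f_i + M) meet only if equal). So (number of f in class r) * dl^4 <= volume (cthickening dl S) (for every finite set of such f; the volume is finite since cthickening of a compact set is bounded), in particular the set is finite. Summing over r in R: ncard <= card R * (t / M)^4 * volume (cthickening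 dl S).
 tendsto_measure_cthickening_of_isCompact: volume (cthickening dl S) -> volume S as dl -> 0 (volume finite for some dl); so for t large it is <= volume S + eta (toReal).
-/

set_option autoImplicit false
set_option linter.unusedSectionVars false
open scoped Classical


namespace H38T6

/-- the box at `f` -/
def Hi_box (M : ℕ) (t : ℝ) (f : Fin 4 → ℤ) : Set (Fin 4 → ℝ) :=
  Set.pi Set.univ fun i => Set.Ico ((f i : ℝ) / t) (((f i : ℝ) + M) / t)

theorem Hi_vol {M : ℕ} {t : ℝ} (f : Fin 4 → ℤ) :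
    MeasureTheory.volume (Hi_box M t f) = ENNReal.ofReal (M / t) ^ 4 := by
  unfold Hi_box
  rw [Real.volume_pi_Ico]
  have h : ∀ i : Fin 4, ((f i : ℝ) + M) / t - (f i : ℝ) / t = M / t := by
    intro i
    ring
  rw [Finset.prod_congr rfl (fun i _ => by rw [h i]), Finset.prod_const, Finset.card_univ,
    Fintype.card_fin]

theorem Hi_sub {S : Set (Fin 4 → ℝ)} {M : ℕ} {t : ℝ} (ht : 0 < t) {f : Fin 4 → ℤ}
    (hf : (fun i => (f i : ℝ) / t) ∈ S) : Hi_box M t f ⊆ Metric.cthickening (M / t) S := by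
  intro x hx
  refine Metric.mem_cthickening_of_dist_le x _ _ _ hf ?_
  have h0 : (0 : ℝ) ≤ M / t := div_nonneg (Nat.cast_nonneg _) ht.le
  rw [dist_pi_le_iff h0]
  intro i
  have h1 := hx i (Set.mem_univ i)
  rw [Set.mem_Ico] at h1
  rw [Real.dist_eq, abs_of_nonneg (sub_nonneg.2 h1.1)]
  have h2 : ((f i : ℝ) + M) / t = (f i : ℝ) / t + M / t := by ring
  rw [h2] at h1
  linarith [h1.2]

theorem Hi_disj {M : ℕ} {t : ℝ} (ht : 0 < t) {f f' : Fin 4 → ℤ}
    (h : (fun i => (f i : ZMod M)) = fun i => (f' i : ZMod M)) (hne : f ≠ f') :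
    Disjoint (Hi_box M t f) (Hi_box M t f') := by
  rw [Set.disjoint_left]
  intro x hx hx'
  apply hne
  funext i
  have h1 := hx i (Set.mem_univ i)
  have h2 := hx' i (Set.mem_univ i)
  rw [Set.mem_Ico] at h1 h2
  have a1 : (f i : ℝ) ≤ x i * t := (div_le_iff₀ ht).1 h1.1
  have a2 : x i * t < (f i : ℝ) + M := (lt_div_iff₀ ht).1 h1.2
  have b1 : (f' i : ℝ) ≤ x i * t := (div_le_iff₀ ht).1 h2.1
  have b2 : x i * t < (f' i : ℝ) + M := (lt_div_iff₀ ht).1 h2.2
  have c1 : (f i : ℝ) < (f' i : ℝ) + M := lt_of_le_of_lt a1 b2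
  have c2 : (f' i : ℝ) < (f i : ℝ) + M := lt_of_le_of_lt b1 a2
  have d1 : f i < f' i + M := by exact_mod_cast c1
  have d2 : f' i < f i + M := by exact_mod_cast c2
  have e1 : (f i : ZMod M) = (f' i : ZMod M) := congrFun h i
  rw [ZMod.intCast_eq_intCast_iff_dvd_sub] at e1
  have e2 : |f' i - f i| < M := by
    rw [abs_lt]
    constructor <;> linarith
  exact (sub_eq_zero.1 (Int.eq_zero_of_abs_lt_dvd e1 e2)).symm

theorem Hi_class {S : Set (Fin 4 → ℝ)} (hS : IsCompact S) {M : ℕ} (hM : 0 < M) {t : ℝ}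
    (ht : 0 < t) (F : Finset (Fin 4 → ℤ)) (hF : ∀ f ∈ F, (fun i => (f i : ℝ) / t) ∈ S)
    (r : Fin 4 → ZMod M) (hr : ∀ f ∈ F, (fun i => (f i : ZMod M)) = r) :
    (F.card : ℝ) ≤ (t / M) ^ 4 * (MeasureTheory.volume (Metric.cthickening (M / t) S)).toReal := by
  have hMt : 0 < (M : ℝ) / t := div_pos (Nat.cast_pos.2 hM) ht
  have h1 : MeasureTheory.volume (⋃ f ∈ F, Hi_box M t f) =
      ∑ f ∈ F, MeasureTheory.volume (Hi_box M t f) := by
    refine MeasureTheory.measure_biUnion_finset ?_ ?_
    · intro f hf f' hf' hne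
      exact Hi_disj ht ((hr f (Finset.mem_coe.1 hf)).trans (hr f' (Finset.mem_coe.1 hf')).symm) hne
    · intro f _
      exact MeasurableSet.univ_pi fun i => measurableSet_Ico
  have h2 : MeasureTheory.volume (⋃ f ∈ F, Hi_box M t f) ≤
      MeasureTheory.volume (Metric.cthickening (M / t) S) := by
    refine MeasureTheory.measure_mono ?_
    refine Set.iUnion₂_subset fun f hf => ?_
    exact Hi_sub ht (hF f hf)
  have h3 : ∑ f ∈ F, MeasureTheory.volume (Hi_box M t f) = F.card * ENNReal.ofReal (M / t) ^ 4 := by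
    rw [Finset.sum_congr rfl (fun f _ => Hi_vol f), Finset.sum_const, nsmul_eq_mul]
  rw [h1, h3] at h2
  have hfin : MeasureTheory.volume (Metric.cthickening (M / t) S) ≠ ⊤ :=
    hS.isBounded.cthickening.measure_lt_top.ne
  have h4 := ENNReal.toReal_mono hfin h2
  rw [ENNReal.toReal_mul, ENNReal.toReal_natCast, ENNReal.toReal_pow,
    ENNReal.toReal_ofReal hMt.le] at h4
  have h5 : (t / M) ^ 4 * ((M : ℝ) / t) ^ 4 = 1 := by
    rw [← mul_pow, div_mul_div_comm, mul_comm, div_self, one_pow]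
    exact mul_ne_zero (Nat.cast_pos.2 hM).ne' ht.ne'
  calc (F.card : ℝ) = (t / M) ^ 4 * (F.card * ((M : ℝ) / t) ^ 4) := by
        rw [mul_left_comm, h5, mul_one]
    _ ≤ _ := mul_le_mul_of_nonneg_left h4 (pow_nonneg (div_nonneg ht.le (Nat.cast_nonneg _)) _)

theorem Hi_fin {S : Set (Fin 4 → ℝ)} (hS : IsCompact S) {t : ℝ} (ht : 0 < t) :
    {f : Fin 4 → ℤ | (fun i => (f i : ℝ) / t) ∈ S}.Finite := by
  obtain ⟨ρ, hρ⟩ := hS.isBounded.subset_closedBall (0 : Fin 4 → ℝ)
  refine (Set.finite_Icc (fun _ : Fin 4 => -⌈ρ * t⌉) (fun _ : Fin 4 => ⌈ρ * t⌉)).subset ?_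
  intro f hf
  have h1 := hρ hf
  rw [mem_closedBall_zero_iff] at h1
  have h2 : ∀ i, |(f i : ℝ)| ≤ ρ * t := by
    intro i
    have h3 := (norm_le_pi_norm (fun i => (f i : ℝ) / t) i).trans h1
    rw [Real.norm_eq_abs, abs_div, abs_of_pos ht, div_le_iff₀ ht] at h3
    exact h3
  have h4 : ∀ i, f i ≤ ⌈ρ * t⌉ ∧ -⌈ρ * t⌉ ≤ f i := by
    intro i
    have h5 := (h2 i).trans (Int.le_ceil _)
    have h6 : |f i| ≤ ⌈ρ * t⌉ := by exact_mod_cast h5
    rw [abs_le] at h6
    exact ⟨h6.2, h6.1⟩
  exact ⟨fun i => (h4 i).2, fun i => (h4 i).1⟩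

theorem box_count {S : Set (Fin 4 → ℝ)} (hS : IsCompact S) {M : ℕ} (hM : 0 < M)
    (R : Finset (Fin 4 → ZMod M)) {η : ℝ} (hη : 0 < η) : ∃ t₀ : ℝ, 0 < t₀ ∧ ∀ t ≥ t₀,
      {f : Fin 4 → ℤ | (fun i => (f i : ℝ) / t) ∈ S ∧ (fun i => (f i : ZMod M)) ∈ R}.Finite ∧
      (Set.ncard {f : Fin 4 → ℤ | (fun i => (f i : ℝ) / t) ∈ S ∧
        (fun i => (f i : ZMod M)) ∈ R} : ℝ) ≤
        R.card * (t / M) ^ 4 * ((MeasureTheory.volume S).toReal + η) := by
  have hM0 : (0 : ℝ) < M := Nat.cast_pos.2 hM
  have hSf : MeasureTheory.volume S ≠ ⊤ := hS.measure_lt_top.ne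
  have hlim := tendsto_measure_cthickening_of_isCompact
    (μ := (MeasureTheory.volume : MeasureTheory.Measure (Fin 4 → ℝ))) hS
  have hlt : MeasureTheory.volume S < MeasureTheory.volume S + ENNReal.ofReal η :=
    ENNReal.lt_add_right hSf (ENNReal.ofReal_pos.2 hη).ne'
  have hev := hlim.eventually_lt_const hlt
  obtain ⟨ε, hε, hε2⟩ := Metric.eventually_nhds_iff.1 hev
  refine ⟨M / ε + 1, by positivity, fun t ht => ?_⟩
  have ht0 : 0 < t := lt_of_lt_of_le (by positivity) ht
  have hMt : (M : ℝ) / t < ε := by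
    rw [div_lt_iff₀ ht0]
    have h1 : (M : ℝ) / ε < t := by linarith
    rw [div_lt_iff₀ hε] at h1
    linarith
  have hV := hε2 (y := (M : ℝ) / t) (by
    rw [dist_zero_right, Real.norm_eq_abs, abs_of_pos (div_pos hM0 ht0)]
    exact hMt)
  have hV2 : (MeasureTheory.volume (Metric.cthickening ((M : ℝ) / t) S)).toReal ≤
      (MeasureTheory.volume S).toReal + η := by
    have h1 := ENNReal.toReal_mono (ENNReal.add_ne_top.2 ⟨hSf, ENNReal.ofReal_ne_top⟩) hV.le
    rwa [ENNReal.toReal_add hSf ENNReal.ofReal_ne_top, ENNReal.toReal_ofReal hη.le] at h1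
  have hfin : {f : Fin 4 → ℤ | (fun i => (f i : ℝ) / t) ∈ S ∧
      (fun i => (f i : ZMod M)) ∈ R}.Finite := (Hi_fin hS ht0).subset fun f hf => hf.1
  refine ⟨hfin, ?_⟩
  rw [Set.ncard_eq_toFinset_card _ hfin]
  have hmem : ∀ f ∈ hfin.toFinset, (fun i => (f i : ℝ) / t) ∈ S ∧
      (fun i => (f i : ZMod M)) ∈ R := fun f hf => (Set.Finite.mem_toFinset hfin).1 hf
  have hcard := Finset.card_eq_sum_card_fiberwise (f := fun f : Fin 4 → ℤ =>
    (fun i => (f i : ZMod M) : Fin 4 → ZMod M)) (s := hfin.toFinset) (t := R)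
    (fun f hf => (hmem f (Finset.mem_coe.1 hf)).2)
  rw [hcard, Nat.cast_sum]
  have hb : ∀ r ∈ R, ((hfin.toFinset.filter (fun f : Fin 4 → ℤ =>
      (fun i => (f i : ZMod M) : Fin 4 → ZMod M) = r)).card : ℝ) ≤
      (t / M) ^ 4 * ((MeasureTheory.volume S).toReal + η) := by
    intro r _
    refine (Hi_class hS hM ht0 _ (fun f hf => ?_) r (fun f hf => ?_)).trans ?_
    · exact (hmem f (Finset.mem_filter.1 hf).1).1
    · exact (Finset.mem_filter.1 hf).2
    · exact mul_le_mul_of_nonneg_left hV2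
        (pow_nonneg (div_nonneg ht0.le (Nat.cast_nonneg _)) _)
  refine (Finset.sum_le_sum hb).trans ?_
  rw [Finset.sum_const, nsmul_eq_mul, mul_assoc]

end H38T6
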