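import Pool.Agent.H38.T6.Def2

/-!
Row Hj. (about 170 lines): integrals.
arc: for r > 0 the lower integral of 1 / sqrt(r^2 - u^2) over |u| < r is at most pi: it is the derivative of arcsin (u / r), nonnegative; intervalIntegral / FTC for nonnegative derivatives (MeasureTheory.lintegral version: integrableOn_deriv_of_nonneg and integral_eq_sub_of_hasDeriv_right, or monotone convergence over [-r+1/n, r-1/n] where the integral is arcsin(..) - arcsin(..) <= pi).
inv_sq: for 0 < x <= y: lower integral of a^-2 over [x, y] is 1/x - 1/y (integral_rpow / FTC with -1/a).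
tri: the lower integral of (1 - sqrt 3 A) over 0 < A < 1/sqrt 3 is 1/(2 sqrt 3).
quad: the volume of a set of pairs after the affine change (c, d) -> (A, U) = (b^2 - a c, a^2 d - 3 a b c + 2 b^3), a > 0: volume {(c, d) | (A, U) in T} = a^-3 volume T for measurable T: Tonelli in two steps: for fixed c, d -> U is affine with slope a^2 (Real.volume_preimage_mul_left, measure_preimage_add...), and c -> A is affine with slope -a; or MeasureTheory.Measure.addHaar_preimage_linearMap with determinant -a^3 and translation invariance.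
-/

/-!
Row Hj. (about 170 lines): integrals.
arc: for r > 0 the lower integral of 1 / sqrt(r^2 - u^2) over |u| < r is at most pi: it is the derivative of arcsin (u / r), nonnegative; intervalIntegral / FTC for nonnegative derivatives (MeasureTheory.lintegral version: integrableOn_deriv_of_nonneg and integral_eq_sub_of_hasDeriv_right, or monotone convergence over [-r+1/n, r-1/n] where the integral is arcsin(..) - arcsin(..) <= pi).
inv_sq: for 0 < x <= y: lower integral of a^-2 over [x, y] is 1/x - 1/y (integral_rpow / FTC with -1/a).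
tri: the lower integral of (1 - sqrt 3 A) over 0 < A < 1/sqrt 3 is 1/(2 sqrt 3).
quad: the volume of a set of pairs after the affine change (c, d) -> (A, U) = (b^2 - a c, a^2 d - 3 a b c + 2 b^3), a > 0: volume {(c, d) | (A, U) in T} = a^-3 volume T for measurable T: Tonelli in two steps: for fixed c, d -> U is affine with slope a^2 (Real.volume_preimage_mul_left, measure_preimage_add...), and c -> A is affine with slope -a; or MeasureTheory.Measure.addHaar_preimage_linearMap with determinant -a^3 and translation invariance.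
-/

set_option autoImplicit false
set_option linter.unusedSectionVars false
set_option linter.unusedVariables false
open scoped Classical


namespace H38T6

open MeasureTheory

theorem Hj_ftc {g g' : ℝ → ℝ} {a b : ℝ} (hab : a ≤ b) (hc : ContinuousOn g (Set.Icc a b))
    (hd : ∀ x ∈ Set.Ioo a b, HasDerivAt g (g' x) x) (hp : ∀ x ∈ Set.Ioo a b, 0 ≤ g' x) :
    ∫⁻ x in Set.Ioo a b, ENNReal.ofReal (g' x) ≤ ENNReal.ofReal (g b - g a) := by
  have h1 : IntegrableOn g' (Set.Ioc a b) := intervalIntegral.integrableOn_deriv_of_nonneg hc hd hp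
  have h2 : IntegrableOn g' (Set.Ioo a b) := h1.mono_set Set.Ioo_subset_Ioc_self
  have h3 : 0 ≤ᵐ[volume.restrict (Set.Ioo a b)] g' :=
    (ae_restrict_iff' measurableSet_Ioo).2 (ae_of_all _ hp)
  have h4 := intervalIntegral.integral_eq_sub_of_hasDerivAt_of_le hab hc hd
    ((intervalIntegrable_iff_integrableOn_Ioc_of_le hab).2 h1)
  rw [intervalIntegral.integral_of_le hab, integral_Ioc_eq_integral_Ioo] at h4
  rw [← h4, ofReal_integral_eq_lintegral_ofReal h2 h3]

theorem arc {r : ℝ} (hr : 0 < r) :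
    ∫⁻ u in Set.Ioo (-r) r, ENNReal.ofReal (1 / Real.sqrt (r ^ 2 - u ^ 2)) ≤
      ENNReal.ofReal Real.pi := by
  have h := Hj_ftc (g := fun u => Real.arcsin (u / r)) (g' := fun u => 1 / Real.sqrt (r ^ 2 - u ^ 2))
    (a := -r) (b := r) (by linarith)
    (Real.continuous_arcsin.comp (continuous_id.div_const r)).continuousOn ?_ ?_
  · refine h.trans (ENNReal.ofReal_le_ofReal ?_)
    rw [neg_div, div_self hr.ne', Real.arcsin_neg, Real.arcsin_one]
    linarith
  · intro u hu
    have h1 : u / r ≠ -1 := by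
      intro h
      rw [div_eq_iff hr.ne'] at h
      have := hu.1
      linarith
    have h2 : u / r ≠ 1 := by
      intro h
      rw [div_eq_iff hr.ne'] at h
      have := hu.2
      linarith
    have h3 := (Real.hasDerivAt_arcsin h1 h2).comp u ((hasDerivAt_id u).div_const r)
    have h4 : Real.sqrt (r ^ 2 - u ^ 2) = r * Real.sqrt (1 - (u / r) ^ 2) := by
      have e : r ^ 2 - u ^ 2 = r ^ 2 * (1 - (u / r) ^ 2) := by
        field_simp
      rw [e, Real.sqrt_mul (sq_nonneg r), Real.sqrt_sq hr.le]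
    have h5 : 1 / Real.sqrt (r ^ 2 - u ^ 2) = 1 / Real.sqrt (1 - (u / r) ^ 2) * (1 / r) := by
      rw [h4, one_div_mul_one_div, mul_comm r]
    change HasDerivAt (fun u => Real.arcsin (u / r)) (1 / Real.sqrt (r ^ 2 - u ^ 2)) u
    rw [h5]
    exact h3
  · intro u _
    exact div_nonneg zero_le_one (Real.sqrt_nonneg _)

theorem inv_sq {x y : ℝ} (hx : 0 < x) (hxy : x ≤ y) :
    ∫⁻ a in Set.Icc x y, ENNReal.ofReal (1 / a ^ 2) ≤ ENNReal.ofReal (1 / x - 1 / y) := by
  rw [← Measure.restrict_congr_set (Ioo_ae_eq_Icc (μ := (volume : Measure ℝ)) (a := x) (b := y))]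
  have h := Hj_ftc (g := fun a => -a⁻¹) (g' := fun a => 1 / a ^ 2) (a := x) (b := y) hxy ?_ ?_ ?_
  · refine h.trans (ENNReal.ofReal_le_ofReal (le_of_eq ?_))
    rw [one_div, one_div]
    ring
  · intro a ha
    have ha0 : a ≠ 0 := (lt_of_lt_of_le hx ha.1).ne'
    exact (continuousAt_inv₀ ha0).neg.continuousWithinAt
  · intro a ha
    have ha0 : a ≠ 0 := (hx.trans ha.1).ne'
    have h1 := (hasDerivAt_inv ha0).neg
    rw [neg_neg, ← one_div] at h1
    exact h1
  · intro a _
    exact div_nonneg zero_le_one (sq_nonneg a)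

theorem tri : ∫⁻ A in Set.Ioo (0 : ℝ) (1 / Real.sqrt 3), ENNReal.ofReal (1 - Real.sqrt 3 * A) ≤
    ENNReal.ofReal (1 / (2 * Real.sqrt 3)) := by
  have h3 : 0 < Real.sqrt 3 := Real.sqrt_pos.2 (by norm_num)
  have hs : Real.sqrt 3 * Real.sqrt 3 = 3 := Real.mul_self_sqrt (by norm_num)
  have h := Hj_ftc (g := fun A => A - Real.sqrt 3 * (A ^ 2 / 2))
    (g' := fun A => 1 - Real.sqrt 3 * A)
    (a := 0) (b := 1 / Real.sqrt 3) (by positivity) (by fun_prop) ?_ ?_
  · refine h.trans (ENNReal.ofReal_le_ofReal (le_of_eq ?_))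
    field_simp
    ring
  · intro A _
    have h1 : HasDerivAt (fun A : ℝ => A ^ 2 / 2) A A := by
      have h2 := (hasDerivAt_pow 2 A).div_const 2
      have e : ((2 : ℕ) : ℝ) * A ^ (2 - 1) / 2 = A := by
        push_cast
        ring
      rw [e] at h2
      exact h2
    exact (hasDerivAt_id A).sub (h1.const_mul (Real.sqrt 3))
  · intro A hA
    have h1 := hA.2
    rw [lt_div_iff₀ h3] at h1
    change 0 ≤ 1 - Real.sqrt 3 * A
    linarith

theorem quad {a : ℝ} (ha : 0 < a) (b : ℝ) {T : Set (ℝ × ℝ)} (hT : MeasurableSet T) :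
    volume {x : ℝ × ℝ | (b ^ 2 - a * x.1, a ^ 2 * x.2 - 3 * a * b * x.1 + 2 * b ^ 3) ∈ T} =
      ENNReal.ofReal (1 / a ^ 3) * volume T := by
  have hdet : LinearMap.det (Matrix.toLin (Module.Basis.finTwoProd ℝ) (Module.Basis.finTwoProd ℝ)
      !![-a, 0; -(3 * a * b), a ^ 2]) = -a ^ 3 := by
    rw [LinearMap.det_toLin, Matrix.det_fin_two_of]
    ring
  have h1 := Measure.addHaar_preimage_linearMap (volume : Measure (ℝ × ℝ))
    (f := Matrix.toLin (Module.Basis.finTwoProd ℝ) (Module.Basis.finTwoProd ℝ)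
      !![-a, 0; -(3 * a * b), a ^ 2])
    (by
      rw [hdet]
      exact neg_ne_zero.2 (pow_ne_zero _ ha.ne'))
    ((fun y : ℝ × ℝ => y + (b ^ 2, 2 * b ^ 3)) ⁻¹' T)
  rw [measure_preimage_add_right, hdet] at h1
  have h2 : |(-a ^ 3)⁻¹| = 1 / a ^ 3 := by
    rw [abs_inv, abs_neg, abs_of_pos (pow_pos ha 3), one_div]
  rw [h2] at h1
  rw [← h1]
  congr 1
  ext x
  rw [Set.mem_preimage, Set.mem_preimage, Matrix.toLin_finTwoProd_apply, Prod.mk_add_mk]
  have e1 : -a * x.1 + 0 * x.2 + b ^ 2 = b ^ 2 - a * x.1 := by ring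
  have e2 : -(3 * a * b) * x.1 + a ^ 2 * x.2 + 2 * b ^ 3 =
    a ^ 2 * x.2 - 3 * a * b * x.1 + 2 * b ^ 3 := by ring
  rw [e1, e2]
  exact Iff.rfl

end H38T6
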