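import Pool.Agent.H38.T6.Hj

/-!
Row Hk. (about 200 lines): the volume of the region.
PROOF. (1) volume on Fin 4 -> R: the map v -> (v 0, v 1, (v 2, v 3)) is measure preserving onto R x R x (R x R) (MeasureTheory.volume_preserving_piFinSuccAbove / volume_preserving_finTwoArrow, compose; MeasurableEquiv.piFinSuccAbove). So volume (Rg ep) = volume of S := {(a, b, (c, d)) | conditions}.
 (2) Tonelli (Measure.prod_apply for the measurable set S): volume S = lintegral over a of lintegral over b of volume {(c, d) | ..}. With A = b^2 - a c, U = a^2 d - 3 a b c + 2 b^3 one has a^2 Dz = 4 A^3 - U^2, so for a >= ep, 0 <= b <= a the section is contained in the preimage of T_a := {(A, U) | 0 < A and 3 A^2 a^2 <= 4 A^3 - U^2 and 4 A^3 - U^2 <= a^2} (A > 0 because 4 A >= 3 a^2): quad: volume <= a^-3 volume T_a. The integral over b in [0, a] gives the factor a: volume S <= lintegral over a > 0 of a^-2 volume T_a.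
 (3) volume T_a = lintegral over A, U of the indicator (prod_apply), and exchange (lintegral_lintegral_swap, everything nonnegative measurable): volume S <= lintegral over A > 0, U of (lintegral over a > 0 with 3 A^2 a^2 <= P <= a^2 of a^-2), P := 4 A^3 - U^2. The inner set is empty unless P > 0 and sqrt 3 A <= 1 (P <= a^2, P > 0 as P >= 3 A^2 a^2 > 0), and then a lies in [sqrt P, sqrt P / (sqrt 3 A)]: inv_sq: inner <= (1 - sqrt 3 A)/ sqrt P. (If A > 1/sqrt 3 it is empty: sqrt P <= a and sqrt 3 A a <= sqrt P. A = 1/sqrt 3 is a null set or gives zero.)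
 (4) For fixed A in (0, 1/sqrt 3): |U| < r := 2 A^(3/2) (P > 0), P = r^2 - U^2: arc: lintegral over U <= pi (1 - sqrt 3 A). (5) tri: total <= pi / (2 sqrt 3).
-/

set_option autoImplicit false
set_option linter.unusedSectionVars false
open scoped Classical


namespace H38T6

open MeasureTheory

/-- the region in the coordinates `(a, A, U)` -/
def HkG : Set (ℝ × (ℝ × ℝ)) :=
  {q | 0 < q.1 ∧ 0 < q.2.1 ∧ 3 * q.2.1 ^ 2 * q.1 ^ 2 ≤ 4 * q.2.1 ^ 3 - q.2.2 ^ 2 ∧
    4 * q.2.1 ^ 3 - q.2.2 ^ 2 ≤ q.1 ^ 2}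

/-- a section of `HkG` -/
def HkT (a : ℝ) : Set (ℝ × ℝ) :=
  {p | 0 < a ∧ 0 < p.1 ∧ 3 * p.1 ^ 2 * a ^ 2 ≤ 4 * p.1 ^ 3 - p.2 ^ 2 ∧
    4 * p.1 ^ 3 - p.2 ^ 2 ≤ a ^ 2}

/-- the region in the coordinates `(a, b, c, d)` -/
def HkS : Set (ℝ × (ℝ × (ℝ × ℝ))) :=
  {x | 0 < x.1 ∧ 0 ≤ x.2.1 ∧ x.2.1 ≤ x.1 ∧
    (x.2.1 ^ 2 - x.1 * x.2.2.1, x.1 ^ 2 * x.2.2.2 - 3 * x.1 * x.2.1 * x.2.2.1 + 2 * x.2.1 ^ 3)
      ∈ HkT x.1}

/-- the integrand -/
noncomputable def Hkf (a : ℝ) (p : ℝ × ℝ) : ENNReal :=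
  HkG.indicator (fun q => ENNReal.ofReal (1 / q.1 ^ 2)) (a, p)

lemma HkG_meas : MeasurableSet HkG := by
  have h : HkG = {q : ℝ × (ℝ × ℝ) | 0 < q.1} ∩ ({q | 0 < q.2.1} ∩
      ({q | 3 * q.2.1 ^ 2 * q.1 ^ 2 ≤ 4 * q.2.1 ^ 3 - q.2.2 ^ 2} ∩
        {q | 4 * q.2.1 ^ 3 - q.2.2 ^ 2 ≤ q.1 ^ 2})) := by
    ext x
    rfl
  rw [h]
  refine MeasurableSet.inter ?_ (MeasurableSet.inter ?_ (MeasurableSet.inter ?_ ?_))
  · exact measurableSet_lt measurable_const (by fun_prop)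
  · exact measurableSet_lt measurable_const (by fun_prop)
  · exact measurableSet_le (by fun_prop) (by fun_prop)
  · exact measurableSet_le (by fun_prop) (by fun_prop)

lemma HkT_meas (a : ℝ) : MeasurableSet (HkT a) := by
  have h : HkT a = Prod.mk a ⁻¹' HkG := by
    ext x
    rfl
  rw [h]
  exact measurable_prodMk_left HkG_meas

lemma HkS_meas : MeasurableSet HkS := by
  have h : HkS = {x : ℝ × (ℝ × (ℝ × ℝ)) | 0 < x.1} ∩ ({x | 0 ≤ x.2.1} ∩ ({x | x.2.1 ≤ x.1} ∩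
      (fun x : ℝ × (ℝ × (ℝ × ℝ)) => (x.1, (x.2.1 ^ 2 - x.1 * x.2.2.1,
        x.1 ^ 2 * x.2.2.2 - 3 * x.1 * x.2.1 * x.2.2.1 + 2 * x.2.1 ^ 3))) ⁻¹' HkG)) := by
    ext x
    rfl
  rw [h]
  refine MeasurableSet.inter ?_ (MeasurableSet.inter ?_ (MeasurableSet.inter ?_ ?_))
  · exact measurableSet_lt measurable_const (by fun_prop)
  · exact measurableSet_le measurable_const (by fun_prop)
  · exact measurableSet_le (by fun_prop) (by fun_prop)
  · exact (show Measurable (fun x : ℝ × (ℝ × (ℝ × ℝ)) => (x.1, (x.2.1 ^ 2 - x.1 * x.2.2.1,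
        x.1 ^ 2 * x.2.2.2 - 3 * x.1 * x.2.1 * x.2.2.1 + 2 * x.2.1 ^ 3))) by fun_prop) HkG_meas

/-- step 1 -/
lemma Hk_one {ε : ℝ} (hε : 0 < ε) : volume (Rg ε) ≤ volume HkS := by
  have h2 : MeasurePreserving (MeasurableEquiv.finTwoArrow : (Fin 2 → ℝ) ≃ᵐ ℝ × ℝ) volume volume :=
    volume_preserving_finTwoArrow ℝ
  have h3 := (volume_preserving_piFinSuccAbove (fun _ : Fin 3 => ℝ) 0)
  have h4 := (volume_preserving_piFinSuccAbove (fun _ : Fin 4 => ℝ) 0)
  have h5 := ((MeasurePreserving.id (volume : Measure ℝ)).prod h2).comp h3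
  have h6 := ((MeasurePreserving.id (volume : Measure ℝ)).prod h5).comp h4
  refine le_trans (measure_mono ?_) (h6.measure_preimage HkS_meas.nullMeasurableSet).le
  intro v hv
  obtain ⟨ha, hb, hb', hA, hD, hD'⟩ := hv
  have ha0 : 0 < v 0 := hε.trans_le ha
  have key : ∀ x : ℝ × (ℝ × (ℝ × ℝ)), x = (v 0, (v 1, (v 2, v 3))) → x ∈ HkS := by
    rintro x rfl
    have hA0 : 0 < v 1 ^ 2 - v 0 * v 2 := by nlinarith
    have hid : 4 * (v 1 ^ 2 - v 0 * v 2) ^ 3 - (v 0 ^ 2 * v 3 - 3 * v 0 * v 1 * v 2 + 2 * v 1 ^ 3) ^ 2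
        = v 0 ^ 2 * Dz v := by
      unfold Dz
      ring
    refine ⟨ha0, hb, hb', ha0, hA0, ?_, ?_⟩
    · change 3 * (v 1 ^ 2 - v 0 * v 2) ^ 2 * v 0 ^ 2 ≤ 4 * (v 1 ^ 2 - v 0 * v 2) ^ 3 -
        (v 0 ^ 2 * v 3 - 3 * v 0 * v 1 * v 2 + 2 * v 1 ^ 3) ^ 2
      rw [hid]
      nlinarith [mul_le_mul_of_nonneg_left hD (sq_nonneg (v 0))]
    · change 4 * (v 1 ^ 2 - v 0 * v 2) ^ 3 -
        (v 0 ^ 2 * v 3 - 3 * v 0 * v 1 * v 2 + 2 * v 1 ^ 3) ^ 2 ≤ v 0 ^ 2
      rw [hid]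
      nlinarith [mul_le_mul_of_nonneg_left hD' (sq_nonneg (v 0))]
  exact key _ rfl

/-- step 2 -/
lemma Hk_two : volume HkS = ∫⁻ a : ℝ, ∫⁻ p : ℝ × ℝ, Hkf a p := by
  rw [show (volume : Measure (ℝ × (ℝ × (ℝ × ℝ)))) = (volume : Measure ℝ).prod volume from rfl,
    Measure.prod_apply HkS_meas]
  refine lintegral_congr fun a => ?_
  have hmeas : MeasurableSet (Prod.mk a ⁻¹' HkS) := measurable_prodMk_left HkS_meas
  have hR : ∫⁻ p : ℝ × ℝ, Hkf a p = ENNReal.ofReal (1 / a ^ 2) * volume (HkT a) := by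
    have : (fun p : ℝ × ℝ => Hkf a p) = (HkT a).indicator (fun _ => ENNReal.ofReal (1 / a ^ 2)) := by
      funext p
      rfl
    rw [this, lintegral_indicator (HkT_meas a), setLIntegral_const]
  rw [hR]
  rcases le_or_gt a 0 with ha | ha
  · have e1 : Prod.mk a ⁻¹' HkS = ∅ := by
      ext x
      simp only [Set.mem_preimage, Set.mem_empty_iff_false, iff_false]
      intro h
      exact absurd h.1 (not_lt.2 ha)
    have e2 : HkT a = ∅ := by
      ext x
      simp only [Set.mem_empty_iff_false, iff_false]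
      intro h
      exact absurd h.1 (not_lt.2 ha)
    rw [e1, e2, measure_empty, measure_empty, mul_zero]
  · rw [show (volume : Measure (ℝ × (ℝ × ℝ))) = (volume : Measure ℝ).prod volume from rfl,
      Measure.prod_apply hmeas]
    have e1 : ∀ b : ℝ, (volume : Measure (ℝ × ℝ)) (Prod.mk b ⁻¹' (Prod.mk a ⁻¹' HkS)) =
        (Set.Icc 0 a).indicator (fun _ => ENNReal.ofReal (1 / a ^ 3) * volume (HkT a)) b := by
      intro b
      by_cases hb : b ∈ Set.Icc 0 a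
      · rw [Set.indicator_of_mem hb, ← quad ha b (HkT_meas a)]
        congr 1
        ext x
        simp only [Set.mem_preimage, Set.mem_ofPred_eq]
        exact ⟨fun h => h.2.2.2, fun h => ⟨ha, hb.1, hb.2, h⟩⟩
      · rw [Set.indicator_of_notMem hb]
        have : Prod.mk b ⁻¹' (Prod.mk a ⁻¹' HkS) = ∅ := by
          ext x
          simp only [Set.mem_preimage, Set.mem_empty_iff_false, iff_false]
          intro h
          exact hb ⟨h.2.1, h.2.2.1⟩
        rw [this, measure_empty]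
    rw [lintegral_congr e1, lintegral_indicator measurableSet_Icc, setLIntegral_const,
      Real.volume_Icc, sub_zero, mul_comm, ← mul_assoc, ← ENNReal.ofReal_mul ha.le]
    congr 2
    field_simp

lemma Hkf_meas : Measurable (Function.uncurry Hkf) := by
  have : Function.uncurry Hkf = HkG.indicator (fun q : ℝ × (ℝ × ℝ) => ENNReal.ofReal (1 / q.1 ^ 2)) := by
    funext q
    rfl
  rw [this]
  exact (by fun_prop : Measurable fun q : ℝ × (ℝ × ℝ) => ENNReal.ofReal (1 / q.1 ^ 2)).indicator HkG_meas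

/-- the majorant after the integration over `a` -/
noncomputable def Hkg (p : ℝ × ℝ) : ENNReal :=
  {p : ℝ × ℝ | 0 < p.1 ∧ p.1 < 1 / Real.sqrt 3 ∧ 0 < 4 * p.1 ^ 3 - p.2 ^ 2}.indicator
    (fun p => ENNReal.ofReal (1 - Real.sqrt 3 * p.1) *
      ENNReal.ofReal (1 / Real.sqrt (4 * p.1 ^ 3 - p.2 ^ 2))) p

lemma Hkg_meas : Measurable Hkg := by
  unfold Hkg
  refine Measurable.indicator (by fun_prop) ?_
  have h : {p : ℝ × ℝ | 0 < p.1 ∧ p.1 < 1 / Real.sqrt 3 ∧ 0 < 4 * p.1 ^ 3 - p.2 ^ 2} =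
      {p : ℝ × ℝ | 0 < p.1} ∩ ({p | p.1 < 1 / Real.sqrt 3} ∩ {p | 0 < 4 * p.1 ^ 3 - p.2 ^ 2}) := by
    ext x
    rfl
  rw [h]
  refine MeasurableSet.inter ?_ (MeasurableSet.inter ?_ ?_)
  · exact measurableSet_lt measurable_const (by fun_prop)
  · exact measurableSet_lt (by fun_prop) measurable_const
  · exact measurableSet_lt measurable_const (by fun_prop)

/-- step 3: the integral over `a` -/
lemma Hk_three (p : ℝ × ℝ) : ∫⁻ a : ℝ, Hkf a p ≤ Hkg p := by
  obtain ⟨A, U⟩ := p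
  set P := 4 * A ^ 3 - U ^ 2 with hP
  set I : Set ℝ := {a | 0 < a ∧ 0 < A ∧ 3 * A ^ 2 * a ^ 2 ≤ P ∧ P ≤ a ^ 2} with hI
  have e0 : (fun a : ℝ => Hkf a (A, U)) = I.indicator (fun a => ENNReal.ofReal (1 / a ^ 2)) := by
    funext a
    rfl
  rw [e0]
  have hs3 : 0 < Real.sqrt 3 := Real.sqrt_pos.2 (by norm_num)
  have hs3' : Real.sqrt 3 ^ 2 = 3 := Real.sq_sqrt (by norm_num)
  by_cases hAP : 0 < A ∧ 0 < P
  · obtain ⟨hA, hPpos⟩ := hAP
    have hsP : 0 < Real.sqrt P := Real.sqrt_pos.2 hPpos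
    set y := Real.sqrt P / (Real.sqrt 3 * A) with hy
    have hsA : 0 < Real.sqrt 3 * A := mul_pos hs3 hA
    have hsub : I ⊆ Set.Icc (Real.sqrt P) y := by
      rintro a ⟨ha, _, h1, h2⟩
      refine ⟨Real.sqrt_le_iff.2 ⟨ha.le, h2⟩, ?_⟩
      rw [hy, le_div_iff₀ hsA]
      apply Real.le_sqrt_of_sq_le
      calc (a * (Real.sqrt 3 * A)) ^ 2 = Real.sqrt 3 ^ 2 * A ^ 2 * a ^ 2 := by ring
        _ ≤ P := by rw [hs3']; exact h1
    have hle : ∫⁻ a : ℝ, I.indicator (fun a => ENNReal.ofReal (1 / a ^ 2)) a ≤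
        ∫⁻ a in Set.Icc (Real.sqrt P) y, ENNReal.ofReal (1 / a ^ 2) := by
      rw [← lintegral_indicator measurableSet_Icc]
      exact lintegral_mono fun a => Set.indicator_le_indicator_of_subset hsub (fun _ => bot_le) a
    refine hle.trans ?_
    rcases lt_or_ge A (1 / Real.sqrt 3) with h1 | h1
    · have h2 : Real.sqrt 3 * A < 1 := by
        rw [lt_div_iff₀ hs3] at h1
        linarith
      have hxy : Real.sqrt P ≤ y := by
        rw [hy, le_div_iff₀ hsA]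
        nlinarith
      refine (inv_sq hsP hxy).trans ?_
      unfold Hkg
      rw [Set.indicator_of_mem (show (A, U) ∈ {p : ℝ × ℝ | 0 < p.1 ∧ p.1 < 1 / Real.sqrt 3 ∧
        0 < 4 * p.1 ^ 3 - p.2 ^ 2} from ⟨hA, h1, hPpos⟩)]
      change _ ≤ ENNReal.ofReal (1 - Real.sqrt 3 * A) * ENNReal.ofReal (1 / Real.sqrt P)
      rw [← ENNReal.ofReal_mul (by linarith)]
      apply ENNReal.ofReal_le_ofReal
      apply le_of_eq
      rw [hy]
      field_simp
    · have h2 : 1 ≤ Real.sqrt 3 * A := by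
        rw [div_le_iff₀ hs3] at h1
        linarith
      have hxy : y ≤ Real.sqrt P := by
        rw [hy, div_le_iff₀ hsA]
        nlinarith
      have h3 : Set.Icc (Real.sqrt P) y ⊆ {Real.sqrt P} := by
        intro a ha
        exact le_antisymm (ha.2.trans hxy) ha.1
      have h4 : volume (Set.Icc (Real.sqrt P) y) = 0 :=
        measure_mono_null h3 (by simp)
      rw [setLIntegral_measure_zero _ _ h4]
      exact bot_le
  · have e1 : I = ∅ := by
      ext a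
      simp only [hI, Set.mem_ofPred_eq, Set.mem_empty_iff_false, iff_false]
      rintro ⟨ha, hA, h1, _⟩
      apply hAP
      refine ⟨hA, ?_⟩
      have : 0 < 3 * A ^ 2 * a ^ 2 := by positivity
      linarith
    rw [e1]
    simp

/-- step 4: the integral over `U` -/
lemma Hk_four (A : ℝ) : ∫⁻ U : ℝ, Hkg (A, U) ≤
    (Set.Ioo (0 : ℝ) (1 / Real.sqrt 3)).indicator
      (fun A => ENNReal.ofReal (1 - Real.sqrt 3 * A) * ENNReal.ofReal Real.pi) A := by
  by_cases hA : A ∈ Set.Ioo (0 : ℝ) (1 / Real.sqrt 3)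
  · rw [Set.indicator_of_mem hA]
    set r := 2 * (A * Real.sqrt A) with hr
    have hr0 : 0 < r := by
      have := Real.sqrt_pos.2 hA.1
      have := hA.1
      positivity
    have hr2 : r ^ 2 = 4 * A ^ 3 := by
      rw [hr, mul_pow, mul_pow, Real.sq_sqrt hA.1.le]
      ring
    have e1 : (fun U : ℝ => Hkg (A, U)) = (Set.Ioo (-r) r).indicator
        (fun U => ENNReal.ofReal (1 - Real.sqrt 3 * A) *
          ENNReal.ofReal (1 / Real.sqrt (r ^ 2 - U ^ 2))) := by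
      funext U
      unfold Hkg
      by_cases hU : U ∈ Set.Ioo (-r) r
      · have h1 : 0 < 4 * A ^ 3 - U ^ 2 := by
          rw [← hr2]
          nlinarith [hU.1, hU.2]
        rw [Set.indicator_of_mem hU, Set.indicator_of_mem (show (A, U) ∈ {p : ℝ × ℝ | 0 < p.1 ∧
          p.1 < 1 / Real.sqrt 3 ∧ 0 < 4 * p.1 ^ 3 - p.2 ^ 2} from ⟨hA.1, hA.2, h1⟩), hr2]
      · rw [Set.indicator_of_notMem hU, Set.indicator_of_notMem]
        rintro ⟨_, _, h1⟩
        apply hU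
        have h2 : U ^ 2 < r ^ 2 := by
          rw [hr2]
          have h3 : (0 : ℝ) < 4 * A ^ 3 - U ^ 2 := h1
          linarith
        exact abs_lt.1 (abs_lt_of_sq_lt_sq h2 hr0.le)
    rw [e1, lintegral_indicator measurableSet_Ioo, lintegral_const_mul _ (by fun_prop)]
    exact mul_le_mul_right (arc hr0) _
  · rw [Set.indicator_of_notMem hA]
    have e1 : (fun U : ℝ => Hkg (A, U)) = fun _ => 0 := by
      funext U
      unfold Hkg
      rw [Set.indicator_of_notMem]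
      rintro ⟨h1, h2, _⟩
      exact hA ⟨h1, h2⟩
    rw [e1]
    simp

theorem rg_volume {ε : ℝ} (hε : 0 < ε) :
    volume (Rg ε) ≤ ENNReal.ofReal (Real.pi / (2 * Real.sqrt 3)) := by
  calc volume (Rg ε) ≤ volume HkS := Hk_one hε
    _ = ∫⁻ a : ℝ, ∫⁻ p : ℝ × ℝ, Hkf a p := Hk_two
    _ = ∫⁻ p : ℝ × ℝ, ∫⁻ a : ℝ, Hkf a p :=
        lintegral_lintegral_swap Hkf_meas.aemeasurable
    _ ≤ ∫⁻ p : ℝ × ℝ, Hkg p := lintegral_mono Hk_three
    _ = ∫⁻ A : ℝ, ∫⁻ U : ℝ, Hkg (A, U) := by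
        rw [show (volume : Measure (ℝ × ℝ)) = (volume : Measure ℝ).prod volume from rfl,
          lintegral_prod _ Hkg_meas.aemeasurable]
    _ ≤ ∫⁻ A : ℝ, (Set.Ioo (0 : ℝ) (1 / Real.sqrt 3)).indicator
          (fun A => ENNReal.ofReal (1 - Real.sqrt 3 * A) * ENNReal.ofReal Real.pi) A :=
        lintegral_mono Hk_four
    _ = (∫⁻ A in Set.Ioo (0 : ℝ) (1 / Real.sqrt 3), ENNReal.ofReal (1 - Real.sqrt 3 * A)) *
          ENNReal.ofReal Real.pi := by
        rw [lintegral_indicator measurableSet_Ioo, lintegral_mul_const _ (by fun_prop)]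
    _ ≤ ENNReal.ofReal (1 / (2 * Real.sqrt 3)) * ENNReal.ofReal Real.pi :=
        mul_le_mul_left tri _
    _ = ENNReal.ofReal (Real.pi / (2 * Real.sqrt 3)) := by
        rw [← ENNReal.ofReal_mul (by positivity)]
        congr 1
        ring

end H38T6
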