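import Pool.Agent.H38.T6.Def2

/-!
Row Hl. (about 190 lines): the number of d.
Let A = b^2 - a c > 0, U(d) = a^2 d - 3 a b c + 2 b^3, a^2 Dz = 4 A^3 - U^2 (ring), Dz the value at (a, b, c, d). The condition is 3 A^2 <= Dz and Dz <= t^4, so 0 < 4 A^3 - U^2 <= a^2 t^4, i.e. U^2 < 4 A^3 and U^2 >= 4 A^3 - a^2 t^4.
int_count: the integers d with U(d) in an interval of length l (U affine of slope a^2) number at most l / a^2 + 1 (general lemma: a set of integers in a real interval [x, y] has at most y - x + 1 elements).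
Put x := A^(3/2) / a^2, y := t^4 / A^(3/2).
 Bound 1 (always): |U| < 2 A^(3/2): at most 4 x + 1.
 Bound 2 (if 2 a^2 t^4 <= 4 A^3): 4 A^3 - a^2 t^4 >= 2 A^3, sqrt2 A^(3/2) <= |U| <= 2 A^(3/2), and U^2 is in an interval of length a^2 t^4: |U| is in an interval of length <= a^2 t^4 / (2 sqrt2 A^(3/2)) (u2 - u1 = (u2^2 - u1^2)/(u2 + u1)), two signs: at most 2 (y / (2 sqrt 2) + 1) <= y + 2.
 If 4 A^3 < 2 a^2 t^4 then x <= y / 2 (x / y = A^3 / (a^2 t^4) < 1/2). So in all cases the number is <= 4 min(x, y) + 2.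
 min(x, y) <= x^(1/3) y^(2/3) = A^(-1/2) a^(-2/3) t^(8/3) (min^3 <= x y^2). Real powers: Real.rpow.
-/

set_option autoImplicit false
set_option linter.unusedSectionVars false
open scoped Classical


namespace H38T6

private theorem Hl_cnt (α β : ℝ) (h : α ≤ β) : {d : ℤ | α ≤ d ∧ (d : ℝ) ≤ β}.Finite ∧
    (Set.ncard {d : ℤ | α ≤ d ∧ (d : ℝ) ≤ β} : ℝ) ≤ β - α + 1 := by
  have hset : {d : ℤ | α ≤ d ∧ (d : ℝ) ≤ β} = ((Finset.Icc ⌈α⌉ ⌊β⌋ : Finset ℤ) : Set ℤ) := by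
    ext d
    rw [Finset.coe_Icc, Set.mem_Icc, Int.ceil_le, Int.le_floor]
    rfl
  rw [hset]
  refine ⟨Finset.finite_toSet _, ?_⟩
  rw [Set.ncard_coe_finset, Int.card_Icc]
  have h1 := Int.floor_le β
  have h2 := Int.le_ceil α
  rcases le_total 0 (⌊β⌋ + 1 - ⌈α⌉) with h3 | h3
  · have h4 : (((⌊β⌋ + 1 - ⌈α⌉).toNat : ℕ) : ℝ) = ((⌊β⌋ + 1 - ⌈α⌉ : ℤ) : ℝ) := by
      rw [← Int.cast_natCast, Int.toNat_of_nonneg h3]
    rw [h4]
    push_cast
    linarith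
  · rw [Int.toNat_of_nonpos h3, Nat.cast_zero]
    linarith

private theorem Hl_key {a b c : ℤ} (d : ℤ) :
    (a : ℝ) ^ 2 * ((Dz ![a, b, c, d] : ℤ) : ℝ) = 4 * ((b ^ 2 - a * c : ℤ) : ℝ) ^ 3 -
      ((a : ℝ) ^ 2 * d - (3 * a * b * c - 2 * (b : ℝ) ^ 3)) ^ 2 := by
  have e : Dz ![a, b, c, d] = 4 * (b ^ 2 - a * c) * (c ^ 2 - b * d) - (b * c - a * d) ^ 2 := rfl
  rw [e]
  push_cast
  ring

private theorem Hl_min {x y M : ℝ} (hx : 0 ≤ x) (hy : 0 ≤ y) (hM : 0 ≤ M)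
    (h : M ^ 3 = x * y ^ 2) : min x y ≤ M := by
  have hm : 0 ≤ min x y := le_min hx hy
  have h1 : min x y ^ 3 ≤ M ^ 3 := by
    rw [h]
    calc min x y ^ 3 = min x y * min x y ^ 2 := by ring
      _ ≤ x * y ^ 2 := mul_le_mul (min_le_left _ _)
          (pow_le_pow_left₀ hm (min_le_right _ _) 2) (by positivity) hx
  exact (pow_le_pow_iff_left₀ hm hM three_ne_zero).1 h1

theorem d_count {a b c : ℤ} (ha : 1 ≤ a) (hA : 0 < b ^ 2 - a * c) {t : ℝ} (ht : 1 ≤ t) :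
    {d : ℤ | 3 * (b ^ 2 - a * c) ^ 2 ≤ Dz ![a, b, c, d] ∧ ((Dz ![a, b, c, d] : ℤ) : ℝ) ≤ t ^ 4}.Finite ∧
    (Set.ncard {d : ℤ | 3 * (b ^ 2 - a * c) ^ 2 ≤ Dz ![a, b, c, d] ∧
      ((Dz ![a, b, c, d] : ℤ) : ℝ) ≤ t ^ 4} : ℝ) ≤
      4 * (t ^ (8 / 3 : ℝ) * (a : ℝ) ^ (-(2 / 3) : ℝ) /
        Real.sqrt ((b ^ 2 - a * c : ℤ) : ℝ)) + 2 := by
  obtain ⟨S, hS⟩ : ∃ S : Set ℤ, S = {d : ℤ | 3 * (b ^ 2 - a * c) ^ 2 ≤ Dz ![a, b, c, d] ∧
    ((Dz ![a, b, c, d] : ℤ) : ℝ) ≤ t ^ 4} := ⟨_, rfl⟩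
  rw [← hS]
  have hkey := fun d : ℤ => Hl_key (a := a) (b := b) (c := c) d
  obtain ⟨A, hAd⟩ : ∃ A : ℝ, A = ((b ^ 2 - a * c : ℤ) : ℝ) := ⟨_, rfl⟩
  have hA0 : 0 < A := by
    rw [hAd]
    exact_mod_cast hA
  rw [← hAd]
  obtain ⟨P, hPd⟩ : ∃ P : ℝ, P = (a : ℝ) ^ 2 := ⟨_, rfl⟩
  have ha1 : (1 : ℝ) ≤ a := by exact_mod_cast ha
  have ha0 : (0 : ℝ) < a := by linarith
  have hP : 0 < P := by rw [hPd]; positivity
  obtain ⟨R, hRd⟩ : ∃ R : ℝ, R = A * Real.sqrt A := ⟨_, rfl⟩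
  have hsq : Real.sqrt A ^ 2 = A := Real.sq_sqrt hA0.le
  have hs0 : 0 < Real.sqrt A := Real.sqrt_pos.2 hA0
  have hR : 0 < R := by rw [hRd]; positivity
  have hR2 : R ^ 2 = A ^ 3 := by
    rw [hRd, mul_pow, hsq]
    ring
  obtain ⟨q, hqd⟩ : ∃ q : ℝ, q = 3 * a * b * c - 2 * (b : ℝ) ^ 3 := ⟨_, rfl⟩
  obtain ⟨κ, hκd⟩ : ∃ κ : ℝ, κ = q / P := ⟨_, rfl⟩
  -- facts on the elements of S
  have hmem : ∀ d ∈ S, (P * d - q) ^ 2 < 4 * R ^ 2 ∧ 4 * R ^ 2 - P * t ^ 4 ≤ (P * d - q) ^ 2 := by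
    intro d hd
    rw [hS] at hd
    obtain ⟨h1, h2⟩ := hd
    have h3 := hkey d
    rw [← hAd, ← hPd, ← hqd] at h3
    have h4 : (0 : ℝ) < ((Dz ![a, b, c, d] : ℤ) : ℝ) := by
      have h5 : 0 < 3 * (b ^ 2 - a * c) ^ 2 := by positivity
      exact_mod_cast h5.trans_le h1
    have h6 : P * ((Dz ![a, b, c, d] : ℤ) : ℝ) ≤ P * t ^ 4 := mul_le_mul_of_nonneg_left h2 hP.le
    have h7 : 0 < P * ((Dz ![a, b, c, d] : ℤ) : ℝ) := mul_pos hP h4
    rw [hR2]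
    constructor <;> linarith
  have habs : ∀ d ∈ S, -(2 * R) < P * d - q ∧ P * d - q < 2 * R := by
    intro d hd
    have h1 : (P * d - q) ^ 2 < (2 * R) ^ 2 := by
      have := (hmem d hd).1
      nlinarith
    exact abs_lt.1 (abs_lt_of_sq_lt_sq h1 (by positivity))
  obtain ⟨x, hxd⟩ : ∃ x : ℝ, x = R / P := ⟨_, rfl⟩
  obtain ⟨y, hyd⟩ : ∃ y : ℝ, y = t ^ 4 / R := ⟨_, rfl⟩
  have hx0 : 0 < x := by rw [hxd]; positivity
  have hy0 : 0 < y := by rw [hyd]; positivity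
  obtain ⟨M, hMd⟩ : ∃ M : ℝ, M = t ^ (8 / 3 : ℝ) * (a : ℝ) ^ (-(2 / 3) : ℝ) / Real.sqrt A :=
    ⟨_, rfl⟩
  rw [← hMd]
  have ht0 : 0 < t := by linarith
  have hM0 : 0 ≤ M := by rw [hMd]; positivity
  have hM3 : M ^ 3 = x * y ^ 2 := by
    have h1 : (t ^ (8 / 3 : ℝ)) ^ 3 = t ^ 8 := by
      rw [← Real.rpow_natCast, ← Real.rpow_mul ht0.le, ← Real.rpow_natCast]
      norm_num
    have h2 : ((a : ℝ) ^ (-(2 / 3) : ℝ)) ^ 3 = 1 / P := by
      rw [← Real.rpow_natCast, ← Real.rpow_mul ha0.le, hPd]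
      have h3 : (-(2 / 3) : ℝ) * ((3 : ℕ) : ℝ) = -((2 : ℕ) : ℝ) := by norm_num
      rw [h3, Real.rpow_neg ha0.le, Real.rpow_natCast, one_div]
    have h4 : Real.sqrt A ^ 3 = R := by
      rw [hRd]
      calc Real.sqrt A ^ 3 = Real.sqrt A ^ 2 * Real.sqrt A := by ring
        _ = A * Real.sqrt A := by rw [hsq]
    rw [hMd, div_pow, mul_pow, h1, h2, h4, hxd, hyd]
    field_simp
  have hmin := Hl_min hx0.le hy0.le hM0 hM3
  have hκ : ∀ d : ℤ, (d : ℝ) = κ + (P * d - q) / P := by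
    intro d
    rw [hκd]
    field_simp
    ring
  have hfin1 := Hl_cnt (κ - 2 * x) (κ + 2 * x) (by linarith)
  have hsub1 : S ⊆ {d : ℤ | κ - 2 * x ≤ d ∧ (d : ℝ) ≤ κ + 2 * x} := by
    intro d hd
    obtain ⟨h1, h2⟩ := habs d hd
    have h3 : (P * d - q) / P ≤ 2 * x := by
      rw [hxd, div_le_iff₀ hP]
      have : 2 * (R / P) * P = 2 * R := by field_simp
      linarith
    have h4 : -(2 * x) ≤ (P * d - q) / P := by
      rw [hxd, le_div_iff₀ hP]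
      have : -(2 * (R / P)) * P = -(2 * R) := by field_simp
      linarith
    have h5 := hκ d
    constructor <;> linarith
  have hfin : S.Finite := hfin1.1.subset hsub1
  refine ⟨hfin, ?_⟩
  by_cases hcase : P * t ^ 4 ≤ 4 * R ^ 2
  · -- two short intervals
    obtain ⟨m, hmd⟩ : ∃ m : ℝ, m = Real.sqrt (4 * R ^ 2 - P * t ^ 4) := ⟨_, rfl⟩
    have hm0 : 0 ≤ m := by rw [hmd]; exact Real.sqrt_nonneg _
    have hm2 : m ^ 2 = 4 * R ^ 2 - P * t ^ 4 := by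
      rw [hmd]
      exact Real.sq_sqrt (by linarith)
    have hmR : m ≤ 2 * R := by
      have h1 : m ^ 2 ≤ (2 * R) ^ 2 := by
        rw [hm2]
        have : 0 ≤ P * t ^ 4 := by positivity
        nlinarith
      exact (pow_le_pow_iff_left₀ hm0 (by positivity) two_ne_zero).1 h1
    have hlen : (2 * R - m) / P ≤ y / 2 := by
      rw [hyd, div_le_iff₀ hP]
      have h1 : (2 * R - m) * (2 * R + m) = P * t ^ 4 := by nlinarith
      have h2 : (2 * R - m) * (2 * R) ≤ P * t ^ 4 := by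
        rw [← h1]
        exact mul_le_mul_of_nonneg_left (by linarith) (by linarith)
      have h3 : t ^ 4 / R / 2 * P = P * t ^ 4 / (2 * R) := by field_simp
      rw [h3, le_div_iff₀ (by positivity)]
      exact h2
    have hle1 : κ + m / P ≤ κ + 2 * R / P := by
      have := div_le_div_of_nonneg_right hmR hP.le
      linarith
    have hI1 := Hl_cnt (κ + m / P) (κ + 2 * R / P) hle1
    have hI2 := Hl_cnt (κ - 2 * R / P) (κ - m / P) (by
      have := div_le_div_of_nonneg_right hmR hP.le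
      linarith)
    have hsub : S ⊆ {d : ℤ | κ + m / P ≤ d ∧ (d : ℝ) ≤ κ + 2 * R / P} ∪
        {d : ℤ | κ - 2 * R / P ≤ d ∧ (d : ℝ) ≤ κ - m / P} := by
      intro d hd
      obtain ⟨h1, h2⟩ := habs d hd
      have h3 := (hmem d hd).2
      rw [← hm2] at h3
      have h4 : m ≤ |P * d - q| := by
        have h5 : m ^ 2 ≤ |P * d - q| ^ 2 := by rw [sq_abs]; exact h3
        exact (pow_le_pow_iff_left₀ hm0 (abs_nonneg _) two_ne_zero).1 h5
      have h5 := hκ d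
      rcases le_total 0 (P * d - q) with h6 | h6
      · left
        rw [abs_of_nonneg h6] at h4
        have h7 := div_le_div_of_nonneg_right h4 hP.le
        have h8 := div_le_div_of_nonneg_right h2.le hP.le
        constructor <;> linarith
      · right
        rw [abs_of_nonpos h6] at h4
        have h7 : (P * d - q) / P ≤ -(m / P) := by
          rw [← neg_div]
          exact div_le_div_of_nonneg_right (by linarith) hP.le
        have h8 : -(2 * R / P) ≤ (P * d - q) / P := by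
          rw [← neg_div]
          exact div_le_div_of_nonneg_right h1.le hP.le
        constructor <;> linarith
    have hn1 : S.ncard ≤ _ := Set.ncard_le_ncard hsub (hI1.1.union hI2.1)
    have hn2 := hn1.trans (Set.ncard_union_le _ _)
    have hn3 : (S.ncard : ℝ) ≤ (Set.ncard {d : ℤ | κ + m / P ≤ d ∧ (d : ℝ) ≤ κ + 2 * R / P} : ℝ) +
        (Set.ncard {d : ℤ | κ - 2 * R / P ≤ d ∧ (d : ℝ) ≤ κ - m / P} : ℝ) := by
      exact_mod_cast hn2
    have h9 : (2 * R - m) / P = 2 * R / P - m / P := sub_div _ _ _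
    have hy4 : y ≤ 4 * min x y := by
      rw [mul_min_of_nonneg _ _ (by norm_num : (0 : ℝ) ≤ 4)]
      refine le_min ?_ (by linarith)
      rw [hyd, hxd, div_le_iff₀ hR]
      have h10 : 4 * (R / P) * R = 4 * R ^ 2 / P := by ring
      rw [h10, le_div_iff₀ hP]
      linarith
    linarith [hI1.2, hI2.2]
  · rw [not_le] at hcase
    have hn1 : S.ncard ≤ _ := Set.ncard_le_ncard hsub1 hfin1.1
    have hn2 : (S.ncard : ℝ) ≤ (Set.ncard {d : ℤ | κ - 2 * x ≤ d ∧ (d : ℝ) ≤ κ + 2 * x} : ℝ) := by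
      exact_mod_cast hn1
    have hxy : x ≤ y := by
      rw [hxd, hyd, div_le_div_iff₀ hP hR]
      nlinarith
    rw [min_eq_left hxy] at hmin
    linarith [hfin1.2]

end H38T6
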