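import Pool.Agent.H38.T6.Hl

/-!
Row Hm. (about 200 lines): the cusp.
The conditions for f in Cu ep t: 1 <= a <= ep t, 0 <= b < a, A = b^2 - a c >= 1, 3 A^2 <= t^4 so A <= t^2. 
 c_sum: for fixed a >= 1, b: the values A = b^2 - a c in [1, t^2] form part of an arithmetic progression of difference a: A_0 < A_0 + a < ...: with A_0 >= 1, A_j = A_0 + j a >= j a: the sum of 1/sqrt(A) over them is <= 1 + sum_(1 <= j <= t^2/a) 1/sqrt(j a) <= 1 + 2 sqrt(t^2/a)/sqrt a = 1 + 2 t / a (sum_(j<=J) 1/sqrt j <= 2 sqrt J), and their number is <= t^2 / a + 1.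
 So for fixed (a, b) the number of (c, d) is <= 4 t^(8/3) a^(-2/3) (1 + 2 t / a) + 2 (t^2/a + 1). Sum over b (a values): 4 t^(8/3) (a^(1/3) + 2 t a^(-2/3)) + 2 t^2 + 2 a. Sum over 1 <= a <= N := floor(ep t): sum a^(1/3) <= N N^(1/3) <= (ep t)^(4/3), sum a^(-2/3) <= 3 N^(1/3) <= 3 (ep t)^(1/3) (telescoping: a^(1/3) - (a-1)^(1/3) >= 1/(3 a^(2/3))): total <= 4 t^(8/3) (ep t)^(4/3) + 24 t^(11/3) (ep t)^(1/3) + 2 t^2 ep t + 2 (ep t)^2 <= 4 ep^(4/3) t^4 + 24 ep^(1/3) t^4 + 2 ep t^3 + 2 ep^2 t^2 <= 32 ep^(1/3) t^4 for t >= 1, ep <= 1 (ep <= ep^(1/3)). So C = 32, t0 = 1.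
 Finiteness and the union bound: Cu is contained in the finite union over (a, b, c) of the images of the sets of d_count (Set.Finite.biUnion, Set.ncard / Finset.card_biUnion_le); c ranges over a finite set.
-/

set_option autoImplicit false
set_option linter.unusedSectionVars false
open scoped Classical


namespace H38T6

theorem Hm_sq {a : ℝ} (ha : 0 < a) (J : ℕ) :
    ∑ j ∈ Finset.range J, 1 / Real.sqrt (a * ((j : ℝ) + 1)) ≤ 2 * Real.sqrt J / Real.sqrt a := by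
  have hs : 0 < Real.sqrt a := Real.sqrt_pos.2 ha
  induction J with
  | zero => simp
  | succ n ih =>
    rw [Finset.sum_range_succ]
    have h1 : Real.sqrt (a * ((n : ℝ) + 1)) = Real.sqrt a * Real.sqrt ((n : ℝ) + 1) :=
      Real.sqrt_mul ha.le _
    have hy : 0 < Real.sqrt ((n : ℝ) + 1) := Real.sqrt_pos.2 (by positivity)
    have hx2 : Real.sqrt (n : ℝ) ^ 2 = n := Real.sq_sqrt (by positivity)
    have hy2 : Real.sqrt ((n : ℝ) + 1) ^ 2 = n + 1 := Real.sq_sqrt (by positivity)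
    rw [h1]
    push_cast
    generalize Real.sqrt (n : ℝ) = x at *
    generalize Real.sqrt ((n : ℝ) + 1) = y at *
    generalize Real.sqrt a = r at *
    have h2 : 2 * x / r + 1 / (r * y) = (2 * x * y + 1) / (r * y) := by field_simp
    have h3 : 2 * y / r = (2 * y * y) / (r * y) := by field_simp
    have h4 : 2 * x / r + 1 / (r * y) ≤ 2 * y / r := by
      rw [h2, h3]
      apply div_le_div_of_nonneg_right _ (by positivity)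
      nlinarith [sq_nonneg (x - y)]
    linarith

theorem Hm_cube {x : ℝ} (hx : 0 ≤ x) : (x ^ (1 / 3 : ℝ)) ^ 3 = x := by
  rw [← Real.rpow_natCast, ← Real.rpow_mul hx]
  norm_num

theorem Hm_inv {x : ℝ} (hx : 0 ≤ x) : x ^ (-(2 / 3) : ℝ) = ((x ^ (1 / 3 : ℝ)) ^ 2)⁻¹ := by
  rw [Real.rpow_neg hx, ← Real.rpow_natCast, ← Real.rpow_mul hx]
  norm_num

theorem Hm_eight {x : ℝ} (hx : 0 ≤ x) : x ^ (8 / 3 : ℝ) = (x ^ (1 / 3 : ℝ)) ^ 8 := by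
  rw [← Real.rpow_natCast, ← Real.rpow_mul hx]
  norm_num

theorem Hm_cb (N : ℕ) :
    ∑ a ∈ Finset.Icc 1 N, (((a : ℝ) ^ (1 / 3 : ℝ)) ^ 2)⁻¹ ≤ 3 * (N : ℝ) ^ (1 / 3 : ℝ) := by
  induction N with
  | zero => simp
  | succ n ih =>
    rw [Finset.sum_Icc_succ_top (Nat.le_add_left 1 n)]
    have hy3 : (((n + 1 : ℕ) : ℝ) ^ (1 / 3 : ℝ)) ^ 3 = n + 1 := by
      rw [Hm_cube (by positivity)]
      push_cast
      rfl
    have hx3 : ((n : ℝ) ^ (1 / 3 : ℝ)) ^ 3 = n := Hm_cube (by positivity)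
    have hy : 0 < ((n + 1 : ℕ) : ℝ) ^ (1 / 3 : ℝ) := by positivity
    have hx : 0 ≤ (n : ℝ) ^ (1 / 3 : ℝ) := by positivity
    generalize ((n + 1 : ℕ) : ℝ) ^ (1 / 3 : ℝ) = y at *
    generalize (n : ℝ) ^ (1 / 3 : ℝ) = x at *
    have hxy : x ≤ y := by
      by_contra h
      rw [not_le] at h
      have := pow_le_pow_left₀ hy.le h.le 3
      linarith
    have h1 : (y ^ 2)⁻¹ ≤ 3 * (y - x) := by
      rw [inv_le_iff_one_le_mul₀ (by positivity)]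
      have e : (y - x) * (x ^ 2 + x * y + y ^ 2) = 1 := by linear_combination hy3 - hx3
      have h2 : x ^ 2 + x * y + y ^ 2 ≤ 3 * y ^ 2 := by nlinarith
      nlinarith [mul_le_mul_of_nonneg_left h2 (sub_nonneg.2 hxy)]
    linarith

/-- the values of `d` -/
def HmD (t : ℝ) (a b c : ℤ) : Set ℤ :=
  {d : ℤ | 3 * (b ^ 2 - a * c) ^ 2 ≤ Dz ![a, b, c, d] ∧ ((Dz ![a, b, c, d] : ℤ) : ℝ) ≤ t ^ 4}

/-- the forms -/
def HmG (t : ℝ) (a b c : ℤ) : Set (Fin 4 → ℤ) := (fun d => ![a, b, c, d]) '' HmD t a b c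

/-- the values of `c` -/
def HmC (a b j : ℕ) : ℤ := ((b : ℤ) ^ 2 - 1) / (a : ℤ) - j

theorem Hm_A {a b j : ℕ} (ha : 1 ≤ a) :
    (a : ℤ) * j + 1 ≤ (b : ℤ) ^ 2 - a * HmC a b j := by
  unfold HmC
  have h := Int.mul_ediv_self_le (x := (b : ℤ) ^ 2 - 1) (k := (a : ℤ)) (by omega)
  rw [mul_sub]
  linarith

theorem Hm_G {a b j : ℕ} (ha : 1 ≤ a) {t : ℝ} (ht : 1 ≤ t) :
    (HmG t a b (HmC a b j)).Finite ∧ (Set.ncard (HmG t a b (HmC a b j)) : ℝ) ≤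
      4 * (t ^ (8 / 3 : ℝ) * (a : ℝ) ^ (-(2 / 3) : ℝ)) *
        (1 / Real.sqrt (((b : ℤ) ^ 2 - a * HmC a b j : ℤ) : ℝ)) + 2 := by
  have hA := Hm_A (b := b) (j := j) ha
  have hA0 : 0 < (b : ℤ) ^ 2 - a * HmC a b j := by
    have : 0 ≤ (a : ℤ) * j := by positivity
    linarith
  obtain ⟨h1, h2⟩ := d_count (a := (a : ℤ)) (b := (b : ℤ)) (c := HmC a b j) (by omega) hA0 ht
  refine ⟨Set.Finite.image _ h1, ?_⟩
  have h3 : (Set.ncard (HmG t a b (HmC a b j)) : ℝ) ≤ (Set.ncard (HmD t a b (HmC a b j)) : ℝ) := by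
    exact_mod_cast Set.ncard_image_le h1
  refine h3.trans (h2.trans (le_of_eq ?_))
  rw [Int.cast_natCast]
  ring

theorem Hm_ab {a b : ℕ} (ha : 1 ≤ a) {t : ℝ} (ht : 1 ≤ t) :
    ∑ j ∈ Finset.range (⌊t ^ 2 / a⌋₊ + 1), (Set.ncard (HmG t a b (HmC a b j)) : ℝ) ≤
      4 * (t ^ (8 / 3 : ℝ) * (a : ℝ) ^ (-(2 / 3) : ℝ)) * (1 + 2 * t / a) + 2 * (t ^ 2 / a + 1) := by
  have haR : (0 : ℝ) < a := by exact_mod_cast ha
  set J := ⌊t ^ 2 / a⌋₊ with hJ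
  have hJ1 : (J : ℝ) ≤ t ^ 2 / a := Nat.floor_le (by positivity)
  set M : ℝ := 4 * (t ^ (8 / 3 : ℝ) * (a : ℝ) ^ (-(2 / 3) : ℝ)) with hM
  have hM0 : 0 ≤ M := by positivity
  have h1 : ∑ j ∈ Finset.range (J + 1), (Set.ncard (HmG t a b (HmC a b j)) : ℝ) ≤
      ∑ j ∈ Finset.range (J + 1),
        (M * (1 / Real.sqrt (((b : ℤ) ^ 2 - a * HmC a b j : ℤ) : ℝ)) + 2) :=
    Finset.sum_le_sum fun j _ => (Hm_G ha ht).2
  rw [Finset.sum_add_distrib, ← Finset.mul_sum, Finset.sum_const, Finset.card_range,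
    nsmul_eq_mul] at h1
  have hcast : ∀ j : ℕ, (a : ℝ) * j + 1 ≤ (((b : ℤ) ^ 2 - a * HmC a b j : ℤ) : ℝ) := by
    intro j
    exact_mod_cast Hm_A (b := b) (j := j) ha
  have h2 : ∑ j ∈ Finset.range (J + 1),
      (1 / Real.sqrt (((b : ℤ) ^ 2 - a * HmC a b j : ℤ) : ℝ)) ≤ 1 + 2 * t / a := by
    rw [Finset.sum_range_succ']
    have h3 : 1 / Real.sqrt (((b : ℤ) ^ 2 - a * HmC a b 0 : ℤ) : ℝ) ≤ 1 := by
      rw [div_le_one (Real.sqrt_pos.2 (by have := hcast 0; push_cast at this ⊢; linarith))]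
      rw [Real.one_le_sqrt]
      have := hcast 0
      push_cast at this ⊢
      linarith
    have h4 : ∑ j ∈ Finset.range J,
        1 / Real.sqrt (((b : ℤ) ^ 2 - a * HmC a b (j + 1) : ℤ) : ℝ) ≤
        ∑ j ∈ Finset.range J, 1 / Real.sqrt ((a : ℝ) * ((j : ℝ) + 1)) := by
      refine Finset.sum_le_sum fun j _ => ?_
      apply one_div_le_one_div_of_le (Real.sqrt_pos.2 (by positivity))
      apply Real.sqrt_le_sqrt
      have := hcast (j + 1)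
      push_cast at this ⊢
      linarith
    have h5 := Hm_sq haR J
    have h6 : 2 * Real.sqrt J / Real.sqrt a ≤ 2 * t / a := by
      have h7 : Real.sqrt J ≤ t / Real.sqrt a := by
        have h8 := Real.sqrt_le_sqrt hJ1
        rwa [Real.sqrt_div (by positivity), Real.sqrt_sq (by linarith)] at h8
      have h9 : Real.sqrt a * Real.sqrt a = a := Real.mul_self_sqrt haR.le
      have hs : 0 < Real.sqrt a := Real.sqrt_pos.2 haR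
      calc 2 * Real.sqrt J / Real.sqrt a ≤ 2 * (t / Real.sqrt a) / Real.sqrt a := by
            gcongr
        _ = 2 * t / (Real.sqrt a * Real.sqrt a) := by field_simp
        _ = 2 * t / a := by rw [h9]
    linarith
  have h3 := mul_le_mul_of_nonneg_left h2 hM0
  have h4 : ((J + 1 : ℕ) : ℝ) * 2 ≤ 2 * (t ^ 2 / a + 1) := by
    push_cast
    linarith
  linarith

theorem Hm_cover {ε t : ℝ} (ht : 1 ≤ t) :
    Cu ε t ⊆ ⋃ a ∈ Finset.Icc 1 ⌊ε * t⌋₊, ⋃ b ∈ Finset.range a,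
      ⋃ j ∈ Finset.range (⌊t ^ 2 / a⌋₊ + 1), HmG t a b (HmC a b j) := by
  rintro f ⟨h1, h2, h3, h4, h5, h6, h7⟩
  obtain ⟨a, ha⟩ := Int.eq_ofNat_of_zero_le (show 0 ≤ f 0 by omega)
  obtain ⟨b, hb⟩ := Int.eq_ofNat_of_zero_le h3
  have ha1 : 1 ≤ a := by omega
  have haR : (0 : ℝ) < a := by exact_mod_cast ha1
  rw [ha] at h2 h4 h5 h6
  rw [hb] at h4 h5 h6
  have hc1 : f 2 ≤ ((b : ℤ) ^ 2 - 1) / (a : ℤ) := by
    rw [Int.le_ediv_iff_mul_le (by omega)]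
    have := mul_comm (a : ℤ) (f 2)
    linarith
  obtain ⟨j, hj⟩ := Int.eq_ofNat_of_zero_le (sub_nonneg.2 hc1)
  have hC : HmC a b j = f 2 := by
    unfold HmC
    omega
  have hA := Hm_A (b := b) (j := j) ha1
  rw [hC] at hA
  have hAt : (((b : ℤ) ^ 2 - a * f 2 : ℤ) : ℝ) ≤ t ^ 2 := by
    have h8 : ((3 * ((b : ℤ) ^ 2 - a * f 2) ^ 2 : ℤ) : ℝ) ≤ ((Dz f : ℤ) : ℝ) := by
      exact_mod_cast h6
    have h9 : (0 : ℝ) < (((b : ℤ) ^ 2 - a * f 2 : ℤ) : ℝ) := by exact_mod_cast h5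
    have h10 : ((((b : ℤ) ^ 2 - a * f 2 : ℤ) : ℝ)) ^ 2 ≤ (t ^ 2) ^ 2 := by
      have e : ((3 * ((b : ℤ) ^ 2 - a * f 2) ^ 2 : ℤ) : ℝ) =
          3 * ((((b : ℤ) ^ 2 - a * f 2 : ℤ) : ℝ)) ^ 2 := by push_cast; ring
      rw [e] at h8
      nlinarith
    exact (pow_le_pow_iff_left₀ h9.le (by positivity) two_ne_zero).1 h10
  have hj1 : (a : ℝ) * j ≤ t ^ 2 := by
    have h8 : (((a : ℤ) * j + 1 : ℤ) : ℝ) ≤ (((b : ℤ) ^ 2 - a * f 2 : ℤ) : ℝ) := by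
      exact_mod_cast hA
    push_cast at h8 hAt
    linarith
  have hj2 : j ≤ ⌊t ^ 2 / a⌋₊ := by
    apply Nat.le_floor
    rw [le_div_iff₀ haR]
    linarith
  simp only [Set.mem_iUnion, Finset.mem_Icc, Finset.mem_range, exists_prop]
  refine ⟨a, ⟨ha1, Nat.le_floor (by exact_mod_cast h2)⟩, b, by omega, j, by omega, ?_⟩
  rw [hC]
  have hf : f = ![(a : ℤ), (b : ℤ), f 2, f 3] := by
    ext i
    fin_cases i
    · exact ha
    · exact hb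
    · rfl
    · rfl
  refine ⟨f 3, ⟨?_, ?_⟩, hf.symm⟩
  · rw [← hf]
    exact h6
  · rw [← hf]
    exact h7

theorem Hm_fin {ε t : ℝ} (ht : 1 ≤ t) :
    (⋃ a ∈ Finset.Icc 1 ⌊ε * t⌋₊, ⋃ b ∈ Finset.range a,
      ⋃ j ∈ Finset.range (⌊t ^ 2 / a⌋₊ + 1), HmG t a b (HmC a b j)).Finite := by
  refine Set.Finite.biUnion (Finset.finite_toSet _) fun a ha => ?_
  refine Set.Finite.biUnion (Finset.finite_toSet _) fun b _ => ?_
  refine Set.Finite.biUnion (Finset.finite_toSet _) fun j _ => ?_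
  exact (Hm_G (Finset.mem_Icc.1 ha).1 ht).1

theorem Hm_card {ε t : ℝ} (ht : 1 ≤ t) :
    (Set.ncard (⋃ a ∈ Finset.Icc 1 ⌊ε * t⌋₊, ⋃ b ∈ Finset.range a,
      ⋃ j ∈ Finset.range (⌊t ^ 2 / a⌋₊ + 1), HmG t a b (HmC a b j)) : ℝ) ≤
    ∑ a ∈ Finset.Icc 1 ⌊ε * t⌋₊, ((a : ℝ) * (4 * (t ^ (8 / 3 : ℝ) * (a : ℝ) ^ (-(2 / 3) : ℝ)) *
      (1 + 2 * t / a) + 2 * (t ^ 2 / a + 1))) := by
  have h1 : Set.ncard (⋃ a ∈ Finset.Icc 1 ⌊ε * t⌋₊, ⋃ b ∈ Finset.range a,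
      ⋃ j ∈ Finset.range (⌊t ^ 2 / a⌋₊ + 1), HmG t a b (HmC a b j)) ≤
      ∑ a ∈ Finset.Icc 1 ⌊ε * t⌋₊, ∑ b ∈ Finset.range a,
        ∑ j ∈ Finset.range (⌊t ^ 2 / a⌋₊ + 1), Set.ncard (HmG t a b (HmC a b j)) := by
    refine (Finset.set_ncard_biUnion_le _ _).trans (Finset.sum_le_sum fun a _ => ?_)
    refine (Finset.set_ncard_biUnion_le _ _).trans (Finset.sum_le_sum fun b _ => ?_)
    exact Finset.set_ncard_biUnion_le _ _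
  have h2 : (Set.ncard (⋃ a ∈ Finset.Icc 1 ⌊ε * t⌋₊, ⋃ b ∈ Finset.range a,
      ⋃ j ∈ Finset.range (⌊t ^ 2 / a⌋₊ + 1), HmG t a b (HmC a b j)) : ℝ) ≤
      ∑ a ∈ Finset.Icc 1 ⌊ε * t⌋₊, ∑ b ∈ Finset.range a,
        ∑ j ∈ Finset.range (⌊t ^ 2 / a⌋₊ + 1), (Set.ncard (HmG t a b (HmC a b j)) : ℝ) := by
    exact_mod_cast h1
  refine h2.trans (Finset.sum_le_sum fun a ha => ?_)
  have ha1 := (Finset.mem_Icc.1 ha).1
  refine (Finset.sum_le_sum fun b _ => Hm_ab (b := b) ha1 ht).trans (le_of_eq ?_)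
  rw [Finset.sum_const, Finset.card_range, nsmul_eq_mul]

theorem Hm_term {a : ℕ} (ha : 1 ≤ a) {t : ℝ} (K : ℝ) :
    (a : ℝ) * (4 * (K * (a : ℝ) ^ (-(2 / 3) : ℝ)) * (1 + 2 * t / a) + 2 * (t ^ 2 / a + 1)) =
      4 * K * (a : ℝ) ^ (1 / 3 : ℝ) + 8 * K * t * (((a : ℝ) ^ (1 / 3 : ℝ)) ^ 2)⁻¹ + 2 * t ^ 2 +
        2 * a := by
  have haR : (0 : ℝ) < a := by exact_mod_cast ha
  rw [Hm_inv haR.le]
  have hy : 0 < (a : ℝ) ^ (1 / 3 : ℝ) := by positivity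
  have hy3 := Hm_cube haR.le
  generalize (a : ℝ) ^ (1 / 3 : ℝ) = y at *
  rw [← hy3]
  field_simp
  ring

theorem cusp {ε : ℝ} (hε : 0 < ε) (hε1 : ε ≤ 1) {t : ℝ} (ht : 1 ≤ t) :
    (Cu ε t).Finite ∧ (Set.ncard (Cu ε t) : ℝ) ≤ 32 * ε ^ (1 / 3 : ℝ) * t ^ 4 := by
  have ht0 : 0 < t := by linarith
  refine ⟨(Hm_fin ht).subset (Hm_cover ht), ?_⟩
  have h1 : (Set.ncard (Cu ε t) : ℝ) ≤ _ :=
    (Nat.cast_le.2 (Set.ncard_le_ncard (Hm_cover ht) (Hm_fin ht))).trans (Hm_card ht)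
  refine h1.trans ?_
  set N := ⌊ε * t⌋₊ with hN
  have hN1 : (N : ℝ) ≤ ε * t := Nat.floor_le (by positivity)
  have h2 : ∑ a ∈ Finset.Icc 1 N, ((a : ℝ) * (4 * (t ^ (8 / 3 : ℝ) * (a : ℝ) ^ (-(2 / 3) : ℝ)) *
      (1 + 2 * t / a) + 2 * (t ^ 2 / a + 1))) = ∑ a ∈ Finset.Icc 1 N,
      (4 * t ^ (8 / 3 : ℝ) * (a : ℝ) ^ (1 / 3 : ℝ) +
        8 * t ^ (8 / 3 : ℝ) * t * (((a : ℝ) ^ (1 / 3 : ℝ)) ^ 2)⁻¹ + 2 * t ^ 2 + 2 * a) :=
    Finset.sum_congr rfl fun a ha => Hm_term (Finset.mem_Icc.1 ha).1 _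
  rw [h2, Finset.sum_add_distrib, Finset.sum_add_distrib, Finset.sum_add_distrib,
    ← Finset.mul_sum, ← Finset.mul_sum, Finset.sum_const, ← Finset.mul_sum, Nat.card_Icc,
    nsmul_eq_mul, Nat.add_sub_cancel]
  have h3 : ∑ a ∈ Finset.Icc 1 N, (a : ℝ) ^ (1 / 3 : ℝ) ≤ N * (N : ℝ) ^ (1 / 3 : ℝ) := by
    have h := Finset.sum_le_card_nsmul (Finset.Icc 1 N) (fun a : ℕ => (a : ℝ) ^ (1 / 3 : ℝ))
      ((N : ℝ) ^ (1 / 3 : ℝ)) (fun a ha => Real.rpow_le_rpow (by positivity)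
        (by exact_mod_cast (Finset.mem_Icc.1 ha).2) (by norm_num))
    rwa [Nat.card_Icc, Nat.add_sub_cancel, nsmul_eq_mul] at h
  have h4 := Hm_cb N
  have h5 : ∑ a ∈ Finset.Icc 1 N, (a : ℝ) ≤ N * N := by
    have h := Finset.sum_le_card_nsmul (Finset.Icc 1 N) (fun a : ℕ => (a : ℝ)) (N : ℝ)
      (fun a ha => by exact_mod_cast (Finset.mem_Icc.1 ha).2)
    rwa [Nat.card_Icc, Nat.add_sub_cancel, nsmul_eq_mul] at h
  have hY : (N : ℝ) ^ (1 / 3 : ℝ) ≤ ε ^ (1 / 3 : ℝ) * t ^ (1 / 3 : ℝ) := by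
    rw [← Real.mul_rpow hε.le ht0.le]
    exact Real.rpow_le_rpow (by positivity) hN1 (by norm_num)
  have hY0 : 0 ≤ (N : ℝ) ^ (1 / 3 : ℝ) := by positivity
  have hN0 : (0 : ℝ) ≤ N := by positivity
  have he3 := Hm_cube hε.le
  have hs3 := Hm_cube ht0.le
  have he0 : 0 < ε ^ (1 / 3 : ℝ) := by positivity
  have he1 : ε ^ (1 / 3 : ℝ) ≤ 1 := Real.rpow_le_one hε.le hε1 (by norm_num)
  have hs1 : 1 ≤ t ^ (1 / 3 : ℝ) := Real.one_le_rpow ht (by norm_num)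
  rw [Hm_eight ht0.le]
  generalize ε ^ (1 / 3 : ℝ) = e at *
  generalize t ^ (1 / 3 : ℝ) = s at *
  generalize (N : ℝ) ^ (1 / 3 : ℝ) = Y at *
  rw [← he3, ← hs3] at hN1
  rw [← hs3]
  have hs0 : 0 < s := by linarith
  have k1 : 4 * s ^ 8 * ∑ a ∈ Finset.Icc 1 N, (a : ℝ) ^ (1 / 3 : ℝ) ≤
      4 * s ^ 8 * ((e ^ 3 * s ^ 3) * (e * s)) := by
    apply mul_le_mul_of_nonneg_left _ (by positivity)
    exact h3.trans (mul_le_mul hN1 hY hY0 (by positivity))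
  have k2 : 8 * s ^ 8 * s ^ 3 * ∑ a ∈ Finset.Icc 1 N, (((a : ℝ) ^ (1 / 3 : ℝ)) ^ 2)⁻¹ ≤
      8 * s ^ 8 * s ^ 3 * (3 * (e * s)) := by
    apply mul_le_mul_of_nonneg_left _ (by positivity)
    exact h4.trans (mul_le_mul_of_nonneg_left hY (by norm_num))
  have k3 : (N : ℝ) * (2 * (s ^ 3) ^ 2) ≤ (e ^ 3 * s ^ 3) * (2 * (s ^ 3) ^ 2) :=
    mul_le_mul_of_nonneg_right hN1 (by positivity)
  have k4 : 2 * ∑ a ∈ Finset.Icc 1 N, (a : ℝ) ≤ 2 * ((e ^ 3 * s ^ 3) * (e ^ 3 * s ^ 3)) := by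
    apply mul_le_mul_of_nonneg_left _ (by norm_num)
    exact h5.trans (mul_le_mul hN1 hN1 hN0 (by positivity))
  have m1 : 4 * s ^ 8 * ((e ^ 3 * s ^ 3) * (e * s)) ≤ 4 * (e * s ^ 12) := by
    have : e ^ 4 ≤ e := by
      calc e ^ 4 = e ^ 3 * e := by ring
        _ ≤ 1 * e := mul_le_mul_of_nonneg_right (pow_le_one₀ he0.le he1) he0.le
        _ = e := one_mul e
    calc 4 * s ^ 8 * ((e ^ 3 * s ^ 3) * (e * s)) = 4 * (e ^ 4 * s ^ 12) := by ring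
      _ ≤ 4 * (e * s ^ 12) := by gcongr
  have m3 : (e ^ 3 * s ^ 3) * (2 * (s ^ 3) ^ 2) ≤ 2 * (e * s ^ 12) := by
    have h6 : e ^ 3 ≤ e := by
      calc e ^ 3 = e ^ 2 * e := by ring
        _ ≤ 1 * e := mul_le_mul_of_nonneg_right (pow_le_one₀ he0.le he1) he0.le
        _ = e := one_mul e
    have h7 : s ^ 9 ≤ s ^ 12 := pow_le_pow_right₀ hs1 (by norm_num)
    calc (e ^ 3 * s ^ 3) * (2 * (s ^ 3) ^ 2) = 2 * (e ^ 3 * s ^ 9) := by ring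
      _ ≤ 2 * (e * s ^ 12) := by gcongr
  have m4 : 2 * ((e ^ 3 * s ^ 3) * (e ^ 3 * s ^ 3)) ≤ 2 * (e * s ^ 12) := by
    have h6 : e ^ 6 ≤ e := by
      calc e ^ 6 = e ^ 5 * e := by ring
        _ ≤ 1 * e := mul_le_mul_of_nonneg_right (pow_le_one₀ he0.le he1) he0.le
        _ = e := one_mul e
    have h7 : s ^ 6 ≤ s ^ 12 := pow_le_pow_right₀ hs1 (by norm_num)
    calc 2 * ((e ^ 3 * s ^ 3) * (e ^ 3 * s ^ 3)) = 2 * (e ^ 6 * s ^ 6) := by ring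
      _ ≤ 2 * (e * s ^ 12) := by gcongr
  have e2 : 8 * s ^ 8 * s ^ 3 * (3 * (e * s)) = 24 * (e * s ^ 12) := by ring
  have e3 : 32 * e * (s ^ 3) ^ 4 = 32 * (e * s ^ 12) := by ring
  rw [e3]
  linarith

end H38T6
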