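import Pool.Agent.H38.T6.Hg
import Pool.Agent.H38.T6.Hh
import Pool.Agent.H38.T6.Hi
import Pool.Agent.H38.T6.Hk
import Pool.Agent.H38.T6.Hm

/-!
Row Hn. (about 130 lines): the count of the forms. kap := pi/(2 sqrt 3) * (1/36) * prod = pi/(72 sqrt 3) prod.
Let eta > 0; choose ep in (0, 1] with 32 ep^(1/3) <= eta / 2, M, R from dens, box_count for S := Rg ep (rg_compact) with eta' > 0 so small that card R / M^4 * (vol + eta') <= (1/36) prod * (pi/(2 sqrt 3)) + eta / 2 (rg_volume; card R / M^4 <= (1/36) prod <= 1).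
 For Y >= Y0, t := Y^(1/4), t^4 = Y. f in FS P Y: with a = f 0 etc., A = f1^2 - f0 f2, U := a^2 d - 3 a b c + 2 b^3, a^2 Dz = 4 A^3 - U^2; Frm: 1 <= a, 0 <= b < a, 3 A^2 <= Dz; Dz <> 0 (Dz % 16 = 8), so Dz > 0, 4 A^3 >= a^2 Dz > 0, A > 0, 3 a^2 A^2 <= a^2 Dz <= 4 A^3, 3 a^2 <= 4 A. If a >= ep t then f / t is in Rg ep (homogeneity: Dz (f/t) = Dz f / t^4 <= 1) and the residue is in R; if a < ep t then f is in Cu ep t. So FS is contained in the union of two finite sets, the bounds add up.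
-/

set_option autoImplicit false
set_option linter.unusedSectionVars false
open scoped Classical


namespace H38T6

theorem Hn_hom (f : Fin 4 → ℤ) {t : ℝ} (ht : t ≠ 0) :
    Dz (fun i => (f i : ℝ) / t) = ((Dz f : ℤ) : ℝ) / t ^ 4 := by
  unfold Dz
  push_cast
  field_simp

theorem Hn_frm {f : Fin 4 → ℤ} (h16 : Dz f % 16 = 8)
    (hF : Frm (Dz f) (f 0) (f 1) (f 2) (f 3)) :
    0 < f 1 ^ 2 - f 0 * f 2 ∧ 3 * f 0 ^ 2 ≤ 4 * (f 1 ^ 2 - f 0 * f 2) := by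
  obtain ⟨h1, h2, h3, h4, -⟩ := hF
  have hid : f 0 ^ 2 * Dz f = 4 * (f 1 ^ 2 - f 0 * f 2) ^ 3 -
      (f 0 ^ 2 * f 3 - 3 * f 0 * f 1 * f 2 + 2 * f 1 ^ 3) ^ 2 := by
    unfold Dz
    ring
  generalize Dz f = Z at *
  generalize f 0 ^ 2 * f 3 - 3 * f 0 * f 1 * f 2 + 2 * f 1 ^ 3 = U at *
  generalize f 1 ^ 2 - f 0 * f 2 = A at *
  generalize f 0 = a at *
  have hZ0 : 0 < Z := by
    have h5 : 0 ≤ Z := le_trans (by positivity) h4
    rcases h5.lt_or_eq with h | h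
    · exact h
    · rw [← h] at h16
      norm_num at h16
  have ha0 : 0 < a := by omega
  have hA3 : 0 < A ^ 3 := by
    have h6 : 0 < a ^ 2 * Z := by positivity
    nlinarith [sq_nonneg U]
  have hA0 : 0 < A := by
    by_contra hcon
    rw [not_lt] at hcon
    have h7 : A ^ 3 ≤ 0 := by
      have h8 : A ^ 3 = A * A ^ 2 := by ring
      rw [h8]
      exact mul_nonpos_of_nonpos_of_nonneg hcon (sq_nonneg A)
    linarith
  refine ⟨hA0, ?_⟩
  have h9 : 3 * a ^ 2 * A ^ 2 ≤ 4 * A * A ^ 2 := by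
    have h10 : a ^ 2 * (3 * A ^ 2) ≤ a ^ 2 * Z := mul_le_mul_of_nonneg_left h4 (sq_nonneg a)
    nlinarith [sq_nonneg U]
  exact le_of_mul_le_mul_right h9 (by positivity)

theorem Hn_mem {P : Finset ℕ} {Y ε t : ℝ} (ht : 0 < t) (hY : t ^ 4 = Y) {f : Fin 4 → ℤ}
    (hf : f ∈ FS P Y) : (fun i => (f i : ℝ) / t) ∈ Rg ε ∨ f ∈ Cu ε t := by
  obtain ⟨hcl, hle, hF⟩ := hf
  obtain ⟨hA0, hA1⟩ := Hn_frm hcl.1 hF
  obtain ⟨h1, h2, h3, h4, -⟩ := hF
  rw [← hY] at hle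
  rcases le_or_gt ((f 0 : ℝ)) (ε * t) with h | h
  · exact Or.inr ⟨h1, h, h2, h3, hA0, h4, hle⟩
  · left
    have hom := Hn_hom f ht.ne'
    have h2R : (0 : ℝ) ≤ f 1 := by exact_mod_cast h2
    have h3R : (f 1 : ℝ) ≤ f 0 := by exact_mod_cast h3.le
    have h4R : 3 * ((f 1 : ℝ) ^ 2 - f 0 * f 2) ^ 2 ≤ ((Dz f : ℤ) : ℝ) := by exact_mod_cast h4
    have hA1R : 3 * (f 0 : ℝ) ^ 2 ≤ 4 * ((f 1 : ℝ) ^ 2 - f 0 * f 2) := by exact_mod_cast hA1
    have ht2 : 0 < t ^ 2 := by positivity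
    have ht4 : 0 < t ^ 4 := by positivity
    have e1 : ((f 1 : ℝ) / t) ^ 2 - (f 0 : ℝ) / t * ((f 2 : ℝ) / t) =
        ((f 1 : ℝ) ^ 2 - f 0 * f 2) / t ^ 2 := by
      field_simp
    refine ⟨?_, ?_, ?_, ?_, ?_, ?_⟩
    · show ε ≤ (f 0 : ℝ) / t
      rw [le_div_iff₀ ht]
      exact h.le
    · show 0 ≤ (f 1 : ℝ) / t
      positivity
    · show (f 1 : ℝ) / t ≤ (f 0 : ℝ) / t
      exact div_le_div_of_nonneg_right h3R ht.le
    · show 3 * ((f 0 : ℝ) / t) ^ 2 ≤ 4 * (((f 1 : ℝ) / t) ^ 2 - (f 0 : ℝ) / t * ((f 2 : ℝ) / t))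
      rw [e1, div_pow, ← mul_div_assoc, ← mul_div_assoc]
      exact div_le_div_of_nonneg_right hA1R ht2.le
    · show 3 * (((f 1 : ℝ) / t) ^ 2 - (f 0 : ℝ) / t * ((f 2 : ℝ) / t)) ^ 2 ≤
        Dz (fun i => (f i : ℝ) / t)
      rw [e1, hom, div_pow, ← mul_div_assoc, ← pow_mul]
      exact div_le_div_of_nonneg_right h4R ht4.le
    · show Dz (fun i => (f i : ℝ) / t) ≤ 1
      rw [hom, div_le_one ht4]
      exact hle

theorem Hn_prod {P : Finset ℕ} (hP : Prs P) : 0 ≤ ∏ q ∈ P, ((1 - 1 / (q : ℝ)) / q) ∧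
    ∏ q ∈ P, ((1 - 1 / (q : ℝ)) / q) ≤ 1 := by
  have h : ∀ q ∈ P, 0 ≤ (1 - 1 / (q : ℝ)) / q ∧ (1 - 1 / (q : ℝ)) / q ≤ 1 := by
    intro q hq
    have hq1 : (1 : ℝ) ≤ q := by exact_mod_cast (hP q hq).1.one_lt.le
    have hq0 : (0 : ℝ) < q := by linarith
    have h1 : 1 / (q : ℝ) ≤ 1 := by
      rw [div_le_one hq0]
      exact hq1
    have h2 : 0 < 1 / (q : ℝ) := by positivity
    constructor
    · exact div_nonneg (by linarith) hq0.le
    · rw [div_le_one hq0]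
      linarith
  exact ⟨Finset.prod_nonneg fun q hq => (h q hq).1,
    Finset.prod_le_one (fun q hq => (h q hq).1) (fun q hq => (h q hq).2)⟩

theorem forms_count {P : Finset ℕ} (hP : Prs P) {η : ℝ} (hη : 0 < η) : ∃ Y₀ : ℝ, ∀ Y ≥ Y₀,
    (FS P Y).Finite ∧ (Set.ncard (FS P Y) : ℝ) ≤
      (Real.pi / (72 * Real.sqrt 3) * ∏ q ∈ P, ((1 - 1 / (q : ℝ)) / q) + η) * Y := by
  obtain ⟨hp0, hp1⟩ := Hn_prod hP
  set pr : ℝ := ∏ q ∈ P, ((1 - 1 / (q : ℝ)) / q) with hpr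
  -- the constants
  set s : ℝ := min 1 (η / 64) with hs
  have hs0 : 0 < s := lt_min one_pos (by positivity)
  have hs1 : s ≤ 1 := min_le_left _ _
  have hs2 : s ≤ η / 64 := min_le_right _ _
  have hε : 0 < s ^ 3 := by positivity
  have hε1 : s ^ 3 ≤ 1 := pow_le_one₀ hs0.le hs1
  have hε3 : (s ^ 3) ^ (1 / 3 : ℝ) = s := by
    rw [← Real.rpow_natCast, ← Real.rpow_mul hs0.le]
    norm_num
  obtain ⟨M, R, hM, hR, hRc⟩ := dens hP
  obtain ⟨t₀, ht₀, hbox⟩ := box_count (rg_compact hε) hM R (η := η / 2) (by positivity)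
  refine ⟨(max t₀ 1) ^ 4, fun Y hY => ?_⟩
  have hm0 : (0 : ℝ) < max t₀ 1 := lt_max_of_lt_right one_pos
  have hY0 : 0 < Y := lt_of_lt_of_le (by positivity) hY
  obtain ⟨t, htdef⟩ : ∃ t : ℝ, t = Y ^ (1 / 4 : ℝ) := ⟨_, rfl⟩
  have ht4 : t ^ 4 = Y := by
    rw [htdef, ← Real.rpow_natCast, ← Real.rpow_mul hY0.le]
    norm_num
  have ht0' : 0 ≤ t := by rw [htdef]; positivity
  have htm : max t₀ 1 ≤ t := by
    by_contra hcon
    rw [not_le] at hcon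
    have h1 := pow_lt_pow_left₀ hcon ht0' (n := 4) (by norm_num)
    rw [ht4] at h1
    exact absurd hY (not_le.2 h1)
  have ht1 : 1 ≤ t := (le_max_right _ _).trans htm
  have ht : 0 < t := by linarith
  obtain ⟨hfin1, hcard1⟩ := hbox t ((le_max_left _ _).trans htm)
  obtain ⟨hfin2, hcard2⟩ := cusp hε hε1 ht1
  have hsub : FS P Y ⊆ {f : Fin 4 → ℤ | (fun i => (f i : ℝ) / t) ∈ Rg (s ^ 3) ∧
      (fun i => (f i : ZMod M)) ∈ R} ∪ Cu (s ^ 3) t := by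
    intro f hf
    rcases Hn_mem (ε := s ^ 3) ht ht4 hf with h | h
    · exact Or.inl ⟨h, hR f hf.1⟩
    · exact Or.inr h
  have hfinU := hfin1.union hfin2
  refine ⟨hfinU.subset hsub, ?_⟩
  have hc : (Set.ncard (FS P Y) : ℝ) ≤
      (Set.ncard {f : Fin 4 → ℤ | (fun i => (f i : ℝ) / t) ∈ Rg (s ^ 3) ∧
        (fun i => (f i : ZMod M)) ∈ R} : ℝ) + (Set.ncard (Cu (s ^ 3) t) : ℝ) := by
    have h1 := Set.ncard_le_ncard hsub hfinU
    have h2 := Set.ncard_union_le {f : Fin 4 → ℤ | (fun i => (f i : ℝ) / t) ∈ Rg (s ^ 3) ∧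
      (fun i => (f i : ZMod M)) ∈ R} (Cu (s ^ 3) t)
    exact_mod_cast h1.trans h2
  have hM0 : (0 : ℝ) < M := by exact_mod_cast hM
  have hvol : (MeasureTheory.volume (Rg (s ^ 3))).toReal ≤ Real.pi / (2 * Real.sqrt 3) := by
    have h1 := ENNReal.toReal_mono ENNReal.ofReal_ne_top (rg_volume hε)
    rwa [ENNReal.toReal_ofReal (by positivity)] at h1
  have hb1 : (R.card : ℝ) * (t / M) ^ 4 *
      ((MeasureTheory.volume (Rg (s ^ 3))).toReal + η / 2) ≤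
      (Real.pi / (72 * Real.sqrt 3) * pr + η / 2) * Y := by
    have e1 : (R.card : ℝ) * (t / M) ^ 4 ≤ 1 / 36 * pr * Y := by
      rw [div_pow, ht4, mul_div_assoc', div_le_iff₀ (by positivity)]
      calc (R.card : ℝ) * Y ≤ (M : ℝ) ^ 4 * (1 / 36 * pr) * Y :=
            mul_le_mul_of_nonneg_right hRc hY0.le
        _ = 1 / 36 * pr * Y * (M : ℝ) ^ 4 := by ring
    have hv0 : 0 ≤ (MeasureTheory.volume (Rg (s ^ 3))).toReal := ENNReal.toReal_nonneg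
    calc (R.card : ℝ) * (t / M) ^ 4 * ((MeasureTheory.volume (Rg (s ^ 3))).toReal + η / 2)
        ≤ (1 / 36 * pr * Y) * (Real.pi / (2 * Real.sqrt 3) + η / 2) := by
          apply mul_le_mul e1 (by linarith) (by positivity) (by positivity)
      _ = (Real.pi / (72 * Real.sqrt 3) * pr + pr * (η / 72)) * Y := by
          have h3 : Real.sqrt 3 ≠ 0 := by positivity
          field_simp
          ring
      _ ≤ (Real.pi / (72 * Real.sqrt 3) * pr + η / 2) * Y := by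
          apply mul_le_mul_of_nonneg_right _ hY0.le
          have : pr * (η / 72) ≤ 1 * (η / 72) := mul_le_mul_of_nonneg_right hp1 (by positivity)
          linarith
  have hb2 : 32 * (s ^ 3) ^ (1 / 3 : ℝ) * t ^ 4 ≤ η / 2 * Y := by
    rw [hε3, ht4]
    apply mul_le_mul_of_nonneg_right _ hY0.le
    linarith
  have hfin := hc.trans (add_le_add (hcard1.trans hb1) (hcard2.trans hb2))
  refine hfin.trans (le_of_eq ?_)
  ring

end H38T6
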