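import Pool.Agent.H38.T6.Hn
import Pool.Agent.H38.T6.Hd

/-!
Row Ho. (about 150 lines): the bad m. D := -(m0 m). For m in the set: D < 0, squarefree (m0 squarefree: 2 times distinct odd primes; m squarefree, coprime), D % 4 = 2 (m0 = 2 * odd, m odd: m0 m = 2 mod 4, -(2 mod 4) = 2 mod 4). two_forms: f_m <> g_m with Frm (4 m0 m). Both are in FS P (4 m0 X): Dz f = Dl .. = 4 m0 m: % 16 = 8 (8 * odd), % 3 = 1 (4 m0 m = m0 m = 1 mod 3), q in P: q | m0, q^2 does not divide 4 m0 m (q odd, q exactly divides m0, m coprime to q), and 4 m0 m <= 4 m0 X. The sets {f_m, g_m} are disjoint for different m (Dz determines m). So 2 * (number of bad m) <= ncard (FS P (4 m0 X)) <= (pi/(72 sqrt 3) prod ((1 - 1/q)/q) + eta') 4 m0 X, and 4 m0 prod (1/q) = 8: = (pi/(9 sqrt 3) rho + 4 m0 eta') X. eta' := eta / (4 m0); Y0 -> X0.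
-/

set_option autoImplicit false
set_option linter.unusedSectionVars false
open scoped Classical


namespace H38T6

private lemma m0_pos {P : Finset ℕ} (hP : Prs P) : 0 < m0 P := by
  unfold m0
  have : 0 < ∏ q ∈ P, q := Finset.prod_pos (fun q hq => (hP q hq).1.pos)
  omega

private lemma prod_sqf {P : Finset ℕ} (hP : Prs P) : Squarefree (∏ q ∈ P, q) := by
  induction P using Finset.induction_on with
  | empty => simp
  | insert a s ha ih =>
    rw [Finset.prod_insert ha]
    have hs : Prs s := fun q hq => hP q (Finset.mem_insert_of_mem hq)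
    have hap : a.Prime := (hP a (Finset.mem_insert_self a s)).1
    rw [Nat.squarefree_mul_iff]
    refine ⟨?_, hap.squarefree, ih hs⟩
    refine Nat.Coprime.prod_right (fun q hq => ?_)
    rw [Nat.coprime_primes hap (hs q hq).1]
    rintro rfl
    exact ha hq

private lemma prod_odd {P : Finset ℕ} (hP : Prs P) : Odd (∏ q ∈ P, q) := by
  induction P using Finset.induction_on with
  | empty => simp
  | insert a s ha ih =>
    rw [Finset.prod_insert ha]
    have hs : Prs s := fun q hq => hP q (Finset.mem_insert_of_mem hq)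
    have hap := hP a (Finset.mem_insert_self a s)
    exact (hap.1.odd_of_ne_two hap.2.1).mul (ih hs)

private lemma m0_sqf {P : Finset ℕ} (hP : Prs P) : Squarefree (m0 P) := by
  unfold m0
  rw [Nat.squarefree_mul_iff]
  exact ⟨(Nat.coprime_two_left).2 (prod_odd hP), Nat.prime_two.squarefree, prod_sqf hP⟩

private lemma adm_facts {P : Finset ℕ} (hP : Prs P) {m : ℕ} (hm : Adm P m) :
    Squarefree (m0 P * m) ∧ (m0 P * m) % 4 = 2 := by
  obtain ⟨hsq, hco, h3⟩ := hm
  refine ⟨?_, ?_⟩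
  · rw [Nat.squarefree_mul_iff]
    exact ⟨hco.symm, m0_sqf hP, hsq⟩
  · have hodd : Odd m := by
      have : Nat.Coprime m 2 := Nat.Coprime.coprime_dvd_right (by unfold m0; exact dvd_mul_right _ _) hco
      exact (Nat.coprime_two_right).1 this
    obtain ⟨k, hk⟩ := hodd
    obtain ⟨l, hl⟩ := prod_odd hP
    have : m0 P * m = 4 * (2 * l * k + l + k) + 2 := by
      unfold m0; rw [hl, hk]; ring
    omega

private lemma cls_of {P : Finset ℕ} (hP : Prs P) {m : ℕ} (hm : Adm P m) {f : Fin 4 → ℤ}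
    (hf : Dz f = 4 * ((m0 P * m : ℕ) : ℤ)) : Cls P f := by
  obtain ⟨hsq, h4⟩ := adm_facts hP hm
  have h3 := hm.2.2
  refine ⟨?_, ?_, ?_⟩
  · rw [hf]; omega
  · rw [hf]; omega
  · intro q hq
    rw [hf]
    have hqp := hP q hq
    have hqd : q ∣ m0 P * m := by
      unfold m0
      exact Dvd.dvd.mul_right (Dvd.dvd.mul_left (Finset.dvd_prod_of_mem _ hq) _) _
    refine ⟨?_, ?_⟩
    · exact Dvd.dvd.mul_left (by exact_mod_cast hqd) _
    · intro hd
      have hd' : q ^ 2 ∣ 4 * (m0 P * m) := by exact_mod_cast hd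
      have hc : Nat.Coprime (q ^ 2) 4 := by
        have h1 : Nat.Coprime q 2 := by
          rw [Nat.coprime_primes hqp.1 Nat.prime_two]; exact hqp.2.1
        have h2 : Nat.Coprime (q ^ 2) (2 ^ 2) := Nat.Coprime.pow 2 2 h1
        simpa using h2
      have h5 : q ^ 2 ∣ m0 P * m := hc.dvd_of_dvd_mul_left hd'
      have h6 := hsq q (by rw [← sq]; exact h5)
      exact hqp.1.one_lt.ne' (Nat.isUnit_iff.1 h6)

theorem bad_count {P : Finset ℕ} (hP : Prs P) {η : ℝ} (hη : 0 < η) : ∃ X₀ : ℕ, ∀ X ≥ X₀,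
    2 * (((Finset.Icc 1 X).filter (fun m => Adm P m ∧ ¬ CubD (-((m0 P * m : ℕ) : ℤ)))).card : ℝ) ≤
      (Real.pi / (9 * Real.sqrt 3) * rho P + η) * X := by
  have hm0 := m0_pos hP
  have hm0R : (0 : ℝ) < m0 P := by exact_mod_cast hm0
  obtain ⟨Y₀, hY₀⟩ := forms_count hP (η := η / (4 * m0 P)) (by positivity)
  refine ⟨⌈|Y₀|⌉₊, fun X hX => ?_⟩
  set Y : ℝ := 4 * (m0 P : ℝ) * X with hY
  have hXR : |Y₀| ≤ (X : ℝ) := le_trans (Nat.le_ceil _) (by exact_mod_cast hX)
  have hm1 : (1 : ℝ) ≤ m0 P := by exact_mod_cast hm0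
  have hYY : Y ≥ Y₀ := by
    have hX0 : (0 : ℝ) ≤ X := Nat.cast_nonneg _
    have := le_abs_self Y₀
    have : (X : ℝ) ≤ 4 * (m0 P : ℝ) * X := by nlinarith
    rw [hY]; linarith
  obtain ⟨hfin, hcard⟩ := hY₀ Y hYY
  set B := (Finset.Icc 1 X).filter (fun m => Adm P m ∧ ¬ CubD (-((m0 P * m : ℕ) : ℤ))) with hB
  set S : Finset (Fin 4 → ℤ) := hfin.toFinset with hS
  set t : ℕ → Finset (Fin 4 → ℤ) := fun m => S.filter (fun f => Dz f = 4 * ((m0 P * m : ℕ) : ℤ)) with ht
  have hdis : ∀ m ∈ B, ∀ n ∈ B, m ≠ n → Disjoint (t m) (t n) := by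
    intro m _ n _ hmn
    rw [Finset.disjoint_left]
    intro f hf hg
    simp only [ht, Finset.mem_filter] at hf hg
    have h1 : ((m0 P * m : ℕ) : ℤ) = ((m0 P * n : ℕ) : ℤ) := by
      have := hf.2.symm.trans hg.2
      omega
    have h2 : m0 P * m = m0 P * n := by exact_mod_cast h1
    exact hmn (Nat.eq_of_mul_eq_mul_left hm0 h2)
  have htwo : ∀ m ∈ B, 2 ≤ (t m).card := by
    intro m hm
    simp only [hB, Finset.mem_filter, Finset.mem_Icc] at hm
    obtain ⟨⟨hm1, hmX⟩, hadm, hcub⟩ := hm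
    obtain ⟨hsq, h4⟩ := adm_facts hP hadm
    have hpos : 0 < m0 P * m := Nat.mul_pos hm0 (by omega)
    obtain ⟨f, g, hfg, hf, hg⟩ := two_forms (D := -((m0 P * m : ℕ) : ℤ)) (by omega)
      (by rw [← Int.squarefree_natAbs, Int.natAbs_neg, Int.natAbs_natCast]; exact hsq) (by omega) hcub
    have key : ∀ f : Fin 4 → ℤ, Frm (-4 * -((m0 P * m : ℕ) : ℤ)) (f 0) (f 1) (f 2) (f 3) → f ∈ t m := by
      intro f hf
      have hDz : Dz f = 4 * ((m0 P * m : ℕ) : ℤ) := by
        have h5 := hf.2.2.2.2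
        unfold Dl at h5
        unfold Dz
        rw [h5]; ring
      simp only [ht, Finset.mem_filter, hS, Set.Finite.mem_toFinset, FS, Set.mem_ofPred_eq]
      refine ⟨⟨cls_of hP hadm hDz, ?_, ?_⟩, hDz⟩
      · rw [hDz, hY]
        push_cast
        have : (m : ℝ) ≤ X := by exact_mod_cast hmX
        nlinarith [mul_le_mul_of_nonneg_left this hm0R.le]
      · have : Dz f = -4 * -((m0 P * m : ℕ) : ℤ) := by rw [hDz]; ring
        rw [this]; exact hf
    have hsub : ({f, g} : Finset (Fin 4 → ℤ)) ⊆ t m := by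
      intro h hh
      simp only [Finset.mem_insert, Finset.mem_singleton] at hh
      rcases hh with rfl | rfl
      · exact key _ hf
      · exact key _ hg
    calc 2 = ({f, g} : Finset (Fin 4 → ℤ)).card := (Finset.card_pair hfg).symm
      _ ≤ (t m).card := Finset.card_le_card hsub
  have hcount : 2 * B.card ≤ S.card := by
    calc 2 * B.card = ∑ m ∈ B, 2 := by simp [mul_comm]
      _ ≤ ∑ m ∈ B, (t m).card := Finset.sum_le_sum htwo
      _ = (B.biUnion t).card := (Finset.card_biUnion hdis).symm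
      _ ≤ S.card := Finset.card_le_card (by
          intro f hf
          rw [Finset.mem_biUnion] at hf
          obtain ⟨m, _, hm⟩ := hf
          exact (Finset.mem_filter.1 hm).1)
  have hS2 : (Set.ncard (FS P Y)) = S.card := Set.ncard_eq_toFinset_card _ hfin
  have h1 : 2 * (B.card : ℝ) ≤ (Set.ncard (FS P Y) : ℝ) := by
    rw [hS2]; exact_mod_cast hcount
  refine h1.trans (hcard.trans (le_of_eq ?_))
  have hprod : (4 * (m0 P : ℝ)) * ∏ q ∈ P, ((1 - 1 / (q : ℝ)) / q) = 8 * rho P := by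
    unfold m0 rho
    rw [Finset.prod_div_distrib]
    push_cast
    have hne : (∏ q ∈ P, (q : ℝ)) ≠ 0 := by
      rw [Finset.prod_ne_zero_iff]
      intro q hq
      have := (hP q hq).1.pos
      positivity
    field_simp
    ring
  have hsqrt : Real.sqrt 3 ≠ 0 := by positivity
  calc (Real.pi / (72 * Real.sqrt 3) * ∏ q ∈ P, ((1 - 1 / (q : ℝ)) / q) + η / (4 * m0 P)) * Y
      = (Real.pi / (72 * Real.sqrt 3) * ((4 * (m0 P : ℝ)) * ∏ q ∈ P, ((1 - 1 / (q : ℝ)) / q)) + η) * X := by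
        rw [hY]
        field_simp
    _ = (Real.pi / (9 * Real.sqrt 3) * rho P + η) * X := by
        rw [hprod]
        congr 2
        field_simp
        ring

end H38T6
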