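import Pool.Agent.H86.T3G.Hen
import Mathlib

/-! Row La: roots of cubic polynomials over complete fields with residue characteristic three. -/

set_option autoImplicit false
set_option linter.unusedSectionVars false
open scoped Classical


namespace H38T6

open WithZero H86T3

theorem La_mem {k L : Type*} [Field k] [Fintype k] [Field L] [Algebra k L] {x : L}
    (hx : x ^ Fintype.card k = x) : ∃ a : k, algebraMap k L a = x := by
  classical
  by_contra hcon
  push Not at hcon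
  obtain ⟨Z, hZd⟩ : ∃ Z : Finset L, Z = insert x (Finset.univ.image (algebraMap k L)) := ⟨_, rfl⟩
  have hp0 : (Polynomial.X ^ Fintype.card k - Polynomial.X : Polynomial L) ≠ 0 :=
    FiniteField.X_pow_card_sub_X_ne_zero L Fintype.one_lt_card
  have hZ : Z.val ⊆ (Polynomial.X ^ Fintype.card k - Polynomial.X : Polynomial L).roots := by
    intro z hz
    rw [Polynomial.mem_roots hp0, Polynomial.IsRoot.def, Polynomial.eval_sub, Polynomial.eval_pow,
      Polynomial.eval_X]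
    have hz' : z ∈ Z := hz
    rw [hZd] at hz'
    rcases Finset.mem_insert.1 hz' with h | h
    · rw [h, hx, sub_self]
    · obtain ⟨a, _, ha⟩ := Finset.mem_image.1 h
      rw [← ha, ← map_pow, FiniteField.pow_card, sub_self]
  have h1 := Polynomial.card_le_degree_of_subset_roots hZ
  rw [FiniteField.X_pow_card_sub_X_natDegree_eq L Fintype.one_lt_card] at h1
  have h2 : Z.card = Fintype.card k + 1 := by
    rw [hZd, Finset.card_insert_of_notMem, Finset.card_image_of_injective _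
      (algebraMap k L).injective, Finset.card_univ]
    intro h
    obtain ⟨a, _, ha⟩ := Finset.mem_image.1 h
    exact hcon a ha
  omega

theorem La_ff {k L : Type*} [Field k] [Fintype k] [Field L] [Algebra k L] {a b c : k}
    (hcon : ∀ x : k, x ^ 3 + a * x ^ 2 + b * x + c ≠ 0) {A B C r : L}
    (hA : algebraMap k L a = A) (hB : algebraMap k L b = B) (hC : algebraMap k L c = C)
    (hr : r ^ 3 + A * r ^ 2 + B * r + C = 0) :
    ∃ z : k, z ^ 2 = a ^ 2 * b ^ 2 - 4 * b ^ 3 - 4 * a ^ 3 * c - 27 * c ^ 2 + 18 * a * b * c := by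
  obtain ⟨φ, hφd⟩ : ∃ φ : L →ₐ[k] L, ∀ x, φ x = x ^ Fintype.card k :=
    ⟨FiniteField.frobeniusAlgHom k L, fun x => rfl⟩
  have hφ : ∀ x : L, φ x = x → ∃ y : k, algebraMap k L y = x := by
    intro x hx
    rw [hφd] at hx
    exact La_mem hx
  have cA : φ A = A := by rw [← hA, AlgHom.commutes]
  have cB : φ B = B := by rw [← hB, AlgHom.commutes]
  have cC : φ C = C := by rw [← hC, AlgHom.commutes]
  have hno : ∀ x : L, x ^ 3 + A * x ^ 2 + B * x + C = 0 → φ x ≠ x := by
    intro x hx h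
    obtain ⟨y, hy⟩ := hφ x h
    apply hcon y
    apply (algebraMap k L).injective
    rw [map_zero, map_add, map_add, map_add, map_mul, map_mul, map_pow, map_pow, hA, hB, hC, hy]
    exact hx
  have hφr : ∀ x : L, x ^ 3 + A * x ^ 2 + B * x + C = 0 →
      (φ x) ^ 3 + A * (φ x) ^ 2 + B * φ x + C = 0 := by
    intro x hx
    have h1 := congrArg φ hx
    rw [map_zero, map_add, map_add, map_add, map_mul, map_mul, map_pow, map_pow, cA, cB, cC] at h1
    exact h1
  have h01 : φ r ≠ r := hno r hr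
  have hr1 := hφr r hr
  obtain ⟨s, hs⟩ : ∃ s, s = φ r := ⟨_, rfl⟩
  rw [← hs] at h01 hr1
  obtain ⟨t, ht⟩ : ∃ t, t = -A - r - s := ⟨_, rfl⟩
  have hB' : B = r * s + (r + s) * t := by
    have h1 : (s - r) * (B - (r * s + (r + s) * t)) = 0 := by
      rw [ht]
      linear_combination hr1 - hr
    rcases mul_eq_zero.1 h1 with h | h
    · exact absurd (sub_eq_zero.1 h) h01
    · exact sub_eq_zero.1 h
  have hA' : A = -(r + s + t) := by
    rw [ht]
    ring
  have hC' : C = -(r * s * t) := by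
    rw [hB', hA'] at hr
    linear_combination hr
  have hfac : ∀ x : L, x ^ 3 + A * x ^ 2 + B * x + C = (x - r) * (x - s) * (x - t) := by
    intro x
    rw [hC', hB', hA']
    ring
  have htr : t ^ 3 + A * t ^ 2 + B * t + C = 0 := by
    rw [hfac, sub_self, mul_zero]
  have h12 : φ t ≠ t := hno t htr
  have hφt : φ t = -A - s - φ s := by
    rw [ht, map_sub, map_sub, map_neg, cA, ← hs]
  have h3 : φ s = t := by
    have hh := hfac (φ s)
    rw [hφr _ hr1] at hh
    rcases mul_eq_zero.1 hh.symm with h | h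
    · rcases mul_eq_zero.1 h with h | h
      · exfalso
        apply h12
        rw [hφt, sub_eq_zero.1 h, ht]
        ring
      · exact absurd (sub_eq_zero.1 h) (hno _ hr1)
    · exact sub_eq_zero.1 h
  have h4 : φ t = r := by
    rw [hφt, h3, ht]
    ring
  have h5 : φ ((r - s) * (s - t) * (t - r)) = (r - s) * (s - t) * (t - r) := by
    rw [map_mul, map_mul, map_sub, map_sub, map_sub, h3, h4, ← hs]
    ring
  obtain ⟨z, hz⟩ := hφ _ h5
  refine ⟨z, (algebraMap k L).injective ?_⟩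
  rw [map_pow, hz]
  simp only [map_sub, map_add, map_mul, map_pow, map_ofNat]
  rw [hA, hB, hC, hC', hB', hA']
  ring

theorem ff_root {k : Type*} [Field k] [Finite k] {a b c : k}
    (h : ∀ z : k, z ^ 2 ≠ a ^ 2 * b ^ 2 - 4 * b ^ 3 - 4 * a ^ 3 * c - 27 * c ^ 2 + 18 * a * b * c) :
    ∃ x : k, x ^ 3 + a * x ^ 2 + b * x + c = 0 := by
  have := Fintype.ofFinite k
  by_contra hcon
  push Not at hcon
  obtain ⟨r, hr⟩ : ∃ r : AlgebraicClosure k, r ^ 3 + algebraMap k (AlgebraicClosure k) a * r ^ 2 +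
      algebraMap k (AlgebraicClosure k) b * r + algebraMap k (AlgebraicClosure k) c = 0 := by
    have hdeg : (Polynomial.X ^ 3 +
        Polynomial.C (algebraMap k (AlgebraicClosure k) a) * Polynomial.X ^ 2 +
        Polynomial.C (algebraMap k (AlgebraicClosure k) b) * Polynomial.X +
        Polynomial.C (algebraMap k (AlgebraicClosure k) c) :
        Polynomial (AlgebraicClosure k)).degree = 3 := by
      compute_degree!
    obtain ⟨r, hr⟩ := IsAlgClosed.exists_root _ (by rw [hdeg]; norm_num)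
    refine ⟨r, ?_⟩
    rw [Polynomial.IsRoot.def] at hr
    simpa using hr
  obtain ⟨z, hz⟩ := La_ff hcon rfl rfl rfl hr
  exact h z hz

theorem La_claim {k : Type*} [Field k] [Finite k] (h3 : (3 : k) = 0) {u D a b y : k} (hD : D ≠ 0)
    (hns : ∀ z : k, z ^ 2 ≠ D) (ha : a ≠ 0) (hb : b ≠ 0)
    (hy : y ^ 2 = u ^ 3 + D * a ^ 2 * u ^ 2 - 18 * D * a * b * u - 27 * D * b ^ 2 -
      16 * a ^ 3 * b * D ^ 2) :
    ∃ t : k, t ^ 3 - u * t ^ 2 + 4 * D * a * b * t + 4 * D * b ^ 2 = 0 ∧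
      3 * t ^ 2 - 2 * u * t + 4 * D * a * b ≠ 0 := by
  have h4 : (4 : k) ≠ 0 := by
    have h : (4 : k) = 1 := by linear_combination h3
    rw [h]
    exact one_ne_zero
  by_cases hy0 : y = 0
  · rw [hy0] at hy
    have hu : u ≠ 0 := by
      rintro rfl
      have h5 : a ^ 3 * b * D ^ 2 = 0 := by
        linear_combination hy - (9 * D * b ^ 2 + 5 * a ^ 3 * b * D ^ 2) * h3
      exact mul_ne_zero (mul_ne_zero (pow_ne_zero 3 ha) hb) (pow_ne_zero 2 hD) h5
    obtain ⟨r, hr⟩ : ∃ r : k, u * r = -(D * a * b) := ⟨-(D * a * b) / u, by field_simp⟩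
    have h6 : D * b ^ 2 = -(r ^ 2 * (u + r)) := by
      have h7 : u ^ 3 * (D * b ^ 2 + r ^ 2 * (u + r)) = 0 := by
        linear_combination (-(D * b ^ 2)) * hy + (u ^ 2 * (u * r - D * a * b) +
          (u ^ 2 * r ^ 2 - u * r * (D * a * b) + (D * a * b) ^ 2)) * hr +
          (5 * (D * a * b) ^ 3 + 6 * (D * a * b) * (D * b ^ 2) * u + 9 * D ^ 2 * b ^ 4) * h3
      rcases mul_eq_zero.1 h7 with h8 | h8
      · exact absurd h8 (pow_ne_zero 3 hu)
      · linear_combination h8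
    refine ⟨u + r, ?_, ?_⟩
    · linear_combination (4 * (u + r)) * hr + 4 * h6 - r * (u + r) ^ 2 * h3
    · intro h
      apply hu
      have h9 : u ^ 2 = 0 := by
        linear_combination h - 4 * hr + (u ^ 2 + 2 * u * r - (u + r) ^ 2) * h3
      exact (pow_eq_zero_iff two_ne_zero).1 h9
  · have hne : (4 * b * y) ^ 2 ≠ 0 := pow_ne_zero 2 (mul_ne_zero (mul_ne_zero h4 hb) hy0)
    obtain ⟨t, ht⟩ := ff_root (k := k) (a := -u) (b := 4 * D * a * b) (c := 4 * D * b ^ 2) (by
      intro z hz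
      apply hns (z / (4 * b * y))
      rw [div_pow, div_eq_iff hne, hz]
      linear_combination (-(16 * D * b ^ 2)) * hy)
    refine ⟨t, by linear_combination ht, ?_⟩
    intro h5
    have hc : 4 * D * a * b = -3 * t ^ 2 + 2 * u * t := by linear_combination h5
    have hc2 : 4 * D * b ^ 2 = 2 * t ^ 3 - u * t ^ 2 := by
      rw [hc] at ht
      linear_combination ht
    have h6 : D * (4 * b * y) ^ 2 = 0 := by
      have e : D * (4 * b * y) ^ 2 = (-u) ^ 2 * (4 * D * a * b) ^ 2 - 4 * (4 * D * a * b) ^ 3 -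
          4 * (-u) ^ 3 * (4 * D * b ^ 2) - 27 * (4 * D * b ^ 2) ^ 2 +
          18 * (-u) * (4 * D * a * b) * (4 * D * b ^ 2) := by
        linear_combination (16 * D * b ^ 2) * hy
      rw [e, hc, hc2]
      ring
    exact mul_ne_zero hD hne h6

theorem etale_root {F : Type*} [Field F] {V : Valuation F (WithZero (Multiplicative ℤ))}
    (hV : Hens3 V) {k : Type*} [Field k] [Finite k] {ρ : V.integer →+* k}
    (hρs : Function.Surjective ρ) (hρ : ∀ x : V.integer, ρ x = 0 ↔ V x < 1) (h3 : V 3 < 1)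
    {u D α β y : F} (hD : V D = 1) (hns : ∀ X : F, 1 ≤ V (X ^ 2 - D)) (hα : V α = 1)
    (hβ : V β = 1) (hy : y ^ 2 = u ^ 3 + D * α ^ 2 * u ^ 2 - 18 * D * α * β * u - 27 * D * β ^ 2 -
      16 * α ^ 3 * β * D ^ 2) :
    ∃ x : F, x ^ 3 - u * x ^ 2 + 4 * D * α * β * x + 4 * D * β ^ 2 = 0 := by
  have hn : ∀ x : V.integer, V (x : F) ≤ 1 := fun x => x.2
  rcases lt_or_ge 1 (V u) with hu | hu
  · have hu0 : u ≠ 0 := by
      rintro rfl
      rw [map_zero] at hu
      exact absurd hu (not_lt.2 zero_le)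
    have h4 : V (4 : F) ≤ 1 := hn (4 : V.integer)
    have h2 : V (2 : F) ≤ 1 := hn (2 : V.integer)
    have hi : V u⁻¹ < 1 := by
      rw [map_inv₀]
      exact inv_lt_one_of_one_lt₀ hu
    have hp : V (4 * D * α * β * u⁻¹ ^ 2) < 1 := by
      rw [map_mul, map_mul, map_mul, map_mul, hD, hα, hβ, mul_one, mul_one, mul_one, map_pow]
      exact lt_of_le_of_lt (mul_le_of_le_one_left' h4) (pow_lt_one₀ zero_le hi two_ne_zero)
    have hq : V (4 * D * β ^ 2 * u⁻¹ ^ 3) < 1 := by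
      rw [map_mul, map_mul, map_mul, hD, map_pow, hβ, one_pow, mul_one, mul_one, map_pow]
      exact lt_of_le_of_lt (mul_le_of_le_one_left' h4) (pow_lt_one₀ zero_le hi three_ne_zero)
    obtain ⟨Y, -, hY⟩ := hV (4 * D * α * β * u⁻¹ ^ 2 + 4 * D * β ^ 2 * u⁻¹ ^ 3)
      (1 + 4 * D * α * β * u⁻¹ ^ 2) 2 1 (V.map_add_lt hp hq) (V.map_one_add_of_lt hp) h2
      (le_of_eq V.map_one)
    refine ⟨u * (1 + Y), ?_⟩
    have e1 : u ^ 3 * (4 * D * α * β * u⁻¹ ^ 2) = 4 * D * α * β * u := by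
      field_simp
    have e2 : u ^ 3 * (4 * D * β ^ 2 * u⁻¹ ^ 3) = 4 * D * β ^ 2 := by
      field_simp
    linear_combination u ^ 3 * hY - (1 + Y) * e1 - e2
  · obtain ⟨u', rfl⟩ : ∃ u' : V.integer, (u' : F) = u := ⟨⟨u, hu⟩, rfl⟩
    obtain ⟨D', rfl⟩ : ∃ D' : V.integer, (D' : F) = D := ⟨⟨D, hD.le⟩, rfl⟩
    obtain ⟨α', rfl⟩ : ∃ α' : V.integer, (α' : F) = α := ⟨⟨α, hα.le⟩, rfl⟩
    obtain ⟨β', rfl⟩ : ∃ β' : V.integer, (β' : F) = β := ⟨⟨β, hβ.le⟩, rfl⟩
    have hyV : V y ≤ 1 := by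
      by_contra h
      have h1 : V (y ^ 2) ≤ 1 := by
        rw [hy]
        exact hn (u' ^ 3 + D' * α' ^ 2 * u' ^ 2 - 18 * D' * α' * β' * u' - 27 * D' * β' ^ 2 -
          16 * α' ^ 3 * β' * D' ^ 2)
      rw [map_pow] at h1
      exact absurd (one_lt_pow₀ (not_le.1 h) two_ne_zero) (not_lt.2 h1)
    obtain ⟨y', rfl⟩ : ∃ y' : V.integer, (y' : F) = y := ⟨⟨y, hyV⟩, rfl⟩
    have hyI : y' ^ 2 = u' ^ 3 + D' * α' ^ 2 * u' ^ 2 - 18 * D' * α' * β' * u' -
        27 * D' * β' ^ 2 - 16 * α' ^ 3 * β' * D' ^ 2 := Subtype.ext hy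
    have hyk := congrArg ρ hyI
    simp only [map_add, map_sub, map_mul, map_pow, map_ofNat] at hyk
    have h3k : (3 : k) = 0 := by
      have h := (hρ (3 : V.integer)).2 h3
      rwa [map_ofNat] at h
    have hne : ∀ x : V.integer, V (x : F) = 1 → ρ x ≠ 0 := by
      intro x hx h
      have h1 := (hρ x).1 h
      rw [hx] at h1
      exact lt_irrefl _ h1
    have hns' : ∀ z : k, z ^ 2 ≠ ρ D' := by
      intro z hz
      obtain ⟨X, rfl⟩ := hρs z
      have h1 : V ((X ^ 2 - D' : V.integer) : F) < 1 := by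
        rw [← hρ, map_sub, map_pow, hz, sub_self]
      exact absurd h1 (not_lt.2 (hns (X : F)))
    obtain ⟨t, ht, ht'⟩ := La_claim h3k (hne D' hD) hns' (hne α' hα) (hne β' hβ) hyk
    obtain ⟨T, rfl⟩ := hρs t
    have hg0 : V ((T ^ 3 - u' * T ^ 2 + 4 * D' * α' * β' * T + 4 * D' * β' ^ 2 :
        V.integer) : F) < 1 := by
      rw [← hρ]
      simp only [map_add, map_sub, map_mul, map_pow, map_ofNat]
      exact ht
    have hg1 : V ((3 * T ^ 2 - 2 * u' * T + 4 * D' * α' * β' : V.integer) : F) = 1 := by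
      refine le_antisymm (hn _) (not_lt.1 fun h => ht' ?_)
      rw [← hρ] at h
      simp only [map_add, map_sub, map_mul, map_pow, map_ofNat] at h
      exact h
    obtain ⟨Y, -, hY⟩ := hV _ _ ((3 * T - u' : V.integer) : F) 1 hg0 hg1 (hn _)
      (le_of_eq V.map_one)
    have e0 : ((T ^ 3 - u' * T ^ 2 + 4 * D' * α' * β' * T + 4 * D' * β' ^ 2 : V.integer) : F) =
      (T : F) ^ 3 - u' * (T : F) ^ 2 + 4 * D' * α' * β' * T + 4 * D' * (β' : F) ^ 2 := rfl
    have e1 : ((3 * T ^ 2 - 2 * u' * T + 4 * D' * α' * β' : V.integer) : F) =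
      3 * (T : F) ^ 2 - 2 * u' * T + 4 * D' * α' * β' := rfl
    have e2 : ((3 * T - u' : V.integer) : F) = 3 * (T : F) - u' := rfl
    rw [e0, e1, e2] at hY
    exact ⟨T + Y, by linear_combination hY⟩

end H38T6
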