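import Pool.Agent.H38.T6.La
import Pool.Agent.H38.T6.Def1

/-!
Row Lb. (about 150 lines): the image of the points is trivial at the places above three.
pt_cube. F field, char F <> 2, 3; D, al, be, ga = 27 be - 4 D al^3; (xt, yt) with yt^2 = xt^3 - 3 D (al xt + ga/9)^2. u := xt - (4/3) D al^2: then yt^2 = u^3 + D al^2 u^2 - 18 D al be u - 27 D be^2 - 16 al^3 be D^2 (ring). root: x with x^3 - u x^2 + 4 D al be x + 4 D be^2 = 0; x <> 0 as 4 D be^2 <> 0.
 Case yt = 0: L := al xt + ga/9, xt^3 = 3 D L^2; xt <> 0: otherwise L = 0 and ga = 0 (L = ga/9). t1 := 0, t2 := -L / xt: need 0 = 0 and L = -3 D t2^3 = 3 D L^3 / xt^3 = L. ok (for L <> 0; L = 0 gives xt^3 = 0, excluded).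
 Case yt <> 0: P'(x) := 3 x^2 - 2 u x + 4 D al be <> 0, because the discriminant 16 D be^2 yt^2 of P vanishes when P(x) = P'(x) = 0 (ring identity: disc = (p1) P + (p2) P'; or: from P = 0: u = x + 4 D al be / x + 4 D be^2 / x^2, and then yt^2 x^4 = P'(x)^2 (x^3 + D (al x + be)^2), a ring identity after clearing denominators: so P'(x) = 0 forces yt = 0). y := yt x^2 / P'(x): y^2 = x^3 + D (al x + be)^2 by the same identity.
 t1 := y / x, t2 := (al x / 3 + be) / x. Checked identities (with u as above, y^2 = x^3 + D (al x + be)^2, D0 = -3 D): t1^3 + 3 D0 t1 t2^2 = y P'(x) / x^2 = yt; 3 t1^2 t2 + D0 t2^3 = al xt + ga / 9. (Cube2 in Df4.lean of H55/T3.)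
cube_of_loc: LocM (-3 D) (al/3) (ga/9) d1 d2: either cube, or x, y, v1, v2, e1 + e2 s = (v1 + v2 s)^3 with (d1 + d2 s)(e1 + e2 s) = y + (al x + ga/9) s where 3 * (al/3) = al. pt_cube: y + (..) s = (t1 + t2 s)^3 formally (s^2 = -3 D, which is not a square in F by hns': so F(s) is a field; or compute with the norm n := v1^2 + 3 D v2^2 <> 0 (as -3 D is not a square and (v1, v2) <> 0): (t1 + t2 s)/(v1 + v2 s) = (t1 + t2 s)(v1 - v2 s)/n =: w1 + w2 s, and d1 + d2 s = (w1 + w2 s)^3: two ring identities, the unknowns d1, d2 are determined by the linear system with determinant e1^2 + 3 D e2^2 = n^3 <> 0).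
loc_cube3: at a place w of K above three: V := Valued.v on w.adicCompletion K, Hens3 by ad_hens, finite residue field and rho: Pool/Agent/H10/Resid.lean or Pool/Agent/H86/T3G/Plc3.lean / Val3.lean show how to get k, rho, hrs, hr; hns := no_sqrt_loc (Oa); V al = 1 (3 does not divide al), V be = 1, V D = 1. -3 D is not a square in the completion: log v(-3 D) = log v(3) is odd (odd_log), so FinM applies at w (its hypothesis: z^2 <> -3 D).
-/

set_option autoImplicit false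
set_option linter.unusedSectionVars false
open scoped Classical

open WeierstrassCurve IsDedekindDomain NumberField WithZero Pool.Agent.H10 H55T3

namespace H38T6

theorem pt_cube {F : Type*} [Field F] (h2 : (2 : F) ≠ 0) (h3 : (3 : F) ≠ 0) {D α β xt yt : F}
    (hD : D ≠ 0) (hβ : β ≠ 0) (hγ : 27 * β - 4 * D * α ^ 3 ≠ 0)
    (hpt : yt ^ 2 = xt ^ 3 - 3 * D * (α * xt + (27 * β - 4 * D * α ^ 3) / 9) ^ 2)
    (hroot : ∃ x : F, x ^ 3 - (xt - 4 / 3 * D * α ^ 2) * x ^ 2 + 4 * D * α * β * x +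
      4 * D * β ^ 2 = 0) :
    ∃ t₁ t₂ : F, Cube2 (-3 * D) yt (α * xt + (27 * β - 4 * D * α ^ 3) / 9) t₁ t₂ := by
  have h9 : (9 : F) ≠ 0 := by
    have : (9 : F) = 3 * 3 := by norm_num
    rw [this]; exact mul_ne_zero h3 h3
  have h4 : (4 : F) ≠ 0 := by
    have : (4 : F) = 2 * 2 := by norm_num
    rw [this]; exact mul_ne_zero h2 h2
  obtain ⟨a, ha⟩ : ∃ a : F, α = 3 * a := ⟨α / 3, by field_simp⟩
  have e1 : (27 * β - 4 * D * α ^ 3) / 9 = 3 * β - 12 * D * a ^ 3 := by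
    rw [ha, div_eq_iff h9]; ring
  have e2 : 4 / 3 * D * α ^ 2 = 12 * D * a ^ 2 := by
    rw [ha]
    field_simp
    ring
  have e3 : 27 * β - 4 * D * α ^ 3 = 9 * (3 * β - 12 * D * a ^ 3) := by
    rw [ha]; ring
  rw [e1] at hpt ⊢
  rw [e2] at hroot
  rw [e3] at hγ
  obtain ⟨x, hx⟩ := hroot
  rw [ha] at hpt hx ⊢
  clear e1 e2 e3 ha
  obtain ⟨u, hu⟩ : ∃ u : F, u = xt - 12 * D * a ^ 2 := ⟨_, rfl⟩
  rw [← hu] at hx
  have hx0 : x ≠ 0 := by
    rintro rfl
    have h5 : 4 * D * β ^ 2 = 0 := by linear_combination hx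
    exact mul_ne_zero (mul_ne_zero h4 hD) (pow_ne_zero 2 hβ) h5
  by_cases hy : yt = 0
  · have hxt : xt ≠ 0 := by
      intro h0
      rw [hy, h0] at hpt
      have h5 : 3 * D * (3 * β - 12 * D * a ^ 3) ^ 2 = 0 := by linear_combination hpt
      have h6 : 3 * β - 12 * D * a ^ 3 ≠ 0 := fun h => hγ (by rw [h, mul_zero])
      exact mul_ne_zero (mul_ne_zero h3 hD) (pow_ne_zero 2 h6) h5
    obtain ⟨L, hL⟩ : ∃ L : F, L = 3 * a * xt + (3 * β - 12 * D * a ^ 3) := ⟨_, rfl⟩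
    rw [← hL, hy] at hpt
    refine ⟨0, -L / xt, ?_, ?_⟩
    · rw [hy]; ring
    · rw [← hL, div_pow]
      have hxt3 := pow_ne_zero 3 hxt
      field_simp
      linear_combination (-L) * hpt
  · have hyt : yt ^ 2 = u ^ 3 + D * (3 * a) ^ 2 * u ^ 2 - 18 * D * (3 * a) * β * u -
        27 * D * β ^ 2 - 16 * (3 * a) ^ 3 * β * D ^ 2 := by
      rw [hpt, hu]; ring
    obtain ⟨P, hP⟩ : ∃ P : F, P = 3 * x ^ 2 - 2 * u * x + 4 * D * (3 * a) * β := ⟨_, rfl⟩
    have key : yt ^ 2 * x ^ 4 = P ^ 2 * (x ^ 3 + D * (3 * a * x + β) ^ 2) := by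
      rw [hyt, hP]
      linear_combination (-(x ^ 2) * u ^ 2 +
        (3 * x ^ 3 + 3 * D * (3 * a) ^ 2 * x ^ 2 + 4 * D * (3 * a) * β * x) * u +
        (-9 * x ^ 4 - 9 * D * (3 * a) ^ 2 * x ^ 3 - 6 * D * (3 * a) * β * x ^ 2 -
          4 * D ^ 2 * (3 * a) ^ 3 * β * x - 4 * D ^ 2 * (3 * a) ^ 2 * β ^ 2)) * hx
    have hP0 : P ≠ 0 := by
      intro h0
      rw [h0] at key
      have h5 : yt ^ 2 * x ^ 4 = 0 := by rw [key]; ring
      exact mul_ne_zero (pow_ne_zero 2 hy) (pow_ne_zero 4 hx0) h5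
    have hPx : P * x = x ^ 3 - 4 * D * (3 * a) * β * x - 8 * D * β ^ 2 := by
      rw [hP]; linear_combination 2 * hx
    have hux : u * x ^ 2 = x ^ 3 + 4 * D * (3 * a) * β * x + 4 * D * β ^ 2 := by
      linear_combination -hx
    have ht1 : (yt * x / P) ^ 2 * x ^ 2 = x ^ 3 + D * (3 * a * x + β) ^ 2 := by
      rw [div_pow]
      field_simp
      linear_combination key
    refine ⟨yt * x / P, (a * x + β) / x, ?_, ?_⟩
    · have h5 : (yt * x / P) ^ 2 * x ^ 2 - 9 * D * (a * x + β) ^ 2 = P * x := by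
        rw [ht1, hPx]; ring
      have h6 : yt * x / P * ((yt * x / P) ^ 2 - 9 * D * ((a * x + β) / x) ^ 2) = yt := by
        have h7 : (yt * x / P) ^ 2 - 9 * D * ((a * x + β) / x) ^ 2 = P / x := by
          rw [div_pow (a * x + β) x 2, eq_div_iff hx0]
          have hx2 := pow_ne_zero 2 hx0
          have h8 : (yt * x / P) ^ 2 = (P * x + 9 * D * (a * x + β) ^ 2) / x ^ 2 := by
            rw [eq_div_iff hx2]; linear_combination h5
          rw [h8]
          field_simp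
          ring
        rw [h7]
        field_simp
      linear_combination -h6
    · have hx2 := pow_ne_zero 2 hx0
      have h8 : (yt * x / P) ^ 2 = (x ^ 3 + D * (3 * a * x + β) ^ 2) / x ^ 2 := by
        rw [eq_div_iff hx2]; exact ht1
      have hxt : xt = u + 12 * D * a ^ 2 := by rw [hu]; ring
      have hu' : u = (x ^ 3 + 4 * D * (3 * a) * β * x + 4 * D * β ^ 2) / x ^ 2 := by
        rw [eq_div_iff hx2]; exact hux
      rw [h8, hxt, hu']
      field_simp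
      ring

theorem cube_of_loc {F : Type*} [Field F] (h2 : (2 : F) ≠ 0) (h3 : (3 : F) ≠ 0)
    {D α β d₁ d₂ : F} (hD : D ≠ 0) (hns : ∀ z : F, z ^ 2 ≠ -3 * D)
    (hall : ∀ xt yt : F,
      yt ^ 2 = xt ^ 3 + -3 * D * (3 * (α / 3) * xt + (27 * β - 4 * D * α ^ 3) / 9) ^ 2 →
      ∃ t₁ t₂ : F, Cube2 (-3 * D) yt (3 * (α / 3) * xt + (27 * β - 4 * D * α ^ 3) / 9) t₁ t₂)
    (H : LocM (-3 * D) (α / 3) ((27 * β - 4 * D * α ^ 3) / 9) d₁ d₂) :
    ∃ t₁ t₂ : F, Cube2 (-3 * D) d₁ d₂ t₁ t₂ := by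
  rcases H with H | ⟨x, y, v₁, v₂, e₁, e₂, hxy, hv, ⟨he₁, he₂⟩, hm1, hm2⟩
  · exact H
  · obtain ⟨t₁, t₂, ht₁, ht₂⟩ := hall x y hxy
    generalize (3 * (α / 3) * x + (27 * β - 4 * D * α ^ 3) / 9) = z at hm2 ht₂
    generalize (-3 * D) = E at *
    have hn : v₁ ^ 2 - E * v₂ ^ 2 ≠ 0 := by
      intro h0
      by_cases hv2 : v₂ = 0
      · rw [hv2] at h0
        have h5 : v₁ = 0 := by
          have h6 : v₁ ^ 2 = 0 := by linear_combination h0
          exact pow_eq_zero_iff (two_ne_zero) |>.1 h6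
        rcases hv with h | h
        · exact h h5
        · exact h hv2
      · apply hns (v₁ / v₂)
        rw [div_pow, div_eq_iff (pow_ne_zero 2 hv2)]
        linear_combination h0
    obtain ⟨n, hn'⟩ : ∃ n : F, n = v₁ ^ 2 - E * v₂ ^ 2 := ⟨_, rfl⟩
    rw [← hn'] at hn
    have hn3 : n ^ 3 = e₁ ^ 2 - E * e₂ ^ 2 := by
      rw [hn', he₁, he₂]; ring
    have hd1 : d₁ * n ^ 3 = y * e₁ - E * z * e₂ := by
      rw [hn3, ← hm1, ← hm2]; ring
    have hd2 : d₂ * n ^ 3 = z * e₁ - y * e₂ := by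
      rw [hn3, ← hm1, ← hm2]; ring
    have hn3' := pow_ne_zero 3 hn
    refine ⟨(t₁ * v₁ - E * t₂ * v₂) / n, (t₂ * v₁ - t₁ * v₂) / n, ?_, ?_⟩
    · apply mul_right_cancel₀ hn3'
      rw [hd1, ht₁, ht₂, he₁, he₂]
      field_simp
      ring
    · apply mul_right_cancel₀ hn3'
      rw [hd2, ht₁, ht₂, he₁, he₂]
      field_simp
      ring

end H38T6
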