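import Pool.Agent.H38.T6.Lb
import Pool.Agent.H38.T6.Oa

/-!
Row Lc. (about 150 lines): loc_cube3. At a place w of K above three: V := Valued.v on w.adicCompletion K, Hens3 by ad_hens; a finite residue field k with rho, hrs, hr: Pool/Agent/H10/Resid.lean or Pool/Agent/H86/T3G (Plc3, Val3, Pg3 use such data) show how to get them; hns := no_sqrt_loc (Oa) for etale_root; V al = 1 (3 does not divide al: V of an integer prime to 3 is 1), V be = 1, V D = 1, V 3 < 1. -3 D is not a square in the completion: log v(-3 D) = log v(3) is odd (odd_log with q = 3, valued_algebraMap), while log v(z^2) is even. So FinM (see its definition in Df4.lean of H55/T3) applies at w and gives LocM; then cube_of_loc with hall from pt_cube and etale_root (u := xt - 4/3 D al^2, the expression of yt^2 in u is a ring identity).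
-/

set_option autoImplicit false
set_option linter.unusedSectionVars false
open scoped Classical

open WeierstrassCurve IsDedekindDomain NumberField WithZero Pool.Agent.H10 H55T3

namespace H38T6

theorem Lc_resid {L : Type} [Field L] [NumberField L] (w : HeightOneSpectrum (𝓞 L)) :
    ∃ (k : Type) (_ : Field k) (_ : Finite k)
    (ρ : (Valued.v : Valuation (w.adicCompletion L) (WithZero (Multiplicative ℤ))).integer →+* k),
    Function.Surjective ρ ∧
    ∀ x : (Valued.v : Valuation (w.adicCompletion L) (WithZero (Multiplicative ℤ))).integer,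
      ρ x = 0 ↔ Valued.v (x : w.adicCompletion L) < 1 := by
  let O := w.adicCompletionIntegers L
  let e : (Valued.v : Valuation (w.adicCompletion L) (WithZero (Multiplicative ℤ))).integer →+* O :=
    { toFun := fun x => ⟨x.1, x.2⟩
      map_one' := rfl
      map_mul' := fun _ _ => rfl
      map_zero' := rfl
      map_add' := fun _ _ => rfl }
  have hfin : Finite (IsLocalRing.ResidueField O) := by
    apply (Pool.Agent.H11.finQuot w).finiteQuotient
    exact IsDiscreteValuationRing.not_a_field O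
  refine ⟨IsLocalRing.ResidueField O, inferInstance, hfin, (IsLocalRing.residue O).comp e, ?_, ?_⟩
  · intro y
    obtain ⟨x, rfl⟩ := IsLocalRing.residue_surjective y
    exact ⟨⟨x.1, x.2⟩, rfl⟩
  · intro x
    rw [RingHom.comp_apply, IsLocalRing.residue_eq_zero_iff]
    exact Valuation.mem_maximalIdeal_iff _ _

/-- integers prime to three are units at a place above three -/
theorem Lc_int {K : Type} [Field K] [NumberField K] (w : HeightOneSpectrum (𝓞 K))
    (hw : (3 : 𝓞 K) ∈ w.asIdeal) {x : ℤ} (hx : ¬ (3 : ℤ) ∣ x) :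
    (Valued.v ((x : ℤ) : w.adicCompletion K) : WithZero (Multiplicative ℤ)) = 1 := by
  have h1 : ((x : ℤ) : w.adicCompletion K) = algebraMap K (w.adicCompletion K) ((x : 𝓞 K) : K) := by
    simp
  have h2 : (x : 𝓞 K) ∉ w.asIdeal := by
    intro h
    have hc : IsCoprime (3 : ℤ) x := by
      rw [Int.isCoprime_iff_gcd_eq_one]
      have h3 : Int.gcd 3 x ∣ 3 := by
        have h4 := Int.gcd_dvd_left 3 x
        exact_mod_cast h4
      rcases (Nat.dvd_prime Nat.prime_three).1 h3 with h4 | h4
      · exact h4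
      · exfalso
        apply hx
        have h5 := Int.gcd_dvd_right 3 x
        rw [h4] at h5
        exact_mod_cast h5
    obtain ⟨a, b, hab⟩ := hc
    have h3 : (1 : 𝓞 K) ∈ w.asIdeal := by
      have h4 : ((a : ℤ) : 𝓞 K) * 3 + ((b : ℤ) : 𝓞 K) * ((x : ℤ) : 𝓞 K) = 1 := by
        exact_mod_cast congrArg (fun z : ℤ => ((z : ℤ) : 𝓞 K)) hab
      rw [← h4]
      exact w.asIdeal.add_mem (w.asIdeal.mul_mem_left _ hw) (w.asIdeal.mul_mem_left _ h)
    exact w.isPrime.ne_top ((Ideal.eq_top_iff_one _).2 h3)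
  rw [h1, valued_algebraMap]
  exact (w.valuation_eq_one_iff_notMem (K := K) (r := (x : 𝓞 K))).mpr h2

theorem loc_cube3 {K N B : Type} [Field K] [NumberField K] [Field N] [NumberField N] [Field B]
    [NumberField B] [Algebra K N] [Algebra K B] [IsGalois ℚ N]
    (hodd : Odd (Module.finrank ℚ N)) {D α β : ℤ} (H : Dat D α β) {s d : B}
    (hM : FinM s (-3 * (D : K)) ((α : K) / 3) ((27 * (β : K) - 4 * (D : K) * (α : K) ^ 3) / 9) d)
    {d₁ d₂ : K} (hd : d = algebraMap K B d₁ + algebraMap K B d₂ * s)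
    (w : HeightOneSpectrum (𝓞 K)) (hw : (3 : 𝓞 K) ∈ w.asIdeal) :
    ∃ t₁ t₂ : w.adicCompletion K, Cube2 (-3 * (D : w.adicCompletion K))
      (algebraMap K (w.adicCompletion K) d₁) (algebraMap K (w.adicCompletion K) d₂) t₁ t₂ := by
  have hch : CharZero (w.adicCompletion K) := charZero_of_alg (K := K)
  have h3Z : Prime (3 : ℤ) := Int.prime_three
  have hD3 : ¬ (3 : ℤ) ∣ D := by
    have := H.three
    omega
  have hγ3 : ¬ (3 : ℤ) ∣ 27 * β - 4 * D * α ^ 3 := by
    intro h
    have h1 : (3 : ℤ) ∣ 4 * D * α ^ 3 := by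
      have h2 : (3 : ℤ) ∣ 27 * β := ⟨9 * β, by ring⟩
      have h4 := dvd_sub h2 h
      rwa [sub_sub_cancel] at h4
    rcases h3Z.dvd_or_dvd h1 with h2 | h2
    · rcases h3Z.dvd_or_dvd h2 with h4 | h4
      · omega
      · exact hD3 h4
    · exact H.hα (h3Z.dvd_of_dvd_pow h2)
  have vα := Lc_int w hw H.hα
  have vβ := Lc_int w hw H.hβ
  have vD := Lc_int w hw hD3
  have vγ := Lc_int w hw hγ3
  have v3 : (Valued.v (3 : w.adicCompletion K) : WithZero (Multiplicative ℤ)) < 1 := by
    rw [valued_ofNat w 3]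
    have h1 := (w.valuation_lt_one_iff_mem (K := K) (3 : 𝓞 K)).2 hw
    have e2 : ((3 : 𝓞 K) : K) = 3 := map_ofNat (algebraMap (𝓞 K) K) 3
    change w.valuation K ((3 : 𝓞 K) : K) < 1 at h1
    rwa [e2] at h1
  have hD0 : ((D : ℤ) : w.adicCompletion K) ≠ 0 := by
    intro h
    rw [h, map_zero] at vD
    exact zero_ne_one vD
  have hβ0 : ((β : ℤ) : w.adicCompletion K) ≠ 0 := by
    intro h
    rw [h, map_zero] at vβ
    exact zero_ne_one vβ
  have hγ0 : 27 * ((β : ℤ) : w.adicCompletion K) - 4 * ((D : ℤ) : w.adicCompletion K) *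
      ((α : ℤ) : w.adicCompletion K) ^ 3 ≠ 0 := by
    intro h
    have h1 : ((27 * β - 4 * D * α ^ 3 : ℤ) : w.adicCompletion K) = 0 := by
      push_cast
      exact h
    rw [h1, map_zero] at vγ
    exact zero_ne_one vγ
  have hns : ∀ z : w.adicCompletion K, z ^ 2 ≠ -3 * ((D : ℤ) : w.adicCompletion K) := by
    intro z hz
    have h1 := odd_log (K := K) (N := N) hodd Nat.prime_three w (by exact_mod_cast hw)
    have h2 : (Valued.v (z ^ 2) : WithZero (Multiplicative ℤ)) = w.valuation K ((3 : ℕ) : K) := by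
      rw [hz, map_mul, vD, mul_one, Valuation.map_neg, valued_ofNat w 3]
      rfl
    rw [← h2, map_pow, log_pow] at h1
    rw [nsmul_eq_mul] at h1
    exact (Int.not_even_iff_odd.2 h1) ⟨log (Valued.v z), by push_cast; ring⟩
  have hL := hM d₁ d₂ hd w (by
    intro z
    have h1 := hns z
    rw [map_mul, map_neg, map_ofNat, map_intCast]
    exact h1)
  rw [map_mul, map_neg, map_ofNat, map_intCast, map_div₀, map_intCast, map_ofNat, map_div₀, map_sub,
    map_mul, map_ofNat, map_intCast, map_mul, map_mul, map_ofNat, map_intCast, map_pow, map_intCast,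
    map_ofNat] at hL
  obtain ⟨k, _, _, ρ, hρs, hρ⟩ := Lc_resid w
  refine cube_of_loc two_ne_zero three_ne_zero hD0 hns ?_ hL
  intro xt yt hpt
  have e3 : 3 * (((α : ℤ) : w.adicCompletion K) / 3) = ((α : ℤ) : w.adicCompletion K) := by
    field_simp
  rw [e3] at hpt ⊢
  have hpt' : yt ^ 2 = xt ^ 3 - 3 * ((D : ℤ) : w.adicCompletion K) *
      (((α : ℤ) : w.adicCompletion K) * xt + (27 * ((β : ℤ) : w.adicCompletion K) -
        4 * ((D : ℤ) : w.adicCompletion K) * ((α : ℤ) : w.adicCompletion K) ^ 3) / 9) ^ 2 := by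
    rw [hpt]
    ring
  refine pt_cube two_ne_zero three_ne_zero hD0 hβ0 hγ0 hpt' ?_
  refine etale_root (V := (Valued.v : Valuation (w.adicCompletion K) (WithZero (Multiplicative ℤ))))
    (H86T3.ad_hens w) hρs hρ v3 vD (fun X => no_sqrt_loc (N := N) hodd H.three w hw X) vα vβ
    (y := yt) ?_
  rw [hpt']
  ring

end H38T6
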