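import Pool.Agent.H38.T6.Def1
import Pool.Agent.H38.T6.Oa
import Pool.Agent.H38.RT.Pr
import Pool.Agent.H10.Semi

/-!
Row Ld. (about 180 lines): from local cubes at all places above three to LC3.
PROOF. weak_approx: S the (finite) set of the places of K over 3, x_w in the completion at w for each w, k: there is x in K with v_w (x_w - x) <= exp (-k) for all w in S. (K is dense in the completion: x_w ~ a_w in K; multiply by a power 3^M so that all 3^M a_w are in the local rings; then b_w in O_K with w (3^M a_w - b_w) <= exp(-(k + large)) and CRT in O_K for the pairwise coprime ideals w^n (Ideal.exists_forall_sub_mem_ideal / IsDedekindDomain.exists_forall_sub_mem_ideal); divide by 3^M. See also Pool/Agent/H38/T1 and Pool/Agent/H10 for density lemmas.)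
 lc3_of_loc: d = d1 + d2 s in B = K(s), s^2 = dl (an integer), for each w over 3: d1 + d2 s = (t1 + t2 s)^3 in K_w(s), i.e. Cube2 dl d1 d2 t1 t2. dl is not a square in K_w (hns), (t1, t2) <> (0, 0) (d <> 0), n := t1^2 - dl t2^2 <> 0; r1 := t1 / n, r2 := -t2 / n: (t1 + t2 s)(r1 + r2 s) = 1. Put e1 + e2 s := (d1 + d2 s)(z1 + z2 s)^3 - 1 as polynomials in (z1, z2): E1(z1, z2), E2(z1, z2), both zero at (r1, r2) (over K_w). By continuity (polynomials with coefficients in K_w; there are finitely many w), for z1, z2 in K close to r1, r2 at every w over 3 (weak_approx): v_w (E1), v_w (E2) <= exp (-k - m0), where m0 >= 0 is such that W s <= exp (m0) for all W over 3 (s integral: W s <= 1, so m0 = 0).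
 z := z1 + z2 s in B; for W over 3 with w below (val_below: W x = w(x)^e, e >= 1): W (d z^3 - 1) = W (E1 + E2 s) <= max (w(E1)^e, w(E2)^e) <= exp (-k).
 The algebraic fact used: d z^3 - 1 = E1(z1, z2) + E2(z1, z2) s in B by s^2 = dl (ring).
-/

set_option autoImplicit false
set_option linter.unusedSectionVars false
open scoped Classical

open WeierstrassCurve IsDedekindDomain NumberField WithZero Pool.Agent.H10 H55T3

namespace H38T6

/-- first coordinate of `d z^3 - 1` -/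
def Ld_E1 {F : Type*} [Field F] (δ d₁ d₂ z₁ z₂ : F) : F :=
  d₁ * (z₁ ^ 3 + 3 * δ * z₁ * z₂ ^ 2) + δ * d₂ * (3 * z₁ ^ 2 * z₂ + δ * z₂ ^ 3) - 1

/-- second coordinate of `d z^3 - 1` -/
def Ld_E2 {F : Type*} [Field F] (δ d₁ d₂ z₁ z₂ : F) : F :=
  d₁ * (3 * z₁ ^ 2 * z₂ + δ * z₂ ^ 3) + d₂ * (z₁ ^ 3 + 3 * δ * z₁ * z₂ ^ 2)

theorem Ld_map1 {F F' : Type*} [Field F] [Field F'] (f : F →+* F') (δ d₁ d₂ z₁ z₂ : F) :
    f (Ld_E1 δ d₁ d₂ z₁ z₂) = Ld_E1 (f δ) (f d₁) (f d₂) (f z₁) (f z₂) := by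
  unfold Ld_E1
  simp only [map_sub, map_add, map_mul, map_pow, map_ofNat, map_one]

theorem Ld_map2 {F F' : Type*} [Field F] [Field F'] (f : F →+* F') (δ d₁ d₂ z₁ z₂ : F) :
    f (Ld_E2 δ d₁ d₂ z₁ z₂) = Ld_E2 (f δ) (f d₁) (f d₂) (f z₁) (f z₂) := by
  unfold Ld_E2
  simp only [map_add, map_mul, map_pow, map_ofNat]

theorem Ld_root {F : Type*} [Field F] {δ d₁ d₂ t₁ t₂ : F} (hns : ∀ z : F, z ^ 2 ≠ δ)
    (hd : d₁ ≠ 0 ∨ d₂ ≠ 0) (h : Cube2 δ d₁ d₂ t₁ t₂) :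
    ∃ r₁ r₂ : F, Ld_E1 δ d₁ d₂ r₁ r₂ = 0 ∧ Ld_E2 δ d₁ d₂ r₁ r₂ = 0 := by
  obtain ⟨h1, h2⟩ := h
  have hn : t₁ ^ 2 - δ * t₂ ^ 2 ≠ 0 := by
    intro h3
    by_cases h4 : t₂ = 0
    · rw [h4] at h1 h2 h3
      have h5 : t₁ = 0 := by
        have h6 : t₁ ^ 2 = 0 := by linear_combination h3
        exact pow_eq_zero_iff (two_ne_zero) |>.1 h6
      rw [h5] at h1 h2
      rcases hd with h6 | h6
      · apply h6
        rw [h1]
        ring
      · apply h6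
        rw [h2]
        ring
    · apply hns (t₁ / t₂)
      rw [div_pow, div_eq_iff (pow_ne_zero 2 h4)]
      linear_combination h3
  refine ⟨t₁ / (t₁ ^ 2 - δ * t₂ ^ 2), -t₂ / (t₁ ^ 2 - δ * t₂ ^ 2), ?_, ?_⟩
  · have hu : t₁ * (t₁ / (t₁ ^ 2 - δ * t₂ ^ 2)) + δ * t₂ * (-t₂ / (t₁ ^ 2 - δ * t₂ ^ 2)) = 1 := by
      field_simp
      ring
    have hv : t₁ * (-t₂ / (t₁ ^ 2 - δ * t₂ ^ 2)) + t₂ * (t₁ / (t₁ ^ 2 - δ * t₂ ^ 2)) = 0 := by
      field_simp
      ring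
    generalize t₁ / (t₁ ^ 2 - δ * t₂ ^ 2) = r₁ at *
    generalize -t₂ / (t₁ ^ 2 - δ * t₂ ^ 2) = r₂ at *
    unfold Ld_E1
    have e : d₁ * (r₁ ^ 3 + 3 * δ * r₁ * r₂ ^ 2) + δ * d₂ * (3 * r₁ ^ 2 * r₂ + δ * r₂ ^ 3) =
        (t₁ * r₁ + δ * t₂ * r₂) ^ 3 + 3 * δ * (t₁ * r₁ + δ * t₂ * r₂) *
          (t₁ * r₂ + t₂ * r₁) ^ 2 := by
      rw [h1, h2]
      ring
    rw [e, hu, hv]
    ring
  · have hu : t₁ * (t₁ / (t₁ ^ 2 - δ * t₂ ^ 2)) + δ * t₂ * (-t₂ / (t₁ ^ 2 - δ * t₂ ^ 2)) = 1 := by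
      field_simp
      ring
    have hv : t₁ * (-t₂ / (t₁ ^ 2 - δ * t₂ ^ 2)) + t₂ * (t₁ / (t₁ ^ 2 - δ * t₂ ^ 2)) = 0 := by
      field_simp
      ring
    generalize t₁ / (t₁ ^ 2 - δ * t₂ ^ 2) = r₁ at *
    generalize -t₂ / (t₁ ^ 2 - δ * t₂ ^ 2) = r₂ at *
    unfold Ld_E2
    have e : d₁ * (3 * r₁ ^ 2 * r₂ + δ * r₂ ^ 3) + d₂ * (r₁ ^ 3 + 3 * δ * r₁ * r₂ ^ 2) =
        3 * (t₁ * r₁ + δ * t₂ * r₂) ^ 2 * (t₁ * r₂ + t₂ * r₁) + δ *
          (t₁ * r₂ + t₂ * r₁) ^ 3 := by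
      rw [h1, h2]
      ring
    rw [e, hu, hv]
    ring

section app

variable {K : Type} [Field K] [NumberField K]

theorem Ld_open (w : HeightOneSpectrum (𝓞 K)) (n : ℤ) :
    IsOpen {y : w.adicCompletion K | Valued.v y < exp n} := by
  obtain ⟨u, hu⟩ := w.valuedAdicCompletion_surjective K (exp n)
  have := Valued.isOpen_ball (w.adicCompletion K) (Valued.v.restrict u)
  simp_rw [Valuation.restrict_lt_iff] at this
  rwa [hu] at this

theorem Ld_nhd (w : HeightOneSpectrum (𝓞 K)) (r : w.adicCompletion K)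
    {U : Set (w.adicCompletion K)} (hU : U ∈ nhds r) :
    ∃ m : ℤ, ∀ y, Valued.v (y - r) < exp m → y ∈ U := by
  rw [Valued.mem_nhds] at hU
  obtain ⟨γ, hγ⟩ := hU
  obtain ⟨k, hk⟩ := exists_exp_neg_natCast_lt
    (x := MonoidWithZeroHom.ValueGroup₀.embedding γ.1) (by simp)
  refine ⟨-(k : ℤ), fun y hy => hγ ?_⟩
  change Valued.v.restrict _ < γ.1
  rw [Valuation.restrict_lt_iff_lt_embedding]
  exact lt_trans hy hk

theorem Ld_cont (w : HeightOneSpectrum (𝓞 K)) (n : ℤ)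
    {f : w.adicCompletion K × w.adicCompletion K → w.adicCompletion K} (hf : Continuous f)
    {r₁ r₂ : w.adicCompletion K} (h0 : f (r₁, r₂) = 0) :
    ∃ m : ℤ, ∀ z₁ z₂, Valued.v (z₁ - r₁) < exp m → Valued.v (z₂ - r₂) < exp m →
      Valued.v (f (z₁, z₂)) < exp n := by
  have h1 : f ⁻¹' {y : w.adicCompletion K | Valued.v y < exp n} ∈ nhds (r₁, r₂) := by
    apply ((Ld_open w n).preimage hf).mem_nhds
    change Valued.v (f (r₁, r₂)) < exp n
    rw [h0, map_zero]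
    exact exp_pos
  rw [mem_nhds_prod_iff] at h1
  obtain ⟨U, hU, V, hV, hUV⟩ := h1
  obtain ⟨m₁, hm₁⟩ := Ld_nhd w r₁ hU
  obtain ⟨m₂, hm₂⟩ := Ld_nhd w r₂ hV
  refine ⟨min m₁ m₂, fun z₁ z₂ h2 h3 => hUV ⟨hm₁ _ (h2.trans_le ?_), hm₂ _ (h3.trans_le ?_)⟩⟩
  · rw [exp_le_exp]
    exact min_le_left _ _
  · rw [exp_le_exp]
    exact min_le_right _ _

theorem Ld_loc (w : HeightOneSpectrum (𝓞 K)) (n : ℤ) {δ : ℤ} {d₁ d₂ : K}
    (hd : d₁ ≠ 0 ∨ d₂ ≠ 0) (hns : ∀ z : w.adicCompletion K, z ^ 2 ≠ (δ : w.adicCompletion K))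
    (H : ∃ t₁ t₂ : w.adicCompletion K, Cube2 (δ : w.adicCompletion K)
        (algebraMap K (w.adicCompletion K) d₁) (algebraMap K (w.adicCompletion K) d₂) t₁ t₂) :
    ∃ (a₁ a₂ : K) (m : ℤ), ∀ y₁ y₂ : K, w.valuation K (y₁ - a₁) < exp m →
      w.valuation K (y₂ - a₂) < exp m →
      w.valuation K (Ld_E1 (δ : K) d₁ d₂ y₁ y₂) < exp n ∧
        w.valuation K (Ld_E2 (δ : K) d₁ d₂ y₁ y₂) < exp n := by
  obtain ⟨t₁, t₂, ht⟩ := H
  obtain ⟨r₁, r₂, hr₁, hr₂⟩ := Ld_root hns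
    (hd.imp (map_ne_zero (algebraMap K (w.adicCompletion K))).2
      (map_ne_zero (algebraMap K (w.adicCompletion K))).2) ht
  obtain ⟨m₁, hm₁⟩ := Ld_cont w n (f := fun p => Ld_E1 (δ : w.adicCompletion K)
    (algebraMap K (w.adicCompletion K) d₁) (algebraMap K (w.adicCompletion K) d₂) p.1 p.2) (by
      unfold Ld_E1
      fun_prop) hr₁
  obtain ⟨m₂, hm₂⟩ := Ld_cont w n (f := fun p => Ld_E2 (δ : w.adicCompletion K)
    (algebraMap K (w.adicCompletion K) d₁) (algebraMap K (w.adicCompletion K) d₂) p.1 p.2) (by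
      unfold Ld_E2
      fun_prop) hr₂
  obtain ⟨a₁, ha₁⟩ := exists_close w r₁ (min m₁ m₂)
  obtain ⟨a₂, ha₂⟩ := exists_close w r₂ (min m₁ m₂)
  refine ⟨a₁, a₂, min m₁ m₂, fun y₁ y₂ h1 h2 => ?_⟩
  have key : ∀ (y a : K) (r : w.adicCompletion K), w.valuation K (y - a) < exp (min m₁ m₂) →
      Valued.v (algebraMap K (w.adicCompletion K) a - r) < exp (min m₁ m₂) →
      Valued.v (algebraMap K (w.adicCompletion K) y - r) < exp (min m₁ m₂) := by
    intro y a r h3 h4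
    have e : algebraMap K (w.adicCompletion K) y - r =
        algebraMap K (w.adicCompletion K) (y - a) +
          (algebraMap K (w.adicCompletion K) a - r) := by
      rw [map_sub]
      ring
    rw [e]
    refine (Valuation.map_add _ _ _).trans_lt (max_lt ?_ h4)
    rw [valued_algebraMap]
    exact h3
  have h3 := key y₁ a₁ r₁ h1 ha₁
  have h4 := key y₂ a₂ r₂ h2 ha₂
  have l1 : exp (min m₁ m₂) ≤ exp m₁ := by
    rw [exp_le_exp]
    exact min_le_left _ _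
  have l2 : exp (min m₁ m₂) ≤ exp m₂ := by
    rw [exp_le_exp]
    exact min_le_right _ _
  have h5 := hm₁ _ _ (h3.trans_le l1) (h4.trans_le l1)
  have h6 := hm₂ _ _ (h3.trans_le l2) (h4.trans_le l2)
  constructor
  · rw [← valued_algebraMap, Ld_map1, map_intCast]
    exact h5
  · rw [← valued_algebraMap, Ld_map2, map_intCast]
    exact h6

theorem Ld_wa (S : Finset (HeightOneSpectrum (𝓞 K))) (a : HeightOneSpectrum (𝓞 K) → K)
    (n : HeightOneSpectrum (𝓞 K) → ℤ) :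
    ∃ y : K, ∀ v ∈ S, v.valuation K (y - a v) < exp (n v) := by
  have hex : ∀ v : HeightOneSpectrum (𝓞 K), ∃ b d : 𝓞 K, d ≠ 0 ∧
      a v = algebraMap (𝓞 K) K b / algebraMap (𝓞 K) K d := by
    intro v
    obtain ⟨n, d, hd, h⟩ := IsFractionRing.div_surjective (A := 𝓞 K) (a v)
    exact ⟨n, d, nonZeroDivisors.ne_zero hd, h.symm⟩
  choose b d hd hbd using hex
  have inj : ∀ x : 𝓞 K, x ≠ 0 → algebraMap (𝓞 K) K x ≠ 0 := fun x hx h =>
    hx ((FaithfulSMul.algebraMap_eq_zero_iff (𝓞 K) K).1 h)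
  have hs0 : (∏ v ∈ S, d v) ≠ 0 := Finset.prod_ne_zero_iff.2 fun v _ => hd v
  have hsK := inj _ hs0
  obtain ⟨y, hy⟩ := H38RT.Pr_app S (fun v => algebraMap (𝓞 K) K (∏ v ∈ S, d v) * a v) (by
      intro v hv
      have e : algebraMap (𝓞 K) K (∏ v ∈ S, d v) * a v =
          algebraMap (𝓞 K) K ((∏ v ∈ S.erase v, d v) * b v) := by
        rw [← Finset.mul_prod_erase S d hv, hbd v, map_mul, map_mul]
        have := inj _ (hd v)
        field_simp
      rw [e]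
      exact v.valuation_le_one _)
    (fun v => exp (n v) * v.valuation K (algebraMap (𝓞 K) K (∏ v ∈ S, d v))) (by
      intro v hv
      exact mul_ne_zero exp_ne_zero ((Valuation.ne_zero_iff _).2 hsK))
  refine ⟨algebraMap (𝓞 K) K y / algebraMap (𝓞 K) K (∏ v ∈ S, d v), fun v hv => ?_⟩
  have h1 := hy v hv
  have e : algebraMap (𝓞 K) K y - algebraMap (𝓞 K) K (∏ v ∈ S, d v) * a v =
      (algebraMap (𝓞 K) K y / algebraMap (𝓞 K) K (∏ v ∈ S, d v) - a v) *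
        algebraMap (𝓞 K) K (∏ v ∈ S, d v) := by
    rw [sub_mul, div_mul_cancel₀ _ hsK, mul_comm (a v)]
  have h2 : v.valuation K (algebraMap (𝓞 K) K y - algebraMap (𝓞 K) K (∏ v ∈ S, d v) * a v) <
      exp (n v) * v.valuation K (algebraMap (𝓞 K) K (∏ v ∈ S, d v)) := h1
  rw [e, map_mul] at h2
  exact lt_of_mul_lt_mul_right' h2

end app

theorem lc3_of_loc {K B : Type} [Field K] [NumberField K] [Field B] [NumberField B] [Algebra K B]
    {δ : ℤ} {s : B} (hs : s ^ 2 = (δ : B)) {d₁ d₂ : K} (hd : d₁ ≠ 0 ∨ d₂ ≠ 0)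
    (hns : ∀ w : HeightOneSpectrum (𝓞 K), (3 : 𝓞 K) ∈ w.asIdeal →
      ∀ z : w.adicCompletion K, z ^ 2 ≠ (δ : w.adicCompletion K))
    (H : ∀ w : HeightOneSpectrum (𝓞 K), (3 : 𝓞 K) ∈ w.asIdeal →
      ∃ t₁ t₂ : w.adicCompletion K, Cube2 (δ : w.adicCompletion K)
        (algebraMap K (w.adicCompletion K) d₁) (algebraMap K (w.adicCompletion K) d₂) t₁ t₂) :
    LC3 (algebraMap K B d₁ + algebraMap K B d₂ * s) := by
  intro k
  have hfin : {w : HeightOneSpectrum (𝓞 K) | (3 : 𝓞 K) ∈ w.asIdeal}.Finite := by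
    have h2 : (Ideal.span {(3 : 𝓞 K)}) ≠ 0 := by
      rw [Ne, Ideal.zero_eq_bot, Ideal.span_singleton_eq_bot]
      intro h
      have h3 : ((3 : ℕ) : 𝓞 K) = 0 := by exact_mod_cast h
      rw [Nat.cast_eq_zero] at h3
      omega
    refine (Ideal.finite_factors h2).subset ?_
    intro v hv
    exact Ideal.dvd_span_singleton.2 hv
  have hex : ∀ w : HeightOneSpectrum (𝓞 K), (3 : 𝓞 K) ∈ w.asIdeal →
      ∃ (a₁ a₂ : K) (m : ℤ), ∀ y₁ y₂ : K, w.valuation K (y₁ - a₁) < exp m →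
      w.valuation K (y₂ - a₂) < exp m →
      w.valuation K (Ld_E1 (δ : K) d₁ d₂ y₁ y₂) < exp (-(k : ℤ)) ∧
        w.valuation K (Ld_E2 (δ : K) d₁ d₂ y₁ y₂) < exp (-(k : ℤ)) := fun w hw =>
    Ld_loc w _ hd (hns w hw) (H w hw)
  choose! a₁ a₂ m hm using hex
  obtain ⟨y₁, hy₁⟩ := Ld_wa hfin.toFinset a₁ m
  obtain ⟨y₂, hy₂⟩ := Ld_wa hfin.toFinset a₂ m
  refine ⟨algebraMap K B y₁ + algebraMap K B y₂ * s, fun W hW => ?_⟩
  obtain ⟨v, e, he, -, hval, hmem⟩ := val_below (K := K) W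
  have hv3 : (3 : 𝓞 K) ∈ v.asIdeal := by
    have h1 := (hmem 3).2 (by exact_mod_cast hW)
    exact_mod_cast h1
  have hvS : v ∈ hfin.toFinset := by
    rw [Set.Finite.mem_toFinset]
    exact hv3
  obtain ⟨h1, h2⟩ := hm v hv3 y₁ y₂ (hy₁ v hvS) (hy₂ v hvS)
  have hle : ∀ x : K, v.valuation K x < exp (-(k : ℤ)) →
      W.valuation B (algebraMap K B x) ≤ exp (-(k : ℤ)) := by
    intro x hx
    rw [hval]
    have h3 : v.valuation K x ≤ 1 := by
      refine hx.le.trans ?_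
      rw [← exp_zero, exp_le_exp]
      omega
    exact (pow_le_of_le_one zero_le h3 (by omega)).trans hx.le
  have hWs : W.valuation B s ≤ 1 := by
    have h3 : W.valuation B s ^ 2 ≤ 1 := by
      rw [← map_pow, hs]
      have h4 := W.valuation_le_one (K := B) (δ : 𝓞 B)
      have h5 : algebraMap (𝓞 B) B (δ : 𝓞 B) = (δ : B) := map_intCast _ _
      change W.valuation B (algebraMap (𝓞 B) B (δ : 𝓞 B)) ≤ 1 at h4
      rwa [h5] at h4
    exact (pow_le_one_iff_of_nonneg zero_le (by norm_num)).1 h3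
  have key : (algebraMap K B d₁ + algebraMap K B d₂ * s) *
      (algebraMap K B y₁ + algebraMap K B y₂ * s) ^ 3 - 1 =
      algebraMap K B (Ld_E1 (δ : K) d₁ d₂ y₁ y₂) +
        algebraMap K B (Ld_E2 (δ : K) d₁ d₂ y₁ y₂) * s := by
    rw [Ld_map1, Ld_map2, map_intCast, ← hs]
    unfold Ld_E1 Ld_E2
    ring
  rw [key]
  refine (Valuation.map_add _ _ _).trans (max_le (hle _ h1) ?_)
  rw [map_mul]
  exact (mul_le_of_le_one_right' hWs).trans (hle _ h2)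

end H38T6
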