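import Mathlib

/-!
Row Na. (about 130 lines): units.
lin_alg: suppose every u is w - tau w. (1 - tau)(1 - tau) x = x - 2 tau x + tau tau x = -3 tau x (tau tau x = - x - tau x). Every e in E is (1 - tau)(1 - tau) x, so it is in 3 E. E is free of finite rank with a nonempty basis (nontrivial); a basis vector is not in 3 E (its coordinate one).
units_F: F contains s with s^2 = D < 0, so F has no real embedding; [F : Q] = 2 gives one infinite place, rank 0 (NumberField.Units.rank, card of the infinite places: r1 + 2 r2 = 2), units = torsion, finite (basisModTorsion / NumberField.Units.finrank_modTorsion; the quotient by the torsion is free of rank zero, so trivial; or directly by Dirichlet: Units.exist_unique_eq_mul_prod with rank zero).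
units_M: [M : Q] = 6, no real embedding, 3 infinite places, rank 2 > 0: infinite (a fundamental unit has infinite order).
-/

set_option autoImplicit false
set_option linter.unusedSectionVars false
open scoped Classical

open IsDedekindDomain NumberField WithZero

namespace H38T6

theorem lin_alg {E : Type*} [AddCommGroup E] [Module.Finite ℤ E] [Module.Free ℤ E] [Nontrivial E]
    (τ : E →+ E) (hτ : ∀ x, x + τ x + τ (τ x) = 0) : ∃ u : E, ∀ w : E, u ≠ w - τ w := by
  by_contra hcon
  push Not at hcon
  have h3 : ∀ e : E, ∃ x : E, e = (3 : ℤ) • x := by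
    intro e
    obtain ⟨y, hy⟩ := hcon e
    obtain ⟨x, hx⟩ := hcon y
    refine ⟨- τ x, ?_⟩
    have h1 := hτ x
    have h2 : τ (τ x) = - x - τ x := by
      rw [eq_sub_iff_add_eq, eq_neg_iff_add_eq_zero, ← h1]
      abel
    rw [hy, hx, map_sub, h2]
    module
  let b := Module.Free.chooseBasis ℤ E
  have hne : Nonempty (Module.Free.ChooseBasisIndex ℤ E) := b.index_nonempty
  obtain ⟨i⟩ := hne
  obtain ⟨x, hx⟩ := h3 (b i)
  have h4 : b.repr (b i) i = (3 : ℤ) • b.repr x i := by
    rw [hx, map_smul, Finsupp.smul_apply]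
  rw [Module.Basis.repr_self, Finsupp.single_eq_same, smul_eq_mul] at h4
  omega

private theorem na_noreal {D : ℤ} (hD : D < 0) {F : Type} [Field F] [NumberField F] {s : F}
    (hs : s ^ 2 = (D : F)) : InfinitePlace.nrRealPlaces F = 0 := by
  rw [InfinitePlace.nrRealPlaces, Fintype.card_eq_zero_iff]
  refine ⟨fun w => ?_⟩
  have h1 := congrArg (w.1.embedding_of_isReal w.2) hs
  rw [map_pow, map_intCast] at h1
  have h2 : (0 : ℝ) ≤ (D : ℝ) := by
    rw [← h1]
    positivity
  have h3 : (D : ℝ) < 0 := by exact_mod_cast hD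
  linarith

private theorem na_card {D : ℤ} (hD : D < 0) {F : Type} [Field F] [NumberField F] {s : F}
    (hs : s ^ 2 = (D : F)) : 2 * Fintype.card (InfinitePlace F) = Module.finrank ℚ F := by
  have h0 := na_noreal hD hs
  have h1 := InfinitePlace.card_add_two_mul_card_eq_rank F
  have h2 := InfinitePlace.card_eq_nrRealPlaces_add_nrComplexPlaces F
  rw [h0, zero_add] at h1 h2
  rw [h2, h1]

theorem units_F {D : ℤ} (hD : D < 0) {F : Type} [Field F] [NumberField F] {s : F}
    (hs : s ^ 2 = (D : F)) (hF : Module.finrank ℚ F = 2) : Finite (𝓞 F)ˣ := by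
  have h1 := na_card hD hs
  rw [hF] at h1
  have hr : Units.rank F = 0 := by
    rw [Units.rank]
    omega
  have : IsEmpty (Fin (Units.rank F)) := by
    rw [hr]
    infer_instance
  refine Finite.of_surjective (fun z : Units.torsion F => (z : (𝓞 F)ˣ)) ?_
  intro x
  obtain ⟨ζ, hζ, -⟩ := Units.exist_unique_eq_mul_prod F x
  refine ⟨ζ.1, ?_⟩
  simp only [hζ, Finset.univ_eq_empty, Finset.prod_empty, mul_one]

theorem units_M {D : ℤ} (hD : D < 0) {F M : Type} [Field F] [NumberField F] [Field M]
    [NumberField M] [Algebra F M] {s : F} (hs : s ^ 2 = (D : F)) (hF : Module.finrank ℚ F = 2)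
    (hM : Module.finrank F M = 3) : ¬ Finite (𝓞 M)ˣ := by
  intro hfin
  have hs' : (algebraMap F M s) ^ 2 = (D : M) := by
    rw [← map_pow, hs, map_intCast]
  have h1 := na_card hD hs'
  have h2 : Module.finrank ℚ M = 6 := by
    rw [← Module.finrank_mul_finrank ℚ F M, hF, hM]
  rw [h2] at h1
  have hr : Units.rank M = 2 := by
    rw [Units.rank]
    omega
  have hne : Nonempty (Fin (Units.rank M)) := ⟨⟨0, by omega⟩⟩
  have hinf : Infinite (Fin (Units.rank M) → ℤ) := inferInstance
  have hi : Function.Injective (fun e : Fin (Units.rank M) → ℤ =>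
      ∏ i, Units.fundSystem M i ^ (e i)) := by
    intro e e' h
    obtain ⟨ζ, hζ, hu⟩ := Units.exist_unique_eq_mul_prod M (∏ i, Units.fundSystem M i ^ (e i))
    have h3 := hu (1, e) (by simp)
    have h4 := hu (1, e') (by
      simp only [OneMemClass.coe_one, one_mul]
      exact h)
    have h5 := h3.trans h4.symm
    exact congrArg Prod.snd h5
  exact not_finite_iff_infinite.2 hinf (Finite.of_injective _ hi)

end H38T6
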