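import Pool.Agent.H38.T6.Na

/-!
Row Nb. (about 170 lines): a unit which is not a quotient modulo torsion. Notation: tau acts on (O_M)^x by Units.mapEquiv of the ring automorphism of O_M (galRestrict or RingOfIntegers.mapRingEquiv; coe compatible with tau on M).
E := Additive ((O_M)^x modulo torsion): free of finite rank over the integers (instances for NumberField.Units, basisModTorsion), nontrivial because (O_M)^x is infinite and the torsion is finite. tau induces an additive endomorphism; for a unit u: u tau(u) tau^2(u) is the norm, it is fixed by Gal(M/F) (tau generates the group of order three) so it comes from a unit of O_F, which has finite order (hfin): so 1 + tau + tau^2 = 0 on E. lin_alg: u with u <> w - tau w for all w in E: i.e. for every unit w, u tau(w) / w is not a torsion element.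
-/

set_option autoImplicit false
set_option linter.unusedSectionVars false
open scoped Classical

open IsDedekindDomain NumberField WithZero

namespace H38T6

private theorem Nb_sig {F M : Type} [Field F] [NumberField F] [Field M] [NumberField M]
    [Algebra F M] (τ : M ≃ₐ[F] M) : ∃ σ : (𝓞 M)ˣ →* (𝓞 M)ˣ,
    ∀ u : (𝓞 M)ˣ, ((σ u : 𝓞 M) : M) = τ ((u : 𝓞 M) : M) :=
  ⟨Units.map (RingOfIntegers.mapRingHom ((τ : M →ₐ[F] M) : M →+* M) : 𝓞 M →* 𝓞 M),
    fun _ => rfl⟩

private theorem Nb_prod {F M : Type} [Field F] [Field M] [Algebra F M] [FiniteDimensional F M]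
    [IsGalois F M] (hM : Module.finrank F M = 3) (τ : M ≃ₐ[F] M) (hτ : τ ≠ 1) (x : M) :
    algebraMap F M (Algebra.norm F x) = x * τ x * τ (τ x) := by
  have hcard : Nat.card (M ≃ₐ[F] M) = 3 := by
    rw [IsGalois.card_aut_eq_finrank, hM]
  have hord : orderOf τ = 3 := by
    have h1 : orderOf τ ∣ 3 := by
      rw [← hcard]
      exact orderOf_dvd_natCard τ
    rcases (Nat.dvd_prime Nat.prime_three).1 h1 with h2 | h2
    · exact absurd (orderOf_eq_one_iff.1 h2) hτ
    · exact h2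
  have h3 : τ ^ 3 = 1 := by
    rw [← hord]
    exact pow_orderOf_eq_one τ
  have h12 : τ * τ ≠ 1 := by
    intro h
    have h4 : orderOf τ ∣ 2 := orderOf_dvd_of_pow_eq_one (by rw [pow_two]; exact h)
    rw [hord] at h4
    exact absurd h4 (by norm_num)
  have hττ : τ ≠ τ * τ := by
    intro h
    exact hτ (mul_eq_left.1 h.symm)
  have huniv : (Finset.univ : Finset (M ≃ₐ[F] M)) = {1, τ, τ * τ} := by
    symm
    apply Finset.eq_univ_of_card
    rw [← Nat.card_eq_fintype_card, hcard, Finset.card_eq_three]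
    exact ⟨1, τ, τ * τ, hτ.symm, h12.symm, hττ, rfl⟩
  rw [Algebra.norm_eq_prod_automorphisms, huniv, Finset.prod_insert, Finset.prod_insert,
    Finset.prod_singleton, mul_assoc]
  · rfl
  · rw [Finset.mem_singleton]
    exact hττ
  · rw [Finset.mem_insert, Finset.mem_singleton, not_or]
    exact ⟨hτ.symm, h12.symm⟩

theorem exists_unit {F M : Type} [Field F] [NumberField F] [Field M] [NumberField M]
    [Algebra F M] [IsGalois F M] (hM : Module.finrank F M = 3) (hfin : Finite (𝓞 F)ˣ)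
    (hinf : ¬ Finite (𝓞 M)ˣ) (τ : M ≃ₐ[F] M) (hτ : τ ≠ 1) :
    ∃ u : (𝓞 M)ˣ, ∀ w : (𝓞 M)ˣ, ∀ n : ℕ, 0 < n →
      (((u : 𝓞 M) : M) * τ ((w : 𝓞 M) : M) / ((w : 𝓞 M) : M)) ^ n ≠ 1 := by
  have hFD : FiniteDimensional F M := Module.finite_of_finrank_pos (by rw [hM]; norm_num)
  obtain ⟨σ, hσ⟩ := Nb_sig τ
  let cM : (𝓞 M)ˣ →* M := (algebraMap (𝓞 M) M : 𝓞 M →* M).comp (Units.coeHom (𝓞 M))
  have hc : ∀ x : (𝓞 M)ˣ, ((x : 𝓞 M) : M) = cM x := fun _ => rfl
  let cF : (𝓞 F)ˣ →* F := (algebraMap (𝓞 F) F : 𝓞 F →* F).comp (Units.coeHom (𝓞 F))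
  have hcF : ∀ x : (𝓞 F)ˣ, ((x : 𝓞 F) : F) = cF x := fun _ => rfl
  have hinj : ∀ a b : (𝓞 M)ˣ, ((a : 𝓞 M) : M) = ((b : 𝓞 M) : M) → a = b := fun a b h =>
    Units.ext (RingOfIntegers.ext h)
  have hmem : ∀ x : (𝓞 M)ˣ, x ∈ NumberField.Units.torsion M ↔ IsOfFinOrder x := fun x =>
    CommGroup.mem_torsion x
  have hle : NumberField.Units.torsion M ≤ (NumberField.Units.torsion M).comap σ := by
    intro x hx
    rw [Subgroup.mem_comap, hmem]
    rw [hmem] at hx
    exact σ.isOfFinOrder hx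
  let q : (𝓞 M)ˣ →* (𝓞 M)ˣ ⧸ NumberField.Units.torsion M :=
    QuotientGroup.mk' (NumberField.Units.torsion M)
  let τE : Additive ((𝓞 M)ˣ ⧸ NumberField.Units.torsion M) →+
      Additive ((𝓞 M)ˣ ⧸ NumberField.Units.torsion M) :=
    MonoidHom.toAdditive (QuotientGroup.map _ _ σ hle)
  have hq0 : ∀ x : (𝓞 M)ˣ, Additive.ofMul (q x) = 0 ↔ IsOfFinOrder x := by
    intro x
    rw [← hmem]
    exact QuotientGroup.eq_one_iff x
  have hτE : ∀ x : (𝓞 M)ˣ, τE (Additive.ofMul (q x)) = Additive.ofMul (q (σ x)) := fun x => rfl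
  have hsurj : ∀ e : Additive ((𝓞 M)ˣ ⧸ NumberField.Units.torsion M),
      ∃ x : (𝓞 M)ˣ, Additive.ofMul (q x) = e := fun e =>
    QuotientGroup.mk'_surjective _ e
  have hN : ∀ x : (𝓞 M)ˣ, IsOfFinOrder (x * σ x * σ (σ x)) := by
    intro x
    let v : (𝓞 F)ˣ := Units.map (RingOfIntegers.norm F : 𝓞 M →* 𝓞 F) x
    have hv : IsOfFinOrder v := isOfFinOrder_of_finite v
    obtain ⟨n, hn, hvn⟩ := isOfFinOrder_iff_pow_eq_one.1 hv
    rw [isOfFinOrder_iff_pow_eq_one]
    refine ⟨n, hn, hinj _ _ ?_⟩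
    have h1 : (((x * σ x * σ (σ x) : (𝓞 M)ˣ) : 𝓞 M) : M) =
        algebraMap F M (((v : (𝓞 F)ˣ) : 𝓞 F) : F) := by
      have h2 : (((v : (𝓞 F)ˣ) : 𝓞 F) : F) = Algebra.norm F ((x : 𝓞 M) : M) := rfl
      rw [h2, Nb_prod hM τ hτ]
      rw [hc, map_mul, map_mul, ← hc, ← hc, ← hc, hσ, hσ, hσ]
    rw [hc, map_pow, ← hc, h1, ← map_pow, hcF, ← map_pow, hvn, map_one, map_one, hc, map_one]
  have hnt : Nontrivial (Additive ((𝓞 M)ˣ ⧸ NumberField.Units.torsion M)) := by
    by_contra hcon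
    rw [not_nontrivial_iff_subsingleton] at hcon
    apply hinf
    have hall : ∀ x : (𝓞 M)ˣ, x ∈ NumberField.Units.torsion M := by
      intro x
      rw [hmem, ← hq0]
      exact Subsingleton.elim _ _
    exact Finite.of_injective (fun x : (𝓞 M)ˣ => (⟨x, hall x⟩ : NumberField.Units.torsion M))
      (fun a b h => congrArg Subtype.val h)
  have hrel : ∀ e, e + τE e + τE (τE e) = 0 := by
    intro e
    obtain ⟨x, rfl⟩ := hsurj e
    rw [hτE, hτE, ← ofMul_mul, ← ofMul_mul, ← map_mul, ← map_mul, hq0]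
    exact hN x
  obtain ⟨e, he⟩ := lin_alg (E := Additive ((𝓞 M)ˣ ⧸ NumberField.Units.torsion M)) τE hrel
  obtain ⟨u, rfl⟩ := hsurj e
  refine ⟨u, fun w n hn h => ?_⟩
  apply he (Additive.ofMul (q w))
  rw [hτE]
  have h1 : IsOfFinOrder (u * σ w / w) := by
    rw [isOfFinOrder_iff_pow_eq_one]
    refine ⟨n, hn, hinj _ _ ?_⟩
    have h2 : (((u * σ w / w : (𝓞 M)ˣ) : 𝓞 M) : M) =
        ((u : 𝓞 M) : M) * τ ((w : 𝓞 M) : M) / ((w : 𝓞 M) : M) := by
      have hw0 : ((w : 𝓞 M) : M) ≠ 0 := by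
        intro h0
        have h5 : (w : 𝓞 M) = 0 := RingOfIntegers.ext h0
        exact w.ne_zero h5
      rw [eq_div_iff hw0, ← hσ, hc, hc, hc, hc, ← map_mul, ← map_mul, div_mul_cancel]
    rw [hc, map_pow, ← hc, h2, h, hc, map_one]
  rw [← hq0, map_div, map_mul, ofMul_div, ofMul_mul] at h1
  exact eq_sub_of_add_eq (sub_eq_zero.1 h1)

end H38T6
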