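import Pool.Agent.H38.T6.Nb

/-!
Row Nc. (about 150 lines): norm one.
u from exists_unit. N(u) := u tau(u) tau^2(u) = nu in F (fixed by tau which generates Gal(M/F)), a unit of O_F. k := Nat.card (O_F)^x: nu^k = 1, and 3 does not divide k: otherwise (Cauchy) there is x in (O_F)^x of order three, x^2 + x + 1 = 0 in F: contradiction to hz. u1 := u^k: its norm is nu^k = 1.
 Suppose u1 = w / tau w, w a unit. w3 := u^2 tau u: w3 / tau w3 = u^2 / (tau u tau^2 u) = u^3 / nu. k = 3 j + 1 or k = 3 j + 2: 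
 k = 3 j + 1: u = u^k (u^3)^(-j) = (w / tau w) (w3 / tau w3)^(-j) nu^(-j): with w1 := w w3^(-j): u tau(w1) / w1 = nu^(-j) is torsion (its k-th power is one): contradiction.
 k = 3 j + 2: u^-1 = u^k (u^3)^(-(j+1)) = ..., w1 := w w3^(-(j+1)), u^-1 = (w1 / tau w1) nu^(-(j+1)), u = (w1^-1 / tau (w1^-1)) nu^(j+1): the same with w1^-1.
-/

set_option autoImplicit false
set_option linter.unusedSectionVars false
open scoped Classical

open IsDedekindDomain NumberField WithZero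

namespace H38T6

private theorem Nc_sig {F M : Type} [Field F] [NumberField F] [Field M] [NumberField M]
    [Algebra F M] (τ : M ≃ₐ[F] M) : ∃ σ : (𝓞 M)ˣ →* (𝓞 M)ˣ,
    ∀ u : (𝓞 M)ˣ, ((σ u : 𝓞 M) : M) = τ ((u : 𝓞 M) : M) :=
  ⟨Units.map (RingOfIntegers.mapRingHom ((τ : M →ₐ[F] M) : M →+* M) : 𝓞 M →* 𝓞 M),
    fun _ => rfl⟩

private theorem Nc_prod {F M : Type} [Field F] [Field M] [Algebra F M] [FiniteDimensional F M]
    [IsGalois F M] (hM : Module.finrank F M = 3) (τ : M ≃ₐ[F] M) (hτ : τ ≠ 1) (x : M) :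
    algebraMap F M (Algebra.norm F x) = x * τ x * τ (τ x) := by
  have hcard : Nat.card (M ≃ₐ[F] M) = 3 := by
    rw [IsGalois.card_aut_eq_finrank, hM]
  have hord : orderOf τ = 3 := by
    have h1 : orderOf τ ∣ 3 := by
      rw [← hcard]
      exact orderOf_dvd_natCard τ
    rcases (Nat.dvd_prime Nat.prime_three).1 h1 with h2 | h2
    · exact absurd (orderOf_eq_one_iff.1 h2) hτ
    · exact h2
  have h3 : τ ^ 3 = 1 := by
    rw [← hord]
    exact pow_orderOf_eq_one τ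
  have h12 : τ * τ ≠ 1 := by
    intro h
    have h4 : orderOf τ ∣ 2 := orderOf_dvd_of_pow_eq_one (by rw [pow_two]; exact h)
    rw [hord] at h4
    exact absurd h4 (by norm_num)
  have hττ : τ ≠ τ * τ := by
    intro h
    exact hτ (mul_eq_left.1 h.symm)
  have huniv : (Finset.univ : Finset (M ≃ₐ[F] M)) = {1, τ, τ * τ} := by
    symm
    apply Finset.eq_univ_of_card
    rw [← Nat.card_eq_fintype_card, hcard, Finset.card_eq_three]
    exact ⟨1, τ, τ * τ, hτ.symm, h12.symm, hττ, rfl⟩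
  rw [Algebra.norm_eq_prod_automorphisms, huniv, Finset.prod_insert, Finset.prod_insert,
    Finset.prod_singleton, mul_assoc]
  · rfl
  · rw [Finset.mem_singleton]
    exact hττ
  · rw [Finset.mem_insert, Finset.mem_singleton, not_or]
    exact ⟨hτ.symm, h12.symm⟩

private theorem Nc_add {A : Type*} [AddCommGroup A] (σ : A →+ A) (u w : A) (k : ℕ)
    (hk : k • (u + σ u + σ (σ u)) = 0) (hk3 : ¬ 3 ∣ k) (hw : k • u = w - σ w) :
    ∃ w' : A, k • (u + σ w' - w') = 0 := by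
  have hσw : σ w = w - k • u := by rw [hw]; abel
  rcases (by omega : k % 3 = 1 ∨ k % 3 = 2) with h | h
  · obtain ⟨j, hj⟩ : ∃ j, k = 3 * j + 1 := ⟨k / 3, by omega⟩
    refine ⟨w - j • (2 • u + σ u), ?_⟩
    have e1 : u + σ (w - j • (2 • u + σ u)) - (w - j • (2 • u + σ u)) = -(j • (u + σ u + σ (σ u))) := by
      rw [map_sub, map_nsmul, map_add, map_nsmul, hσw, hj]
      module
    rw [e1, smul_neg, smul_comm, hk, smul_zero, neg_zero]
  · obtain ⟨j, hj⟩ : ∃ j, k = 3 * j + 2 := ⟨k / 3, by omega⟩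
    refine ⟨-(w - (j + 1) • (2 • u + σ u)), ?_⟩
    have e1 : u + σ (-(w - (j + 1) • (2 • u + σ u))) - (-(w - (j + 1) • (2 • u + σ u))) = (j + 1) • (u + σ u + σ (σ u)) := by
      rw [map_neg, map_sub, map_nsmul, map_add, map_nsmul, hσw, hj]
      module
    rw [e1, smul_comm, hk, smul_zero]

private theorem Nc_mul {G : Type*} [CommGroup G] (σ : G →* G) (u w : G) (k : ℕ)
    (hk : (u * σ u * σ (σ u)) ^ k = 1) (hk3 : ¬ 3 ∣ k) (hw : u ^ k = w / σ w) :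
    ∃ w' : G, (u * σ w' / w') ^ k = 1 := by
  obtain ⟨w', h⟩ := Nc_add (A := Additive G) (MonoidHom.toAdditive σ) (Additive.ofMul u) (Additive.ofMul w) k hk hk3 hw
  exact ⟨Additive.toMul w', h⟩

theorem exists_unit_one {F M : Type} [Field F] [NumberField F] [Field M] [NumberField M]
    [Algebra F M] [IsGalois F M] (hM : Module.finrank F M = 3) (hfin : Finite (𝓞 F)ˣ)
    (hinf : ¬ Finite (𝓞 M)ˣ) (hz : ∀ z : F, z ^ 2 + z + 1 ≠ 0) (τ : M ≃ₐ[F] M) (hτ : τ ≠ 1) :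
    ∃ u : (𝓞 M)ˣ, ((u : 𝓞 M) : M) * τ ((u : 𝓞 M) : M) * τ (τ ((u : 𝓞 M) : M)) = 1 ∧
      ∀ w : (𝓞 M)ˣ, ((u : 𝓞 M) : M) ≠ ((w : 𝓞 M) : M) / τ ((w : 𝓞 M) : M) := by
  have hFD : FiniteDimensional F M := Module.finite_of_finrank_pos (by rw [hM]; norm_num)
  obtain ⟨σ, hσ⟩ := Nc_sig τ
  obtain ⟨u, hu⟩ := exists_unit hM hfin hinf τ hτ
  let cM : (𝓞 M)ˣ →* M := (algebraMap (𝓞 M) M : 𝓞 M →* M).comp (Units.coeHom (𝓞 M))
  have hc : ∀ x : (𝓞 M)ˣ, ((x : 𝓞 M) : M) = cM x := fun _ => rfl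
  let cF : (𝓞 F)ˣ →* F := (algebraMap (𝓞 F) F : 𝓞 F →* F).comp (Units.coeHom (𝓞 F))
  have hcF : ∀ x : (𝓞 F)ˣ, ((x : 𝓞 F) : F) = cF x := fun _ => rfl
  have hinj : ∀ a b : (𝓞 M)ˣ, ((a : 𝓞 M) : M) = ((b : 𝓞 M) : M) → a = b := fun a b h =>
    Units.ext (RingOfIntegers.ext h)
  have hinjF : ∀ a b : (𝓞 F)ˣ, ((a : 𝓞 F) : F) = ((b : 𝓞 F) : F) → a = b := fun a b h =>
    Units.ext (RingOfIntegers.ext h)
  obtain ⟨k, hk⟩ : ∃ k, k = Nat.card (𝓞 F)ˣ := ⟨_, rfl⟩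
  have hk0 : 0 < k := by rw [hk]; exact Nat.card_pos
  have hk3 : ¬ 3 ∣ k := by
    intro h3
    rw [hk] at h3
    haveI : Fact (Nat.Prime 3) := ⟨Nat.prime_three⟩
    obtain ⟨x, hx⟩ := exists_prime_orderOf_dvd_card' (G := (𝓞 F)ˣ) 3 h3
    have hx3 : x ^ 3 = 1 := by rw [← hx]; exact pow_orderOf_eq_one x
    have hx1 : x ≠ 1 := by
      intro h
      rw [h, orderOf_one] at hx
      norm_num at hx
    obtain ⟨z, hzd⟩ : ∃ z : F, z = ((x : 𝓞 F) : F) := ⟨_, rfl⟩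
    have hz3 : z ^ 3 = 1 := by rw [hzd, hcF, ← map_pow, hx3, map_one]
    have hz1 : z - 1 ≠ 0 := by
      intro h
      apply hx1
      apply hinjF
      have h1 : (((1 : (𝓞 F)ˣ) : 𝓞 F) : F) = 1 := by rw [hcF, map_one]
      rw [h1, ← hzd]
      exact sub_eq_zero.1 h
    have h4 : (z - 1) * (z ^ 2 + z + 1) = 0 := by
      have : (z - 1) * (z ^ 2 + z + 1) = z ^ 3 - 1 := by ring
      rw [this, hz3, sub_self]
    rcases mul_eq_zero.1 h4 with h5 | h5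
    · exact hz1 h5
    · exact hz z h5
  have hN : (u * σ u * σ (σ u)) ^ k = 1 := by
    let v : (𝓞 F)ˣ := Units.map (RingOfIntegers.norm F : 𝓞 M →* 𝓞 F) u
    have hvn : v ^ k = 1 := by
      rw [hk]
      exact pow_card_eq_one'
    apply hinj
    have h1 : (((u * σ u * σ (σ u) : (𝓞 M)ˣ) : 𝓞 M) : M) =
        algebraMap F M (((v : (𝓞 F)ˣ) : 𝓞 F) : F) := by
      have h2 : (((v : (𝓞 F)ˣ) : 𝓞 F) : F) = Algebra.norm F ((u : 𝓞 M) : M) := rfl
      rw [h2, Nc_prod hM τ hτ]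
      rw [hc, map_mul, map_mul, ← hc, ← hc, ← hc, hσ, hσ, hσ]
    rw [hc, map_pow, ← hc, h1, ← map_pow, hcF, ← map_pow, hvn, map_one, map_one, hc, map_one]
  refine ⟨u ^ k, ?_, fun w hw => ?_⟩
  · have h1 : (((u ^ k * σ (u ^ k) * σ (σ (u ^ k)) : (𝓞 M)ˣ) : 𝓞 M) : M) = 1 := by
      rw [map_pow, map_pow, ← mul_pow, ← mul_pow, hN, hc, map_one]
    rw [← hσ, ← hσ, hc, hc, hc, ← map_mul, ← map_mul, ← hc]
    exact h1
  · have hw0 : τ ((w : 𝓞 M) : M) ≠ 0 := by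
      rw [← hσ]
      intro h0
      have h5 : (σ w : 𝓞 M) = 0 := RingOfIntegers.ext h0
      exact (σ w).ne_zero h5
    have h1 : u ^ k = w / σ w := by
      apply hinj
      have h2 : (((w / σ w : (𝓞 M)ˣ) : 𝓞 M) : M) = ((w : 𝓞 M) : M) / τ ((w : 𝓞 M) : M) := by
        rw [eq_div_iff hw0, ← hσ, hc, hc, hc, ← map_mul, div_mul_cancel]
      rw [h2]
      exact hw
    obtain ⟨w', hw'⟩ := Nc_mul σ u w k hN hk3 h1
    apply hu w' k hk0
    have hw0' : ((w' : 𝓞 M) : M) ≠ 0 := by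
      intro h0
      have h5 : (w' : 𝓞 M) = 0 := RingOfIntegers.ext h0
      exact w'.ne_zero h5
    have h2 : (((u * σ w' / w' : (𝓞 M)ˣ) : 𝓞 M) : M) =
        ((u : 𝓞 M) : M) * τ ((w' : 𝓞 M) : M) / ((w' : 𝓞 M) : M) := by
      rw [eq_div_iff hw0', ← hσ, hc, hc, hc, hc, ← map_mul, ← map_mul, div_mul_cancel]
    rw [← h2, hc, ← map_pow, hw', map_one]

end H38T6
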