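import Pool.Agent.H38.T6.Oa

/-!
Row Ob. (about 110 lines): the big field C when delta = -3 D: the residue degree at three is odd.
C/Q is Galois of degree 2 3^m and contains s_C with s_C^2 = -3 D, 3 does not divide D. W over 3: W(s_C)^2 = W(3) W(D) = W(3), so log W(3) = 2 log W(s_C) is even; e = -log W(3) is the ramification index and e f g = 2 3^m, so f divides 3^m, f is odd. The residue field has 3^f = 3 mod 4 elements and -1 is not a square: as in row Oa (copy its proof of no_sqrt for the field N).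
-/

set_option autoImplicit false
set_option linter.unusedSectionVars false
open scoped Classical

open IsDedekindDomain NumberField WithZero

namespace H38T6

/-- ramification index and residue degree at three in a Galois field -/
private theorem ob_efg {C : Type} [Field C] [NumberField C] [IsGalois ℚ C]
    (W : HeightOneSpectrum (𝓞 C)) (hW : (3 : 𝓞 C) ∈ W.asIdeal) :
    ∃ e f g : ℕ, g * (e * f) = Module.finrank ℚ C ∧ W.valuation C (3 : C) = exp (-(e : ℤ)) ∧
      Nat.card (𝓞 C ⧸ W.asIdeal) = 3 ^ f := by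
  have h3 : Prime (3 : ℤ) := Int.prime_three
  have hp : (Ideal.span {(3 : ℤ)}).IsPrime :=
    (Ideal.span_singleton_prime (by norm_num)).2 h3
  have hne : Ideal.span {(3 : ℤ)} ≠ ⊥ := by
    rw [Ne, Ideal.span_singleton_eq_bot]
    norm_num
  have hmax : (Ideal.span {(3 : ℤ)}).IsMaximal := hp.isMaximal hne
  let v : HeightOneSpectrum ℤ := ⟨Ideal.span {(3 : ℤ)}, hp, hne⟩
  have hWp : W.asIdeal.IsPrime := W.isPrime
  have hWm : W.asIdeal.IsMaximal := W.isMaximal
  have hlo : W.asIdeal.LiesOver v.asIdeal := by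
    constructor
    refine hmax.eq_of_le (Ideal.comap_isPrime _ _).ne_top ?_
    rw [Ideal.span_singleton_le_iff_mem, Ideal.mem_comap, map_ofNat]
    exact hW
  have hv : v.valuation ℚ (3 : ℚ) = exp (-1 : ℤ) := by
    have h : v.valuation ℚ (algebraMap ℤ ℚ 3) = v.intValuation 3 :=
      v.valuation_of_algebraMap (K := ℚ) (3 : ℤ)
    have h0 : algebraMap ℤ ℚ 3 = 3 := by norm_num
    rw [h0] at h
    rw [h]
    exact HeightOneSpectrum.intValuation_singleton v (by norm_num) rfl
  have h1 := HeightOneSpectrum.valuation_liesOver (K := ℚ) C v W (3 : ℚ)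
  rw [hv, map_ofNat, ← exp_nsmul] at h1
  have h2 := Ideal.ncard_primesOver_mul_ramificationIdxIn_mul_inertiaDegIn v.asIdeal (𝓞 C)
    Gal(C/ℚ)
  rw [Ideal.ramificationIdxIn_eq_ramificationIdx v.asIdeal W.asIdeal Gal(C/ℚ),
    Ideal.inertiaDegIn_eq_inertiaDeg v.asIdeal W.asIdeal Gal(C/ℚ),
    IsGaloisGroup.card_eq_finrank Gal(C/ℚ) ℚ C,
    ← Ideal.ramificationIdx'_eq_ramificationIdx v.asIdeal W.asIdeal hne,
    ← Ideal.inertiaDeg'_eq_inertiaDeg v.asIdeal W.asIdeal] at h2
  refine ⟨_, _, _, h2, ?_, ?_⟩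
  · rw [← h1]
    congr 1
    simp
  · have h3 := Ideal.absNorm_eq_pow_inertiaDeg' (p := 3) W.asIdeal Nat.prime_three
    rw [Ideal.absNorm_apply, Submodule.cardQuot_apply] at h3
    exact h3

theorem no_sqrt_big {m : ℕ} {D : ℤ} (hD : D % 3 = 2) {K N B C : Type} [Field K]
    [NumberField K] [Field N] [NumberField N] [Field B] [NumberField B] [Field C] [NumberField C]
    [Algebra K N] [Algebra K B] [Algebra K C] [Algebra N C] [Algebra B C] [IsScalarTower K N C]
    [IsScalarTower K B C] {s : B} {κ : C ≃ₐ[N] C} (T : Tow m (-3 * D) K N B C s κ)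
    (W : HeightOneSpectrum (𝓞 C)) (hW : (3 : 𝓞 C) ∈ W.asIdeal) (X : C) :
    1 ≤ W.valuation C (X ^ 2 + 1) := by
  have := T.galC
  obtain ⟨e, f, g, hefg, hW3, hcard⟩ := ob_efg W hW
  rw [T.degC] at hefg
  have hDW : W.valuation C ((D : ℤ) : C) = 1 := by
    have h1 : ((D : ℤ) : C) = algebraMap (𝓞 C) C ((D : ℤ) : 𝓞 C) := by rw [map_intCast]
    rw [h1, HeightOneSpectrum.valuation_of_algebraMap, HeightOneSpectrum.intValuation_eq_one_iff]
    intro hDm
    apply W.isPrime.ne_top
    rw [Ideal.eq_top_iff_one]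
    obtain ⟨k, hk⟩ : ∃ k : ℤ, D = 3 * k + 2 := ⟨D / 3, by omega⟩
    have h3 : (1 : 𝓞 C) = 3 * ((k + 1 : ℤ) : 𝓞 C) - ((D : ℤ) : 𝓞 C) := by
      rw [hk]
      push_cast
      ring
    rw [h3]
    exact Ideal.sub_mem _ (Ideal.mul_mem_right _ _ hW) hDm
  have hs : (algebraMap B C s) ^ 2 = -3 * ((D : ℤ) : C) := by
    rw [← map_pow, T.sq, map_intCast]
    push_cast
    ring
  have hs2 : W.valuation C (algebraMap B C s) ^ 2 = exp (-(e : ℤ)) := by
    rw [← map_pow, hs, map_mul, hDW, mul_one, Valuation.map_neg, hW3]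
  have hs0 : W.valuation C (algebraMap B C s) ≠ 0 := by
    intro h0
    rw [h0, zero_pow two_ne_zero] at hs2
    exact exp_ne_zero hs2.symm
  have heven : Even e := by
    rw [← exp_log hs0, ← exp_nsmul, exp_inj, nsmul_eq_mul] at hs2
    rw [← Int.even_coe_nat]
    exact ⟨-(log (W.valuation C (algebraMap B C s))), by push_cast at hs2; linarith⟩
  obtain ⟨e', he'⟩ := heven
  have hf : g * (e' * f) = 3 ^ m := by
    have h1 : 2 * (g * (e' * f)) = 2 * 3 ^ m := by
      rw [← hefg, he']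
      ring
    exact Nat.eq_of_mul_eq_mul_left two_pos h1
  have hfodd : Odd f := by
    have h1 : f ∣ 3 ^ m := ⟨g * e', by rw [← hf]; ring⟩
    exact Odd.of_dvd_nat (Odd.pow (by decide)) h1
  have hfin : Finite (𝓞 C ⧸ W.asIdeal) := by
    apply Nat.finite_of_card_ne_zero
    rw [hcard]
    positivity
  have hWm : W.asIdeal.IsMaximal := W.isMaximal
  letI : Field (𝓞 C ⧸ W.asIdeal) := Ideal.Quotient.field W.asIdeal
  letI : Fintype (𝓞 C ⧸ W.asIdeal) := Fintype.ofFinite _
  have hno : ¬ IsSquare (-1 : 𝓞 C ⧸ W.asIdeal) := by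
    rw [FiniteField.isSquare_neg_one_iff, ← Nat.card_eq_fintype_card, hcard]
    obtain ⟨j, rfl⟩ := hfodd
    have h1 : 3 ^ (2 * j + 1) % 4 = 3 := by
      rw [pow_succ, pow_mul, Nat.mul_mod, Nat.pow_mod]
      norm_num
    rw [h1]
    simp
  by_contra hcon
  rw [not_le] at hcon
  have hX : W.valuation C X ≤ 1 := by
    by_contra h1
    rw [not_le] at h1
    have h2 : W.valuation C (1 : C) < W.valuation C (X ^ 2) := by
      rw [map_one, map_pow]
      exact one_lt_pow₀ h1 two_ne_zero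
    rw [Valuation.map_add_eq_of_lt_left _ h2, map_pow] at hcon
    exact absurd hcon (not_lt.2 (one_le_pow₀ h1.le))
  obtain ⟨a, ha⟩ := W.exists_valuation_sub_lt_of_integer hX 1
  rw [Units.val_one] at ha
  have ha1 : W.valuation C (algebraMap (𝓞 C) C a) ≤ 1 := W.valuation_le_one a
  have h5 : W.valuation C (algebraMap (𝓞 C) C (a ^ 2 + 1)) < 1 := by
    have h6 : algebraMap (𝓞 C) C (a ^ 2 + 1) = (X ^ 2 + 1) +
        (algebraMap (𝓞 C) C a - X) * (algebraMap (𝓞 C) C a + X) := by
      rw [map_add, map_pow, map_one]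
      ring
    rw [h6]
    refine Valuation.map_add_lt _ hcon ?_
    rw [map_mul]
    refine mul_lt_one_of_lt_of_le ha ?_
    exact (Valuation.map_add _ _ _).trans (max_le ha1 hX)
  rw [HeightOneSpectrum.valuation_lt_one_iff_mem] at h5
  apply hno
  refine ⟨Ideal.Quotient.mk _ a, ?_⟩
  have h7 := Ideal.Quotient.eq_zero_iff_mem.2 h5
  rw [map_add, map_pow, map_one] at h7
  rw [← pow_two]
  exact (eq_neg_of_add_eq_zero_left h7).symm

end H38T6
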