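import Pool.Agent.H38.T6.Oa
import Pool.Agent.H38.T6.Oc
import Pool.Agent.H38.T6.Dc
import Pool.Agent.H55.T3.Vg

/-!
Row Va. (about 170 lines): the valuations of the classes are divisible by three at all places of B.
W a place of B, v, e from val_below (Oa). g = the automorphism of B/K with g s = -s (quad_ext in Dc; delta is not a square in K by no_sq_odd or by the valuations; it is given here as hypothesis hd2), d = x + y s, g d = x - y s, hJ: g d * d = r^3. So three_dvd_of_conj applies whenever W is conjugation stable (conj_ram, conj_inert).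
 Let l be the prime number in W (exists: norm / the characteristic of the residue field).
 Case l | D or (delta = -3 D and l = 3): delta = l * m' with m' an integer prime to l (D squarefree, 3 does not divide D as D % 3 = 2): v(delta) = v(l), log odd (odd_log), so V (u)^2 = v(u)^(2e) <> v(delta)^e (logs: 2 e log v(u) <> e log v(delta)): conj_ram.
 Case delta = D, l = 3: 3 does not divide D: W s = 1 (W(s)^2 = W(D) = 1: D is prime to 3); no_sqrt: 1 <= v(u^2 - D), so 1 <= W: conj_inert.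
 Otherwise l does not divide 3 D, so l <> 2 (D even) and l does not divide al.. : by bad, l divides neither be nor ga (ga = 27 be - 4 D al^3). vg (Vg.lean) with V := Valued.v on the completion at W (as in vg_place / Y2_place in Y2.lean; valued_algebraMap): V s = 1 (V(s)^2 = V(delta) = 1), V (6 al/3) = V (2 al) <= 1, and V (2 ga/9) = 1 (l divides none of 2, 3, ga) resp. V (2 be) = 1.
-/

set_option autoImplicit false
set_option linter.unusedSectionVars false
open scoped Classical

open WeierstrassCurve IsDedekindDomain NumberField WithZero Pool.Agent.H10 H55T3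

namespace H38T6

/-- a prime number below a nonzero integer of a place -/
private theorem Va_prime {C : Type} [Field C] [NumberField C] {D : ℤ} (hD : D ≠ 0)
    (v : HeightOneSpectrum (𝓞 C)) (hv : (D : 𝓞 C) ∈ v.asIdeal) :
    ∃ q : ℕ, q.Prime ∧ (q : ℤ) ∣ D ∧ (q : 𝓞 C) ∈ v.asIdeal := by
  have hD0 : D.natAbs ≠ 0 := Int.natAbs_ne_zero.mpr hD
  have hDv : (D.natAbs : 𝓞 C) ∈ v.asIdeal := by
    rcases Int.natAbs_eq D with h | h
    · rw [h, Int.cast_natCast] at hv
      exact hv
    · rw [h, Int.cast_neg, Int.cast_natCast] at hv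
      exact neg_mem_iff.mp hv
  have key : ∀ n : ℕ, n ≠ 0 → n ∣ D.natAbs → (n : 𝓞 C) ∈ v.asIdeal →
      ∃ q : ℕ, q.Prime ∧ q ∣ D.natAbs ∧ (q : 𝓞 C) ∈ v.asIdeal := by
    intro n
    induction n using Nat.recOnMul with
    | zero => intro h; exact absurd rfl h
    | one =>
      intro _ _ h
      rw [Nat.cast_one] at h
      exact absurd ((Ideal.eq_top_iff_one _).mpr h) v.isPrime.ne_top
    | prime q hq => intro _ h1 h2; exact ⟨q, hq, h1, h2⟩
    | mul a b iha ihb =>
      intro h0 h1 h2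
      rw [Nat.cast_mul] at h2
      rcases v.isPrime.mem_or_mem h2 with h | h
      · exact iha (left_ne_zero_of_mul h0) (dvd_of_mul_right_dvd h1) h
      · exact ihb (right_ne_zero_of_mul h0) (dvd_of_mul_left_dvd h1) h
  obtain ⟨q, hq, h1, h2⟩ := key _ hD0 dvd_rfl hDv
  exact ⟨q, hq, Int.natCast_dvd.2 h1, h2⟩

private lemma Va_mem_of_dvd {C : Type} [Field C] [NumberField C] (v : HeightOneSpectrum (𝓞 C))
    {a b : ℤ} (hab : a ∣ b) (ha : (a : 𝓞 C) ∈ v.asIdeal) : (b : 𝓞 C) ∈ v.asIdeal := by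
  obtain ⟨k, rfl⟩ := hab
  rw [Int.cast_mul]
  exact Ideal.mul_mem_right _ _ ha

private lemma Va_notMem {C : Type} [Field C] [NumberField C] (v : HeightOneSpectrum (𝓞 C)) {q : ℕ}
    (hq : q.Prime) (hqv : (q : 𝓞 C) ∈ v.asIdeal) {n : ℤ} (hn : ¬ (q : ℤ) ∣ n) :
    (n : 𝓞 C) ∉ v.asIdeal := by
  intro h
  have hc : IsCoprime (q : ℤ) n := (Nat.prime_iff_prime_int.1 hq).coprime_iff_not_dvd.2 hn
  obtain ⟨a, b, hab⟩ := hc
  apply v.isPrime.ne_top
  rw [Ideal.eq_top_iff_one]
  have e : (1 : 𝓞 C) = (a : 𝓞 C) * (q : 𝓞 C) + (b : 𝓞 C) * (n : 𝓞 C) := by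
    have := congrArg (Int.cast : ℤ → 𝓞 C) hab
    push_cast at this
    exact this.symm
  rw [e]
  exact Ideal.add_mem _ (Ideal.mul_mem_left _ _ hqv) (Ideal.mul_mem_left _ _ h)

private lemma Va_val_one {C : Type} [Field C] [NumberField C] (v : HeightOneSpectrum (𝓞 C)) {n : ℤ}
    (hn : (n : 𝓞 C) ∉ v.asIdeal) : v.valuation C (n : C) = 1 := by
  have h := (v.valuation_eq_one_iff_notMem (K := C)).2 hn
  rwa [map_intCast] at h

private lemma Va_val_le {C : Type} [Field C] [NumberField C] (v : HeightOneSpectrum (𝓞 C)) (n : ℤ) :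
    v.valuation C (n : C) ≤ 1 := by
  rw [← map_intCast (algebraMap (𝓞 C) C) n]
  exact v.valuation_le_one _

section

variable {K N B : Type} [Field K] [NumberField K] [Field N] [NumberField N] [Field B]
  [NumberField B] [Algebra K N] [Algebra K B] [IsGalois ℚ N] {s d : B}

private lemma Va_log (N : Type) [Field N] [NumberField N] [Algebra K N] [IsGalois ℚ N]
    (hodd : Odd (Module.finrank ℚ N)) {q : ℕ} (hq : q.Prime) (v : HeightOneSpectrum (𝓞 K))
    (hqv : (q : 𝓞 K) ∈ v.asIdeal) {m : ℤ} (hm : ¬ (q : ℤ) ∣ m) :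
    v.valuation K (((q : ℤ) * m : ℤ) : K) ≠ 0 ∧
      Odd (log (v.valuation K (((q : ℤ) * m : ℤ) : K))) := by
  have e : v.valuation K (((q : ℤ) * m : ℤ) : K) = v.valuation K (q : K) := by
    rw [Int.cast_mul, map_mul, Va_val_one v (Va_notMem v hq hqv hm), mul_one, Int.cast_natCast]
  rw [e]
  refine ⟨?_, odd_log (N := N) hodd hq v hqv⟩
  rw [Valuation.ne_zero_iff]
  exact_mod_cast hq.ne_zero

/-- conjugation stable places -/
private lemma Va_conj (h2 : Module.finrank K B = 2) {δ : K} (hδ : ∀ z : K, z ^ 2 ≠ δ)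
    (hs : s ^ 2 = algebraMap K B δ) (hd : d ≠ 0)
    (hJ : ∀ g : B ≃ₐ[K] B, g s = -s → ∃ y, g d * d = y ^ 3) (W : HeightOneSpectrum (𝓞 B))
    (hc : ∀ x y : K, W.valuation B (algebraMap K B x + algebraMap K B y * s) =
      W.valuation B (algebraMap K B x - algebraMap K B y * s)) :
    (3 : ℤ) ∣ log (W.valuation B d) := by
  obtain ⟨-, -, ⟨g, hg⟩, hspan⟩ := quad_ext h2 hδ hs
  obtain ⟨x, y, hxy⟩ := hspan d
  obtain ⟨z, hz⟩ := hJ g hg
  refine three_dvd_of_conj (W.valuation B) hd hz ?_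
  have e : g d = algebraMap K B x - algebraMap K B y * s := by
    rw [hxy, map_add, map_mul, g.commutes, g.commutes, hg]
    ring
  rw [e, ← hc, ← hxy]

private lemma Va_ram (h2 : Module.finrank K B = 2) {δ : K} (hδ : ∀ z : K, z ^ 2 ≠ δ)
    (hs : s ^ 2 = algebraMap K B δ) (hd : d ≠ 0)
    (hJ : ∀ g : B ≃ₐ[K] B, g s = -s → ∃ y, g d * d = y ^ 3) (W : HeightOneSpectrum (𝓞 B))
    (v : HeightOneSpectrum (𝓞 K)) {e : ℕ} (he : 1 ≤ e)
    (hval : ∀ x : K, W.valuation B (algebraMap K B x) = v.valuation K x ^ e)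
    (h0 : v.valuation K δ ≠ 0) (hl : Odd (log (v.valuation K δ))) :
    (3 : ℤ) ∣ log (W.valuation B d) := by
  refine Va_conj h2 hδ hs hd hJ W (conj_ram (W.valuation B) hs ?_)
  intro u hu
  rw [hval, hval] at hu
  by_cases hu0 : v.valuation K u = 0
  · rw [hu0, zero_pow (by omega), zero_pow (by norm_num)] at hu
    exact pow_ne_zero e h0 hu.symm
  · have h1 := congrArg log hu
    rw [log_pow, log_pow, log_pow] at h1
    simp only [nsmul_eq_mul] at h1
    push_cast at h1
    have he0 : (e : ℤ) ≠ 0 := by positivity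
    have h3 : (e : ℤ) * (2 * log (v.valuation K u)) = (e : ℤ) * log (v.valuation K δ) := by
      rw [← h1]; ring
    have h4 := mul_left_cancel₀ he0 h3
    rw [← h4] at hl
    exact (Int.not_odd_iff_even.2 (even_two_mul _)) hl

/-- good places -/
private lemma Va_good {a c : B} (W : HeightOneSpectrum (𝓞 B)) (hs : W.valuation B s = 1)
    (ha : W.valuation B (6 * a) ≤ 1) (hc : W.valuation B (2 * c) = 1) (hd : d ≠ 0)
    (hF : FinSol3 B s a c d) : (3 : ℤ) ∣ log (W.valuation B d) := by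
  rw [← valued_algebraMap W d]
  refine vg (V := Valued.v) ?_ ?_ ?_ ?_ (hF W)
  · rw [valued_algebraMap, hs]
  · have e : (6 : W.adicCompletion B) * algebraMap B (W.adicCompletion B) a =
        algebraMap B (W.adicCompletion B) (6 * a) := by
      rw [map_mul, map_ofNat]
    rw [e, valued_algebraMap]
    exact ha
  · have e : (2 : W.adicCompletion B) * algebraMap B (W.adicCompletion B) c =
        algebraMap B (W.adicCompletion B) (2 * c) := by
      rw [map_mul, map_ofNat]
    rw [e, valued_algebraMap]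
    exact hc
  · exact (map_ne_zero_iff _ (algebraMap B (W.adicCompletion B)).injective).2 hd

private lemma Va_sq {V : Valuation B (WithZero (Multiplicative ℤ))} {x : B} (h : V (x ^ 2) = 1) :
    V x = 1 := by
  rw [map_pow] at h
  rcases lt_trichotomy (V x) 1 with h1 | h1 | h1
  · exact absurd h (ne_of_lt (pow_lt_one₀ zero_le h1 two_ne_zero))
  · exact h1
  · exact absurd h (ne_of_gt (one_lt_pow₀ h1 two_ne_zero))

/-- the bad primes divide the discriminant -/
private lemma Va_gam {D α β : ℤ} (H : Dat D α β) (W : HeightOneSpectrum (𝓞 B))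
    (hW : (D : 𝓞 B) ∉ W.asIdeal) :
    (β : 𝓞 B) ∉ W.asIdeal ∧ ((27 * β - 4 * D * α ^ 3 : ℤ) : 𝓞 B) ∉ W.asIdeal := by
  have h3 : ¬ (3 : ℤ) ∣ D := by
    have := H.three
    omega
  constructor
  · intro h
    have h0 : β ≠ 0 := by
      rintro rfl
      exact H.hβ (dvd_zero _)
    obtain ⟨q, hq, hqd, hqW⟩ := Va_prime h0 W h
    apply hW
    exact Va_mem_of_dvd W (H.bad q hq (dvd_mul_of_dvd_left hqd _)) (by exact_mod_cast hqW)
  · intro h
    have h0 : 27 * β - 4 * D * α ^ 3 ≠ 0 := by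
      intro h0
      apply h3
      apply H.bad 3 Nat.prime_three
      rw [h0, mul_zero]
      exact dvd_zero _
    obtain ⟨q, hq, hqd, hqW⟩ := Va_prime h0 W h
    apply hW
    exact Va_mem_of_dvd W (H.bad q hq (dvd_mul_of_dvd_right hqd _)) (by exact_mod_cast hqW)

/-- `D` is squarefree -/
private lemma Va_sqf {D α β : ℤ} (H : Dat D α β) {q : ℕ} (hq : q.Prime) (hqD : (q : ℤ) ∣ D) :
    ∃ m : ℤ, D = q * m ∧ ¬ (q : ℤ) ∣ m := by
  obtain ⟨m, rfl⟩ := hqD
  refine ⟨m, rfl, ?_⟩
  rintro ⟨k, rfl⟩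
  have h1 := H.sqf (q : ℤ) ⟨k, by ring⟩
  have h2 : (q : ℕ) = 1 := by
    have := Int.isUnit_iff_natAbs_eq.1 h1
    simpa using this
  exact hq.one_lt.ne' h2

end

section

variable {K N B : Type} [Field K] [NumberField K] [Field N] [NumberField N] [Field B]
  [NumberField B] [Algebra K N] [Algebra K B] [IsGalois ℚ N] {D α β : ℤ} {s d : B}

theorem val_phi (hodd : Odd (Module.finrank ℚ N)) (H : Dat D α β) (h2 : Module.finrank K B = 2)
    (hd2 : ∀ z : K, z ^ 2 ≠ (-3 * (D : K))) (hs : s ^ 2 = (-3 * D : B)) (hd : d ≠ 0)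
    (hF : FinSol3 B s (algebraMap K B ((α : K) / 3))
      (algebraMap K B ((27 * (β : K) - 4 * (D : K) * (α : K) ^ 3) / 9)) d)
    (hJ : ∀ g : B ≃ₐ[K] B, g s = -s → ∃ y, g d * d = y ^ 3) (W : HeightOneSpectrum (𝓞 B)) :
    (3 : ℤ) ∣ log (W.valuation B d) := by
  obtain ⟨v, e, he, -, hval, hmem⟩ := val_below (K := K) W
  have hs' : s ^ 2 = algebraMap K B (-3 * (D : K)) := by
    rw [hs, map_mul, map_neg, map_ofNat, map_intCast]
  have hD0 : D ≠ 0 := by
    have := H.neg
    omega
  have h3D : ¬ (3 : ℤ) ∣ D := by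
    have := H.three
    omega
  by_cases h3 : ((3 * D : ℤ) : 𝓞 B) ∈ W.asIdeal
  · obtain ⟨q, hq, hqd, hqW⟩ := Va_prime (by omega) W h3
    have hqv : (q : 𝓞 K) ∈ v.asIdeal := by
      have := (hmem q).2 (by exact_mod_cast hqW)
      exact_mod_cast this
    obtain ⟨m, hm, hqm⟩ : ∃ m : ℤ, -3 * D = q * m ∧ ¬ (q : ℤ) ∣ m := by
      by_cases hq3 : q = 3
      · subst hq3
        refine ⟨-D, by push_cast; ring, ?_⟩
        rw [dvd_neg]
        exact_mod_cast h3D
      · have hqD : (q : ℤ) ∣ D := by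
          rcases (Nat.prime_iff_prime_int.1 hq).dvd_or_dvd hqd with h | h
          · exfalso
            apply hq3
            exact (Nat.prime_dvd_prime_iff_eq hq Nat.prime_three).1 (by exact_mod_cast h)
          · exact h
        obtain ⟨m, hm, hqm⟩ := Va_sqf H hq hqD
        refine ⟨-3 * m, by rw [hm]; ring, ?_⟩
        intro h
        rcases (Nat.prime_iff_prime_int.1 hq).dvd_or_dvd h with h | h
        · apply hq3
          rw [dvd_neg] at h
          exact (Nat.prime_dvd_prime_iff_eq hq Nat.prime_three).1 (by exact_mod_cast h)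
        · exact hqm h
    obtain ⟨h4, h5⟩ := Va_log N hodd hq v hqv hqm
    have e1 : (((q : ℤ) * m : ℤ) : K) = -3 * (D : K) := by
      rw [← hm]; push_cast; ring
    rw [e1] at h4 h5
    exact Va_ram h2 hd2 hs' hd hJ W v he hval h4 h5
  · have hDW : (D : 𝓞 B) ∉ W.asIdeal := fun h => h3 (Va_mem_of_dvd W (dvd_mul_left D 3) h)
    have h3W : ((3 : ℤ) : 𝓞 B) ∉ W.asIdeal := fun h => h3 (Va_mem_of_dvd W (dvd_mul_right 3 D) h)
    have h2W : ((2 : ℤ) : 𝓞 B) ∉ W.asIdeal := by
      intro h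
      apply hDW
      apply Va_mem_of_dvd W _ h
      have := H.even
      omega
    obtain ⟨-, hg⟩ := Va_gam H W hDW
    have v2 := Va_val_one W h2W
    have v3 := Va_val_one W h3W
    have vD := Va_val_one W hDW
    have vg := Va_val_one W hg
    refine Va_good W ?_ ?_ ?_ hd hF
    · apply Va_sq
      rw [hs, map_mul, vD, mul_one, Valuation.map_neg]
      exact_mod_cast v3
    · have e1 : (6 : B) * algebraMap K B ((α : K) / 3) = ((2 * α : ℤ) : B) := by
        rw [map_div₀, map_intCast, map_ofNat]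
        push_cast
        ring
      rw [e1]
      exact Va_val_le W _
    · have e1 : (2 : B) * algebraMap K B ((27 * (β : K) - 4 * (D : K) * (α : K) ^ 3) / 9) =
          ((2 : ℤ) : B) * ((27 * β - 4 * D * α ^ 3 : ℤ) : B) / (((3 : ℤ) : B) * ((3 : ℤ) : B)) := by
        have e2 : (27 * (β : K) - 4 * (D : K) * (α : K) ^ 3) / 9 =
            ((27 * β - 4 * D * α ^ 3 : ℤ) : K) / 9 := by push_cast; ring
        rw [e2, map_div₀, map_intCast, map_ofNat]
        have e3 : (((3 : ℤ) : B) * ((3 : ℤ) : B)) = 9 := by push_cast; norm_num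
        rw [e3]
        push_cast
        ring
      rw [e1, map_div₀, map_mul, map_mul, v2, v3, vg]
      simp

theorem val_dual (hodd : Odd (Module.finrank ℚ N)) (H : Dat D α β) (h2 : Module.finrank K B = 2)
    (hd2 : ∀ z : K, z ^ 2 ≠ (D : K)) (hs : s ^ 2 = (D : B)) (hd : d ≠ 0)
    (hF : FinSol3 B s (algebraMap K B ((α : K) / 3)) (algebraMap K B (β : K)) d)
    (hJ : ∀ g : B ≃ₐ[K] B, g s = -s → ∃ y, g d * d = y ^ 3) (W : HeightOneSpectrum (𝓞 B)) :
    (3 : ℤ) ∣ log (W.valuation B d) := by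
  obtain ⟨v, e, he, -, hval, hmem⟩ := val_below (K := K) W
  have hs' : s ^ 2 = algebraMap K B (D : K) := by
    rw [hs, map_intCast]
  have hD0 : D ≠ 0 := by
    have := H.neg
    omega
  have h3D : ¬ (3 : ℤ) ∣ D := by
    have := H.three
    omega
  by_cases h3 : ((3 * D : ℤ) : 𝓞 B) ∈ W.asIdeal
  · obtain ⟨q, hq, hqd, hqW⟩ := Va_prime (by omega) W h3
    have hqv : (q : 𝓞 K) ∈ v.asIdeal := by
      have := (hmem q).2 (by exact_mod_cast hqW)
      exact_mod_cast this
    by_cases hqD : (q : ℤ) ∣ D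
    · obtain ⟨m, hm, hqm⟩ := Va_sqf H hq hqD
      obtain ⟨h4, h5⟩ := Va_log N hodd hq v hqv hqm
      rw [← hm] at h4 h5
      exact Va_ram h2 hd2 hs' hd hJ W v he hval h4 h5
    · have hq3 : q = 3 := by
        rcases (Nat.prime_iff_prime_int.1 hq).dvd_or_dvd hqd with h | h
        · exact (Nat.prime_dvd_prime_iff_eq hq Nat.prime_three).1 (by exact_mod_cast h)
        · exact absurd h hqD
      subst hq3
      have hv3 : (3 : 𝓞 K) ∈ v.asIdeal := by exact_mod_cast hqv
      have hDW : (D : 𝓞 B) ∉ W.asIdeal := Va_notMem W hq hqW hqD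
      refine Va_conj h2 hd2 hs' hd hJ W (conj_inert (W.valuation B) hs' ?_ ?_)
      · apply Va_sq
        rw [hs]
        exact Va_val_one W hDW
      · intro u _
        rw [hval]
        exact one_le_pow₀ (no_sqrt (N := N) hodd H.three v hv3 u)
  · have hDW : (D : 𝓞 B) ∉ W.asIdeal := fun h => h3 (Va_mem_of_dvd W (dvd_mul_left D 3) h)
    have h2W : ((2 : ℤ) : 𝓞 B) ∉ W.asIdeal := by
      intro h
      apply hDW
      apply Va_mem_of_dvd W _ h
      have := H.even
      omega
    obtain ⟨hb, -⟩ := Va_gam H W hDW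
    have v2 := Va_val_one W h2W
    have vD := Va_val_one W hDW
    have vb := Va_val_one W hb
    refine Va_good W ?_ ?_ ?_ hd hF
    · apply Va_sq
      rw [hs]
      exact vD
    · have e1 : (6 : B) * algebraMap K B ((α : K) / 3) = ((2 * α : ℤ) : B) := by
        rw [map_div₀, map_intCast, map_ofNat]
        push_cast
        ring
      rw [e1]
      exact Va_val_le W _
    · have e1 : (2 : B) * algebraMap K B (β : K) = ((2 : ℤ) : B) * (β : B) := by
        rw [map_intCast]
        push_cast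
        ring
      rw [e1, map_mul, v2, vb, mul_one]

end

end H38T6
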